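import Pool.Agent.N276.SC.Stm

/-!
# SC/6: averaging ahead commutes with a step from a level behind (helper402)
-/

set_option autoImplicit false

open MeasureTheory ProbabilityTheory Filter Topology Set
open scoped ENNReal

namespace Pool.Agent.N276.SC

namespace CommAux

/-- the finite spanning family -/
noncomputable def spn {ι : Type*} (μ : Measure (ι → ℝ)) [IsProbabilityMeasure μ] :
    μ.FiniteSpanningSetsIn (squareCylinders fun _ : ι => {s : Set ℝ | MeasurableSet s}) where
  set := fun _ => univ
  set_mem := fun _ => ⟨∅, fun _ => univ, by simp, by simp⟩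
  finite := fun _ => by simp
  spanning := iUnion_const _

open Classical in
/-- coordinatewise exchange -/
noncomputable def exch {ι : Type*} (S : Set ι) (z : (ι → ℝ) × (ι → ℝ)) : (ι → ℝ) × (ι → ℝ) :=
  (fun e => if e ∈ S then z.2 e else z.1 e, fun e => if e ∈ S then z.1 e else z.2 e)

lemma measurable_exch {ι : Type*} (S : Set ι) : Measurable (exch S) := by
  refine Measurable.prodMk (measurable_pi_lambda _ fun e => ?_) (measurable_pi_lambda _ fun e => ?_)
  · by_cases h : e ∈ S
    · simp only [h, if_true]
      exact (measurable_pi_apply e).comp measurable_snd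
    · simp only [h, if_false]
      exact (measurable_pi_apply e).comp measurable_fst
  · by_cases h : e ∈ S
    · simp only [h, if_true]
      exact (measurable_pi_apply e).comp measurable_fst
    · simp only [h, if_false]
      exact (measurable_pi_apply e).comp measurable_snd

lemma exch_map {ι : Type*} (S : Set ι) (q : Measure ℝ) [IsProbabilityMeasure q] :
    ((Measure.infinitePi fun _ : ι => q).prod (Measure.infinitePi fun _ : ι => q)).map (exch S) =
      (Measure.infinitePi fun _ : ι => q).prod (Measure.infinitePi fun _ : ι => q) := by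
  classical
  symm
  refine Measure.prod_eq_generateFrom generateFrom_squareCylinders generateFrom_squareCylinders
    (isPiSystem_squareCylinders (fun _ => MeasurableSpace.isPiSystem_measurableSet) (by simp))
    (isPiSystem_squareCylinders (fun _ => MeasurableSpace.isPiSystem_measurableSet) (by simp))
    (spn _) (spn _) ?_
  rintro _ ⟨I, t1, ht1, rfl⟩ _ ⟨J, t2, ht2, rfl⟩
  simp only [mem_univ_pi, mem_ofPred_eq] at ht1 ht2
  set K := I ∪ J with hK
  set u1 : ι → Set ℝ := fun i => if i ∈ I then t1 i else univ with hu1
  set u2 : ι → Set ℝ := fun i => if i ∈ J then t2 i else univ with hu2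
  have hm1 : ∀ i, MeasurableSet (u1 i) := by
    intro i
    simp only [hu1]
    split_ifs
    · exact ht1 i
    · exact MeasurableSet.univ
  have hm2 : ∀ i, MeasurableSet (u2 i) := by
    intro i
    simp only [hu2]
    split_ifs
    · exact ht2 i
    · exact MeasurableSet.univ
  have e1 : (I : Set ι).pi t1 = (K : Set ι).pi u1 := by
    ext x
    simp only [Set.mem_pi, Finset.mem_coe, hu1, hK, Finset.mem_union]
    constructor
    · intro h i _
      by_cases hi : i ∈ I
      · simpa [hi] using h i hi
      · simp [hi]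
    · intro h i hi
      simpa [hi] using h i (Or.inl hi)
  have e2 : (J : Set ι).pi t2 = (K : Set ι).pi u2 := by
    ext x
    simp only [Set.mem_pi, Finset.mem_coe, hu2, hK, Finset.mem_union]
    constructor
    · intro h i _
      by_cases hi : i ∈ J
      · simpa [hi] using h i hi
      · simp [hi]
    · intro h i hi
      simpa [hi] using h i (Or.inr hi)
  rw [e1, e2]
  set v1 : ι → Set ℝ := fun i => if i ∈ S then u2 i else u1 i with hv1
  set v2 : ι → Set ℝ := fun i => if i ∈ S then u1 i else u2 i with hv2
  have hmv1 : ∀ i, MeasurableSet (v1 i) := by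
    intro i
    simp only [hv1]
    split_ifs
    · exact hm2 i
    · exact hm1 i
  have hmv2 : ∀ i, MeasurableSet (v2 i) := by
    intro i
    simp only [hv2]
    split_ifs
    · exact hm1 i
    · exact hm2 i
  have hpre : exch S ⁻¹' ((K : Set ι).pi u1 ×ˢ (K : Set ι).pi u2) =
      (K : Set ι).pi v1 ×ˢ (K : Set ι).pi v2 := by
    ext z
    simp only [mem_preimage, mem_prod, Set.mem_pi, exch, hv1, hv2]
    constructor
    · rintro ⟨h1, h2⟩
      refine ⟨fun i hi => ?_, fun i hi => ?_⟩
      · have h3 := h1 i hi
        have h4 := h2 i hi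
        by_cases hS : i ∈ S
        · simpa [hS] using h4
        · simpa [hS] using h3
      · have h3 := h1 i hi
        have h4 := h2 i hi
        by_cases hS : i ∈ S
        · simpa [hS] using h3
        · simpa [hS] using h4
    · rintro ⟨h1, h2⟩
      refine ⟨fun i hi => ?_, fun i hi => ?_⟩
      · have h3 := h1 i hi
        have h4 := h2 i hi
        by_cases hS : i ∈ S
        · simpa [hS] using h4
        · simpa [hS] using h3
      · have h3 := h1 i hi
        have h4 := h2 i hi
        by_cases hS : i ∈ S
        · simpa [hS] using h3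
        · simpa [hS] using h4
  rw [Measure.map_apply (measurable_exch S), hpre, Measure.prod_prod]
  · rw [Measure.infinitePi_pi _ (fun i _ => hmv1 i), Measure.infinitePi_pi _ (fun i _ => hmv2 i),
      Measure.infinitePi_pi _ (fun i _ => hm1 i), Measure.infinitePi_pi _ (fun i _ => hm2 i),
      ← Finset.prod_mul_distrib, ← Finset.prod_mul_distrib]
    refine Finset.prod_congr rfl fun i _ => ?_
    simp only [hv1, hv2]
    by_cases hS : i ∈ S
    · simp only [hS, if_true]
      rw [mul_comm]
    · simp only [hS, if_false]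
  · exact (MeasurableSet.pi K.countable_toSet fun i _ => hm1 i).prod
      (MeasurableSet.pi K.countable_toSet fun i _ => hm2 i)

/-- exchange in an iterated integral -/
lemma exch_lintegral {ι : Type*} (S : Set ι) (q : Measure ℝ) [IsProbabilityMeasure q]
    (K : (ι → ℝ) × (ι → ℝ) → ℝ≥0∞) (hK : Measurable K) :
    ∫⁻ V, ∫⁻ a, K (exch S (V, a)) ∂(Measure.infinitePi fun _ : ι => q)
        ∂(Measure.infinitePi fun _ : ι => q) =
      ∫⁻ V, ∫⁻ a, K (V, a) ∂(Measure.infinitePi fun _ : ι => q)
        ∂(Measure.infinitePi fun _ : ι => q) := by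
  rw [← lintegral_prod (fun z => K (exch S z)) (hK.comp (measurable_exch S)).aemeasurable,
    ← lintegral_prod K hK.aemeasurable]
  rw [← lintegral_map hK (measurable_exch S), exch_map]

variable {d : ℕ}

/-- iterated form of the integral over one step -/
lemma iter (p : Par) (nu : Measure (Edge d → Bool)) [IsProbabilityMeasure nu]
    [IsProbabilityMeasure (dirLaw d p.lam)] [IsProbabilityMeasure unif]
    [IsProbabilityMeasure (qE d p)] (G : (Edge d → ℝ) × Inn d → ℝ≥0∞) (hG : Measurable G) :
    ∫⁻ z, ∫⁻ a, G (a, z) ∂(qE d p) ∂(inn p nu) =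
      ∫⁻ r, ∫⁻ w, ∫⁻ V, ∫⁻ a, G (a, (r, V, w)) ∂(qE d p) ∂(qE d p)
        ∂((dirLaw d p.lam).prod unif) ∂nu := by
  unfold inn
  have h1 : Measurable fun z : Inn d => ∫⁻ a, G (a, z) ∂(qE d p) := hG.lintegral_prod_left'
  rw [lintegral_prod _ h1.aemeasurable]
  refine lintegral_congr fun r => ?_
  have h2 : Measurable fun y : (Edge d → ℝ) × Dir d × ℝ => ∫⁻ a, G (a, (r, y)) ∂(qE d p) :=
    h1.comp measurable_prodMk_left
  rw [lintegral_prod_symm _ h2.aemeasurable]

/-- the level of the edge examined is at most the level of the walk -/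
lemma edge_level (x : Site d) (δ : Dir d) : (edge x δ).1 0 ≤ x 0 := by
  unfold edge
  by_cases h : δ.2 = true
  · simp [h]
  · have h0 : (0 : ℤ) ≤ (Pi.single δ.1 1 : Site d) 0 := by
      rw [Pi.single_apply]
      split_ifs <;> simp
    rw [if_neg h, vec, if_neg h]
    show x 0 + -(Pi.single δ.1 1 : Site d) 0 ≤ x 0
    linarith

/-- the pointwise identity -/
lemma pointwise (p : Par) (l : ℤ) (s : State d) (hs : s.1 0 < l) (f : State d → ℝ≥0∞)
    (r : Edge d → Bool) (V a : Edge d → ℝ) (w : Dir d × ℝ) :
    f (step p (s.1, glue l s.2 a) (r, V, w)) =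
      f ((step p s (r, (exch {e | l ≤ e.1 0 ∧ r e = true} (V, a)).1, w)).1,
        glue l (upd s.2 (r, (exch {e | l ≤ e.1 0 ∧ r e = true} (V, a)).1, w))
          (exch {e | l ≤ e.1 0 ∧ r e = true} (V, a)).2) := by
  have h1 : upd (glue l s.2 a) (r, V, w) =
      glue l (upd s.2 (r, (exch {e | l ≤ e.1 0 ∧ r e = true} (V, a)).1, w))
          (exch {e | l ≤ e.1 0 ∧ r e = true} (V, a)).2 := by
    funext e
    simp only [upd, glue, exch, mem_ofPred_eq]
    by_cases he : e.1 0 < l
    · simp [he, not_le.2 he]
    · by_cases hr : r e = true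
      · simp [he, hr, not_lt.1 he]
      · simp [he, hr]
  have h2 : upd (glue l s.2 a) (r, V, w) (edge s.1 w.1) =
      upd s.2 (r, (exch {e | l ≤ e.1 0 ∧ r e = true} (V, a)).1, w) (edge s.1 w.1) := by
    have he : (edge s.1 w.1).1 0 < l := (edge_level s.1 w.1).trans_lt hs
    simp [upd, glue, exch, he, not_le.2 he]
  unfold step
  simp only
  rw [h2, h1]

end CommAux

open CommAux in
theorem comm : StmMeas → StmComm := by
  classical
  intro hM d p nu hnu l δ f hf s hs
  obtain ⟨hstep, -, -, -, -, hglue, hdir, hunif, hqE, -, hI⟩ := hM d p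
  obtain ⟨hinn, -, -⟩ := hI nu hnu
  have hDm : MeasurableSet {z : Inn d | z.2.2.1 = δ} := by
    have : Measurable fun z : Inn d => z.2.2.1 :=
      measurable_fst.comp (measurable_snd.comp measurable_snd)
    exact this (measurableSet_singleton δ)
  -- the two integrands
  set G : (Edge d → ℝ) × Inn d → ℝ≥0∞ := fun t =>
    if t.2.2.2.1 = δ then f (step p (s.1, glue l s.2 t.1) t.2) else 0 with hG
  set H : (Edge d → ℝ) × Inn d → ℝ≥0∞ := fun t =>
    if t.2.2.2.1 = δ then f ((step p s t.2).1, glue l (upd s.2 t.2) t.1) else 0 with hH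
  have hGm : Measurable G := by
    refine Measurable.ite (measurable_snd hDm) (hf.comp ?_) measurable_const
    have h1 : Measurable fun t : (Edge d → ℝ) × Inn d => ((s.1, glue l s.2 t.1), t.2) := by
      refine Measurable.prodMk (Measurable.prodMk measurable_const ?_) measurable_snd
      exact hglue l |>.comp (Measurable.prodMk measurable_const measurable_fst)
    exact hstep.comp h1
  have hst : Measurable fun t : (Edge d → ℝ) × Inn d => step p s t.2 :=
    hstep.comp (Measurable.prodMk measurable_const measurable_snd)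
  have hHm : Measurable H := by
    refine Measurable.ite (measurable_snd hDm) (hf.comp ?_) measurable_const
    refine Measurable.prodMk (measurable_fst.comp hst) ?_
    exact hglue l |>.comp (Measurable.prodMk (measurable_snd.comp hst) measurable_fst)
  have e1 : ∫⁻ a, ∫⁻ z, (if z.2.2.1 = δ then f (step p (s.1, glue l s.2 a) z) else 0)
      ∂(inn p nu) ∂(qE d p) = ∫⁻ z, ∫⁻ a, G (a, z) ∂(qE d p) ∂(inn p nu) := by
    exact lintegral_lintegral_swap (f := fun a z => G (a, z)) hGm.aemeasurable
  have e2 : ∫⁻ z, (if z.2.2.1 = δ then Av p l f (step p s z) else 0) ∂(inn p nu) =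
      ∫⁻ z, ∫⁻ a, H (a, z) ∂(qE d p) ∂(inn p nu) := by
    refine lintegral_congr fun z => ?_
    by_cases hz : z.2.2.1 = δ
    · simp only [hz, if_true, hH, Av]
      rfl
    · simp [hz, hH]
  have key : ∫⁻ z, ∫⁻ a, G (a, z) ∂(qE d p) ∂(inn p nu) =
      ∫⁻ z, ∫⁻ a, H (a, z) ∂(qE d p) ∂(inn p nu) := by
    rw [iter p nu G hGm, iter p nu H hHm]
    refine lintegral_congr fun r => lintegral_congr fun w => ?_
    have h3 := exch_lintegral {e : Edge d | l ≤ e.1 0 ∧ r e = true} p.q
      (fun t => H (t.2, (r, t.1, w))) (hHm.comp (Measurable.prodMk measurable_snd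
        (Measurable.prodMk measurable_const (Measurable.prodMk measurable_fst measurable_const))))
    refine Eq.trans ?_ h3
    refine lintegral_congr fun V => lintegral_congr fun a => ?_
    simp only [hG, hH]
    by_cases hw : w.1 = δ
    · simp only [hw, if_true]
      exact pointwise p l s hs f r V a w
    · simp only [hw, if_false]
  rw [← key, ← e1] at e2
  convert e2.symm using 4

end Pool.Agent.N276.SC
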