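import Pool.Agent.N276.SC.Stm

/-!
# Continuity of the mean hitting times at the static case
-/

set_option autoImplicit false

open MeasureTheory ProbabilityTheory Filter Topology Set
open scoped ENNReal

namespace Pool.Agent.N276.SC.ContAux

variable {d : ℕ}

theorem repl_meas {A B : Type*} [MeasurableSpace A] [MeasurableSpace B] (j : ℕ) :
    Measurable (fun (u : (ℕ → A × B) × A) (i : ℕ) => if i = j then (u.2, (u.1 i).2) else u.1 i) := by
  rw [measurable_pi_iff]
  intro i
  by_cases h : i = j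
  · simp only [h, if_true]
    fun_prop
  · simp only [h, if_false]
    fun_prop

/-- the first component at the time `j` may be replaced by an independent copy -/
theorem repl_map {A B : Type*} [MeasurableSpace A] [MeasurableSpace B] (nu : Measure A) (ρ : Measure B)
    [IsProbabilityMeasure nu] [IsProbabilityMeasure ρ] (j : ℕ) :
    ((Measure.infinitePi fun _ : ℕ => nu.prod ρ).prod nu).map
      (fun u (i : ℕ) => if i = j then (u.2, (u.1 i).2) else u.1 i) =
    Measure.infinitePi fun _ : ℕ => nu.prod ρ := by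
  apply Measure.eq_infinitePi
  intro s t ht
  have hm := repl_meas (A := A) (B := B) j
  have hst : MeasurableSet (Set.pi (s : Set ℕ) t) := MeasurableSet.pi s.countable_toSet fun i _ => ht i
  rw [Measure.map_apply hm hst, Measure.prod_apply_symm (hm hst)]
  have h1 : ∀ r : A, (fun ζ : ℕ → A × B => (ζ, r)) ⁻¹'
      ((fun (u : (ℕ → A × B) × A) (i : ℕ) => if i = j then (u.2, (u.1 i).2) else u.1 i) ⁻¹' Set.pi (s : Set ℕ) t) =
      Set.pi (s : Set ℕ) (fun i => if i = j then {z : A × B | (r, z.2) ∈ t i} else t i) := by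
    intro r
    ext ζ
    simp only [Set.mem_preimage, Set.mem_pi]
    refine forall_congr' fun i => forall_congr' fun _ => ?_
    by_cases h : i = j
    · simp [h]
    · simp [h]
  have hms : ∀ (r : A) (i : ℕ), MeasurableSet {z : A × B | (r, z.2) ∈ t i} := by
    intro r i
    have : Measurable (fun z : A × B => ((r, z.2) : A × B)) := by fun_prop
    exact this (ht i)
  have h2 : ∀ r : A, (Measure.infinitePi fun _ : ℕ => nu.prod ρ) ((fun ζ : ℕ → A × B => (ζ, r)) ⁻¹'
      ((fun (u : (ℕ → A × B) × A) (i : ℕ) => if i = j then (u.2, (u.1 i).2) else u.1 i) ⁻¹' Set.pi (s : Set ℕ) t)) =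
      ∏ i ∈ s, (if i = j then ρ (Prod.mk r ⁻¹' t i) else (nu.prod ρ) (t i)) := by
    intro r
    rw [h1, Measure.infinitePi_pi]
    · apply Finset.prod_congr rfl
      intro i _
      by_cases h : i = j
      · rw [if_pos h, if_pos h]
        have e1 : {z : A × B | (r, z.2) ∈ t i} = Set.univ ×ˢ (Prod.mk r ⁻¹' t i) := by
          ext z
          simp
        rw [e1, Measure.prod_prod, measure_univ, one_mul]
      · rw [if_neg h, if_neg h]
    · intro i _
      by_cases h : i = j
      · rw [if_pos h]; exact hms r i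
      · rw [if_neg h]; exact ht i
  simp only [h2]
  by_cases hj : j ∈ s
  · have h3 : ∀ r : A, ∏ i ∈ s, (if i = j then ρ (Prod.mk r ⁻¹' t i) else (nu.prod ρ) (t i)) =
        (∏ i ∈ s.erase j, (nu.prod ρ) (t i)) * ρ (Prod.mk r ⁻¹' t j) := by
      intro r
      rw [← Finset.prod_erase_mul s _ hj, if_pos rfl]
      congr 1
      apply Finset.prod_congr rfl
      intro i hi
      rw [if_neg (Finset.ne_of_mem_erase hi)]
    simp only [h3]
    rw [lintegral_const_mul _ (measurable_measure_prodMk_left (ht j)), ← Measure.prod_apply (ht j),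
      Finset.prod_erase_mul s _ hj]
  · have h3 : ∀ r : A, ∏ i ∈ s, (if i = j then ρ (Prod.mk r ⁻¹' t i) else (nu.prod ρ) (t i)) =
        ∏ i ∈ s, (nu.prod ρ) (t i) := by
      intro r
      apply Finset.prod_congr rfl
      intro i hi
      rw [if_neg (fun h => hj (by rw [← h]; exact hi))]
    simp only [h3]
    rw [lintegral_const, measure_univ, mul_one]

/-- the refreshed edges at the time `j` are independent of the second components -/
theorem prob_le {B E : Type*} [MeasurableSpace B] [MeasurableSpace E] [Countable E] [MeasurableSingletonClass E]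
    (nu : Measure (E → Bool)) (ρ : Measure B) [IsProbabilityMeasure nu] [IsProbabilityMeasure ρ] (j : ℕ)
    (G : (ℕ → B) → E) (hG : Measurable G) (ε : ℝ≥0∞) (hε : ∀ e, nu {r | r e = true} ≤ ε) :
    (Measure.infinitePi fun _ : ℕ => nu.prod ρ) {ζ | (ζ j).1 (G fun i => (ζ i).2) = true} ≤ ε := by
  have hG2 : Measurable fun ζ : ℕ → (E → Bool) × B => G fun i => (ζ i).2 := hG.comp (by fun_prop)
  have hS : MeasurableSet {ζ : ℕ → (E → Bool) × B | (ζ j).1 (G fun i => (ζ i).2) = true} := by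
    have e1 : {ζ : ℕ → (E → Bool) × B | (ζ j).1 (G fun i => (ζ i).2) = true} =
        ⋃ e : E, ({ζ : ℕ → (E → Bool) × B | G (fun i => (ζ i).2) = e} ∩ {ζ | (ζ j).1 e = true}) := by
      ext ζ
      simp
    rw [e1]
    apply MeasurableSet.iUnion
    intro e
    apply MeasurableSet.inter
    · exact hG2 (measurableSet_singleton e)
    · have : Measurable fun ζ : ℕ → (E → Bool) × B => (ζ j).1 e := by fun_prop
      exact this (measurableSet_singleton true)
  have hm := repl_meas (A := E → Bool) (B := B) j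
  rw [← repl_map nu ρ j, Measure.map_apply hm hS, Measure.prod_apply (hm hS)]
  calc _ ≤ ∫⁻ _ζ, ε ∂(Measure.infinitePi fun _ : ℕ => nu.prod ρ) := by
        apply lintegral_mono
        intro ζ
        refine le_trans (le_of_eq ?_) (hε (G fun i => (ζ i).2))
        beta_reduce
        congr 1
        ext r
        simp only [Set.mem_preimage, Set.mem_ofPred_eq, if_true]
        have e2 : (fun i : ℕ => (if i = j then (r, (ζ i).2) else ζ i).2) = fun i => (ζ i).2 := by
          funext i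
          by_cases h : i = j
          · rw [if_pos h]
          · rw [if_neg h]
        rw [e2]
    _ = ε := by rw [lintegral_const, measure_univ, mul_one]

/-- no edge is refreshed -/
def Z0 (ζ : ℕ → Inn d) : ℕ → Inn d := fun i => (fun _ => false, (ζ i).2)

theorem Z0_meas : Measurable (Z0 : (ℕ → Inn d) → ℕ → Inn d) := by
  unfold Z0
  fun_prop

theorem chain0 (p : Par) (s : State d) (ζ : ℕ → Inn d) (m : ℕ) : (chain p s (Z0 ζ) m).2 = s.2 := by
  induction m with
  | zero => rfl
  | succ m ih =>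
    show upd (chain p s (Z0 ζ) m).2 (Z0 ζ m) = s.2
    rw [ih]
    funext e
    unfold upd Z0
    simp

theorem chain1 (p : Par) (s : State d) (ζ : ℕ → Inn d) (m : ℕ) (e : Edge d) (h : ∀ j < m, (ζ j).1 e = false) :
    (chain p s ζ m).2 e = s.2 e := by
  induction m with
  | zero => rfl
  | succ m ih =>
    show upd (chain p s ζ m).2 (ζ m) e = s.2 e
    unfold upd
    rw [h m (Nat.lt_succ_self m), if_neg (by simp), ih fun j hj => h j (by omega)]

theorem compare (p : Par) (s : State d) (ζ : ℕ → Inn d) (n : ℕ)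
    (h : ∀ k < n, ∀ j < n, (ζ j).1 (edge (pth p s (Z0 ζ) k) (ζ k).2.2.1) = false) :
    ∀ m ≤ n, pth p s ζ m = pth p s (Z0 ζ) m := by
  intro m
  induction m with
  | zero => intro _; rfl
  | succ m ih =>
    intro hm
    have h1 := ih (by omega)
    obtain ⟨e, he⟩ : ∃ e, e = edge (pth p s (Z0 ζ) m) (ζ m).2.2.1 := ⟨_, rfl⟩
    have h2 : ∀ j < n, (ζ j).1 e = false := fun j hj => he ▸ h m (by omega) j hj
    have h3 : upd (chain p s ζ m).2 (ζ m) e = s.2 e := by
      unfold upd
      rw [h2 m (by omega), if_neg (by simp), chain1 p s ζ m e fun j hj => h2 j (by omega)]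
    have h4 : upd (chain p s (Z0 ζ) m).2 (Z0 ζ m) e = s.2 e := by
      rw [chain0]
      unfold upd Z0
      simp
    have h5 : (chain p s ζ m).1 = pth p s (Z0 ζ) m := h1
    have h6 : (chain p s (Z0 ζ) m).1 = pth p s (Z0 ζ) m := rfl
    show (if (ζ m).2.2.2 < tr p (upd (chain p s ζ m).2 (ζ m) (edge (chain p s ζ m).1 (ζ m).2.2.1)) / (2 * p.kap)
      then (chain p s ζ m).1 + vec (ζ m).2.2.1 else (chain p s ζ m).1) =
      (if (ζ m).2.2.2 < tr p (upd (chain p s (Z0 ζ) m).2 (Z0 ζ m) (edge (chain p s (Z0 ζ) m).1 (ζ m).2.2.1)) / (2 * p.kap)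
      then (chain p s (Z0 ζ) m).1 + vec (ζ m).2.2.1 else (chain p s (Z0 ζ) m).1)
    rw [h5, h6, ← he, h3, h4]

/-- the walk stays below `l` up to the time `n` -/
def Ev (p : Par) (s : State d) (l : ℤ) (n : ℕ) : Set (ℕ → Inn d) := {ζ | ∀ k ≤ n, pth p s ζ k 0 < l}

theorem pth_meas (hM : StmMeas) (p : Par) (s : State d) (k : ℕ) : Measurable fun ζ : ℕ → Inn d => pth p s ζ k := by
  have h1 := ((hM d p).2.1 k).comp (measurable_prodMk_left (x := s))
  exact measurable_fst.comp h1

theorem Ev_meas (hM : StmMeas) (p : Par) (s : State d) (l : ℤ) (n : ℕ) : MeasurableSet (Ev p s l n) := by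
  have e1 : Ev p s l n = ⋂ k : ℕ, ⋂ _ : k ≤ n, {ζ | pth p s ζ k 0 < l} := by
    ext ζ
    simp [Ev]
  rw [e1]
  refine MeasurableSet.iInter fun k => MeasurableSet.iInter fun _ => ?_
  exact pth_meas hM p s k (MeasurableSet.of_discrete (s := {x : Site d | x 0 < l}))

theorem mt_eq (hM : StmMeas) (p : Par) (nu : Measure (Edge d → Bool)) (l : ℤ) (s : State d) :
    mt p nu l s = ∑' n : ℕ, (PP p nu) (Ev p s l n) := by
  unfold mt tau
  rw [lintegral_tsum]
  · apply tsum_congr
    intro n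
    rw [← lintegral_indicator_one (Ev_meas hM p s l n)]
    apply lintegral_congr
    intro ζ
    by_cases h : ∀ k ≤ n, pth p s ζ k 0 < l
    · rw [if_pos h, Set.indicator_of_mem (show ζ ∈ Ev p s l n from h)]
      rfl
    · rw [if_neg h, Set.indicator_of_notMem (show ζ ∉ Ev p s l n from h)]
  · intro n
    apply Measurable.aemeasurable
    have e1 : (fun ζ : ℕ → Inn d => (if (∀ k ≤ n, pth p s ζ k 0 < l) then 1 else 0 : ℝ≥0∞)) =
        (Ev p s l n).indicator 1 := by
      funext ζ
      by_cases h : ∀ k ≤ n, pth p s ζ k 0 < l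
      · rw [if_pos h, Set.indicator_of_mem (show ζ ∈ Ev p s l n from h)]
        rfl
      · rw [if_neg h, Set.indicator_of_notMem (show ζ ∉ Ev p s l n from h)]
    have e2 : Measurable (fun ζ : ℕ → Inn d => (if (∀ k ≤ n, pth p s ζ k 0 < l) then 1 else 0 : ℝ≥0∞)) := by
      rw [e1]
      exact measurable_one.indicator (Ev_meas hM p s l n)
    convert e2

theorem PP0_eq (hM : StmMeas) (p : Par) (nu : Measure (Edge d → Bool)) [IsProbabilityMeasure nu] :
    (PP p nu).map Z0 = PP p (nu0 d) := by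
  obtain ⟨-, -, -, -, -, -, i1, i2, i3, -, -⟩ := hM d p
  have : IsProbabilityMeasure (inn p nu) := by unfold inn; infer_instance
  have h1 := Measure.infinitePi_map_pi (fun _ : ℕ => inn p nu)
    (f := fun _ (z : Inn d) => ((fun _ => false, z.2) : Inn d)) (fun _ => by fun_prop)
  have h2 : (inn p nu).map (fun z : Inn d => ((fun _ => false, z.2) : Inn d)) = inn p (nu0 d) := by
    unfold inn nu0
    have h3 := Measure.map_prod_map nu ((qE d p).prod ((dirLaw d p.lam).prod unif))
      (f := fun _ : Edge d → Bool => (fun _ : Edge d => false)) (g := id) measurable_const measurable_id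
    rw [Measure.map_const, measure_univ, one_smul, Measure.map_id] at h3
    rw [h3]
    rfl
  rw [h2] at h1
  exact h1

theorem bad_le (hM : StmMeas) (p : Par) (nu : Measure (Edge d → Bool)) [IsProbabilityMeasure nu] (s : State d)
    (ε : ℝ≥0∞) (hε : ∀ e, nu {r | r e = true} ≤ ε) (k j : ℕ) :
    (PP p nu) {ζ | (ζ j).1 (edge (pth p s (Z0 ζ) k) (ζ k).2.2.1) = true} ≤ ε := by
  obtain ⟨-, -, -, -, -, -, i1, i2, i3, -, -⟩ := hM d p
  have hG : Measurable (fun y : ℕ → (Edge d → ℝ) × Dir d × ℝ =>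
      edge (pth p s (fun i => ((fun _ => false, y i) : Inn d)) k) (y k).2.1) := by
    have h1 : Measurable (fun y : ℕ → (Edge d → ℝ) × Dir d × ℝ =>
        (pth p s (fun i => ((fun _ => false, y i) : Inn d)) k, (y k).2.1)) := by
      apply Measurable.prodMk
      · exact (pth_meas hM p s k).comp (by fun_prop)
      · fun_prop
    exact (Measurable.of_discrete (f := fun u : Site d × Dir d => edge u.1 u.2)).comp h1
  exact prob_le nu ((qE d p).prod ((dirLaw d p.lam).prod unif)) j _ hG ε hε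

theorem diff_le (hM : StmMeas) (p : Par) (nu : Measure (Edge d → Bool)) [IsProbabilityMeasure nu] (s : State d)
    (ε : ℝ≥0∞) (hε : ∀ e, nu {r | r e = true} ≤ ε) (l : ℤ) (n : ℕ) :
    (PP p nu) (Ev p s l n) ≤ (PP p (nu0 d)) (Ev p s l n) + n * n * ε ∧
    (PP p (nu0 d)) (Ev p s l n) ≤ (PP p nu) (Ev p s l n) + n * n * ε := by
  obtain ⟨Bad, hBad⟩ : ∃ Bad : Set (ℕ → Inn d), Bad = ⋃ k ∈ Finset.range n, ⋃ j ∈ Finset.range n,
    {ζ | (ζ j).1 (edge (pth p s (Z0 ζ) k) (ζ k).2.2.1) = true} := ⟨_, rfl⟩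
  have hB : (PP p nu) Bad ≤ n * n * ε := by
    rw [hBad]
    refine (measure_biUnion_finset_le _ _).trans ?_
    calc _ ≤ ∑ _k ∈ Finset.range n, ∑ _j ∈ Finset.range n, ε := by
          apply Finset.sum_le_sum
          intro k _
          refine (measure_biUnion_finset_le _ _).trans ?_
          exact Finset.sum_le_sum fun j _ => bad_le hM p nu s ε hε k j
      _ = _ := by
          simp [mul_assoc]
  have hcmp : ∀ ζ, ζ ∉ Bad → ∀ m ≤ n, pth p s ζ m = pth p s (Z0 ζ) m := by
    intro ζ hζ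
    apply compare
    intro k hk j hj
    by_contra hcon
    rw [Bool.not_eq_false] at hcon
    apply hζ
    rw [hBad]
    simp only [Set.mem_iUnion, Finset.mem_range]
    exact ⟨k, hk, j, hj, hcon⟩
  have h0 : (PP p (nu0 d)) (Ev p s l n) = (PP p nu) (Z0 ⁻¹' Ev p s l n) := by
    rw [← PP0_eq hM p nu, Measure.map_apply Z0_meas (Ev_meas hM p s l n)]
  rw [h0]
  constructor
  · refine le_trans (measure_mono ?_) ((measure_union_le _ Bad).trans (add_le_add le_rfl hB))
    intro ζ hζ
    by_cases hb : ζ ∈ Bad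
    · exact Or.inr hb
    · left
      intro k hk
      rw [← hcmp ζ hb k hk]
      exact hζ k hk
  · refine le_trans (measure_mono ?_) ((measure_union_le _ Bad).trans (add_le_add le_rfl hB))
    intro ζ hζ
    by_cases hb : ζ ∈ Bad
    · exact Or.inr hb
    · left
      intro k hk
      rw [hcmp ζ hb k hk]
      exact hζ k hk

/-- the uniform estimate of the mean hitting times -/
theorem mt_close (hM : StmMeas) (hD : StmDriftC) (d : ℕ) (p : Par) (L : ℕ) (η : ℝ) (hη : 0 < η) :
    ∃ ε : ℝ, 0 < ε ∧ ∀ (nu : Measure (Edge d → Bool)), IsProbabilityMeasure nu →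
      (∀ e, nu {r | r e = true} ≤ ENNReal.ofReal ε) → ∀ s : State d,
      mt p nu (s.1 0 + L) s ≤ mt p (nu0 d) (s.1 0 + L) s + ENNReal.ofReal η ∧
      mt p (nu0 d) (s.1 0 + L) s ≤ mt p nu (s.1 0 + L) s + ENNReal.ofReal η := by
  obtain ⟨b, C, ρ, hb, hC, hρ0, hρ1, hdrift⟩ := hD d p
  obtain ⟨r, hr⟩ : ∃ r : ℝ, r = √ρ := ⟨_, rfl⟩
  have hr0 : 0 < r := by rw [hr]; exact Real.sqrt_pos.2 hρ0
  have hrr : r ^ 2 = ρ := by rw [hr]; exact Real.sq_sqrt hρ0.le
  have hr1 : r < 1 := by
    rw [hr, Real.sqrt_lt' one_pos, one_pow]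
    exact hρ1
  obtain ⟨δ, hδ⟩ : ∃ δ : ℝ, δ = η * (1 - r) := ⟨_, rfl⟩
  have hδ0 : 0 < δ := by rw [hδ]; exact mul_pos hη (by linarith)
  obtain ⟨N₁, hN₁⟩ := exists_pow_lt_of_lt_one (div_pos hδ0 hC) hr1
  obtain ⟨N₂, hN₂⟩ := exists_nat_ge ((L : ℝ) / b)
  obtain ⟨N, hN⟩ : ∃ N, N = max N₁ N₂ := ⟨_, rfl⟩
  have hNC : C * r ^ N ≤ δ := by
    have h1 : r ^ N ≤ r ^ N₁ := pow_le_pow_of_le_one hr0.le hr1.le (by rw [hN]; exact le_max_left _ _)
    have h2 : r ^ N ≤ δ / C := h1.trans hN₁.le
    rw [le_div_iff₀ hC] at h2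
    linarith
  have hNL : ∀ n, N ≤ n → (L : ℝ) ≤ b * n := by
    intro n hn
    have h1 : (N₂ : ℝ) ≤ n := by
      have : N₂ ≤ n := le_trans (by rw [hN]; exact le_max_right _ _) hn
      exact_mod_cast this
    have h2 := hN₂.trans h1
    rw [div_le_iff₀ hb] at h2
    linarith
  refine ⟨δ * r ^ N / (N + 1) ^ 2, by positivity, fun nu hnu hε s => ?_⟩
  have key : ∀ n : ℕ, (PP p nu) (Ev p s (s.1 0 + L) n) ≤
      (PP p (nu0 d)) (Ev p s (s.1 0 + L) n) + ENNReal.ofReal (δ * r ^ n) ∧
      (PP p (nu0 d)) (Ev p s (s.1 0 + L) n) ≤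
      (PP p nu) (Ev p s (s.1 0 + L) n) + ENNReal.ofReal (δ * r ^ n) := by
    intro n
    rcases lt_or_ge n N with hn | hn
    · obtain ⟨h1, h2⟩ := diff_le hM p nu s _ hε (s.1 0 + L) n
      have h3 : (n : ℝ≥0∞) * n * ENNReal.ofReal (δ * r ^ N / (N + 1) ^ 2) ≤ ENNReal.ofReal (δ * r ^ n) := by
        have e1 : (n : ℝ≥0∞) * n = ENNReal.ofReal ((n : ℝ) * n) := by
          rw [ENNReal.ofReal_mul (Nat.cast_nonneg n), ENNReal.ofReal_natCast]
        rw [e1, ← ENNReal.ofReal_mul (by positivity)]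
        apply ENNReal.ofReal_le_ofReal
        have e2 : r ^ N ≤ r ^ n := pow_le_pow_of_le_one hr0.le hr1.le hn.le
        have e3 : (n : ℝ) ≤ N := by exact_mod_cast hn.le
        have e4 : (n : ℝ) * n / (N + 1) ^ 2 ≤ 1 := by
          rw [div_le_one (by positivity)]
          nlinarith [(Nat.cast_nonneg n : (0 : ℝ) ≤ n)]
        calc (n : ℝ) * n * (δ * r ^ N / (N + 1) ^ 2) = (n : ℝ) * n / (N + 1) ^ 2 * (δ * r ^ N) := by ring
          _ ≤ 1 * (δ * r ^ N) := mul_le_mul_of_nonneg_right e4 (by positivity)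
          _ ≤ δ * r ^ n := by
              rw [one_mul]
              exact mul_le_mul_of_nonneg_left e2 hδ0.le
      exact ⟨h1.trans (add_le_add le_rfl h3), h2.trans (add_le_add le_rfl h3)⟩
    · have h1 : ∀ nu' : Measure (Edge d → Bool), IsProbabilityMeasure nu' →
          (PP p nu') (Ev p s (s.1 0 + L) n) ≤ ENNReal.ofReal (δ * r ^ n) := by
        intro nu' hnu'
        refine le_trans (measure_mono ?_) ((hdrift nu' hnu' s n).trans (ENNReal.ofReal_le_ofReal ?_))
        · intro ζ hζ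
          have h2 : pth p s ζ n 0 < s.1 0 + L := hζ n le_rfl
          have h3 : ((pth p s ζ n 0 : ℤ) : ℝ) < s.1 0 + L := by exact_mod_cast h2
          have h4 := hNL n hn
          show ((pth p s ζ n 0 : ℤ) : ℝ) ≤ s.1 0 + b * n
          linarith
        · have h2 : r ^ n ≤ r ^ N := pow_le_pow_of_le_one hr0.le hr1.le hn
          have h3 : ρ ^ n = r ^ n * r ^ n := by rw [← hrr, ← pow_mul, mul_comm 2 n, pow_mul, sq]
          rw [h3, ← mul_assoc]
          apply mul_le_mul_of_nonneg_right _ (by positivity)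
          exact (mul_le_mul_of_nonneg_left h2 hC.le).trans hNC
      have i0 : IsProbabilityMeasure (nu0 d) := by unfold nu0; infer_instance
      exact ⟨(h1 nu hnu).trans le_add_self, (h1 (nu0 d) i0).trans le_add_self⟩
  have hsum : ∑' n : ℕ, ENNReal.ofReal (δ * r ^ n) = ENNReal.ofReal η := by
    rw [← ENNReal.ofReal_tsum_of_nonneg (fun n => by positivity) ((summable_geometric_of_lt_one hr0.le hr1).mul_left δ),
      tsum_mul_left, tsum_geometric_of_lt_one hr0.le hr1, hδ]
    congr 1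
    have : 1 - r ≠ 0 := by linarith
    field_simp
  rw [mt_eq hM, mt_eq hM, ← hsum, ← ENNReal.tsum_add, ← ENNReal.tsum_add]
  exact ⟨ENNReal.tsum_le_tsum fun n => (key n).1, ENNReal.tsum_le_tsum fun n => (key n).2⟩

end Pool.Agent.N276.SC.ContAux

namespace Pool.Agent.N276.SC

open ContAux

theorem cont : StmMeas → StmDriftC → StmCont := by
  intro hM hD d p L η hη
  obtain ⟨ε, hε0, hε⟩ := mt_close hM hD d p L η hη
  refine ⟨ε, hε0, fun nu hnu hnuε => ?_⟩
  obtain ⟨-, -, -, -, -, -, i1, i2, i3, -, -⟩ := hM d p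
  have h1 : ∀ (x : Site d) (ξ : Edge d → ℝ),
      TT p nu (x 0 + L) x ξ ≤ TT p (nu0 d) (x 0 + L) x ξ + ENNReal.ofReal η ∧
      TT p (nu0 d) (x 0 + L) x ξ ≤ TT p nu (x 0 + L) x ξ + ENNReal.ofReal η := by
    intro x ξ
    have h2 : ∀ nu' : Measure (Edge d → Bool), TT p nu' (x 0 + L) x ξ + ENNReal.ofReal η =
        ∫⁻ a, (mt p nu' (x 0 + L) (x, glue (x 0) ξ a) + ENNReal.ofReal η) ∂(qE d p) := by
      intro nu'
      rw [lintegral_add_right _ measurable_const, lintegral_const, measure_univ, mul_one]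
      rfl
    rw [h2, h2]
    exact ⟨lintegral_mono fun a => (hε nu hnu hnuε (x, glue (x 0) ξ a)).1,
      lintegral_mono fun a => (hε nu hnu hnuε (x, glue (x 0) ξ a)).2⟩
  constructor
  · unfold bb
    refine iSup_le fun x => iSup_le fun ξ => (h1 x ξ).1.trans (add_le_add ?_ le_rfl)
    exact le_iSup_of_le x (le_iSup_of_le ξ le_rfl)
  · rw [← tsub_le_iff_right]
    unfold cc
    refine le_iInf fun x => le_iInf fun ξ => ?_
    rw [tsub_le_iff_right]
    have h3 : (⨅ (x : Site d) (ξ : Edge d → ℝ), TT p (nu0 d) (x 0 + L) x ξ) ≤ TT p (nu0 d) (x 0 + L) x ξ :=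
      iInf_le_of_le x (iInf_le_of_le ξ le_rfl)
    exact h3.trans (h1 x ξ).2

end Pool.Agent.N276.SC
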