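import Mathlib

/-!
# Biased walk in slowly refreshing conductances: definitions

The lattice is `ℤ^(d+1)`, the coordinate `0` is the direction of the bias. The dynamical conductances
and the walk are given by the graphical construction: every edge has a Poisson clock of rate `mu`
(independent exponential gaps), the edge takes a new value with law `q` at each point of its clock;
the walk has a Poisson clock of rate `2 kap Z`; at a ring it proposes the direction `δ` with
probability `wt δ / Z` and steps if the uniform variable is smaller than `conductance / (2 kap)`.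
So it jumps from `x` to `x + vec δ` at rate `wt δ * conductance`.
-/

set_option autoImplicit false

open MeasureTheory ProbabilityTheory Filter Topology Set
open scoped ENNReal

namespace Pool.Agent.N276.SC

/-- the sites of `ℤ^(d+1)` -/
abbrev Site (d : ℕ) := Fin (d + 1) → ℤ

/-- the edge between `x` and `x + e_i` is `(x, i)` -/
abbrev Edge (d : ℕ) := Site d × Fin (d + 1)

/-- the directions `+ e_i` (`true`) and `- e_i` (`false`) -/
abbrev Dir (d : ℕ) := Fin (d + 1) × Bool

variable {d : ℕ}

/-- the unit vector of a direction -/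
def vec (δ : Dir d) : Site d := if δ.2 = true then Pi.single δ.1 1 else -Pi.single δ.1 1

/-- the edge between `x` and `x + vec δ` -/
def edge (x : Site d) (δ : Dir d) : Edge d := (if δ.2 = true then x else x + vec δ, δ.1)

/-- the weight `exp (lam * (vec δ · e_1))` of a direction -/
noncomputable def wt (lam : ℝ) (δ : Dir d) : ℝ := Real.exp (lam * ((vec δ 0 : ℤ) : ℝ))

/-- the sum of the weights -/
noncomputable def ZZ (d : ℕ) (lam : ℝ) : ℝ := ∑ δ : Dir d, wt lam δ

/-- the law on directions proportional to the weights -/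
noncomputable def dirLaw (d : ℕ) (lam : ℝ) : Measure (Dir d) :=
  ∑ δ : Dir d, ENNReal.ofReal (wt lam δ / ZZ d lam) • Measure.dirac δ

/-- the uniform law on `[0, 1]` -/
noncomputable def unif : Measure ℝ := (volume : Measure ℝ).restrict (Icc 0 1)

/-! ### the process -/

/-- the number of points in `[0, t]` of the point process with gaps `g 0, g 1, ...` -/
noncomputable def cnt (g : ℕ → ℝ) (t : ℝ) : ℕ := sInf {k | t < ∑ i ∈ Finset.range (k + 1), g i}

/-- the position after `n` rings of the walk in the time dependent conductances `env`, with gaps `g`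
between the rings, directions `D` and uniform variables `U` -/
noncomputable def pos (kap : ℝ) (env : ℝ → Edge d → ℝ) (g : ℕ → ℝ) (D : ℕ → Dir d) (U : ℕ → ℝ) :
    ℕ → Site d
  | 0 => 0
  | n + 1 =>
    if U n < env (∑ i ∈ Finset.range (n + 1), g i) (edge (pos kap env g D U n) (D n)) / (2 * kap)
    then pos kap env g D U n + vec (D n) else pos kap env g D U n

/-- the walk at time `t` -/
noncomputable def walk (kap : ℝ) (env : ℝ → Edge d → ℝ) (g : ℕ → ℝ) (D : ℕ → Dir d) (U : ℕ → ℝ)
    (t : ℝ) : Site d := pos kap env g D U (cnt g t)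

/-- the law of the gaps between the rings of the walk's clock, of the directions and of the uniform
variables -/
noncomputable def walkLaw (d : ℕ) (lam kap : ℝ) : Measure ((ℕ → ℝ) × (ℕ → Dir d) × (ℕ → ℝ)) :=
  (Measure.infinitePi fun _ : ℕ => expMeasure (2 * kap * ZZ d lam)).prod
    ((Measure.infinitePi fun _ : ℕ => dirLaw d lam).prod (Measure.infinitePi fun _ : ℕ => unif))

/-- the law of the gaps of the clocks of the edges and of the values of the conductances -/
noncomputable def envLaw (d : ℕ) (q : Measure ℝ) (mu : ℝ) :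
    Measure ((Edge d → ℕ → ℝ) × (Edge d → ℕ → ℝ)) :=
  (Measure.infinitePi fun _ : Edge d => Measure.infinitePi fun _ : ℕ => expMeasure mu).prod
    (Measure.infinitePi fun _ : Edge d => Measure.infinitePi fun _ : ℕ => q)

/-- the conductances at time `t`, for gaps `w.1` of the clocks and values `w.2`: the value of the
edge `e` is `w.2 e 0` at first, and `w.2 e k` after the `k`-th point of its clock -/
noncomputable def cond (w : (Edge d → ℕ → ℝ) × (Edge d → ℕ → ℝ)) (t : ℝ) (e : Edge d) : ℝ :=
  w.2 e (cnt (w.1 e) t)

/-- `v` is the speed of the walk with bias `lam` in the dynamical conductances with parameters `q`,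
`mu`: almost surely the first coordinate of `X_t` divided by `t` converges to `v` -/
def IsDynSpeed (d : ℕ) (lam kap : ℝ) (q : Measure ℝ) (mu v : ℝ) : Prop :=
  ∀ᵐ ω ∂((envLaw d q mu).prod (walkLaw d lam kap)),
    Tendsto (fun t : ℝ => ((walk kap (cond ω.1) ω.2.1 ω.2.2.1 ω.2.2.2 t 0 : ℤ) : ℝ) / t) atTop (𝓝 v)

/-- the law of the static conductances: independent with law `q` -/
noncomputable def statLaw (d : ℕ) (q : Measure ℝ) : Measure (Edge d → ℝ) :=
  Measure.infinitePi fun _ : Edge d => q

/-- `v` is the speed of the walk with bias `lam` in the static conductances with law `q` -/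
def IsStatSpeed (d : ℕ) (lam kap : ℝ) (q : Measure ℝ) (v : ℝ) : Prop :=
  ∀ᵐ ω ∂((statLaw d q).prod (walkLaw d lam kap)),
    Tendsto (fun t : ℝ => ((walk kap (fun _ => ω.1) ω.2.1 ω.2.2.1 ω.2.2.2 t 0 : ℤ) : ℝ) / t)
      atTop (𝓝 v)

/-! ### the discrete chain -/

/-- the parameters -/
structure Par where
  c : ℝ
  kap : ℝ
  lam : ℝ
  q : Measure ℝ
  hq : IsProbabilityMeasure q
  hc : 0 < c
  hk : c ≤ kap
  hl : 0 < lam
  hs : q (Icc c kap) = 1

attribute [instance] Par.hq

/-- refreshed edges, new values, direction, uniform variable of one step -/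
abbrev Inn (d : ℕ) := (Edge d → Bool) × (Edge d → ℝ) × Dir d × ℝ

/-- position and conductances -/
abbrev State (d : ℕ) := Site d × (Edge d → ℝ)

/-- truncation of a conductance to `[c, kap]` -/
noncomputable def tr (p : Par) (w : ℝ) : ℝ := max p.c (min p.kap w)

/-- new conductances -/
def upd (w : Edge d → ℝ) (z : Inn d) : Edge d → ℝ := fun e => if z.1 e = true then z.2.1 e else w e

/-- one step: first the conductances are refreshed, then the walk may step -/
noncomputable def step (p : Par) (s : State d) (z : Inn d) : State d :=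
  (if z.2.2.2 < tr p (upd s.2 z (edge s.1 z.2.2.1)) / (2 * p.kap) then s.1 + vec z.2.2.1 else s.1,
    upd s.2 z)

/-- the chain started in `s` with innovations `ζ` -/
noncomputable def chain (p : Par) (s : State d) (ζ : ℕ → Inn d) : ℕ → State d
  | 0 => s
  | n + 1 => step p (chain p s ζ n) (ζ n)

/-- the path of the walk -/
noncomputable def pth (p : Par) (s : State d) (ζ : ℕ → Inn d) (n : ℕ) : Site d := (chain p s ζ n).1

/-- positions and proposed directions -/
noncomputable def hist (p : Par) (s : State d) (ζ : ℕ → Inn d) (k : ℕ) : Site d × Dir d :=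
  (pth p s ζ k, (ζ k).2.2.1)

/-- independent conductances -/
noncomputable def qE (d : ℕ) (p : Par) : Measure (Edge d → ℝ) := Measure.infinitePi fun _ => p.q

/-- the law of the innovations of one step; `nu` is the law of the set of refreshed edges -/
noncomputable def inn (p : Par) (nu : Measure (Edge d → Bool)) : Measure (Inn d) :=
  nu.prod ((qE d p).prod ((dirLaw d p.lam).prod unif))

/-- independent innovations -/
noncomputable def PP (p : Par) (nu : Measure (Edge d → Bool)) : Measure (ℕ → Inn d) :=
  Measure.infinitePi fun _ => inn p nu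

/-- no edge is refreshed -/
noncomputable def nu0 (d : ℕ) : Measure (Edge d → Bool) := Measure.dirac fun _ => false

/-- edges refreshed between two rings: an edge is refreshed if its exponential variable is smaller
than the gap -/
noncomputable def nuM (d : ℕ) (p : Par) (mu : ℝ) : Measure (Edge d → Bool) :=
  ((expMeasure (2 * p.kap * ZZ d p.lam)).prod
    (Measure.infinitePi fun _ : Edge d => expMeasure mu)).map fun z e => decide (z.2 e < z.1)

/-- conductances `ξ` behind the level `l`, `a` from the level `l` on -/
def glue (l : ℤ) (ξ a : Edge d → ℝ) : Edge d → ℝ := fun e => if e.1 0 < l then ξ e else a e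

/-- mean over the conductances from the level `l` on -/
noncomputable def Av (p : Par) (l : ℤ) (f : State d → ℝ≥0∞) (s : State d) : ℝ≥0∞ :=
  ∫⁻ a, f (s.1, glue l s.2 a) ∂(qE d p)

open Classical in
/-- the first time a path has a level `≥ l` -/
noncomputable def tau (l : ℤ) (y : ℕ → Site d) : ℝ≥0∞ :=
  ∑' n : ℕ, if (∀ k ≤ n, y k 0 < l) then 1 else 0

/-- the mean hitting time of the level `l` -/
noncomputable def mt (p : Par) (nu : Measure (Edge d → Bool)) (l : ℤ) (s : State d) : ℝ≥0∞ :=
  ∫⁻ ζ, tau l (pth p s ζ) ∂(PP p nu)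

/-- the mean hitting time of the level `l`, conductances `ξ` behind the starting point `x` and
independent conductances from the level of `x` on -/
noncomputable def TT (p : Par) (nu : Measure (Edge d → Bool)) (l : ℤ) (x : Site d)
    (ξ : Edge d → ℝ) : ℝ≥0∞ :=
  ∫⁻ a, mt p nu l (x, glue (x 0) ξ a) ∂(qE d p)

/-- the worst mean time to gain `L` levels -/
noncomputable def bb (p : Par) (nu : Measure (Edge d → Bool)) (L : ℕ) : ℝ≥0∞ :=
  ⨆ (x : Site d) (ξ : Edge d → ℝ), TT p nu (x 0 + L) x ξ

/-- the best mean time to gain `L` levels -/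
noncomputable def cc (p : Par) (nu : Measure (Edge d → Bool)) (L : ℕ) : ℝ≥0∞ :=
  ⨅ (x : Site d) (ξ : Edge d → ℝ), TT p nu (x 0 + L) x ξ

open Classical in
/-- the probability of the event `B` of the history -/
noncomputable def mB (p : Par) (nu : Measure (Edge d → Bool)) (x : Site d) (ξ : Edge d → ℝ)
    (B : (ℕ → Site d × Dir d) → Prop) : ℝ≥0∞ :=
  ∫⁻ a, ∫⁻ ζ, (if B (hist p (x, glue (x 0) ξ a) ζ) then 1 else 0) ∂(PP p nu) ∂(qE d p)

open Classical in
/-- the mean of the hitting time of the level `l` on the event `B` of the history -/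
noncomputable def tB (p : Par) (nu : Measure (Edge d → Bool)) (x : Site d) (ξ : Edge d → ℝ) (l : ℤ)
    (B : (ℕ → Site d × Dir d) → Prop) : ℝ≥0∞ :=
  ∫⁻ a, ∫⁻ ζ, (if B (hist p (x, glue (x 0) ξ a) ζ) then tau l (pth p (x, glue (x 0) ξ a) ζ) else 0)
    ∂(PP p nu) ∂(qE d p)

/-- the event `B` depends only on the history up to the hitting time of the level `l` -/
def Det (l : ℤ) (B : (ℕ → Site d × Dir d) → Prop) : Prop :=
  ∀ (h h' : ℕ → Site d × Dir d) (n : ℕ), (∀ k < n, h k = h' k) → (h n).1 = (h' n).1 →
    (∀ k < n, (h k).1 0 < l) → l ≤ (h n).1 0 → (B h ↔ B h')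

/-- the walk at the level `l` proposes a step back -/
def prp (l : ℤ) (u : Site d × Dir d) : Prop := u.1 0 = l ∧ u.2 = (0, false)

/-- no such proposal before the hitting time of the level `m` -/
def NP (l m : ℤ) (h : ℕ → Site d × Dir d) : Prop :=
  ∀ k : ℕ, (∀ i ≤ k, (h i).1 0 < m) → ¬ prp l (h k)

/-- the first such proposal is between the hitting times of the levels `l + j` and `l + j + 1` -/
def FF (l : ℤ) (j : ℕ) (h : ℕ → Site d × Dir d) : Prop := NP l (l + j) h ∧ ¬ NP l (l + j + 1) h

/-- one step operator of the walk in the conductances `w` -/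
noncomputable def Kop (p : Par) (w : Edge d → ℝ) (f : Site d → ℝ) (x : Site d) : ℝ :=
  ∑ δ : Dir d, wt p.lam δ / ZZ d p.lam * (tr p (w (edge x δ)) / (2 * p.kap) * f (x + vec δ) +
    (1 - tr p (w (edge x δ)) / (2 * p.kap)) * f x)

/-- the reversible measure -/
noncomputable def mm (p : Par) (x : Site d) : ℝ := Real.exp (2 * p.lam * (x 0 : ℝ))

/-- the walk in the deterministic sequence of conductances `w` -/
noncomputable def qpth (p : Par) (w : ℕ → Edge d → ℝ) (x : Site d) (η : ℕ → Dir d × ℝ) : ℕ → Site d
  | 0 => x
  | n + 1 => if (η n).2 < tr p (w n (edge (qpth p w x η n) (η n).1)) / (2 * p.kap)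
      then qpth p w x η n + vec (η n).1 else qpth p w x η n

/-- the values of one edge at the times `t 0, t 1, ...`: `G n` is compared with the time elapsed -/
noncomputable def ech (t : ℕ → ℝ) (w : ℝ) (G V : ℕ → ℝ) : ℕ → ℝ
  | 0 => if G 0 < t 0 then V 0 else w
  | n + 1 => if G (n + 1) < t (n + 1) - t n then V (n + 1) else ech t w G V n

end Pool.Agent.N276.SC
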