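import Pool.Agent.N276.SC.Def

/-!
# Statements of the parts of the proof
-/

set_option autoImplicit false

open MeasureTheory ProbabilityTheory Filter Topology Set
open scoped ENNReal

namespace Pool.Agent.N276.SC

/-- measurability and total masses -/
def StmMeas : Prop := ∀ (d : ℕ) (p : Par),
  Measurable (fun z : State d × Inn d => step p z.1 z.2) ∧
  (∀ n, Measurable fun z : State d × (ℕ → Inn d) => chain p z.1 z.2 n) ∧
  (∀ n, Measurable fun z : State d × (ℕ → Inn d) => hist p z.1 z.2 n) ∧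
  (∀ l : ℤ, Measurable fun y : ℕ → Site d => tau l y) ∧
  (∀ l : ℤ, Measurable fun z : State d × (ℕ → Inn d) => tau l (pth p z.1 z.2)) ∧
  (∀ l : ℤ, Measurable fun z : (Edge d → ℝ) × (Edge d → ℝ) => glue l z.1 z.2) ∧
  IsProbabilityMeasure (dirLaw d p.lam) ∧ IsProbabilityMeasure unif ∧
  IsProbabilityMeasure (qE d p) ∧ 0 < ZZ d p.lam ∧
  ∀ nu : Measure (Edge d → Bool), IsProbabilityMeasure nu →
    IsProbabilityMeasure (inn p nu) ∧ IsProbabilityMeasure (PP p nu) ∧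
    ∀ l : ℤ, Measurable (mt p nu l)

/-- contraction in `L²(mm)` -/
def StmGap : Prop := ∀ (d : ℕ) (p : Par), ∃ γ : ℝ, 0 < γ ∧ γ < 1 ∧
  ∀ (w : Edge d → ℝ) (f : Site d → ℝ), (Function.support f).Finite →
    (Function.support (Kop p w f)).Finite ∧
    ∑' x, mm p x * (Kop p w f x) ^ 2 ≤ (1 - γ) * ∑' x, mm p x * (f x) ^ 2

/-- drift in every deterministic sequence of conductances -/
def StmDrift : Prop := ∀ (d : ℕ) (p : Par), ∃ b C ρ : ℝ, 0 < b ∧ 0 < C ∧ 0 < ρ ∧ ρ < 1 ∧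
  ∀ (w : ℕ → Edge d → ℝ) (x : Site d) (n : ℕ),
    (Measure.infinitePi fun _ : ℕ => (dirLaw d p.lam).prod unif)
      {η | ((qpth p w x η n 0 : ℤ) : ℝ) ≤ x 0 + b * n} ≤ ENNReal.ofReal (C * ρ ^ n)

/-- drift of the chain -/
def StmDriftC : Prop := ∀ (d : ℕ) (p : Par), ∃ b C ρ : ℝ, 0 < b ∧ 0 < C ∧ 0 < ρ ∧ ρ < 1 ∧
  ∀ (nu : Measure (Edge d → Bool)), IsProbabilityMeasure nu → ∀ (s : State d) (n : ℕ),
    (PP p nu) {ζ | ((pth p s ζ n 0 : ℤ) : ℝ) ≤ s.1 0 + b * n} ≤ ENNReal.ofReal (C * ρ ^ n)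

/-- the mean hitting times are at most linear in the number of levels -/
def StmTail : Prop := ∀ (d : ℕ) (p : Par), ∃ C : ℝ, 0 < C ∧
  ∀ (nu : Measure (Edge d → Bool)), IsProbabilityMeasure nu → ∀ (s : State d) (k : ℕ),
    mt p nu (s.1 0 + k) s ≤ ENNReal.ofReal (C * (k + 1))

open Classical in
/-- averaging ahead commutes with a step from a level behind -/
def StmComm : Prop := ∀ (d : ℕ) (p : Par) (nu : Measure (Edge d → Bool)), IsProbabilityMeasure nu →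
  ∀ (l : ℤ) (δ : Dir d) (f : State d → ℝ≥0∞), Measurable f → ∀ s : State d, s.1 0 < l →
    ∫⁻ a, ∫⁻ z, (if z.2.2.1 = δ then f (step p (s.1, glue l s.2 a) z) else 0)
      ∂(inn p nu) ∂(qE d p) =
    ∫⁻ z, (if z.2.2.1 = δ then Av p l f (step p s z) else 0) ∂(inn p nu)

/-- the conductances ahead are fresh when the walk has not reached them -/
def StmFresh : Prop := ∀ (d : ℕ) (p : Par) (nu : Measure (Edge d → Bool)), IsProbabilityMeasure nu →
  ∀ (l m : ℤ), l ≤ m → ∀ (x : Site d) (ξ : Edge d → ℝ) (n : ℕ)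
    (g : (Fin n → Site d × Dir d) → ℝ≥0∞), (∀ h, g h ≠ 0 → ∀ k, (h k).1 0 < m) →
    ∀ G : State d → ℝ≥0∞, Measurable G →
    ∫⁻ a, ∫⁻ ζ, g (fun k => hist p (x, glue l ξ a) ζ k) * G (chain p (x, glue l ξ a) ζ n)
        ∂(PP p nu) ∂(qE d p) =
    ∫⁻ a, ∫⁻ ζ, g (fun k => hist p (x, glue l ξ a) ζ k) * Av p m G (chain p (x, glue l ξ a) ζ n)
        ∂(PP p nu) ∂(qE d p)

/-- Markov property -/
def StmMark : Prop := ∀ (d : ℕ) (p : Par) (nu : Measure (Edge d → Bool)), IsProbabilityMeasure nu →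
  ∀ (s : State d) (n : ℕ) (g : (Fin n → Site d × Dir d) → ℝ≥0∞)
    (H : State d × (ℕ → Inn d) → ℝ≥0∞), Measurable H →
    ∫⁻ ζ, g (fun k => hist p s ζ k) * H (chain p s ζ n, fun k => ζ (n + k)) ∂(PP p nu) =
    ∫⁻ ζ, g (fun k => hist p s ζ k) * (∫⁻ ζ', H (chain p s ζ n, ζ') ∂(PP p nu)) ∂(PP p nu)

/-- decomposition at the hitting time of the level `x 0 + j` -/
def StmSplit : Prop := ∀ (d : ℕ) (p : Par) (nu : Measure (Edge d → Bool)), IsProbabilityMeasure nu →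
  ∀ (j k : ℕ) (x : Site d) (ξ : Edge d → ℝ) (B : (ℕ → Site d × Dir d) → Prop),
    MeasurableSet {h | B h} → Det (x 0 + j) B →
    tB p nu x ξ (x 0 + (j + k : ℕ)) B ≤ tB p nu x ξ (x 0 + j) B + bb p nu k * mB p nu x ξ B ∧
    tB p nu x ξ (x 0 + j) B + cc p nu k * mB p nu x ξ B ≤ tB p nu x ξ (x 0 + (j + k : ℕ)) B

/-- sub- and superadditivity -/
def StmSub : Prop := ∀ (d : ℕ) (p : Par) (nu : Measure (Edge d → Bool)), IsProbabilityMeasure nu →
  ∀ j k : ℕ, bb p nu (j + k) ≤ bb p nu j + bb p nu k ∧ cc p nu j + cc p nu k ≤ cc p nu (j + k)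

/-- without a proposal to step back from the starting level the conductances behind do not matter -/
def StmSame : Prop := ∀ (d : ℕ) (p : Par) (x : Site d) (ξ ξ' a : Edge d → ℝ) (ζ : ℕ → Inn d) (n : ℕ),
  (∀ k < n, ¬ prp (x 0) (hist p (x, glue (x 0) ξ a) ζ k)) → ∀ k ≤ n,
    pth p (x, glue (x 0) ξ a) ζ k = pth p (x, glue (x 0) ξ' a) ζ k ∧
    x 0 ≤ pth p (x, glue (x 0) ξ a) ζ k 0

/-- there is never a proposal to step back from the starting level with positive probability -/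
def StmEsc : Prop := ∀ (d : ℕ) (p : Par), ∃ δ : ℝ, 0 < δ ∧
  ∀ (nu : Measure (Edge d → Bool)), IsProbabilityMeasure nu → ∀ s : State d,
    ENNReal.ofReal δ ≤ (PP p nu) {ζ | ∀ n, ¬ prp (s.1 0) (hist p s ζ n)}

/-- the mean of the hitting time of the level `x 0 + j + 1` on `FF j` is summable -/
def StmTailF : Prop := ∀ (d : ℕ) (p : Par), ∃ C : ℝ, 0 < C ∧
  ∀ (nu : Measure (Edge d → Bool)), IsProbabilityMeasure nu → ∀ (x : Site d) (ξ : Edge d → ℝ),
    ∑' j : ℕ, tB p nu x ξ (x 0 + j + 1) (FF (x 0) j) ≤ ENNReal.ofReal C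

/-- translation invariance, static case -/
def StmShift : Prop := ∀ (d : ℕ) (p : Par) (x : Site d) (L : ℕ),
  (∀ ξ : Edge d → ℝ, ∃ ξ' : Edge d → ℝ, TT p (nu0 d) (x 0 + L) x ξ = TT p (nu0 d) L 0 ξ')

/-- bounded influence of the conductances behind, static case -/
def StmOsc : Prop := ∀ (d : ℕ) (p : Par), ∃ C : ℝ, 0 < C ∧
  ∀ L : ℕ, bb p (nu0 d) L ≤ cc p (nu0 d) L + ENNReal.ofReal C

/-- continuity at the static case for a fixed number of levels -/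
def StmCont : Prop := ∀ (d : ℕ) (p : Par) (L : ℕ) (η : ℝ), 0 < η → ∃ ε : ℝ, 0 < ε ∧
  ∀ (nu : Measure (Edge d → Bool)), IsProbabilityMeasure nu →
    (∀ e, nu {r | r e = true} ≤ ENNReal.ofReal ε) →
    bb p nu L ≤ bb p (nu0 d) L + ENNReal.ofReal η ∧ cc p (nu0 d) L ≤ cc p nu L + ENNReal.ofReal η

/-- the speed of the chain started in independent conductances is `vd` -/
def HasSpeed (d : ℕ) (p : Par) (nu : Measure (Edge d → Bool)) (vd : ℝ) : Prop :=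
  ∀ᵐ z ∂((qE d p).prod (PP p nu)),
    Tendsto (fun n : ℕ => ((pth p (0, z.1) z.2 n 0 : ℤ) : ℝ) / n) atTop (𝓝 vd)

/-- lower bound for the speed -/
def StmSpeedU : Prop := ∀ (d : ℕ) (p : Par) (nu : Measure (Edge d → Bool)), IsProbabilityMeasure nu →
  ∀ vd : ℝ, HasSpeed d p nu vd → 0 < vd ∧ ∀ L : ℕ, (L : ℝ) ≤ (bb p nu L).toReal * vd

/-- upper bound for the speed -/
def StmSpeedL : Prop := ∀ (d : ℕ) (p : Par) (nu : Measure (Edge d → Bool)), IsProbabilityMeasure nu →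
  ∀ vd : ℝ, HasSpeed d p nu vd → 0 < vd → ∀ L : ℕ, (cc p nu L).toReal * vd ≤ L

/-- one edge at given times -/
def StmEdge : Prop := ∀ (q : Measure ℝ), IsProbabilityMeasure q → ∀ mu : ℝ, 0 < mu →
  ∀ t : ℕ → ℝ, 0 ≤ t 0 → Monotone t →
    ((Measure.infinitePi fun _ : ℕ => expMeasure mu).prod (Measure.infinitePi fun _ : ℕ => q)).map
      (fun z n => z.2 (cnt z.1 (t n))) =
    (q.prod ((Measure.infinitePi fun _ : ℕ => expMeasure mu).prod
      (Measure.infinitePi fun _ : ℕ => q))).map (fun z => ech t z.1 z.2.1 z.2.2)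

/-- all edges at given times -/
def StmEnv : Prop := ∀ (d : ℕ) (q : Measure ℝ), IsProbabilityMeasure q → ∀ mu : ℝ, 0 < mu →
  ∀ t : ℕ → ℝ, 0 ≤ t 0 → Monotone t →
    (envLaw d q mu).map (fun w (n : ℕ) (e : Edge d) => cond w (t n) e) =
    ((Measure.infinitePi fun _ : Edge d => q).prod (Measure.infinitePi fun _ : ℕ =>
      (Measure.infinitePi fun _ : Edge d => expMeasure mu).prod
        (Measure.infinitePi fun _ : Edge d => q))).map
      (fun z (n : ℕ) (e : Edge d) => ech t (z.1 e) (fun k => (z.2 k).1 e) (fun k => (z.2 k).2 e) n)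

/-- the law of the path of the walk at its rings, dynamical conductances -/
def StmSkelD : Prop := ∀ (d : ℕ) (p : Par) (mu : ℝ), 0 < mu →
  ((envLaw d p.q mu).prod (walkLaw d p.lam p.kap)).map
      (fun ω => pos p.kap (cond ω.1) ω.2.1 ω.2.2.1 ω.2.2.2) =
    ((qE d p).prod (PP p (nuM d p mu))).map (fun z => pth p (0, z.1) z.2) ∧
  Measurable (fun ω : ((Edge d → ℕ → ℝ) × (Edge d → ℕ → ℝ)) × ((ℕ → ℝ) × (ℕ → Dir d) × (ℕ → ℝ)) =>
      pos p.kap (cond ω.1) ω.2.1 ω.2.2.1 ω.2.2.2)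

/-- the law of the path of the walk at its rings, static conductances -/
def StmSkelS : Prop := ∀ (d : ℕ) (p : Par),
  ((statLaw d p.q).prod (walkLaw d p.lam p.kap)).map
      (fun ω => pos p.kap (fun _ => ω.1) ω.2.1 ω.2.2.1 ω.2.2.2) =
    ((qE d p).prod (PP p (nu0 d))).map (fun z => pth p (0, z.1) z.2) ∧
  Measurable (fun ω : (Edge d → ℝ) × ((ℕ → ℝ) × (ℕ → Dir d) × (ℕ → ℝ)) =>
      pos p.kap (fun _ => ω.1) ω.2.1 ω.2.2.1 ω.2.2.2)

/-- change of time -/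
def StmTime : Prop := ∀ (y : ℕ → ℤ) (g : ℕ → ℝ) (R v : ℝ), 0 < R → (∀ i, 0 < g i) →
  Tendsto (fun n : ℕ => (∑ i ∈ Finset.range n, g i) / n) atTop (𝓝 (1 / R)) →
  Tendsto (fun t : ℝ => ((y (cnt g t) : ℤ) : ℝ) / t) atTop (𝓝 v) →
  Tendsto (fun n : ℕ => ((y n : ℤ) : ℝ) / n) atTop (𝓝 (v / R))

/-- law of large numbers for the rings -/
def StmRing : Prop := ∀ R : ℝ, 0 < R → ∀ᵐ g : ℕ → ℝ ∂(Measure.infinitePi fun _ : ℕ => expMeasure R),
  (∀ i, 0 < g i) ∧ Tendsto (fun n : ℕ => (∑ i ∈ Finset.range n, g i) / n) atTop (𝓝 (1 / R))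

/-- refreshes are rare for small `mu` -/
def StmNu : Prop := ∀ (d : ℕ) (p : Par) (mu : ℝ), 0 < mu →
  IsProbabilityMeasure (nuM d p mu) ∧
  ∀ e, (nuM d p mu) {r | r e = true} ≤ ENNReal.ofReal (mu / (2 * p.kap * ZZ d p.lam))

end Pool.Agent.N276.SC
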