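import Mathlib
import Pool.Agent.N276.SC.Stm
import Pool.Agent.Helper964.Cons

/-!
# Drift in deterministic environments
-/

set_option autoImplicit false

open MeasureTheory ProbabilityTheory Filter Topology Set
open scoped ENNReal

namespace Pool.Agent.N276.SC

namespace DriftAux

open Pool.Agent.Helper964.Cons

variable {d : ℕ}

/-- acceptance probability -/
noncomputable def ac (p : Par) (w : Edge d → ℝ) (x : Site d) (δ : Dir d) : ℝ :=
  tr p (w (edge x δ)) / (2 * p.kap)

theorem kap_pos (p : Par) : 0 < p.kap := lt_of_lt_of_le p.hc p.hk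

theorem ac_nonneg (p : Par) (w : Edge d → ℝ) (x : Site d) (δ : Dir d) : 0 ≤ ac p w x δ := by
  have h1 : 0 < tr p (w (edge x δ)) := lt_of_lt_of_le p.hc (le_max_left _ _)
  have := kap_pos p
  rw [ac]
  positivity

theorem ac_le_one (p : Par) (w : Edge d → ℝ) (x : Site d) (δ : Dir d) : ac p w x δ ≤ 1 := by
  have h1 : tr p (w (edge x δ)) ≤ p.kap := max_le p.hk (min_le_left _ _)
  have := kap_pos p
  rw [ac, div_le_one (by positivity)]
  linarith

/-- one step -/
noncomputable def st (p : Par) (w : Edge d → ℝ) (x : Site d) (z : Dir d × ℝ) : Site d :=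
  if z.2 < ac p w x z.1 then x + vec z.1 else x

/-- iterated operators -/
noncomputable def itK (p : Par) : ℕ → (ℕ → Edge d → ℝ) → (Site d → ℝ) → Site d → ℝ
  | 0, _, f => f
  | n + 1, w, f => Kop p (w 0) (itK p n (fun k => w (k + 1)) f)

theorem qpth_cons (p : Par) (w : ℕ → Edge d → ℝ) (x : Site d) (z : Dir d × ℝ)
    (η : ℕ → Dir d × ℝ) (n : ℕ) :
    qpth p w x (cons (z, η)) (n + 1) = qpth p (fun k => w (k + 1)) (st p (w 0) x z) η n := by
  induction n with
  | zero => rfl
  | succ n ih =>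
    rw [qpth, ih]
    rfl

theorem meas_qpth (p : Par) (w : ℕ → Edge d → ℝ) (x : Site d) (n : ℕ) :
    Measurable (fun η : ℕ → Dir d × ℝ => qpth p w x η n) := by
  induction n with
  | zero => exact measurable_const
  | succ n ih =>
    simp only [qpth]
    have h1 : Measurable fun η : ℕ → Dir d × ℝ => (η n) := measurable_pi_apply n
    refine Measurable.ite ?_ ?_ ih
    · refine measurableSet_lt h1.snd ?_
      exact (measurable_of_countable (fun y : Site d × Dir d =>
        tr p (w n (edge y.1 y.2)) / (2 * p.kap))).comp (ih.prodMk h1.fst)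
    · exact (measurable_of_countable (fun y : Site d × Dir d => y.1 + vec y.2)).comp
        (ih.prodMk h1.fst)

theorem meas_st (p : Par) (w : Edge d → ℝ) (x : Site d) :
    Measurable (fun z : Dir d × ℝ => st p w x z) := by
  refine Measurable.ite ?_ ?_ measurable_const
  · exact measurableSet_lt measurable_snd
      ((measurable_of_countable (fun δ : Dir d => ac p w x δ)).comp measurable_fst)
  · exact (measurable_of_countable (fun δ : Dir d => x + vec δ)).comp measurable_fst

theorem unif_lt {a : ℝ} (h1 : a ≤ 1) : unif {U | U < a} = ENNReal.ofReal a := by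
  have h : {U : ℝ | U < a} ∩ Icc 0 1 = Ico 0 a := by
    ext U
    simp only [mem_inter_iff, mem_setOf_eq, mem_Icc, mem_Ico]
    constructor
    · rintro ⟨h2, h3, -⟩; exact ⟨h3, h2⟩
    · rintro ⟨h2, h3⟩; exact ⟨h3, h2, by linarith⟩
  have hm : MeasurableSet {U : ℝ | U < a} := measurableSet_Iio
  rw [unif, Measure.restrict_apply hm, h, Real.volume_Ico, sub_zero]

theorem lint_unif [IsProbabilityMeasure unif] {a : ℝ} (h0 : 0 ≤ a) (h1 : a ≤ 1) (u v : ℝ)
    (hu : 0 ≤ u) (hv : 0 ≤ v) :
    ∫⁻ U, ENNReal.ofReal (if U < a then u else v) ∂unif = ENNReal.ofReal (a * u + (1 - a) * v) := by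
  have hm : MeasurableSet {U : ℝ | U < a} := measurableSet_Iio
  rw [← lintegral_add_compl _ hm]
  have e1 : ∫⁻ U in {U : ℝ | U < a}, ENNReal.ofReal (if U < a then u else v) ∂unif =
      ENNReal.ofReal u * ENNReal.ofReal a := by
    rw [setLIntegral_congr_fun hm (g := fun _ => ENNReal.ofReal u)]
    · rw [setLIntegral_const, unif_lt h1]
    · intro U hU
      have hU' : U < a := hU
      simp only [if_pos hU']
  have e2 : ∫⁻ U in {U : ℝ | U < a}ᶜ, ENNReal.ofReal (if U < a then u else v) ∂unif =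
      ENNReal.ofReal v * ENNReal.ofReal (1 - a) := by
    rw [setLIntegral_congr_fun hm.compl (g := fun _ => ENNReal.ofReal v)]
    · rw [setLIntegral_const, prob_compl_eq_one_sub hm, unif_lt h1, ENNReal.ofReal_sub _ h0,
        ENNReal.ofReal_one]
    · intro U hU
      have hU' : ¬ U < a := hU
      simp only [if_neg hU']
  rw [e1, e2, ENNReal.ofReal_add (mul_nonneg h0 hu) (mul_nonneg (by linarith) hv),
    ENNReal.ofReal_mul h0, ENNReal.ofReal_mul (by linarith : 0 ≤ 1 - a), mul_comm,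
    mul_comm (ENNReal.ofReal v)]

theorem lint_step (p : Par) (hZ : 0 < ZZ d p.lam) [IsProbabilityMeasure unif]
    (w : Edge d → ℝ) (x : Site d) (G : Site d → ℝ) (hG : ∀ y, 0 ≤ G y) :
    ∫⁻ z, ENNReal.ofReal (G (st p w x z)) ∂((dirLaw d p.lam).prod unif) =
      ENNReal.ofReal (Kop p w G x) := by
  have hmG : Measurable fun y : Site d => ENNReal.ofReal (G y) := measurable_of_countable _
  have hm2 : Measurable fun z : Dir d × ℝ => ENNReal.ofReal (G (st p w x z)) :=
    hmG.comp (meas_st p w x)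
  rw [lintegral_prod _ hm2.aemeasurable, dirLaw,
    lintegral_finset_sum_measure, Kop, ENNReal.ofReal_sum_of_nonneg]
  · refine Finset.sum_congr rfl fun δ _ => ?_
    rw [lintegral_smul_measure, lintegral_dirac, smul_eq_mul]
    have e1 : ∀ U : ℝ, G (st p w x (δ, U)) = if U < ac p w x δ then G (x + vec δ) else G x := by
      intro U
      simp only [st]
      split_ifs <;> rfl
    simp only [Function.comp_apply, e1]
    rw [lint_unif (ac_nonneg p w x δ) (ac_le_one p w x δ) _ _ (hG _) (hG _),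
      ← ENNReal.ofReal_mul]
    · rfl
    · have : 0 < wt p.lam δ := Real.exp_pos _
      positivity
  · intro δ _
    have h1 : 0 < wt p.lam δ := Real.exp_pos _
    have h2 := ac_nonneg p w x δ
    have h3 := ac_le_one p w x δ
    have h4 := hG (x + vec δ)
    have h5 := hG x
    have h6 : 0 ≤ ac p w x δ * G (x + vec δ) + (1 - ac p w x δ) * G x :=
      add_nonneg (mul_nonneg h2 h4) (mul_nonneg (by linarith) h5)
    exact mul_nonneg (by positivity) h6

theorem Kop_nonneg (p : Par) (hZ : 0 < ZZ d p.lam) (w : Edge d → ℝ) (G : Site d → ℝ)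
    (hG : ∀ y, 0 ≤ G y) (x : Site d) : 0 ≤ Kop p w G x := by
  refine Finset.sum_nonneg fun δ _ => ?_
  have h1 : 0 < wt p.lam δ := Real.exp_pos _
  have h2 := ac_nonneg p w x δ
  have h3 := ac_le_one p w x δ
  have h4 := hG (x + vec δ)
  have h5 := hG x
  have h6 : 0 ≤ ac p w x δ * G (x + vec δ) + (1 - ac p w x δ) * G x :=
    add_nonneg (mul_nonneg h2 h4) (mul_nonneg (by linarith) h5)
  exact mul_nonneg (by positivity) h6

theorem itK_nonneg (p : Par) (hZ : 0 < ZZ d p.lam) (n : ℕ) : ∀ (w : ℕ → Edge d → ℝ)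
    (G : Site d → ℝ), (∀ y, 0 ≤ G y) → ∀ x, 0 ≤ itK p n w G x := by
  induction n with
  | zero => intro w G hG x; exact hG x
  | succ n ih => intro w G hG x; exact Kop_nonneg p hZ _ _ (ih _ G hG) x

open Classical in
/-- the indicator function of a site -/
noncomputable def ind (z : Site d) : Site d → ℝ := fun y => if y = z then 1 else 0

theorem ind_nonneg (z y : Site d) : 0 ≤ ind z y := by
  rw [ind]; split_ifs <;> norm_num

theorem prob_eq (p : Par) (hZ : 0 < ZZ d p.lam) [IsProbabilityMeasure unif]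
    [IsProbabilityMeasure (dirLaw d p.lam)] (n : ℕ) : ∀ (w : ℕ → Edge d → ℝ) (x z : Site d),
    (Measure.infinitePi fun _ : ℕ => (dirLaw d p.lam).prod unif) {η | qpth p w x η n = z} =
      ENNReal.ofReal (itK p n w (ind z) x) := by
  induction n with
  | zero =>
    intro w x z
    by_cases h : x = z
    · have : {η : ℕ → Dir d × ℝ | qpth p w x η 0 = z} = univ := by
        ext η; simp [qpth, h]
      rw [this, measure_univ, itK, ind, if_pos h, ENNReal.ofReal_one]
    · have : {η : ℕ → Dir d × ℝ | qpth p w x η 0 = z} = ∅ := by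
        ext η; simp [qpth, h]
      rw [this, measure_empty, itK, ind, if_neg h, ENNReal.ofReal_zero]
  | succ n ih =>
    intro w x z
    set mu0 : Measure (Dir d × ℝ) := (dirLaw d p.lam).prod unif with hmu0
    have hS : MeasurableSet {η : ℕ → Dir d × ℝ | qpth p w x η (n + 1) = z} :=
      meas_qpth p w x (n + 1) (measurableSet_singleton z)
    calc (Measure.infinitePi fun _ : ℕ => mu0) {η | qpth p w x η (n + 1) = z}
        = ((mu0.prod (Measure.infinitePi fun _ : ℕ => mu0)).map cons)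
            {η | qpth p w x η (n + 1) = z} := by rw [map_cons]
      _ = ∫⁻ z0, (Measure.infinitePi fun _ : ℕ => mu0)
            (Prod.mk z0 ⁻¹' (cons ⁻¹' {η | qpth p w x η (n + 1) = z})) ∂mu0 := by
          rw [Measure.map_apply measurable_cons hS, Measure.prod_apply (measurable_cons hS)]
      _ = ∫⁻ z0, ENNReal.ofReal (itK p n (fun k => w (k + 1)) (ind z) (st p (w 0) x z0)) ∂mu0 := by
          refine lintegral_congr fun z0 => ?_
          rw [← ih]
          congr 1
          ext η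
          simp only [mem_preimage, mem_setOf_eq, qpth_cons]
      _ = _ := lint_step p hZ (w 0) x _ (itK_nonneg p hZ n _ _ (ind_nonneg z))

theorem itK_gap (p : Par) {γ : ℝ} (h1 : γ < 1)
    (hg : ∀ (w : Edge d → ℝ) (f : Site d → ℝ), (Function.support f).Finite →
      (Function.support (Kop p w f)).Finite ∧
      ∑' x, mm p x * (Kop p w f x) ^ 2 ≤ (1 - γ) * ∑' x, mm p x * (f x) ^ 2) (n : ℕ) :
    ∀ (w : ℕ → Edge d → ℝ) (f : Site d → ℝ), (Function.support f).Finite →
      (Function.support (itK p n w f)).Finite ∧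
      ∑' x, mm p x * (itK p n w f x) ^ 2 ≤ (1 - γ) ^ n * ∑' x, mm p x * (f x) ^ 2 := by
  induction n with
  | zero => intro w f hf; exact ⟨hf, by simp [itK]⟩
  | succ n ih =>
    intro w f hf
    obtain ⟨h2, h3⟩ := ih (fun k => w (k + 1)) f hf
    obtain ⟨h4, h5⟩ := hg (w 0) _ h2
    refine ⟨h4, h5.trans ?_⟩
    calc (1 - γ) * ∑' x, mm p x * (itK p n (fun k => w (k + 1)) f x) ^ 2
        ≤ (1 - γ) * ((1 - γ) ^ n * ∑' x, mm p x * (f x) ^ 2) :=
          mul_le_mul_of_nonneg_left h3 (by linarith)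
      _ = _ := by rw [pow_succ]; ring

theorem itK_le (p : Par) {γ : ℝ} (h1 : γ < 1)
    (hg : ∀ (w : Edge d → ℝ) (f : Site d → ℝ), (Function.support f).Finite →
      (Function.support (Kop p w f)).Finite ∧
      ∑' x, mm p x * (Kop p w f x) ^ 2 ≤ (1 - γ) * ∑' x, mm p x * (f x) ^ 2) (n : ℕ)
    (w : ℕ → Edge d → ℝ) (x z : Site d) :
    itK p n w (ind z) x ≤ Real.sqrt (1 - γ) ^ n * Real.exp (p.lam * ((z 0 : ℝ) - x 0)) := by
  classical
  have hsup : Function.support (ind z) ⊆ {z} := by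
    intro y hy
    by_contra h
    apply hy
    rw [ind, if_neg (show ¬ y = z from h)]
  have hf : (Function.support (ind z)).Finite := (Set.finite_singleton z).subset hsup
  obtain ⟨h2, h3⟩ := itK_gap p h1 hg n w _ hf
  have h4 : ∑' y, mm p y * (ind z y) ^ 2 = mm p z := by
    rw [tsum_eq_single z]
    · simp [ind]
    · intro y hy
      simp [ind, hy]
  have h5 : Summable fun y => mm p y * (itK p n w (ind z) y) ^ 2 := by
    apply summable_of_finite_support
    refine h2.subset fun y hy => ?_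
    intro h6
    apply hy
    simp only [h6]
    ring
  have h6 : mm p x * (itK p n w (ind z) x) ^ 2 ≤ (1 - γ) ^ n * mm p z := by
    rw [h4] at h3
    refine le_trans ?_ h3
    exact h5.le_tsum x fun y _ => mul_nonneg (Real.exp_pos _).le (sq_nonneg _)
  have h7 : (itK p n w (ind z) x) ^ 2 ≤
      (Real.sqrt (1 - γ) ^ n * Real.exp (p.lam * ((z 0 : ℝ) - x 0))) ^ 2 := by
    have e1 : (Real.sqrt (1 - γ) ^ n * Real.exp (p.lam * ((z 0 : ℝ) - x 0))) ^ 2 =
        (1 - γ) ^ n * Real.exp (2 * (p.lam * ((z 0 : ℝ) - x 0))) := by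
      rw [mul_pow, ← pow_mul, mul_comm n 2, pow_mul, Real.sq_sqrt (by linarith), ← Real.exp_nat_mul]
      norm_num
    rw [e1]
    have e2 : mm p z = mm p x * Real.exp (2 * (p.lam * ((z 0 : ℝ) - x 0))) := by
      rw [mm, mm, ← Real.exp_add]
      congr 1
      ring
    rw [e2] at h6
    have h8 : 0 < mm p x := Real.exp_pos _
    have h9 : mm p x * (itK p n w (ind z) x) ^ 2 ≤
        mm p x * ((1 - γ) ^ n * Real.exp (2 * (p.lam * ((z 0 : ℝ) - x 0)))) := by
      linarith
    exact le_of_mul_le_mul_left h9 h8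
  have h8 := abs_le_of_sq_le_sq h7 (by positivity)
  exact (le_abs_self _).trans h8

theorem vec_le (δ : Dir d) (i : Fin (d + 1)) : |vec δ i| ≤ 1 := by
  rw [vec]
  split_ifs
  · by_cases h : i = δ.1
    · rw [h, Pi.single_eq_same]; norm_num
    · rw [Pi.single_eq_of_ne h]; norm_num
  · rw [Pi.neg_apply]
    by_cases h : i = δ.1
    · rw [h, Pi.single_eq_same]; norm_num
    · rw [Pi.single_eq_of_ne h]; norm_num

theorem qpth_box (p : Par) (w : ℕ → Edge d → ℝ) (x : Site d) (η : ℕ → Dir d × ℝ) (n : ℕ)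
    (i : Fin (d + 1)) : |qpth p w x η n i - x i| ≤ n := by
  induction n with
  | zero => simp [qpth]
  | succ n ih =>
    rw [qpth]
    push_cast
    split_ifs
    · rw [Pi.add_apply]
      have h1 := vec_le (η n).1 i
      rw [abs_le] at *
      constructor <;> omega
    · rw [abs_le] at *
      constructor <;> omega

theorem pow_bdd (k : ℕ) {ρ : ℝ} (h0 : 0 < ρ) (h1 : ρ < 1) :
    ∃ C : ℝ, 0 < C ∧ ∀ n : ℕ, (2 * (n : ℝ) + 1) ^ k * ρ ^ (2 * n) ≤ C := by
  have h := tendsto_pow_const_mul_const_pow_of_abs_lt_one k (r := ρ) (by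
    rw [abs_of_pos h0]; exact h1)
  obtain ⟨C, hC⟩ := h.bddAbove_range
  refine ⟨|C| / ρ + 1, by positivity, fun n => ?_⟩
  have h2 : ((2 * n + 1 : ℕ) : ℝ) ^ k * ρ ^ (2 * n + 1) ≤ C := hC ⟨2 * n + 1, rfl⟩
  push_cast at h2
  rw [pow_succ] at h2
  have h3 : (2 * (n : ℝ) + 1) ^ k * ρ ^ (2 * n) ≤ C / ρ := by
    rw [le_div_iff₀ h0]
    linarith
  have h4 : C / ρ ≤ |C| / ρ := div_le_div_of_nonneg_right (le_abs_self C) h0.le
  linarith

end DriftAux

open DriftAux

/-- drift in every deterministic sequence of conductances -/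
theorem drift : StmMeas → StmGap → StmDrift := by
  classical
  intro hM hG d p
  obtain ⟨-, -, -, -, -, -, hdir, hun, -, hZ, -⟩ := hM d p
  obtain ⟨γ, hγ0, hγ1, hg⟩ := hG d p
  set r : ℝ := Real.sqrt (1 - γ) with hr
  set ρ : ℝ := Real.sqrt (Real.sqrt r) with hρ
  have hr0 : 0 < r := Real.sqrt_pos.2 (by linarith)
  have hr1 : r < 1 := by
    rw [hr, Real.sqrt_lt' one_pos]; linarith
  have hρ0 : 0 < ρ := Real.sqrt_pos.2 (Real.sqrt_pos.2 hr0)
  have hρ1 : ρ < 1 := by
    rw [hρ, Real.sqrt_lt' one_pos, Real.sqrt_lt' (by norm_num)]; linarith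
  have hρr : r = ρ ^ 4 := by
    have e1 : ρ ^ 2 = Real.sqrt r := Real.sq_sqrt (Real.sqrt_nonneg r)
    have e2 : Real.sqrt r ^ 2 = r := Real.sq_sqrt hr0.le
    calc r = (ρ ^ 2) ^ 2 := by rw [e1, e2]
      _ = ρ ^ 4 := by ring
  have hlog : Real.log ρ < 0 := Real.log_neg hρ0 hρ1
  obtain ⟨C, hC0, hC⟩ := pow_bdd (d + 1) hρ0 hρ1
  have hl := p.hl
  refine ⟨-Real.log ρ / p.lam, C, ρ, by
    apply div_pos _ hl; linarith, hC0, hρ0, hρ1, ?_⟩
  intro w x n
  set b : ℝ := -Real.log ρ / p.lam with hb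
  have hexp : Real.exp (p.lam * (b * n)) = (ρ⁻¹) ^ n := by
    have e1 : p.lam * (b * n) = n * (-Real.log ρ) := by
      rw [hb]; field_simp
    rw [e1, Real.exp_nat_mul, Real.exp_neg, Real.exp_log hρ0]
  let Bx : Finset (Site d) := Fintype.piFinset fun i => Finset.Icc (x i - n) (x i + n)
  let T : Finset (Site d) := Bx.filter fun z => (z 0 : ℝ) ≤ x 0 + b * n
  have hsub : {η : ℕ → Dir d × ℝ | ((qpth p w x η n 0 : ℤ) : ℝ) ≤ x 0 + b * n} ⊆
      ⋃ z ∈ T, {η | qpth p w x η n = z} := by
    intro η hη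
    simp only [mem_iUnion, mem_setOf_eq, exists_prop]
    refine ⟨qpth p w x η n, ?_, rfl⟩
    refine Finset.mem_filter.2 ⟨?_, hη⟩
    rw [Fintype.mem_piFinset]
    intro i
    have := qpth_box p w x η n i
    rw [abs_le] at this
    rw [Finset.mem_Icc]
    constructor <;> omega
  have hcard : (T.card : ℝ) ≤ (2 * (n : ℝ) + 1) ^ (d + 1) := by
    have e1 : T.card ≤ Bx.card := Finset.card_filter_le _ _
    have e2 : Bx.card = (2 * n + 1) ^ (d + 1) := by
      rw [Fintype.card_piFinset]
      have : ∀ i : Fin (d + 1), (Finset.Icc (x i - n) (x i + n)).card = 2 * n + 1 := by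
        intro i
        rw [Int.card_Icc]
        omega
      simp [this]
    rw [e2] at e1
    exact_mod_cast e1
  have hz : ∀ z ∈ T, (Measure.infinitePi fun _ : ℕ => (dirLaw d p.lam).prod unif)
      {η | qpth p w x η n = z} ≤ ENNReal.ofReal (r ^ n * (ρ⁻¹) ^ n) := by
    intro z hz
    rw [prob_eq p hZ n w x z]
    apply ENNReal.ofReal_le_ofReal
    refine (itK_le p hγ1 hg n w x z).trans ?_
    rw [← hexp]
    apply mul_le_mul_of_nonneg_left _ (by positivity)
    apply Real.exp_le_exp.2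
    apply mul_le_mul_of_nonneg_left _ hl.le
    have := (Finset.mem_filter.1 hz).2
    linarith
  calc (Measure.infinitePi fun _ : ℕ => (dirLaw d p.lam).prod unif)
        {η | ((qpth p w x η n 0 : ℤ) : ℝ) ≤ x 0 + b * n}
      ≤ (Measure.infinitePi fun _ : ℕ => (dirLaw d p.lam).prod unif)
          (⋃ z ∈ T, {η | qpth p w x η n = z}) := measure_mono hsub
    _ ≤ ∑ z ∈ T, (Measure.infinitePi fun _ : ℕ => (dirLaw d p.lam).prod unif)
          {η | qpth p w x η n = z} := measure_biUnion_finset_le _ _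
    _ ≤ ∑ _z ∈ T, ENNReal.ofReal (r ^ n * (ρ⁻¹) ^ n) := Finset.sum_le_sum hz
    _ = ENNReal.ofReal ((T.card : ℝ) * (r ^ n * (ρ⁻¹) ^ n)) := by
        rw [Finset.sum_const, nsmul_eq_mul,
          ENNReal.ofReal_mul (Nat.cast_nonneg T.card : (0 : ℝ) ≤ (T.card : ℝ)),
          ENNReal.ofReal_natCast]
    _ ≤ ENNReal.ofReal (C * ρ ^ n) := by
        apply ENNReal.ofReal_le_ofReal
        have e1 : r ^ n * (ρ⁻¹) ^ n = ρ ^ (2 * n) * ρ ^ n := by
          rw [hρr, ← pow_mul, inv_pow, ← div_eq_mul_inv, div_eq_iff (by positivity), ← pow_add,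
            ← pow_add]
          congr 1
          ring
        rw [e1, ← mul_assoc]
        apply mul_le_mul_of_nonneg_right _ (by positivity)
        exact (mul_le_mul_of_nonneg_right hcard (by positivity)).trans (hC n)

end Pool.Agent.N276.SC
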