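import Pool.Agent.N276.SC.Stm

/-!
# Drift of the chain

Given the refreshed edges and the new values, the chain is the walk in a deterministic sequence of
conductances; the law of the innovations is the image of the product of the law of these variables
and of the law of the directions and uniform variables.
-/

set_option autoImplicit false

open MeasureTheory ProbabilityTheory Filter Topology Set
open scoped ENNReal

namespace Pool.Agent.N276.SC.DriftCAux

/-- two independent sequences of independent variables -/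
lemma law {α β : Type*} [MeasurableSpace α] [MeasurableSpace β] (A : Measure α) (B : Measure β)
    [IsProbabilityMeasure A] [IsProbabilityMeasure B] :
    ((Measure.infinitePi fun _ : ℕ => A).prod (Measure.infinitePi fun _ : ℕ => B)).map
      (fun (z : (ℕ → α) × (ℕ → β)) (k : ℕ) => (z.1 k, z.2 k)) =
      Measure.infinitePi fun _ : ℕ => A.prod B := by
  have hm : Measurable (fun (z : (ℕ → α) × (ℕ → β)) (k : ℕ) => (z.1 k, z.2 k)) := by fun_prop
  apply Measure.eq_infinitePi
  intro s t ht
  have hs : MeasurableSet (Set.pi (s : Set ℕ) t) :=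
    MeasurableSet.pi s.countable_toSet fun i _ => ht i
  rw [Measure.map_apply hm hs, Measure.prod_apply (hm hs)]
  have h1 : ∀ x : ℕ → α, (Measure.infinitePi fun _ : ℕ => B)
      (Prod.mk x ⁻¹' ((fun (z : (ℕ → α) × (ℕ → β)) (k : ℕ) => (z.1 k, z.2 k)) ⁻¹'
        Set.pi (s : Set ℕ) t)) = ∏ k ∈ s, B (Prod.mk (x k) ⁻¹' t k) := by
    intro x
    have h2 : (Prod.mk x ⁻¹' ((fun (z : (ℕ → α) × (ℕ → β)) (k : ℕ) => (z.1 k, z.2 k)) ⁻¹'
        Set.pi (s : Set ℕ) t)) = Set.pi (s : Set ℕ) (fun k => Prod.mk (x k) ⁻¹' t k) := by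
      ext y
      simp only [Set.mem_preimage, Set.mem_pi]
    rw [h2, Measure.infinitePi_pi]
    intro i _
    exact measurable_prodMk_left (ht i)
  simp_rw [h1]
  have h3 : ∀ k, Measurable fun a : α => B (Prod.mk a ⁻¹' t k) := fun k =>
    measurable_measure_prodMk_left (ht k)
  have h4 : iIndepFun (fun (k : ℕ) (x : ℕ → α) => B (Prod.mk (x k) ⁻¹' t k))
      (Measure.infinitePi fun _ : ℕ => A) :=
    iIndepFun_infinitePi (P := fun _ : ℕ => A)
      (X := fun (k : ℕ) (a : α) => B (Prod.mk a ⁻¹' t k)) h3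
  rw [lintegral_prod_eq_prod_lintegral_of_indepFun s
    (fun (k : ℕ) (x : ℕ → α) => B (Prod.mk (x k) ⁻¹' t k)) h4
    (fun k => (h3 k).comp (measurable_pi_apply k))]
  refine Finset.prod_congr rfl fun k _ => ?_
  rw [Measure.prod_apply (ht k)]
  have h5 := lintegral_map (μ := Measure.infinitePi fun _ : ℕ => A) (h3 k)
    (measurable_pi_apply k : Measurable fun x : ℕ → α => x k)
  rw [← h5]
  have h6 : (Measure.infinitePi fun _ : ℕ => A).map (fun x : ℕ → α => x k) = A :=
    Measure.infinitePi_map_eval (fun _ : ℕ => A) k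
  rw [h6]

variable {d : ℕ}

/-- the conductances before the `n`-th step -/
def V (w : Edge d → ℝ) (a : ℕ → (Edge d → Bool) × (Edge d → ℝ)) : ℕ → Edge d → ℝ
  | 0 => w
  | n + 1 => fun e => if (a n).1 e = true then (a n).2 e else V w a n e

/-- the two sequences together -/
def join (z : (ℕ → (Edge d → Bool) × (Edge d → ℝ)) × (ℕ → Dir d × ℝ)) : ℕ → Inn d :=
  fun k => ((z.1 k).1, (z.1 k).2, z.2 k)

lemma chain_eq (p : Par) (s : State d) (a : ℕ → (Edge d → Bool) × (Edge d → ℝ))
    (b : ℕ → Dir d × ℝ) (n : ℕ) :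
    chain p s (join (a, b)) n = (qpth p (fun n => V s.2 a (n + 1)) s.1 b n, V s.2 a n) := by
  induction n with
  | zero => rfl
  | succ n ih =>
    rw [chain, ih]
    rfl

lemma join_meas : Measurable (join (d := d)) := by
  unfold join
  fun_prop

lemma law_join (p : Par) (nu : Measure (Edge d → Bool)) [IsProbabilityMeasure nu]
    [IsProbabilityMeasure (dirLaw d p.lam)] [IsProbabilityMeasure unif]
    [IsProbabilityMeasure (qE d p)] :
    PP p nu = ((Measure.infinitePi fun _ : ℕ => nu.prod (qE d p)).prod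
      (Measure.infinitePi fun _ : ℕ => (dirLaw d p.lam).prod unif)).map join := by
  have h1 := law (nu.prod (qE d p)) ((dirLaw d p.lam).prod unif)
  have hf : Measurable (fun z : ((Edge d → Bool) × (Edge d → ℝ)) × (Dir d × ℝ) =>
      (MeasurableEquiv.prodAssoc z : (Edge d → Bool) × (Edge d → ℝ) × Dir d × ℝ)) :=
    MeasurableEquiv.prodAssoc.measurable
  have h2 := Measure.infinitePi_map_pi
    (fun _ : ℕ => (nu.prod (qE d p)).prod ((dirLaw d p.lam).prod unif))
    (f := fun _ z => (MeasurableEquiv.prodAssoc z : (Edge d → Bool) × (Edge d → ℝ) × Dir d × ℝ))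
    (fun _ => hf)
  have h3 : ((nu.prod (qE d p)).prod ((dirLaw d p.lam).prod unif)).map
      (fun z => (MeasurableEquiv.prodAssoc z : (Edge d → Bool) × (Edge d → ℝ) × Dir d × ℝ)) =
      inn p nu := Measure.prodAssoc_prod
  unfold PP
  rw [← h3, ← h2, ← h1, Measure.map_map (by fun_prop) (by fun_prop)]
  rfl

end Pool.Agent.N276.SC.DriftCAux

namespace Pool.Agent.N276.SC

open DriftCAux in
theorem driftC : StmMeas → StmDrift → StmDriftC := by
  intro hM hD d p
  obtain ⟨b, C, ρ, hb, hC, hρ, hρ1, h⟩ := hD d p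
  refine ⟨b, C, ρ, hb, hC, hρ, hρ1, ?_⟩
  intro nu hnu s n
  obtain ⟨-, hch, -, -, -, -, i1, i2, i3, -, -⟩ := hM d p
  have hset : MeasurableSet {ζ : ℕ → Inn d | ((pth p s ζ n 0 : ℤ) : ℝ) ≤ s.1 0 + b * n} := by
    have h1 : Measurable fun ζ : ℕ → Inn d => chain p s ζ n :=
      (hch n).comp (measurable_const.prodMk measurable_id)
    have h2 : Measurable fun ζ : ℕ → Inn d => pth p s ζ n := measurable_fst.comp h1
    have h3 : Measurable fun ζ : ℕ → Inn d => pth p s ζ n 0 := (measurable_pi_apply 0).comp h2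
    have h4 : Measurable fun ζ : ℕ → Inn d => ((pth p s ζ n 0 : ℤ) : ℝ) :=
      (measurable_from_top (f := fun m : ℤ => (m : ℝ))).comp h3
    exact measurableSet_le h4 measurable_const
  rw [law_join, Measure.map_apply join_meas hset, Measure.prod_apply (join_meas hset)]
  calc ∫⁻ a, (Measure.infinitePi fun _ : ℕ => (dirLaw d p.lam).prod unif) (Prod.mk a ⁻¹' (join ⁻¹'
          {ζ : ℕ → Inn d | ((pth p s ζ n 0 : ℤ) : ℝ) ≤ s.1 0 + b * n}))
        ∂(Measure.infinitePi fun _ : ℕ => nu.prod (qE d p))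
      ≤ ∫⁻ _, ENNReal.ofReal (C * ρ ^ n) ∂(Measure.infinitePi fun _ : ℕ => nu.prod (qE d p)) := by
        apply lintegral_mono
        intro a
        have h1 := h (fun n => V s.2 a (n + 1)) s.1 n
        refine le_trans (le_of_eq ?_) h1
        refine congrArg _ ?_
        ext η
        simp only [Set.mem_preimage, Set.mem_ofPred_eq, pth, chain_eq]
    _ = ENNReal.ofReal (C * ρ ^ n) := by simp

end Pool.Agent.N276.SC
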