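import Pool.Agent.N276.SC.Stm
import Pool.Agent.Helper964.Cons

/-!
# SC/19: one edge at given times (memoryless property) (helper720)

The decomposition at the first gap gives a renewal equation, whose only bounded solution is the
constant one; so the joint laws of the values at the given times satisfy the recursion of the chain
`ech`.
-/

set_option autoImplicit false

open MeasureTheory ProbabilityTheory Filter Topology Set
open scoped ENNReal

namespace Pool.Agent.N276.SC

namespace EdgeTAux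

open Pool.Agent.Helper964.Cons (cons cons_zero cons_succ measurable_cons map_cons)

/-- gaps and values -/
noncomputable abbrev PQ (E q : Measure ℝ) : Measure ((ℕ → ℝ) × (ℕ → ℝ)) :=
  (Measure.infinitePi fun _ : ℕ => E).prod (Measure.infinitePi fun _ : ℕ => q)

theorem split1 (ν : Measure ℝ) [IsProbabilityMeasure ν] (Φ : (ℕ → ℝ) → ℝ≥0∞) (hΦ : Measurable Φ) :
    ∫⁻ g, Φ g ∂(Measure.infinitePi fun _ : ℕ => ν) =
      ∫⁻ x, ∫⁻ g, Φ (cons (x, g)) ∂(Measure.infinitePi fun _ : ℕ => ν) ∂ν := by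
  conv_lhs => rw [← map_cons ν]
  rw [lintegral_map hΦ measurable_cons]
  exact lintegral_prod _ (hΦ.comp measurable_cons).aemeasurable

theorem split2 (E q : Measure ℝ) [IsProbabilityMeasure E] [IsProbabilityMeasure q]
    (Φ : (ℕ → ℝ) × (ℕ → ℝ) → ℝ≥0∞) (hΦ : Measurable Φ) :
    ∫⁻ z, Φ z ∂(PQ E q) =
      ∫⁻ x, ∫⁻ v, ∫⁻ z, Φ (cons (x, z.1), cons (v, z.2)) ∂(PQ E q) ∂q ∂E := by
  rw [lintegral_prod _ hΦ.aemeasurable, split1 E _ hΦ.lintegral_prod_right']
  refine lintegral_congr fun x => ?_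
  have h1 : ∀ g : ℕ → ℝ, ∫⁻ V, Φ (cons (x, g), V) ∂(Measure.infinitePi fun _ : ℕ => q) =
      ∫⁻ v, ∫⁻ V, Φ (cons (x, g), cons (v, V)) ∂(Measure.infinitePi fun _ : ℕ => q) ∂q := by
    intro g
    exact split1 q (fun V => Φ (cons (x, g), V)) (hΦ.comp measurable_prodMk_left)
  simp only [h1]
  have hm : Measurable (fun p : ((ℕ → ℝ) × ℝ) × (ℕ → ℝ) =>
      Φ (cons (x, p.1.1), cons (p.1.2, p.2))) := by
    refine hΦ.comp (Measurable.prodMk ?_ ?_)
    · exact measurable_cons.comp (measurable_const.prodMk (measurable_fst.comp measurable_fst))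
    · exact measurable_cons.comp ((measurable_snd.comp measurable_fst).prodMk measurable_snd)
  rw [lintegral_lintegral_swap hm.lintegral_prod_right'.aemeasurable]
  refine lintegral_congr fun v => ?_
  have hm2 : Measurable (fun p : (ℕ → ℝ) × (ℕ → ℝ) => Φ (cons (x, p.1), cons (v, p.2))) := by
    refine hΦ.comp (Measurable.prodMk ?_ ?_)
    · exact measurable_cons.comp (measurable_const.prodMk measurable_fst)
    · exact measurable_cons.comp (measurable_const.prodMk measurable_snd)
  rw [lintegral_prod _ hm2.aemeasurable]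

/-! ### counting -/

theorem sum_cons (x : ℝ) (g : ℕ → ℝ) (k : ℕ) :
    ∑ i ∈ Finset.range (k + 1), cons (x, g) i = x + ∑ i ∈ Finset.range k, g i := by
  rw [Finset.sum_range_succ', add_comm]
  rfl

theorem cnt_eq {g : ℕ → ℝ} {t : ℝ} {n : ℕ} (h : t < ∑ i ∈ Finset.range (n + 1), g i)
    (h' : ∀ m < n, ¬ t < ∑ i ∈ Finset.range (m + 1), g i) : cnt g t = n := by
  refine le_antisymm (Nat.sInf_le h) ?_
  by_contra hc
  exact h' _ (not_le.1 hc) (Nat.sInf_mem (s := {k | t < ∑ i ∈ Finset.range (k + 1), g i}) ⟨n, h⟩)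

theorem cnt_spec {g : ℕ → ℝ} {t : ℝ} (h : ∃ k : ℕ, t < ∑ i ∈ Finset.range (k + 1), g i) :
    t < ∑ i ∈ Finset.range (cnt g t + 1), g i :=
  Nat.sInf_mem (s := {k | t < ∑ i ∈ Finset.range (k + 1), g i}) h

theorem cnt_min {g : ℕ → ℝ} {t : ℝ} {m : ℕ} (h : m < cnt g t) :
    ¬ t < ∑ i ∈ Finset.range (m + 1), g i :=
  Nat.notMem_of_lt_sInf (s := {k | t < ∑ i ∈ Finset.range (k + 1), g i}) h

theorem cnt_cons_lt {x s : ℝ} (g : ℕ → ℝ) (h : s < x) : cnt (cons (x, g)) s = 0 := by
  refine cnt_eq ?_ (fun m hm => absurd hm (Nat.not_lt_zero m))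
  rw [sum_cons]
  simpa using h

theorem cnt_cons_ge {x s : ℝ} {g : ℕ → ℝ} (h : x ≤ s)
    (hg : ∃ k : ℕ, s - x < ∑ i ∈ Finset.range (k + 1), g i) :
    cnt (cons (x, g)) s = cnt g (s - x) + 1 := by
  refine cnt_eq ?_ ?_
  · rw [sum_cons]
    have := cnt_spec hg
    linarith
  · intro m hm
    rw [sum_cons]
    rcases m with - | m
    · simpa using h
    · have := cnt_min (g := g) (t := s - x) (m := m) (by omega)
      intro h1
      apply this
      linarith

theorem cnt_shift (x s t : ℝ) (g : ℕ → ℝ) : cnt (cons (x, g)) t = cnt (cons (x - s, g)) (t - s) := by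
  unfold cnt
  congr 1
  ext k
  simp only [Set.mem_ofPred_eq, sum_cons]
  constructor <;> intro h <;> linarith

theorem meas_cnt (t : ℝ) : Measurable fun g : ℕ → ℝ => cnt g t := by
  have hm : ∀ k : ℕ, MeasurableSet {g : ℕ → ℝ | t < ∑ i ∈ Finset.range (k + 1), g i} := fun k =>
    measurableSet_lt measurable_const (Finset.measurable_sum _ fun i _ => measurable_pi_apply i)
  refine measurable_to_countable' fun n => ?_
  have e : (fun g : ℕ → ℝ => cnt g t) ⁻¹' {n} =
      ({g | t < ∑ i ∈ Finset.range (n + 1), g i} ∩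
        ⋂ m : ℕ, ⋂ (_ : m < n), {g | t < ∑ i ∈ Finset.range (m + 1), g i}ᶜ) ∪
      ({g | n = 0} ∩ ⋂ m : ℕ, {g | t < ∑ i ∈ Finset.range (m + 1), g i}ᶜ) := by
    ext g
    simp only [Set.mem_preimage, Set.mem_singleton_iff, Set.mem_union, Set.mem_inter_iff,
      Set.mem_ofPred_eq, Set.mem_iInter, Set.mem_compl_iff]
    constructor
    · intro h
      by_cases hg : ∃ k : ℕ, t < ∑ i ∈ Finset.range (k + 1), g i
      · left
        rw [← h]
        exact ⟨cnt_spec hg, fun m hm => cnt_min hm⟩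
      · right
        refine ⟨?_, fun m hm => hg ⟨m, hm⟩⟩
        rw [← h]
        unfold cnt
        have : {k : ℕ | t < ∑ i ∈ Finset.range (k + 1), g i} = ∅ := by
          ext k
          simp only [Set.mem_ofPred_eq, Set.mem_empty_iff_false, iff_false]
          exact fun hk => hg ⟨k, hk⟩
        rw [this, Nat.sInf_empty]
    · rintro (⟨h1, h2⟩ | ⟨h1, h2⟩)
      · exact cnt_eq h1 h2
      · rw [h1]
        unfold cnt
        have : {k : ℕ | t < ∑ i ∈ Finset.range (k + 1), g i} = ∅ := by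
          ext k
          simp only [Set.mem_ofPred_eq, Set.mem_empty_iff_false, iff_false]
          exact h2 k
        rw [this, Nat.sInf_empty]
  rw [e]
  refine MeasurableSet.union ((hm n).inter ?_) (MeasurableSet.inter ?_ ?_)
  · exact MeasurableSet.iInter fun m => MeasurableSet.iInter fun _ => (hm m).compl
  · exact MeasurableSet.const _
  · exact MeasurableSet.iInter fun m => (hm m).compl

theorem meas_eval : Measurable fun p : ℕ × (ℕ → ℝ) => p.2 p.1 :=
  measurable_from_prod_countable_right fun n => measurable_pi_apply n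

/-- the product of the functions of the values at the given times -/
noncomputable def FF' (f : ℕ → ℝ → ℝ≥0∞) (n : ℕ) (t : ℕ → ℝ) (w : ℝ) (z : (ℕ → ℝ) × (ℕ → ℝ)) :
    ℝ≥0∞ := ∏ i ∈ Finset.range n, f i (cons (w, z.2) (cnt z.1 (t i)))

theorem meas_FF {f : ℕ → ℝ → ℝ≥0∞} (hf : ∀ i, Measurable (f i)) (n : ℕ) (t : ℕ → ℝ) (w : ℝ) :
    Measurable (FF' f n t w) := by
  unfold FF'
  refine Finset.measurable_fun_prod _ fun i _ => (hf i).comp ?_
  have h1 : Measurable fun z : (ℕ → ℝ) × (ℕ → ℝ) => (cnt z.1 (t i), cons (w, z.2)) :=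
    ((meas_cnt (t i)).comp measurable_fst).prodMk
      (measurable_cons.comp (measurable_const.prodMk measurable_snd))
  exact meas_eval.comp h1

theorem FF_le {f : ℕ → ℝ → ℝ≥0∞} (hf : ∀ i x, f i x ≤ 1) (n : ℕ) (t : ℕ → ℝ) (w : ℝ)
    (z : (ℕ → ℝ) × (ℕ → ℝ)) : FF' f n t w z ≤ 1 :=
  Finset.prod_le_one' fun i _ => hf i _

/-- the mean -/
noncomputable def AA (E q : Measure ℝ) (f : ℕ → ℝ → ℝ≥0∞) (n : ℕ) (t : ℕ → ℝ) (w : ℝ) : ℝ≥0∞ :=
  ∫⁻ z, FF' f n t w z ∂(PQ E q)

theorem AA_le (E q : Measure ℝ) [IsProbabilityMeasure E] [IsProbabilityMeasure q]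
    {f : ℕ → ℝ → ℝ≥0∞} (hf : ∀ i x, f i x ≤ 1) (n : ℕ) (t : ℕ → ℝ) (w : ℝ) :
    AA E q f n t w ≤ 1 := by
  calc AA E q f n t w ≤ ∫⁻ _, 1 ∂(PQ E q) := lintegral_mono fun z => FF_le hf n t w z
    _ = 1 := by rw [lintegral_one, measure_univ]

/-! ### the exponential law -/

theorem exp_Iic {mu : ℝ} (hmu : 0 < mu) {s : ℝ} (hs : 0 ≤ s) :
    (expMeasure mu) (Iic s) = ENNReal.ofReal (1 - Real.exp (-(mu * s))) := by
  have := isProbabilityMeasure_expMeasure hmu
  rw [← ofReal_cdf, cdf_expMeasure_eq hmu, if_pos hs]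

theorem exp_ac (mu : ℝ) : expMeasure mu ≪ volume := withDensity_absolutelyContinuous _ _

theorem exp_singleton (mu s : ℝ) : (expMeasure mu) {s} = 0 := exp_ac mu (by simp)

theorem exp_pos' {mu : ℝ} (hmu : 0 < mu) : ∀ᵐ x ∂(expMeasure mu), 0 < x := by
  rw [ae_iff]
  have : {a : ℝ | ¬ 0 < a} = Iic 0 := by
    ext a
    simp
  rw [this, exp_Iic hmu le_rfl]
  simp

theorem memless {mu : ℝ} (hmu : 0 < mu) {s : ℝ} (hs : 0 ≤ s) (φ : ℝ → ℝ≥0∞) (hφ : Measurable φ) :
    ∫⁻ x, (if s < x then φ (x - s) else 0) ∂(expMeasure mu) =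
      ENNReal.ofReal (Real.exp (-(mu * s))) * ∫⁻ y, φ y ∂(expMeasure mu) := by
  have hd : expMeasure mu = volume.withDensity (exponentialPDF mu) := rfl
  have hpm : Measurable (exponentialPDF mu) := (measurable_exponentialPDFReal mu).ennreal_ofReal
  have hm1 : Measurable fun x : ℝ => (if s < x then φ (x - s) else 0) :=
    Measurable.ite (measurableSet_lt measurable_const measurable_id)
      (hφ.comp (measurable_id.sub_const s)) measurable_const
  rw [hd, lintegral_withDensity_eq_lintegral_mul _ hpm hm1,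
    lintegral_withDensity_eq_lintegral_mul _ hpm hφ,
    ← lintegral_const_mul _ (hpm.mul hφ),
    ← lintegral_add_right_eq_self _ s]
  refine lintegral_congr_ae ?_
  have h0 : ∀ᵐ y : ℝ, y ≠ 0 := by
    rw [ae_iff]
    simp
  filter_upwards [h0] with y hy
  simp only [Pi.mul_apply]
  rcases lt_or_gt_of_ne hy with h | h
  · rw [if_neg (by linarith), exponentialPDF_of_neg h]
    simp
  · rw [if_pos (by linarith), exponentialPDF_of_nonneg (by linarith), exponentialPDF_of_nonneg h.le,
      add_sub_cancel_right, ← mul_assoc, ← ENNReal.ofReal_mul (Real.exp_pos _).le]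
    congr 2
    rw [mul_left_comm, ← Real.exp_add]
    congr 2
    ring

/-- the sums of the gaps diverge -/
theorem diverge {mu : ℝ} (hmu : 0 < mu) :
    ∀ᵐ g ∂(Measure.infinitePi fun _ : ℕ => expMeasure mu),
      ∀ t : ℝ, ∃ k : ℕ, t < ∑ i ∈ Finset.range (k + 1), g i := by
  have hE := isProbabilityMeasure_expMeasure hmu
  have key : ∀ N : ℕ, (Measure.infinitePi fun _ : ℕ => expMeasure mu)
      {g | ∀ k : ℕ, ∑ i ∈ Finset.range (k + 1), g i ≤ N} = 0 := by
    intro N
    have hms : MeasurableSet {g : ℕ → ℝ | ∀ k : ℕ, ∑ i ∈ Finset.range (k + 1), g i ≤ (N : ℝ)} := by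
      have : {g : ℕ → ℝ | ∀ k : ℕ, ∑ i ∈ Finset.range (k + 1), g i ≤ (N : ℝ)} =
          ⋂ k : ℕ, {g | ∑ i ∈ Finset.range (k + 1), g i ≤ (N : ℝ)} := by
        ext g
        simp
      rw [this]
      exact MeasurableSet.iInter fun k =>
        measurableSet_le (Finset.measurable_sum _ fun i _ => measurable_pi_apply i) measurable_const
    obtain ⟨S, hS⟩ : ∃ S : Set (ℕ → ℝ),
      S = {g : ℕ → ℝ | ∀ k : ℕ, ∑ i ∈ Finset.range (k + 1), g i ≤ (N : ℝ)} := ⟨_, rfl⟩
    rw [← hS] at hms ⊢
    obtain ⟨u, hu⟩ : ∃ u, u = (Measure.infinitePi fun _ : ℕ => expMeasure mu) S := ⟨_, rfl⟩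
    have hu1 : u ≤ 1 := by
      rw [hu]
      exact prob_le_one
    have h1 : u ≤ (expMeasure mu) (Iic (N : ℝ)) * u := by
      calc u = ∫⁻ g, S.indicator 1 g ∂(Measure.infinitePi fun _ : ℕ => expMeasure mu) := by
            rw [lintegral_indicator_one hms, hu]
        _ = ∫⁻ x, ∫⁻ g, S.indicator 1 (cons (x, g)) ∂(Measure.infinitePi fun _ : ℕ =>
              expMeasure mu) ∂(expMeasure mu) := split1 _ _ (measurable_one.indicator hms)
        _ ≤ ∫⁻ x, (Iic (N : ℝ)).indicator (fun _ => u) x ∂(expMeasure mu) := by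
            refine lintegral_mono_ae ?_
            filter_upwards [exp_pos' hmu] with x hx
            by_cases hxN : x ≤ N
            · rw [Set.indicator_of_mem (show x ∈ Iic (N : ℝ) from hxN), hu,
                ← lintegral_indicator_one hms]
              refine lintegral_mono fun g => ?_
              by_cases hg : cons (x, g) ∈ S
              · have hg' : g ∈ S := by
                  rw [hS] at hg ⊢
                  intro k
                  have := hg (k + 1)
                  rw [sum_cons] at this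
                  linarith
                rw [Set.indicator_of_mem hg, Set.indicator_of_mem hg']
                rfl
              · rw [Set.indicator_of_notMem hg]
                exact zero_le
            · rw [Set.indicator_of_notMem (show x ∉ Iic (N : ℝ) from hxN)]
              have : ∀ g : ℕ → ℝ, S.indicator (1 : (ℕ → ℝ) → ℝ≥0∞) (cons (x, g)) = 0 := by
                intro g
                refine Set.indicator_of_notMem ?_ _
                rw [hS]
                intro hg
                have := hg 0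
                rw [sum_cons] at this
                simp at this
                exact hxN this
              simp only [this, lintegral_zero, le_refl]
        _ = (expMeasure mu) (Iic (N : ℝ)) * u := by
            rw [lintegral_indicator_const measurableSet_Iic, mul_comm]
    by_contra hne
    have hne' : u ≠ 0 := by rwa [hu]
    have h2 : (1 : ℝ≥0∞) ≤ (expMeasure mu) (Iic (N : ℝ)) := by
      have h3 : 1 * u ≤ (expMeasure mu) (Iic (N : ℝ)) * u := by rwa [one_mul]
      exact (ENNReal.mul_le_mul_iff_left hne' (ne_top_of_le_ne_top ENNReal.one_ne_top hu1)).1 h3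
    rw [exp_Iic hmu (Nat.cast_nonneg N), ENNReal.one_le_ofReal] at h2
    have := Real.exp_pos (-(mu * (N : ℝ)))
    linarith
  have h2 : ∀ᵐ g ∂(Measure.infinitePi fun _ : ℕ => expMeasure mu), ∀ N : ℕ,
      ¬ ∀ k : ℕ, ∑ i ∈ Finset.range (k + 1), g i ≤ (N : ℝ) := by
    rw [ae_all_iff]
    intro N
    rw [ae_iff]
    simpa using key N
  filter_upwards [h2] with g hg t
  obtain ⟨N, hN⟩ := exists_nat_ge t
  have h3 := hg N
  push Not at h3
  obtain ⟨k, hk⟩ := h3
  exact ⟨k, lt_of_le_of_lt hN hk⟩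

/-- the renewal equation -/
theorem renewal {mu : ℝ} (hmu : 0 < mu) (H : ℝ → ℝ≥0∞) (c : ℝ≥0∞) (hc : c ≤ 1) (hH : ∀ s, H s ≤ 1)
    (h : ∀ s, 0 ≤ s → H s = ENNReal.ofReal (Real.exp (-(mu * s))) * c +
      ∫⁻ x, (if x ≤ s then H (s - x) else 0) ∂(expMeasure mu)) :
    ∀ s, 0 ≤ s → H s = c := by
  have hE := isProbabilityMeasure_expMeasure hmu
  intro s hs
  obtain ⟨θ, hθ⟩ : ∃ θ : ℝ≥0∞, θ = ENNReal.ofReal (1 - Real.exp (-(mu * s))) := ⟨_, rfl⟩
  have hθ1 : θ < 1 := by
    rw [hθ, ENNReal.ofReal_lt_one]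
    have := Real.exp_pos (-(mu * s))
    linarith
  have hint : ∀ r, 0 ≤ r → ∀ a : ℝ≥0∞, ∫⁻ x, (if x ≤ r then a else 0) ∂(expMeasure mu) =
      a * ENNReal.ofReal (1 - Real.exp (-(mu * r))) := by
    intro r hr a
    have e : (fun x : ℝ => if x ≤ r then a else 0) = (Iic r).indicator fun _ => a := by
      funext x
      by_cases hx : x ≤ r
      · rw [if_pos hx, Set.indicator_of_mem (show x ∈ Iic r from hx)]
      · rw [if_neg hx, Set.indicator_of_notMem (show x ∉ Iic r from hx)]
    rw [e, lintegral_indicator_const measurableSet_Iic, exp_Iic hmu hr]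
  have hsum : ∀ r, 0 ≤ r → ENNReal.ofReal (Real.exp (-(mu * r))) +
      ENNReal.ofReal (1 - Real.exp (-(mu * r))) = 1 := by
    intro r hr
    rw [← ENNReal.ofReal_add (Real.exp_pos _).le, add_sub_cancel, ENNReal.ofReal_one]
    have : Real.exp (-(mu * r)) ≤ 1 := Real.exp_le_one_iff.2 (by nlinarith)
    linarith
  have hmon : ∀ r, 0 ≤ r → r ≤ s → ENNReal.ofReal (1 - Real.exp (-(mu * r))) ≤ θ := by
    intro r hr hrs
    rw [hθ]
    refine ENNReal.ofReal_le_ofReal ?_
    have : Real.exp (-(mu * s)) ≤ Real.exp (-(mu * r)) := Real.exp_le_exp.2 (by nlinarith)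
    linarith
  have up : ∀ n : ℕ, ∀ r, 0 ≤ r → r ≤ s → H r ≤ c + θ ^ n := by
    intro n
    induction n with
    | zero =>
      intro r _ _
      rw [pow_zero]
      exact (hH r).trans le_add_self
    | succ n ih =>
      intro r hr hrs
      rw [h r hr]
      calc ENNReal.ofReal (Real.exp (-(mu * r))) * c +
            ∫⁻ x, (if x ≤ r then H (r - x) else 0) ∂(expMeasure mu)
          ≤ ENNReal.ofReal (Real.exp (-(mu * r))) * c +
            ∫⁻ x, (if x ≤ r then c + θ ^ n else 0) ∂(expMeasure mu) := by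
            refine add_le_add le_rfl (lintegral_mono_ae ?_)
            filter_upwards [exp_pos' hmu] with x hx
            split_ifs with hxr
            · exact ih (r - x) (by linarith) (by linarith)
            · exact le_rfl
        _ = (ENNReal.ofReal (Real.exp (-(mu * r))) + ENNReal.ofReal (1 - Real.exp (-(mu * r)))) * c +
            θ ^ n * ENNReal.ofReal (1 - Real.exp (-(mu * r))) := by
            rw [hint r hr]
            ring
        _ ≤ c + θ ^ (n + 1) := by
            rw [hsum r hr, one_mul, pow_succ]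
            gcongr
            exact hmon r hr hrs
  have lo : ∀ n : ℕ, ∀ r, 0 ≤ r → r ≤ s → c ≤ H r + θ ^ n := by
    intro n
    induction n with
    | zero =>
      intro r _ _
      rw [pow_zero]
      exact hc.trans le_add_self
    | succ n ih =>
      intro r hr hrs
      calc c = ENNReal.ofReal (Real.exp (-(mu * r))) * c +
            ∫⁻ x, (if x ≤ r then c else 0) ∂(expMeasure mu) := by
            rw [hint r hr]
            have e : c = (ENNReal.ofReal (Real.exp (-(mu * r))) +
              ENNReal.ofReal (1 - Real.exp (-(mu * r)))) * c := by rw [hsum r hr, one_mul]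
            conv_lhs => rw [e]
            ring
        _ ≤ ENNReal.ofReal (Real.exp (-(mu * r))) * c +
            ∫⁻ x, ((if x ≤ r then H (r - x) else 0) + (if x ≤ r then θ ^ n else 0))
              ∂(expMeasure mu) := by
            refine add_le_add le_rfl (lintegral_mono_ae ?_)
            filter_upwards [exp_pos' hmu] with x hx
            split_ifs with hxr
            · exact ih (r - x) (by linarith) (by linarith)
            · simp
        _ = H r + θ ^ n * ENNReal.ofReal (1 - Real.exp (-(mu * r))) := by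
            have hm : Measurable fun x : ℝ => if x ≤ r then θ ^ n else 0 :=
              Measurable.ite (measurableSet_le measurable_id measurable_const) measurable_const
                measurable_const
            rw [lintegral_add_right _ hm, hint r hr, h r hr, add_assoc]
        _ ≤ H r + θ ^ (n + 1) := by
            rw [pow_succ]
            gcongr
            exact hmon r hr hrs
  have hlim : Tendsto (fun n : ℕ => θ ^ n) atTop (𝓝 0) :=
    ENNReal.tendsto_pow_atTop_nhds_zero_of_lt_one hθ1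
  refine le_antisymm ?_ ?_
  · have h1 : Tendsto (fun n : ℕ => c + θ ^ n) atTop (𝓝 (c + 0)) := tendsto_const_nhds.add hlim
    rw [add_zero] at h1
    exact ge_of_tendsto h1 (Eventually.of_forall fun n => up n s hs le_rfl)
  · have h1 : Tendsto (fun n : ℕ => H s + θ ^ n) atTop (𝓝 (H s + 0)) := tendsto_const_nhds.add hlim
    rw [add_zero] at h1
    exact ge_of_tendsto h1 (Eventually.of_forall fun n => lo n s hs le_rfl)

/-! ### the recursion -/

theorem FF_succ_lt (f : ℕ → ℝ → ℝ≥0∞) (n : ℕ) (τ : ℕ → ℝ) (w s x v : ℝ) (hτ : τ 0 = 0) (hx : s < x)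
    (z : (ℕ → ℝ) × (ℕ → ℝ)) :
    FF' f (n + 1) (fun i => s + τ i) w (cons (x, z.1), cons (v, z.2)) =
      f 0 w * FF' (fun i => f (i + 1)) n (fun i => τ (i + 1)) w
        (cons (x - s, z.1), cons (v, z.2)) := by
  unfold FF'
  rw [Finset.prod_range_succ', mul_comm]
  congr 1
  · simp only [hτ, add_zero]
    rw [cnt_cons_lt _ hx]
    rfl
  · refine Finset.prod_congr rfl fun i _ => ?_
    simp only
    rw [cnt_shift x s (s + τ (i + 1)) z.1, add_sub_cancel_left]

theorem FF_succ_ge (f : ℕ → ℝ → ℝ≥0∞) (n : ℕ) (τ : ℕ → ℝ) (w s x v : ℝ) (hτ : ∀ i, 0 ≤ τ i)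
    (hx : x ≤ s) (z : (ℕ → ℝ) × (ℕ → ℝ))
    (hz : ∀ t : ℝ, ∃ k : ℕ, t < ∑ i ∈ Finset.range (k + 1), z.1 i) :
    FF' f n (fun i => s + τ i) w (cons (x, z.1), cons (v, z.2)) =
      FF' f n (fun i => (s - x) + τ i) v z := by
  unfold FF'
  refine Finset.prod_congr rfl fun i _ => ?_
  simp only
  rw [cnt_cons_ge (by have := hτ i; linarith) (hz _)]
  have e : s + τ i - x = s - x + τ i := by ring
  rw [e]
  rfl

theorem diverge' {mu : ℝ} (hmu : 0 < mu) (q : Measure ℝ) [IsProbabilityMeasure q] :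
    ∀ᵐ z ∂(PQ (expMeasure mu) q), ∀ t : ℝ, ∃ k : ℕ, t < ∑ i ∈ Finset.range (k + 1), z.1 i := by
  have hE := isProbabilityMeasure_expMeasure hmu
  exact Measure.quasiMeasurePreserving_fst.ae (diverge hmu)

theorem gapA {mu : ℝ} (hmu : 0 < mu) (q : Measure ℝ) [IsProbabilityMeasure q]
    {f : ℕ → ℝ → ℝ≥0∞} (hf : ∀ i, Measurable (f i)) (hf1 : ∀ i x, f i x ≤ 1) (n : ℕ) (τ : ℕ → ℝ)
    (hτ0 : τ 0 = 0) (hτ : ∀ i, 0 ≤ τ i) (w s : ℝ) (hs : 0 ≤ s) :
    AA (expMeasure mu) q f (n + 1) (fun i => s + τ i) w =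
      ENNReal.ofReal (Real.exp (-(mu * s))) *
        (f 0 w * AA (expMeasure mu) q (fun i => f (i + 1)) n (fun i => τ (i + 1)) w) +
      ∫⁻ x, (if x ≤ s then ∫⁻ v, AA (expMeasure mu) q f (n + 1) (fun i => (s - x) + τ i) v ∂q
        else 0) ∂(expMeasure mu) := by
  have hE := isProbabilityMeasure_expMeasure hmu
  obtain ⟨ψ, hψ⟩ : ∃ ψ : ℝ → ℝ≥0∞, ψ = fun y => ∫⁻ v, ∫⁻ z,
    FF' (fun i => f (i + 1)) n (fun i => τ (i + 1)) w (cons (y, z.1), cons (v, z.2))
      ∂(PQ (expMeasure mu) q) ∂q := ⟨_, rfl⟩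
  have hmF := meas_FF (fun i => hf (i + 1)) n (fun i => τ (i + 1)) w
  have hψm : Measurable ψ := by
    rw [hψ]
    have h1 : Measurable fun p : (ℝ × ℝ) × ((ℕ → ℝ) × (ℕ → ℝ)) =>
        FF' (fun i => f (i + 1)) n (fun i => τ (i + 1)) w
          (cons (p.1.1, p.2.1), cons (p.1.2, p.2.2)) := by
      refine hmF.comp (Measurable.prodMk ?_ ?_)
      · exact measurable_cons.comp ((measurable_fst.comp measurable_fst).prodMk
          (measurable_fst.comp measurable_snd))
      · exact measurable_cons.comp ((measurable_snd.comp measurable_fst).prodMk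
          (measurable_snd.comp measurable_snd))
    exact h1.lintegral_prod_right'.lintegral_prod_right'
  have hw : f 0 w ≠ ⊤ := ne_top_of_le_ne_top ENNReal.one_ne_top (hf1 0 w)
  have h1 : AA (expMeasure mu) q f (n + 1) (fun i => s + τ i) w =
      ∫⁻ x, ((if s < x then f 0 w * ψ (x - s) else 0) +
        (if x ≤ s then ∫⁻ v, AA (expMeasure mu) q f (n + 1) (fun i => (s - x) + τ i) v ∂q
          else 0)) ∂(expMeasure mu) := by
    unfold AA
    rw [split2 _ _ _ (meas_FF hf (n + 1) (fun i => s + τ i) w)]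
    refine lintegral_congr fun x => ?_
    by_cases hx : s < x
    · rw [if_pos hx, if_neg (not_le.2 hx), add_zero, hψ]
      simp only [FF_succ_lt f n τ w s x _ hτ0 hx]
      have h2 : ∀ v : ℝ, ∫⁻ z, f 0 w * FF' (fun i => f (i + 1)) n (fun i => τ (i + 1)) w
          (cons (x - s, z.1), cons (v, z.2)) ∂(PQ (expMeasure mu) q) =
          f 0 w * ∫⁻ z, FF' (fun i => f (i + 1)) n (fun i => τ (i + 1)) w
          (cons (x - s, z.1), cons (v, z.2)) ∂(PQ (expMeasure mu) q) := fun v =>
        lintegral_const_mul' _ _ hw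
      simp only [h2]
      rw [lintegral_const_mul' _ _ hw]
    · rw [if_neg hx, if_pos (not_lt.1 hx), zero_add]
      refine lintegral_congr fun v => ?_
      refine lintegral_congr_ae ?_
      filter_upwards [diverge' hmu q] with z hz
      exact FF_succ_ge f (n + 1) τ w s x v hτ (not_lt.1 hx) z hz
  have hm1 : Measurable fun x : ℝ => (if s < x then f 0 w * ψ (x - s) else 0) :=
    Measurable.ite (measurableSet_lt measurable_const measurable_id)
      ((hψm.comp (measurable_id.sub_const s)).const_mul _) measurable_const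
  rw [h1, lintegral_add_left hm1]
  congr 1
  rw [memless hmu hs (fun y => f 0 w * ψ y) (hψm.const_mul _), lintegral_const_mul' _ _ hw]
  congr 2
  unfold AA
  rw [split2 _ _ _ hmF, hψ]

theorem recA {mu : ℝ} (hmu : 0 < mu) (q : Measure ℝ) [IsProbabilityMeasure q]
    {f : ℕ → ℝ → ℝ≥0∞} (hf : ∀ i, Measurable (f i)) (hf1 : ∀ i x, f i x ≤ 1) (n : ℕ) (t : ℕ → ℝ)
    (ht0 : 0 ≤ t 0) (ht : Monotone t) (w : ℝ) :
    AA (expMeasure mu) q f (n + 1) t w = ENNReal.ofReal (Real.exp (-(mu * t 0))) *
        (f 0 w * AA (expMeasure mu) q (fun i => f (i + 1)) n (fun i => t (i + 1) - t 0) w) +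
      (∫⁻ v, f 0 v * AA (expMeasure mu) q (fun i => f (i + 1)) n (fun i => t (i + 1) - t 0) v ∂q) *
        ENNReal.ofReal (1 - Real.exp (-(mu * t 0))) := by
  have hE := isProbabilityMeasure_expMeasure hmu
  obtain ⟨τ, hτ⟩ : ∃ τ : ℕ → ℝ, τ = fun i => t i - t 0 := ⟨_, rfl⟩
  have hτ0 : τ 0 = 0 := by rw [hτ]; simp
  have hτn : ∀ i, 0 ≤ τ i := fun i => by
    rw [hτ]
    exact sub_nonneg.2 (ht (Nat.zero_le i))
  have et : t = fun i => t 0 + τ i := by
    funext i
    rw [hτ]
    ring
  have et' : (fun i => t (i + 1) - t 0) = fun i => τ (i + 1) := by rw [hτ]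
  rw [et']
  obtain ⟨c, hc⟩ : ∃ c, c = ∫⁻ v, f 0 v *
    AA (expMeasure mu) q (fun i => f (i + 1)) n (fun i => τ (i + 1)) v ∂q := ⟨_, rfl⟩
  have hc1 : c ≤ 1 := by
    rw [hc]
    calc _ ≤ ∫⁻ _, 1 ∂q := lintegral_mono fun v => by
          calc f 0 v * AA (expMeasure mu) q (fun i => f (i + 1)) n (fun i => τ (i + 1)) v ≤ 1 * 1 :=
                mul_le_mul' (hf1 0 v) (AA_le _ _ (fun i => hf1 (i + 1)) _ _ _)
            _ = 1 := one_mul 1
      _ = 1 := by rw [lintegral_one, measure_univ]
  have hH1 : ∀ s, ∫⁻ v, AA (expMeasure mu) q f (n + 1) (fun i => s + τ i) v ∂q ≤ 1 := by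
    intro s
    calc _ ≤ ∫⁻ _, 1 ∂q := lintegral_mono fun v => AA_le _ _ hf1 _ _ _
      _ = 1 := by rw [lintegral_one, measure_univ]
  have hren := renewal hmu (fun s => ∫⁻ v, AA (expMeasure mu) q f (n + 1) (fun i => s + τ i) v ∂q) c
    hc1 hH1 (by
      intro s hs
      have h1 := fun v => gapA hmu q hf hf1 n τ hτ0 hτn v s hs
      simp only [h1]
      rw [lintegral_add_right _ measurable_const, lintegral_const, measure_univ, mul_one,
        lintegral_const_mul' _ _ ENNReal.ofReal_ne_top, hc])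
  conv_lhs => rw [et]
  rw [gapA hmu q hf hf1 n τ hτ0 hτn w (t 0) ht0, ← hc]
  congr 1
  have h2 : ∫⁻ x, (if x ≤ t 0 then
      ∫⁻ v, AA (expMeasure mu) q f (n + 1) (fun i => (t 0 - x) + τ i) v ∂q else 0)
      ∂(expMeasure mu) = ∫⁻ x, (Iic (t 0)).indicator (fun _ => c) x ∂(expMeasure mu) := by
    refine lintegral_congr fun x => ?_
    by_cases hx : x ≤ t 0
    · rw [if_pos hx, Set.indicator_of_mem (show x ∈ Iic (t 0) from hx)]
      exact hren (t 0 - x) (by linarith)
    · rw [if_neg hx, Set.indicator_of_notMem (show x ∉ Iic (t 0) from hx)]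
  rw [h2, lintegral_indicator_const measurableSet_Iic, exp_Iic hmu ht0]

/-! ### the chain -/

theorem meas_ech (t : ℕ → ℝ) (i : ℕ) :
    Measurable fun p : ℝ × ((ℕ → ℝ) × (ℕ → ℝ)) => ech t p.1 p.2.1 p.2.2 i := by
  induction i with
  | zero =>
    refine Measurable.ite (measurableSet_lt ?_ measurable_const) ?_ measurable_fst
    · exact (measurable_pi_apply 0).comp (measurable_fst.comp measurable_snd)
    · exact (measurable_pi_apply 0).comp (measurable_snd.comp measurable_snd)
  | succ i ih =>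
    refine Measurable.ite (measurableSet_lt ?_ measurable_const) ?_ ih
    · exact (measurable_pi_apply (i + 1)).comp (measurable_fst.comp measurable_snd)
    · exact (measurable_pi_apply (i + 1)).comp (measurable_snd.comp measurable_snd)

/-- the product of the functions of the values of the chain -/
noncomputable def GG (f : ℕ → ℝ → ℝ≥0∞) (n : ℕ) (t : ℕ → ℝ) (w : ℝ) (z : (ℕ → ℝ) × (ℕ → ℝ)) :
    ℝ≥0∞ := ∏ i ∈ Finset.range n, f i (ech t w z.1 z.2 i)

theorem meas_GG {f : ℕ → ℝ → ℝ≥0∞} (hf : ∀ i, Measurable (f i)) (n : ℕ) (t : ℕ → ℝ) :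
    Measurable fun p : ℝ × ((ℕ → ℝ) × (ℕ → ℝ)) => GG f n t p.1 p.2 := by
  unfold GG
  exact Finset.measurable_fun_prod _ fun i _ => (hf i).comp (meas_ech t i)

/-- the mean -/
noncomputable def BB (E q : Measure ℝ) (f : ℕ → ℝ → ℝ≥0∞) (n : ℕ) (t : ℕ → ℝ) (w : ℝ) : ℝ≥0∞ :=
  ∫⁻ z, GG f n t w z ∂(PQ E q)

theorem ech_cons (t : ℕ → ℝ) (w x v : ℝ) (g V : ℕ → ℝ) (i : ℕ) :
    ech t w (cons (x, g)) (cons (v, V)) (i + 1) =
      ech (fun i => t (i + 1) - t 0) (if x < t 0 then v else w) g V i := by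
  induction i with
  | zero => rfl
  | succ i ih =>
    show (if cons (x, g) (i + 2) < t (i + 2) - t (i + 1) then cons (v, V) (i + 2)
      else ech t w (cons (x, g)) (cons (v, V)) (i + 1)) = _
    rw [ih]
    have e : t (i + 2) - t (i + 1) = (t (i + 1 + 1) - t 0) - (t (i + 1) - t 0) := by ring
    rw [e]
    rfl

theorem recB {mu : ℝ} (hmu : 0 < mu) (q : Measure ℝ) [IsProbabilityMeasure q]
    {f : ℕ → ℝ → ℝ≥0∞} (hf : ∀ i, Measurable (f i)) (hf1 : ∀ i x, f i x ≤ 1) (n : ℕ) (t : ℕ → ℝ)
    (ht0 : 0 ≤ t 0) (w : ℝ) :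
    BB (expMeasure mu) q f (n + 1) t w = ENNReal.ofReal (Real.exp (-(mu * t 0))) *
        (f 0 w * BB (expMeasure mu) q (fun i => f (i + 1)) n (fun i => t (i + 1) - t 0) w) +
      (∫⁻ v, f 0 v * BB (expMeasure mu) q (fun i => f (i + 1)) n (fun i => t (i + 1) - t 0) v ∂q) *
        ENNReal.ofReal (1 - Real.exp (-(mu * t 0))) := by
  have hE := isProbabilityMeasure_expMeasure hmu
  have hmG : Measurable (GG f (n + 1) t w) := (meas_GG hf (n + 1) t).comp measurable_prodMk_left
  have h1 : BB (expMeasure mu) q f (n + 1) t w = ∫⁻ x, ((Iio (t 0)).indicator (fun _ =>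
      ∫⁻ v, f 0 v * BB (expMeasure mu) q (fun i => f (i + 1)) n (fun i => t (i + 1) - t 0) v ∂q) x +
      (Ici (t 0)).indicator (fun _ => f 0 w *
        BB (expMeasure mu) q (fun i => f (i + 1)) n (fun i => t (i + 1) - t 0) w) x)
        ∂(expMeasure mu) := by
    unfold BB
    rw [split2 _ _ _ hmG]
    refine lintegral_congr fun x => ?_
    have h2 : ∀ (v : ℝ) (z : (ℕ → ℝ) × (ℕ → ℝ)),
        GG f (n + 1) t w (cons (x, z.1), cons (v, z.2)) = f 0 (if x < t 0 then v else w) *
          GG (fun i => f (i + 1)) n (fun i => t (i + 1) - t 0) (if x < t 0 then v else w) z := by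
      intro v z
      unfold GG
      rw [Finset.prod_range_succ', mul_comm]
      congr 1
      refine Finset.prod_congr rfl fun i _ => ?_
      simp only
      rw [ech_cons]
    simp only [h2]
    have hft : ∀ u, f 0 u ≠ ⊤ := fun u => ne_top_of_le_ne_top ENNReal.one_ne_top (hf1 0 u)
    by_cases hx : x < t 0
    · rw [Set.indicator_of_mem (show x ∈ Iio (t 0) from hx),
        Set.indicator_of_notMem (show x ∉ Ici (t 0) from not_le.2 hx), add_zero]
      refine lintegral_congr fun v => ?_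
      rw [if_pos hx, lintegral_const_mul' _ _ (hft _)]
    · rw [Set.indicator_of_notMem (show x ∉ Iio (t 0) from hx),
        Set.indicator_of_mem (show x ∈ Ici (t 0) from not_lt.1 hx), zero_add]
      simp only [if_neg hx]
      rw [lintegral_const_mul' _ _ (hft _), lintegral_const, measure_univ, mul_one]
  have hIio : (expMeasure mu) (Iio (t 0)) = ENNReal.ofReal (1 - Real.exp (-(mu * t 0))) := by
    rw [← exp_Iic hmu ht0]
    have : Iic (t 0) = Iio (t 0) ∪ {t 0} := by
      ext x
      simp [le_iff_lt_or_eq]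
    rw [this]
    refine le_antisymm (measure_mono Set.subset_union_left) ?_
    calc _ ≤ (expMeasure mu) (Iio (t 0)) + (expMeasure mu) {t 0} := measure_union_le _ _
      _ = _ := by rw [exp_singleton, add_zero]
  have hIci : (expMeasure mu) (Ici (t 0)) = ENNReal.ofReal (Real.exp (-(mu * t 0))) := by
    have e : Ici (t 0) = (Iio (t 0))ᶜ := by
      ext x
      simp
    rw [e, prob_compl_eq_one_sub measurableSet_Iio, hIio, ← ENNReal.ofReal_one,
      ← ENNReal.ofReal_sub]
    · congr 1
      ring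
    · have : Real.exp (-(mu * t 0)) ≤ 1 := Real.exp_le_one_iff.2 (by nlinarith)
      linarith
  rw [h1, lintegral_add_left (measurable_const.indicator measurableSet_Iio),
    lintegral_indicator_const measurableSet_Iio, lintegral_indicator_const measurableSet_Ici,
    hIio, hIci, add_comm]
  congr 1
  rw [mul_comm]

theorem AB {mu : ℝ} (hmu : 0 < mu) (q : Measure ℝ) [IsProbabilityMeasure q] (n : ℕ) :
    ∀ (f : ℕ → ℝ → ℝ≥0∞), (∀ i, Measurable (f i)) → (∀ i x, f i x ≤ 1) → ∀ t : ℕ → ℝ, 0 ≤ t 0 →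
      Monotone t → ∀ w, AA (expMeasure mu) q f n t w = BB (expMeasure mu) q f n t w := by
  induction n with
  | zero =>
    intro f _ _ t _ _ w
    unfold AA BB FF' GG
    simp
  | succ n ih =>
    intro f hf hf1 t ht0 ht w
    rw [recA hmu q hf hf1 n t ht0 ht w, recB hmu q hf hf1 n t ht0 w]
    have h1 := fun v => ih (fun i => f (i + 1)) (fun i => hf (i + 1)) (fun i => hf1 (i + 1))
      (fun i => t (i + 1) - t 0) (sub_nonneg.2 (ht (Nat.zero_le _)))
      (fun i j hij => sub_le_sub_right (ht (by omega)) _) v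
    simp only [h1]

end EdgeTAux

open EdgeTAux in
open Pool.Agent.Helper964.Cons (cons cons_zero cons_succ measurable_cons map_cons) in
theorem edgeT : StmEdge := by
  classical
  intro q hq mu hmu t ht0 ht
  have hE := isProbabilityMeasure_expMeasure hmu
  have hmL : Measurable (fun (z : (ℕ → ℝ) × (ℕ → ℝ)) (n : ℕ) => z.2 (cnt z.1 (t n))) := by
    refine measurable_pi_lambda _ fun n => ?_
    have h1 : Measurable fun z : (ℕ → ℝ) × (ℕ → ℝ) => (cnt z.1 (t n), z.2) :=
      ((meas_cnt (t n)).comp measurable_fst).prodMk measurable_snd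
    exact meas_eval.comp h1
  have hmR : Measurable (fun z : ℝ × ((ℕ → ℝ) × (ℕ → ℝ)) => ech t z.1 z.2.1 z.2.2) :=
    measurable_pi_lambda _ fun n => meas_ech t n
  have hpL : IsProbabilityMeasure (((Measure.infinitePi fun _ : ℕ => expMeasure mu).prod
      (Measure.infinitePi fun _ : ℕ => q)).map (fun z n => z.2 (cnt z.1 (t n)))) :=
    Measure.isProbabilityMeasure_map hmL.aemeasurable
  refine MeasureTheory.ext_of_generate_finite _ (generateFrom_squareCylinders).symm
    (isPiSystem_squareCylinders (fun _ => MeasurableSpace.isPiSystem_measurableSet)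
      (fun _ => by simp)) ?_ ?_
  · rintro _ ⟨s, S, hS, rfl⟩
    have hS' : ∀ i, MeasurableSet (S i) := fun i => hS i (Set.mem_univ i)
    obtain ⟨N, hN⟩ := s.exists_nat_subset_range
    obtain ⟨f, hf⟩ : ∃ f : ℕ → ℝ → ℝ≥0∞, f = fun i =>
      if i ∈ s then (S i).indicator 1 else 1 := ⟨_, rfl⟩
    have hfm : ∀ i, Measurable (f i) := by
      intro i
      rw [hf]
      by_cases hi : i ∈ s
      · simp only [hi, if_true]
        exact measurable_one.indicator (hS' i)
      · simp only [hi, if_false]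
        exact measurable_one
    have hf1 : ∀ i x, f i x ≤ 1 := by
      intro i x
      rw [hf]
      by_cases hi : i ∈ s
      · simp only [hi, if_true]
        exact Set.indicator_le_self' (fun _ _ => zero_le) x
      · simp only [hi, if_false]
        exact le_rfl
    have hms : MeasurableSet ((s : Set ℕ).pi S) :=
      MeasurableSet.pi (Finset.countable_toSet s) fun i _ => hS' i
    have hind : ∀ y : ℕ → ℝ, ((s : Set ℕ).pi S).indicator (1 : (ℕ → ℝ) → ℝ≥0∞) y =
        ∏ i ∈ Finset.range N, f i (y i) := by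
      intro y
      by_cases hy : y ∈ (s : Set ℕ).pi S
      · rw [Set.indicator_of_mem hy]
        symm
        refine Finset.prod_eq_one fun i _ => ?_
        rw [hf]
        by_cases hi : i ∈ s
        · simp only [hi, if_true]
          exact Set.indicator_of_mem (hy i hi) _
        · simp only [hi, if_false]
          rfl
      · rw [Set.indicator_of_notMem hy]
        simp only [Set.mem_pi, not_forall] at hy
        obtain ⟨i, hi, hyi⟩ := hy
        symm
        refine Finset.prod_eq_zero (hN hi) ?_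
        have hi' : i ∈ s := hi
        rw [hf]
        simp only [hi', if_true]
        exact Set.indicator_of_notMem hyi _
    rw [← lintegral_indicator_one hms, ← lintegral_indicator_one hms]
    simp only [hind]
    have hmP : Measurable fun y : ℕ → ℝ => ∏ i ∈ Finset.range N, f i (y i) :=
      Finset.measurable_fun_prod _ fun i _ => (hfm i).comp (measurable_pi_apply i)
    rw [lintegral_map hmP hmL, lintegral_map hmP hmR]
    -- right side
    have hR : ∫⁻ z, ∏ i ∈ Finset.range N, f i (ech t z.1 z.2.1 z.2.2 i)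
        ∂(q.prod ((Measure.infinitePi fun _ : ℕ => expMeasure mu).prod
          (Measure.infinitePi fun _ : ℕ => q))) = ∫⁻ v, BB (expMeasure mu) q f N t v ∂q :=
      lintegral_prod _ (meas_GG hfm N t).aemeasurable
    rw [hR]
    -- left side
    have hmJ : Measurable fun z : (ℕ → ℝ) × (ℕ → ℝ) =>
        ∏ i ∈ Finset.range N, f i (z.2 (cnt z.1 (t i))) := hmP.comp hmL
    have hmK : Measurable fun p : (ℕ → ℝ) × (ℝ × (ℕ → ℝ)) =>
        ∏ i ∈ Finset.range N, f i (cons p.2 (cnt p.1 (t i))) :=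
      hmJ.comp (measurable_fst.prodMk (measurable_cons.comp measurable_snd))
    rw [lintegral_prod _ hmJ.aemeasurable]
    have h1 : ∀ g : ℕ → ℝ, ∫⁻ V, ∏ i ∈ Finset.range N, f i (V (cnt g (t i)))
        ∂(Measure.infinitePi fun _ : ℕ => q) =
        ∫⁻ v, ∫⁻ V, ∏ i ∈ Finset.range N, f i (cons (v, V) (cnt g (t i)))
          ∂(Measure.infinitePi fun _ : ℕ => q) ∂q := fun g =>
      split1 q (fun V => ∏ i ∈ Finset.range N, f i (V (cnt g (t i))))
        (hmJ.comp measurable_prodMk_left)
    simp only [h1]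
    have hmT : Measurable fun p : ((ℕ → ℝ) × ℝ) × (ℕ → ℝ) =>
        ∏ i ∈ Finset.range N, f i (cons (p.1.2, p.2) (cnt p.1.1 (t i))) :=
      hmK.comp ((measurable_fst.comp measurable_fst).prodMk
        ((measurable_snd.comp measurable_fst).prodMk measurable_snd))
    rw [lintegral_lintegral_swap hmT.lintegral_prod_right'.aemeasurable]
    refine lintegral_congr fun v => ?_
    rw [← AB hmu q N f hfm hf1 t ht0 ht v]
    exact (lintegral_prod _ (meas_FF hfm N t v).aemeasurable).symm
  · have hpR : IsProbabilityMeasure ((q.prod ((Measure.infinitePi fun _ : ℕ => expMeasure mu).prod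
      (Measure.infinitePi fun _ : ℕ => q))).map (fun z => ech t z.1 z.2.1 z.2.2)) :=
      Measure.isProbabilityMeasure_map hmR.aemeasurable
    rw [measure_univ, measure_univ]

end Pool.Agent.N276.SC
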