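import Pool.Agent.N276.SC.Stm

/-!
# All edges at given times

The edges are independent, so the statement about all the edges follows from the statement about one
edge: both sides are push forwards of products over the edges.
-/

set_option autoImplicit false

open MeasureTheory ProbabilityTheory Filter Topology Set
open scoped ENNReal

namespace Pool.Agent.N276.SC.EnvTAux

section general

variable {ι κ α β : Type*} [MeasurableSpace α] [MeasurableSpace β]

/-- two independent families of independent variables form a family of independent pairs -/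
theorem zip_law (μ : Measure α) (ν : Measure β) [IsProbabilityMeasure μ] [IsProbabilityMeasure ν] :
    ((Measure.infinitePi fun _ : ι => μ).prod (Measure.infinitePi fun _ : ι => ν)).map
      (fun w (i : ι) => (w.1 i, w.2 i)) = Measure.infinitePi fun _ : ι => μ.prod ν := by
  refine Measure.eq_infinitePi _ fun s t ht => ?_
  have hm : Measurable (fun (w : (ι → α) × (ι → β)) (i : ι) => (w.1 i, w.2 i)) := by fun_prop
  have hs : MeasurableSet (Set.pi (s : Set ι) t) := .pi s.countable_toSet fun _ _ => ht _
  rw [Measure.map_apply hm hs, Measure.prod_apply (hm hs)]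
  have h1 : ∀ x : ι → α, (Measure.infinitePi fun _ : ι => ν)
      (Prod.mk x ⁻¹' ((fun (w : (ι → α) × (ι → β)) (i : ι) => (w.1 i, w.2 i)) ⁻¹'
        (Set.pi (s : Set ι) t))) = ∏ i ∈ s, ν (Prod.mk (x i) ⁻¹' t i) := by
    intro x
    rw [← Measure.infinitePi_pi (fun _ : ι => ν) (fun i _ => measurable_prodMk_left (ht i))]
    rfl
  simp_rw [h1]
  have hX : ∀ i, Measurable fun a : α => ν (Prod.mk a ⁻¹' t i) := fun i =>
    measurable_measure_prodMk_left (ht i)
  have h2 := lintegral_prod_eq_prod_lintegral_of_indepFun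
    (μ := Measure.infinitePi fun _ : ι => μ) s
    (fun i (x : ι → α) => ν (Prod.mk (x i) ⁻¹' t i))
    (iIndepFun_infinitePi (P := fun _ : ι => μ) (X := fun i (a : α) => ν (Prod.mk a ⁻¹' t i)) hX)
    (fun i => (hX i).comp (measurable_pi_apply i))
  rw [h2]
  refine Finset.prod_congr rfl fun i _ => ?_
  rw [Measure.prod_apply (ht i)]
  conv_rhs => rw [← Measure.infinitePi_map_eval (fun _ : ι => μ) i]
  rw [lintegral_map (hX i) (measurable_pi_apply i)]

/-- a family of independent pairs consists of two independent families -/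
theorem unzip_law (μ : Measure α) (ν : Measure β) [IsProbabilityMeasure μ] [IsProbabilityMeasure ν] :
    (Measure.infinitePi fun _ : ι => μ.prod ν).map
      (fun z => ((fun i : ι => (z i).1), (fun i : ι => (z i).2))) =
    (Measure.infinitePi fun _ : ι => μ).prod (Measure.infinitePi fun _ : ι => ν) := by
  have hm : Measurable (fun (w : (ι → α) × (ι → β)) (i : ι) => (w.1 i, w.2 i)) := by fun_prop
  have hm' : Measurable (fun (z : ι → α × β) => ((fun i : ι => (z i).1), (fun i : ι => (z i).2))) := by
    fun_prop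
  rw [← zip_law, Measure.map_map hm' hm]
  exact Measure.map_id

/-- exchange of the two indices -/
theorem swap_law (m : Measure α) [IsProbabilityMeasure m] :
    (Measure.infinitePi fun _ : κ => Measure.infinitePi fun _ : ι => m).map
      (fun z (e : ι) (n : κ) => z n e) =
    Measure.infinitePi fun _ : ι => Measure.infinitePi fun _ : κ => m := by
  have h1 := Measure.infinitePi_map_curry_symm (fun (_ : κ) (_ : ι) => m)
  have h2 := Measure.map_infinitePi_infinitePi_of_inj (P := fun _ : κ × ι => m)
    (f := fun p : ι × κ => (p.2, p.1)) (by rintro ⟨a, b⟩ ⟨c, e⟩ h; simp_all)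
  have h3 := Measure.infinitePi_map_curry (fun (_ : ι) (_ : κ) => m)
  rw [← h3, ← h2, ← h1, Measure.map_map, Measure.map_map]
  · rfl
  all_goals fun_prop

end general

/-- the number of points up to a given time is measurable -/
theorem meas_cnt (t : ℝ) : Measurable fun g : ℕ → ℝ => cnt g t := by
  refine measurable_of_Iic fun k => ?_
  have : (fun g : ℕ → ℝ => cnt g t) ⁻¹' Iic k =
      (⋃ j ∈ Finset.range (k + 1), {g : ℕ → ℝ | t < ∑ i ∈ Finset.range (j + 1), g i}) ∪
      (⋂ j : ℕ, {g : ℕ → ℝ | ¬ t < ∑ i ∈ Finset.range (j + 1), g i}) := by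
    ext g
    simp only [mem_preimage, mem_Iic, mem_union, mem_iUnion, mem_iInter, mem_ofPred_eq,
      Finset.mem_range, exists_prop]
    constructor
    · intro h
      by_cases hne : {k | t < ∑ i ∈ Finset.range (k + 1), g i}.Nonempty
      · exact Or.inl ⟨cnt g t, by omega, Nat.sInf_mem hne⟩
      · right
        intro j hj
        exact hne ⟨j, hj⟩
    · rintro (⟨j, hj, hlt⟩ | h)
      · have : cnt g t ≤ j := Nat.sInf_le hlt
        omega
      · have : {k | t < ∑ i ∈ Finset.range (k + 1), g i} = (∅ : Set ℕ) := by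
          ext j
          simpa using h j
        unfold cnt
        rw [this]
        simp
  rw [this]
  refine MeasurableSet.union ?_ ?_
  · refine Finset.measurableSet_biUnion _ fun j _ => measurableSet_lt measurable_const ?_
    fun_prop
  · refine MeasurableSet.iInter fun j => ?_
    simp only [not_lt]
    refine measurableSet_le ?_ measurable_const
    fun_prop

theorem meas_val (t : ℕ → ℝ) :
    Measurable fun (z : (ℕ → ℝ) × (ℕ → ℝ)) (n : ℕ) => z.2 (cnt z.1 (t n)) := by
  refine measurable_pi_lambda _ fun n => ?_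
  have h1 : Measurable fun y : (ℕ → ℝ) × ℕ => y.1 y.2 :=
    measurable_from_prod_countable_left fun k => measurable_pi_apply k
  exact h1.comp (measurable_snd.prodMk ((meas_cnt (t n)).comp measurable_fst))

theorem meas_ech (t : ℕ → ℝ) :
    Measurable fun z : ℝ × ((ℕ → ℝ) × (ℕ → ℝ)) => ech t z.1 z.2.1 z.2.2 := by
  refine measurable_pi_lambda _ fun n => ?_
  induction n with
  | zero =>
    simp only [ech]
    refine Measurable.ite (measurableSet_lt ?_ measurable_const) ?_ ?_ <;> fun_prop
  | succ n ih =>
    simp only [ech]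
    refine Measurable.ite (measurableSet_lt ?_ measurable_const) ?_ ih <;> fun_prop

/-- regrouping of the innovations by edges -/
theorem regroup {ι : Type*} (m q : Measure ℝ) [IsProbabilityMeasure m] [IsProbabilityMeasure q] :
    (Measure.infinitePi fun _ : ℕ => (Measure.infinitePi fun _ : ι => m).prod
      (Measure.infinitePi fun _ : ι => q)).map
      (fun y (e : ι) => ((fun k : ℕ => (y k).1 e), (fun k : ℕ => (y k).2 e))) =
    Measure.infinitePi fun _ : ι => (Measure.infinitePi fun _ : ℕ => m).prod
      (Measure.infinitePi fun _ : ℕ => q) := by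
  have hz : Measurable (fun (w : (ι → ℝ) × (ι → ℝ)) (i : ι) => (w.1 i, w.2 i)) := by fun_prop
  have hu : Measurable (fun (z : ℕ → ℝ × ℝ) => ((fun i : ℕ => (z i).1), (fun i : ℕ => (z i).2))) := by
    fun_prop
  have hs : Measurable (fun (z : ℕ → ι → ℝ × ℝ) (e : ι) (n : ℕ) => z n e) := by fun_prop
  have h1 := Measure.infinitePi_map_pi (μ := fun _ : ℕ => (Measure.infinitePi fun _ : ι => m).prod
      (Measure.infinitePi fun _ : ι => q)) (f := fun _ w (i : ι) => (w.1 i, w.2 i)) (fun _ => hz)
  simp only [zip_law] at h1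
  have h2 := swap_law (κ := ℕ) (ι := ι) (m.prod q)
  have h3 := Measure.infinitePi_map_pi (μ := fun _ : ι => Measure.infinitePi fun _ : ℕ => m.prod q)
    (f := fun _ z => ((fun i : ℕ => (z i).1), (fun i : ℕ => (z i).2))) (fun _ => hu)
  simp only [unzip_law] at h3
  rw [← h3, ← h2, ← h1, Measure.map_map hs (by fun_prop), Measure.map_map (by fun_prop) (by fun_prop)]
  rfl

end Pool.Agent.N276.SC.EnvTAux

namespace Pool.Agent.N276.SC

open EnvTAux

theorem envT : StmEdge → StmEnv := by
  intro hE d q hq mu hmu t ht0 ht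
  have : IsProbabilityMeasure (expMeasure mu) := isProbabilityMeasure_expMeasure hmu
  have hΦ := meas_val t
  have hΨ := meas_ech t
  have hE' := hE q hq mu hmu t ht0 ht
  -- the left side
  have hsw : Measurable (fun (z : Edge d → ℕ → ℝ) (n : ℕ) (e : Edge d) => z e n) := by fun_prop
  have hz1 : Measurable (fun (w : (Edge d → ℕ → ℝ) × (Edge d → ℕ → ℝ)) (i : Edge d) =>
    (w.1 i, w.2 i)) := by fun_prop
  have hc1 : Measurable (fun (z : Edge d → (ℕ → ℝ) × (ℕ → ℝ)) (e : Edge d) (n : ℕ) =>
      (z e).2 (cnt (z e).1 (t n))) :=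
    measurable_pi_lambda _ fun e => hΦ.comp (measurable_pi_apply e)
  have L1 := zip_law (ι := Edge d) (Measure.infinitePi fun _ : ℕ => expMeasure mu)
    (Measure.infinitePi fun _ : ℕ => q)
  have L2 := Measure.infinitePi_map_pi (μ := fun _ : Edge d =>
    (Measure.infinitePi fun _ : ℕ => expMeasure mu).prod (Measure.infinitePi fun _ : ℕ => q))
    (f := fun _ z (n : ℕ) => z.2 (cnt z.1 (t n))) (fun _ => hΦ)
  have LHS : (envLaw d q mu).map (fun w (n : ℕ) (e : Edge d) => cond w (t n) e) =
      (Measure.infinitePi fun _ : Edge d => ((Measure.infinitePi fun _ : ℕ => expMeasure mu).prod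
        (Measure.infinitePi fun _ : ℕ => q)).map (fun z (n : ℕ) => z.2 (cnt z.1 (t n)))).map
      (fun (z : Edge d → ℕ → ℝ) (n : ℕ) (e : Edge d) => z e n) := by
    rw [← L2, ← L1, Measure.map_map hc1 hz1, Measure.map_map hsw (hc1.comp hz1)]
    rfl
  -- the right side
  have hz2 : Measurable (fun (w : (Edge d → ℝ) × (Edge d → (ℕ → ℝ) × (ℕ → ℝ))) (i : Edge d) =>
    (w.1 i, w.2 i)) := by fun_prop
  have hc2 : Measurable (fun (z : Edge d → ℝ × ((ℕ → ℝ) × (ℕ → ℝ))) (e : Edge d) =>
      ech t (z e).1 (z e).2.1 (z e).2.2) :=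
    measurable_pi_lambda _ fun e => hΨ.comp (measurable_pi_apply e)
  have hU : Measurable (fun (y : ℕ → (Edge d → ℝ) × (Edge d → ℝ)) (e : Edge d) =>
    ((fun k : ℕ => (y k).1 e), (fun k : ℕ => (y k).2 e))) := by fun_prop
  have R0 := regroup (ι := Edge d) (expMeasure mu) q
  have R1 := zip_law (ι := Edge d) q ((Measure.infinitePi fun _ : ℕ => expMeasure mu).prod
    (Measure.infinitePi fun _ : ℕ => q))
  have R2 := Measure.infinitePi_map_pi (μ := fun _ : Edge d =>
    q.prod ((Measure.infinitePi fun _ : ℕ => expMeasure mu).prod (Measure.infinitePi fun _ : ℕ => q)))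
    (f := fun _ z => ech t z.1 z.2.1 z.2.2) (fun _ => hΨ)
  have R3 : (Measure.infinitePi fun _ : Edge d => q).prod (Measure.infinitePi fun _ : Edge d =>
      (Measure.infinitePi fun _ : ℕ => expMeasure mu).prod (Measure.infinitePi fun _ : ℕ => q)) =
      ((Measure.infinitePi fun _ : Edge d => q).prod (Measure.infinitePi fun _ : ℕ =>
        (Measure.infinitePi fun _ : Edge d => expMeasure mu).prod
        (Measure.infinitePi fun _ : Edge d => q))).map (Prod.map id
        (fun (y : ℕ → (Edge d → ℝ) × (Edge d → ℝ)) (e : Edge d) =>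
          ((fun k : ℕ => (y k).1 e), (fun k : ℕ => (y k).2 e)))) := by
    rw [← R0, ← Measure.map_prod_map _ _ measurable_id hU, Measure.map_id]
  have RHS : ((Measure.infinitePi fun _ : Edge d => q).prod (Measure.infinitePi fun _ : ℕ =>
      (Measure.infinitePi fun _ : Edge d => expMeasure mu).prod
        (Measure.infinitePi fun _ : Edge d => q))).map
      (fun z (n : ℕ) (e : Edge d) => ech t (z.1 e) (fun k => (z.2 k).1 e) (fun k => (z.2 k).2 e) n) =
      (Measure.infinitePi fun _ : Edge d => (q.prod ((Measure.infinitePi fun _ : ℕ =>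
        expMeasure mu).prod (Measure.infinitePi fun _ : ℕ => q))).map
        (fun z => ech t z.1 z.2.1 z.2.2)).map
      (fun (z : Edge d → ℕ → ℝ) (n : ℕ) (e : Edge d) => z e n) := by
    rw [← R2, ← R1, R3, Measure.map_map hz2 (measurable_id.prodMap hU),
      Measure.map_map hc2 (hz2.comp (measurable_id.prodMap hU)),
      Measure.map_map hsw (hc2.comp (hz2.comp (measurable_id.prodMap hU)))]
    rfl
  rw [LHS, RHS, hE']

end Pool.Agent.N276.SC
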