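import Pool.Agent.N276.SC.Stm

/-!
# Escape probability (leaf Esc of project SC, by helper187)
-/

set_option autoImplicit false

open MeasureTheory ProbabilityTheory Filter Topology Set
open scoped ENNReal

namespace Pool.Agent.N276.SC

namespace EscAux

variable {d : ℕ}

theorem kap_pos (p : Par) : 0 < p.kap := p.hc.trans_le p.hk

theorem chain_add (p : Par) (s : State d) (ζ : ℕ → Inn d) (K m : ℕ) :
    chain p s ζ (K + m) = chain p (chain p s ζ K) (fun k => ζ (K + k)) m := by
  induction m with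
  | zero => rfl
  | succ m ih =>
    rw [← Nat.add_assoc]
    change step p (chain p s ζ (K + m)) (ζ (K + m)) =
      step p (chain p (chain p s ζ K) (fun k => ζ (K + k)) m) (ζ (K + m))
    rw [ih]

theorem vec_ge (δ : Dir d) : -1 ≤ vec δ 0 := by
  unfold vec
  split_ifs
  · simp only [Pi.single_apply]
    split_ifs <;> norm_num
  · simp only [Pi.neg_apply, Pi.single_apply]
    split_ifs <;> norm_num

theorem pth_succ (p : Par) (s : State d) (ζ : ℕ → Inn d) (m : ℕ) :
    pth p s ζ (m + 1) = if (ζ m).2.2.2 <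
        tr p (upd (chain p s ζ m).2 (ζ m) (edge (chain p s ζ m).1 (ζ m).2.2.1)) / (2 * p.kap)
      then pth p s ζ m + vec (ζ m).2.2.1 else pth p s ζ m := rfl

theorem pth_ge (p : Par) (s : State d) (ζ : ℕ → Inn d) (m : ℕ) :
    s.1 0 - m ≤ pth p s ζ m 0 := by
  induction m with
  | zero => simp [pth, chain]
  | succ m ih =>
    rw [pth_succ]
    have h1 := vec_ge (ζ m).2.2.1
    split_ifs
    · rw [Pi.add_apply]
      push_cast
      omega
    · push_cast
      omega

/-- the unit vector -/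
def e0 (d : ℕ) : Site d := Pi.single 0 1

theorem vec_pos : vec ((0, true) : Dir d) = e0 d := by
  simp [vec, e0]

theorem fwd (p : Par) (s : State d) (ζ : ℕ → Inn d) (K : ℕ)
    (h : ∀ k < K, (ζ k).2.2.1 = (0, true) ∧ (ζ k).2.2.2 < p.c / (2 * p.kap)) :
    ∀ k ≤ K, pth p s ζ k = s.1 + (k : ℤ) • e0 d := by
  intro k
  induction k with
  | zero =>
    intro _
    simp [pth, chain]
  | succ k ih =>
    intro hk
    have h1 := ih (by omega)
    obtain ⟨h2, h3⟩ := h k (by omega)
    have h4 : (ζ k).2.2.2 <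
        tr p (upd (chain p s ζ k).2 (ζ k) (edge (chain p s ζ k).1 (ζ k).2.2.1)) / (2 * p.kap) := by
      refine h3.trans_le ?_
      have := kap_pos p
      exact div_le_div_of_nonneg_right (le_max_left _ _) (by positivity)
    rw [pth_succ, if_pos h4, h1, h2, vec_pos]
    push_cast
    rw [add_smul, one_smul, add_assoc]

/-- one good step -/
def Bs (d : ℕ) (p : Par) : Set (Inn d) :=
  {z | z.2.2.1 = (0, true) ∧ z.2.2.2 < p.c / (2 * p.kap)}

theorem Bs_eq (p : Par) : Bs d p =
    (univ : Set (Edge d → Bool)) ×ˢ ((univ : Set (Edge d → ℝ)) ×ˢ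
      (({(0, true)} : Set (Dir d)) ×ˢ Iio (p.c / (2 * p.kap)))) := by
  ext z
  simp [Bs, Set.mem_prod]

/-- its probability -/
noncomputable def p0 (d : ℕ) (p : Par) : ℝ := wt p.lam ((0, true) : Dir d) / ZZ d p.lam * (p.c / (2 * p.kap))

theorem half_le (x : ℝ≥0∞) (y : ℝ≥0∞) (h : 1 ≤ x + y) (hy : y ≤ 1 / 2) : 1 / 2 ≤ x := by
  by_contra hx
  rw [not_le] at hx
  have h1 : x + y < 1 / 2 + 1 / 2 := ENNReal.add_lt_add_of_lt_of_le (ne_top_of_le_ne_top (by norm_num) hy) hx hy
  rw [ENNReal.add_halves] at h1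
  exact absurd h (not_le.2 h1)

end EscAux

open EscAux

theorem esc : StmMeas → StmDriftC → StmMark → StmEsc := by
  classical
  intro hMeas hDr hMark d p
  obtain ⟨b, C, ρ, hb, hC, hρ, hρ1, hdr⟩ := hDr d p
  obtain ⟨hstep, hchain, hhist, -, -, -, hdl, hun, hqE, hZZ, hpr⟩ := hMeas d p
  have hkap := kap_pos p
  have hc := p.hc
  obtain ⟨K, hK⟩ : ∃ K : ℕ, ρ ^ K < (1 - ρ) / (2 * C) :=
    exists_pow_lt_of_lt_one (div_pos (by linarith) (by linarith)) hρ1
  have hp0 : 0 < p0 d p := by
    unfold p0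
    have : 0 < wt p.lam ((0, true) : Dir d) := Real.exp_pos _
    positivity
  refine ⟨p0 d p ^ K / 2, by positivity, ?_⟩
  intro nu hnu s
  obtain ⟨hinn, hPP, -⟩ := hpr nu hnu
  -- the tail bound
  have htail : ∀ s' : State d, s'.1 0 = s.1 0 + K →
      1 / 2 ≤ (PP p nu) {ζ | ∀ m, s.1 0 < pth p s' ζ m 0} := by
    intro s' hs'
    refine half_le _ ((PP p nu) {ζ | ∀ m, s.1 0 < pth p s' ζ m 0}ᶜ) ?_ ?_
    · have h1 := measure_union_le (μ := PP p nu) {ζ | ∀ m, s.1 0 < pth p s' ζ m 0}
        {ζ | ∀ m, s.1 0 < pth p s' ζ m 0}ᶜ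
      rw [union_compl_self, measure_univ] at h1
      exact h1
    · have hsub : {ζ | ∀ m, s.1 0 < pth p s' ζ m 0}ᶜ ⊆
          ⋃ m : ℕ, {ζ | ((pth p s' ζ (K + m) 0 : ℤ) : ℝ) ≤ s'.1 0 + b * (K + m : ℕ)} := by
        intro ζ hζ
        simp only [mem_compl_iff, mem_ofPred_eq, not_forall, not_lt] at hζ
        obtain ⟨n, hn⟩ := hζ
        have h1 := pth_ge p s' ζ n
        have h2 : K ≤ n := by omega
        obtain ⟨m, rfl⟩ := Nat.exists_eq_add_of_le h2
        refine mem_iUnion.2 ⟨m, ?_⟩
        simp only [mem_ofPred_eq]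
        have h3 : ((pth p s' ζ (K + m) 0 : ℤ) : ℝ) ≤ (s.1 0 : ℤ) := by exact_mod_cast hn
        have h4 : ((s'.1 0 : ℤ) : ℝ) = (s.1 0 : ℤ) + K := by rw [hs']; push_cast; ring
        have h5 : 0 ≤ b * ((K + m : ℕ) : ℝ) := by positivity
        have h6 : (0 : ℝ) ≤ K := Nat.cast_nonneg K
        linarith
      refine (measure_mono hsub).trans ((measure_iUnion_le _).trans ?_)
      refine (ENNReal.tsum_le_tsum fun m => hdr nu hnu s' (K + m)).trans ?_
      have hsum : Summable fun m : ℕ => C * ρ ^ (K + m) := by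
        have := (summable_geometric_of_lt_one hρ.le hρ1).mul_left (C * ρ ^ K)
        refine this.congr fun m => ?_
        rw [pow_add]; ring
      rw [← ENNReal.ofReal_tsum_of_nonneg (fun m => by positivity) hsum]
      have hval : ∑' m : ℕ, C * ρ ^ (K + m) = C * ρ ^ K * (1 - ρ)⁻¹ := by
        rw [← tsum_geometric_of_lt_one hρ.le hρ1, ← tsum_mul_left]
        refine tsum_congr fun m => ?_
        rw [pow_add]; ring
      rw [hval]
      have h7 : C * ρ ^ K * (1 - ρ)⁻¹ ≤ 1 / 2 := by
        have h8 : 0 < 1 - ρ := by linarith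
        rw [lt_div_iff₀ (by positivity)] at hK
        rw [← div_eq_mul_inv, div_le_iff₀ h8]
        linarith
      calc ENNReal.ofReal (C * ρ ^ K * (1 - ρ)⁻¹) ≤ ENNReal.ofReal (1 / 2) :=
            ENNReal.ofReal_le_ofReal h7
        _ = 1 / 2 := by
            rw [ENNReal.ofReal_div_of_pos (by norm_num)]
            simp
  -- the set after time `K`
  obtain ⟨T, hT⟩ : ∃ T : Set (State d × (ℕ → Inn d)), T =
      {z | z.1.1 = s.1 + (K : ℤ) • e0 d ∧ ∀ m, s.1 0 < pth p z.1 z.2 m 0} := ⟨_, rfl⟩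
  have hTm : MeasurableSet T := by
    rw [hT]
    have h1 : MeasurableSet {z : State d × (ℕ → Inn d) | z.1.1 = s.1 + (K : ℤ) • e0 d} :=
      (measurable_fst.comp measurable_fst) (measurableSet_singleton _)
    have h2 : ∀ m, MeasurableSet {z : State d × (ℕ → Inn d) | s.1 0 < pth p z.1 z.2 m 0} := by
      intro m
      have h3 : Measurable fun z : State d × (ℕ → Inn d) => pth p z.1 z.2 m 0 :=
        (measurable_pi_apply 0).comp (measurable_fst.comp (hchain m))
      exact h3 (MeasurableSet.of_discrete (s := {n : ℤ | s.1 0 < n}))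
    have h4 : {z : State d × (ℕ → Inn d) | z.1.1 = s.1 + (K : ℤ) • e0 d ∧
        ∀ m, s.1 0 < pth p z.1 z.2 m 0} = {z | z.1.1 = s.1 + (K : ℤ) • e0 d} ∩
          ⋂ m, {z : State d × (ℕ → Inn d) | s.1 0 < pth p z.1 z.2 m 0} := by
      ext z
      simp
    rw [h4]
    exact h1.inter (MeasurableSet.iInter h2)
  have hMk := hMark d p nu hnu s K
    (fun h => if ∀ k : Fin K, h k = (s.1 + ((k : ℕ) : ℤ) • e0 d, ((0, true) : Dir d)) then 1 else 0)
    (T.indicator 1) (measurable_one.indicator hTm)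
  have hup : ∫⁻ ζ, (if ∀ k : Fin K, hist p s ζ k =
      (s.1 + ((k : ℕ) : ℤ) • e0 d, ((0, true) : Dir d)) then (1 : ℝ≥0∞) else 0) *
        T.indicator 1 (chain p s ζ K, fun k => ζ (K + k)) ∂(PP p nu) ≤
      (PP p nu) {ζ | ∀ n, ¬ prp (s.1 0) (hist p s ζ n)} := by
    refine (lintegral_mono (fun ζ => ?_)).trans (lintegral_indicator_one_le _)
    by_cases h1 : ∀ k : Fin K, hist p s ζ k = (s.1 + ((k : ℕ) : ℤ) • e0 d, ((0, true) : Dir d))
    · by_cases h2 : (chain p s ζ K, fun k => ζ (K + k)) ∈ T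
      · have h3 : ζ ∈ {ζ | ∀ n, ¬ prp (s.1 0) (hist p s ζ n)} := by
          intro n hn
          rcases lt_or_ge n K with hnK | hnK
          · have h4 := h1 ⟨n, hnK⟩
            simp only at h4
            rw [h4] at hn
            have h5 := hn.2
            simp at h5
          · obtain ⟨m, rfl⟩ := Nat.exists_eq_add_of_le hnK
            rw [hT] at h2
            have h4 := h2.2 m
            have h5 := hn.1
            have h6 : (hist p s ζ (K + m)).1 =
                pth p (chain p s ζ K) (fun k => ζ (K + k)) m := by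
              change (chain p s ζ (K + m)).1 = _
              rw [chain_add]
              rfl
            rw [h6] at h5
            simp only at h4
            omega
        rw [indicator_of_mem h3, Pi.one_apply, if_pos h1, one_mul]
        exact indicator_le_self' (fun _ _ => zero_le) _
      · rw [indicator_of_notMem h2, mul_zero]
        exact zero_le
    · rw [if_neg h1, zero_mul]
      exact zero_le
  refine le_trans ?_ hup
  rw [hMk]
  -- the cylinder
  obtain ⟨Cyl, hCyl⟩ : ∃ Cyl : Set (ℕ → Inn d), Cyl =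
      Set.pi (Finset.range K : Finset ℕ) (fun _ => Bs d p) := ⟨_, rfl⟩
  have hBm : MeasurableSet (Bs d p) := by
    rw [Bs_eq]
    exact MeasurableSet.univ.prod (MeasurableSet.univ.prod
      ((MeasurableSet.of_discrete).prod measurableSet_Iio))
  have hCm : MeasurableSet Cyl := by
    rw [hCyl]
    exact MeasurableSet.pi (Finset.countable_toSet _) (fun _ _ => hBm)
  have hlow : ∫⁻ ζ, Cyl.indicator (fun _ => (1 / 2 : ℝ≥0∞)) ζ ∂(PP p nu) ≤
      ∫⁻ ζ, (if ∀ k : Fin K, hist p s ζ k =
      (s.1 + ((k : ℕ) : ℤ) • e0 d, ((0, true) : Dir d)) then (1 : ℝ≥0∞) else 0) *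
        (∫⁻ ζ', T.indicator 1 (chain p s ζ K, ζ') ∂(PP p nu)) ∂(PP p nu) := by
    refine lintegral_mono fun ζ => ?_
    by_cases h1 : ζ ∈ Cyl
    · rw [indicator_of_mem h1]
      rw [hCyl] at h1
      have h2 : ∀ k < K, (ζ k).2.2.1 = (0, true) ∧ (ζ k).2.2.2 < p.c / (2 * p.kap) := by
        intro k hk
        exact h1 k (by simpa using hk)
      have h3 := fwd p s ζ K h2
      have h4 : ∀ k : Fin K, hist p s ζ k = (s.1 + ((k : ℕ) : ℤ) • e0 d, ((0, true) : Dir d)) := by
        intro k
        exact Prod.ext (h3 k k.2.le) (h2 k k.2).1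
      rw [if_pos h4, one_mul]
      have h5 : (chain p s ζ K).1 = s.1 + (K : ℤ) • e0 d := h3 K le_rfl
      have h6 : (chain p s ζ K).1 0 = s.1 0 + K := by
        rw [h5]
        simp [e0]
      refine (htail _ h6).trans ?_
      have h7 : (fun ζ' => T.indicator (1 : State d × (ℕ → Inn d) → ℝ≥0∞) (chain p s ζ K, ζ')) =
          {ζ' | ∀ m, s.1 0 < pth p (chain p s ζ K) ζ' m 0}.indicator 1 := by
        funext ζ'
        by_cases h8 : ∀ m, s.1 0 < pth p (chain p s ζ K) ζ' m 0
        · rw [indicator_of_mem (show ζ' ∈ {ζ' | ∀ m, s.1 0 < pth p (chain p s ζ K) ζ' m 0} from h8),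
            indicator_of_mem (by rw [hT]; exact ⟨h5, h8⟩)]
          rfl
        · rw [indicator_of_notMem
            (show ζ' ∉ {ζ' | ∀ m, s.1 0 < pth p (chain p s ζ K) ζ' m 0} from h8),
            indicator_of_notMem (by rw [hT]; exact fun h => h8 h.2)]
      rw [h7, lintegral_indicator_one]
      have h9 : {ζ' | ∀ m, s.1 0 < pth p (chain p s ζ K) ζ' m 0} =
          ⋂ m, {ζ' | s.1 0 < pth p (chain p s ζ K) ζ' m 0} := by
        ext; simp
      rw [h9]
      refine MeasurableSet.iInter fun m => ?_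
      have h10 : Measurable fun ζ' : ℕ → Inn d => pth p (chain p s ζ K) ζ' m 0 :=
        (measurable_pi_apply 0).comp (measurable_fst.comp
          ((hchain m).comp (measurable_const.prodMk measurable_id)))
      exact h10 (MeasurableSet.of_discrete (s := {n : ℤ | s.1 0 < n}))
    · rw [indicator_of_notMem h1]
      exact zero_le
  refine le_trans ?_ hlow
  rw [lintegral_indicator_const hCm, hCyl]
  unfold PP
  rw [Measure.infinitePi_pi _ (fun _ _ => hBm), Finset.prod_const, Finset.card_range]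
  -- one step
  have hone : ENNReal.ofReal (p0 d p) ≤ inn p nu (Bs d p) := by
    rw [Bs_eq]
    unfold inn
    rw [Measure.prod_prod, Measure.prod_prod, Measure.prod_prod, measure_univ, measure_univ,
      one_mul, one_mul]
    unfold p0
    rw [ENNReal.ofReal_mul (by
      have : 0 < wt p.lam ((0, true) : Dir d) := Real.exp_pos _
      positivity)]
    refine mul_le_mul' ?_ ?_
    · unfold dirLaw
      rw [Measure.finsetSum_apply]
      refine le_trans ?_ (Finset.single_le_sum (f := fun δ : Dir d =>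
        (ENNReal.ofReal (wt p.lam δ / ZZ d p.lam) • Measure.dirac δ) {((0, true) : Dir d)})
        (fun _ _ => zero_le) (Finset.mem_univ (0, true)))
      simp
    · unfold unif
      rw [Measure.restrict_apply measurableSet_Iio]
      have h1 : p.c / (2 * p.kap) ≤ 1 := by
        rw [div_le_one (by positivity)]
        have := p.hk
        linarith
      have h2 : Ico 0 (p.c / (2 * p.kap)) ⊆ Iio (p.c / (2 * p.kap)) ∩ Icc 0 1 := by
        intro x hx
        exact ⟨hx.2, hx.1, hx.2.le.trans h1⟩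
      refine le_trans ?_ (measure_mono h2)
      rw [Real.volume_Ico, sub_zero]
  have h1 : ENNReal.ofReal (p0 d p ^ K / 2) = 1 / 2 * ENNReal.ofReal (p0 d p) ^ K := by
    rw [ENNReal.ofReal_div_of_pos (by norm_num), ENNReal.ofReal_pow hp0.le, ENNReal.ofReal_ofNat,
      mul_comm, one_div, div_eq_mul_inv]
  rw [h1]
  gcongr

end Pool.Agent.N276.SC
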