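import Pool.Agent.N276.SC.Stm

/-!
# From the parts to the result
-/

set_option autoImplicit false

open MeasureTheory ProbabilityTheory Filter Topology Set
open scoped ENNReal

namespace Pool.Agent.N276.SC

namespace FinAux

theorem nu0_prob (d : ℕ) : IsProbabilityMeasure (nu0 d) := by unfold nu0; infer_instance

/-- the discrete conclusion -/
theorem discrete (hmeas : StmMeas) (htail : StmTail) (hosc : StmOsc) (hcont : StmCont)
    (hu : StmSpeedU) (hl : StmSpeedL) (hnu : StmNu) (d : ℕ) (p : Par) (vd : ℝ → ℝ) (v0 : ℝ)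
    (h1 : ∀ mu, 0 < mu → HasSpeed d p (nuM d p mu) (vd mu)) (h0 : HasSpeed d p (nu0 d) v0) :
    Tendsto vd (𝓝[>] 0) (𝓝 v0) := by
  have : IsProbabilityMeasure (nu0 d) := nu0_prob d
  obtain ⟨Ct, hCt, ht⟩ := htail d p
  obtain ⟨C, hC, ho⟩ := hosc d p
  have hfin : ∀ (nu : Measure (Edge d → Bool)), IsProbabilityMeasure nu → ∀ L, bb p nu L ≠ ⊤ := by
    intro nu hnu' L
    obtain ⟨_, _, _, _, _, _, _, _, hq, _, _⟩ := hmeas d p
    refine ne_top_of_le_ne_top (b := ENNReal.ofReal (Ct * (L + 1))) ENNReal.ofReal_ne_top ?_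
    refine iSup_le fun x => iSup_le fun ξ => ?_
    unfold TT
    calc ∫⁻ a, mt p nu (x 0 + L) (x, glue (x 0) ξ a) ∂(qE d p)
        ≤ ∫⁻ _a, ENNReal.ofReal (Ct * (L + 1)) ∂(qE d p) :=
          lintegral_mono fun a => ht nu hnu' (x, glue (x 0) ξ a) L
      _ = ENNReal.ofReal (Ct * (L + 1)) := by simp
  have hcb : ∀ (nu : Measure (Edge d → Bool)) (L : ℕ), cc p nu L ≤ bb p nu L := by
    intro nu L
    unfold cc bb
    exact (iInf_le _ (0 : Site d)).trans ((iInf_le _ (fun _ => (0 : ℝ))).trans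
      ((le_iSup (fun ξ => TT p nu ((0 : Site d) 0 + L) 0 ξ) (fun _ => (0 : ℝ))).trans
        (le_iSup (fun x : Site d => ⨆ ξ, TT p nu (x 0 + L) x ξ) 0)))
  have hfc : ∀ (nu : Measure (Edge d → Bool)), IsProbabilityMeasure nu → ∀ L, cc p nu L ≠ ⊤ :=
    fun nu hnu' L => ne_top_of_le_ne_top (hfin nu hnu' L) (hcb nu L)
  have hv0 := (hu d p (nu0 d) inferInstance v0 h0).1
  have hinv : Tendsto (fun mu => (vd mu)⁻¹) (𝓝[>] 0) (𝓝 v0⁻¹) := by
    rw [Metric.tendsto_nhds]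
    intro e he
    obtain ⟨L, hL⟩ := exists_nat_gt ((C + 1) / e)
    have hLp : (0 : ℝ) < L := lt_of_le_of_lt (by positivity) hL
    obtain ⟨ε, hε, hc⟩ := hcont d p L 1 one_pos
    obtain ⟨_, _, _, _, _, _, _, _, _, hZ, _⟩ := hmeas d p
    have hk : 0 < p.kap := lt_of_lt_of_le p.hc p.hk
    have hpos : 0 < ε * (2 * p.kap * ZZ d p.lam) := by positivity
    have hev : ∀ᶠ mu in 𝓝[>] (0 : ℝ), 0 < mu ∧ mu < ε * (2 * p.kap * ZZ d p.lam) := by
      filter_upwards [self_mem_nhdsWithin, Ioo_mem_nhdsGT hpos] with mu h1 h2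
      exact ⟨h1, h2.2⟩
    filter_upwards [hev] with mu hmu
    obtain ⟨hmu0, hmu1⟩ := hmu
    obtain ⟨hprob, hsm⟩ := hnu d p mu hmu0
    have hsmall : ∀ e, (nuM d p mu) {r | r e = true} ≤ ENNReal.ofReal ε := by
      intro e
      refine (hsm e).trans (ENNReal.ofReal_le_ofReal ?_)
      rw [div_le_iff₀ (by positivity)]
      exact hmu1.le
    obtain ⟨hb, hcc⟩ := hc (nuM d p mu) hprob hsmall
    obtain ⟨hvp, hU⟩ := hu d p _ hprob (vd mu) (h1 mu hmu0)
    have hLd := hl d p _ hprob (vd mu) (h1 mu hmu0) hvp L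
    have hU' := hU L
    have hU0 := (hu d p (nu0 d) inferInstance v0 h0).2 L
    have hL0 := hl d p (nu0 d) inferInstance v0 h0 hv0 L
    have e1 : (bb p (nuM d p mu) L).toReal ≤ (bb p (nu0 d) L).toReal + 1 := by
      have := ENNReal.toReal_mono (by finiteness [hfin (nu0 d) inferInstance L]) hb
      rwa [ENNReal.toReal_add (hfin _ inferInstance L) ENNReal.ofReal_ne_top,
        ENNReal.toReal_ofReal one_pos.le] at this
    have e2 : (cc p (nu0 d) L).toReal ≤ (cc p (nuM d p mu) L).toReal + 1 := by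
      have := ENNReal.toReal_mono (by finiteness [hfc _ hprob L]) hcc
      rwa [ENNReal.toReal_add (hfc _ hprob L) ENNReal.ofReal_ne_top,
        ENNReal.toReal_ofReal one_pos.le] at this
    have e3 : (bb p (nu0 d) L).toReal ≤ (cc p (nu0 d) L).toReal + C := by
      have := ENNReal.toReal_mono (by finiteness [hfc (nu0 d) inferInstance L]) (ho L)
      rwa [ENNReal.toReal_add (hfc _ inferInstance L) ENNReal.ofReal_ne_top,
        ENNReal.toReal_ofReal hC.le] at this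
    have a1 : (L : ℝ) / vd mu ≤ (bb p (nuM d p mu) L).toReal := by
      rw [div_le_iff₀ hvp]; exact hU'
    have a2 : (cc p (nuM d p mu) L).toReal ≤ (L : ℝ) / vd mu := by
      rw [le_div_iff₀ hvp]; exact hLd
    have a3 : (L : ℝ) / v0 ≤ (bb p (nu0 d) L).toReal := by
      rw [div_le_iff₀ hv0]; exact hU0
    have a4 : (cc p (nu0 d) L).toReal ≤ (L : ℝ) / v0 := by
      rw [le_div_iff₀ hv0]; exact hL0
    have key : |(L : ℝ) / vd mu - L / v0| ≤ C + 1 := by
      rw [abs_le]; constructor <;> linarith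
    rw [Real.dist_eq]
    have : (L : ℝ) * |(vd mu)⁻¹ - v0⁻¹| ≤ C + 1 := by
      calc (L : ℝ) * |(vd mu)⁻¹ - v0⁻¹| = |(L : ℝ) * ((vd mu)⁻¹ - v0⁻¹)| := by
            rw [abs_mul, abs_of_pos hLp]
        _ = |(L : ℝ) / vd mu - L / v0| := by congr 1; ring
        _ ≤ C + 1 := key
    have h2 : C + 1 < e * L := by rwa [div_lt_iff₀ he, mul_comm] at hL
    nlinarith [abs_nonneg ((vd mu)⁻¹ - v0⁻¹)]
  have := hinv.inv₀ (inv_ne_zero hv0.ne')
  simpa using this

theorem meas_speedSet (d : ℕ) (v : ℝ) :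
    MeasurableSet {y : ℕ → Site d | Tendsto (fun n : ℕ => ((y n 0 : ℤ) : ℝ) / n) atTop (𝓝 v)} := by
  apply measurableSet_tendsto
  intro n
  refine Measurable.div_const ?_ _
  exact (measurable_from_top (f := fun k : ℤ => (k : ℝ))).comp
    ((measurable_pi_apply 0).comp (measurable_pi_apply n))

/-- speeds in continuous and in discrete time -/
theorem link {A : Type*} [MeasurableSpace A] (d : ℕ) (p : Par) (nu : Measure (Edge d → Bool))
    (M : Measure A) [SFinite M] (env : A → ℝ → Edge d → ℝ) (v : ℝ)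
    (hmeas : StmMeas) (htime : StmTime) (hring : StmRing)
    (hlaw : (M.prod (walkLaw d p.lam p.kap)).map
      (fun ω => pos p.kap (env ω.1) ω.2.1 ω.2.2.1 ω.2.2.2) =
      ((qE d p).prod (PP p nu)).map (fun z => pth p (0, z.1) z.2))
    (hms : Measurable (fun ω : A × ((ℕ → ℝ) × (ℕ → Dir d) × (ℕ → ℝ)) =>
      pos p.kap (env ω.1) ω.2.1 ω.2.2.1 ω.2.2.2))
    (hv : ∀ᵐ ω ∂(M.prod (walkLaw d p.lam p.kap)),
      Tendsto (fun t : ℝ => ((walk p.kap (env ω.1) ω.2.1 ω.2.2.1 ω.2.2.2 t 0 : ℤ) : ℝ) / t)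
        atTop (𝓝 v)) :
    HasSpeed d p nu (v / (2 * p.kap * ZZ d p.lam)) := by
  obtain ⟨_, _, hh, _, _, _, hD, hU, hq, hZ, _⟩ := hmeas d p
  have hk : 0 < p.kap := lt_of_lt_of_le p.hc p.hk
  have hR : 0 < 2 * p.kap * ZZ d p.lam := by positivity
  have : IsProbabilityMeasure (expMeasure (2 * p.kap * ZZ d p.lam)) :=
    isProbabilityMeasure_expMeasure hR
  have : IsProbabilityMeasure (walkLaw d p.lam p.kap) := by unfold walkLaw; infer_instance
  have hr1 : ∀ᵐ ω : (ℕ → ℝ) × (ℕ → Dir d) × (ℕ → ℝ) ∂(walkLaw d p.lam p.kap), (∀ i, 0 < ω.1 i) ∧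
      Tendsto (fun n : ℕ => (∑ i ∈ Finset.range n, ω.1 i) / n) atTop
        (𝓝 (1 / (2 * p.kap * ZZ d p.lam))) :=
    Measure.quasiMeasurePreserving_fst.ae (hring _ hR)
  have hr2 : ∀ᵐ ω : A × ((ℕ → ℝ) × (ℕ → Dir d) × (ℕ → ℝ)) ∂(M.prod (walkLaw d p.lam p.kap)),
      (∀ i, 0 < ω.2.1 i) ∧
      Tendsto (fun n : ℕ => (∑ i ∈ Finset.range n, ω.2.1 i) / n) atTop
        (𝓝 (1 / (2 * p.kap * ZZ d p.lam))) :=
    Measure.quasiMeasurePreserving_snd.ae hr1
  have h3 : ∀ᵐ ω ∂(M.prod (walkLaw d p.lam p.kap)),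
      (fun ω => pos p.kap (env ω.1) ω.2.1 ω.2.2.1 ω.2.2.2) ω ∈
      {y : ℕ → Site d | Tendsto (fun n : ℕ => ((y n 0 : ℤ) : ℝ) / n) atTop
        (𝓝 (v / (2 * p.kap * ZZ d p.lam)))} := by
    filter_upwards [hv, hr2] with ω h1 h2
    exact htime (fun n => pos p.kap (env ω.1) ω.2.1 ω.2.2.1 ω.2.2.2 n 0) ω.2.1 _ v hR h2.1 h2.2 h1
  have h4 := (ae_map_iff hms.aemeasurable (meas_speedSet d _)).mpr h3
  rw [hlaw] at h4
  have hG : Measurable (fun z : (Edge d → ℝ) × (ℕ → Inn d) => pth p ((0 : Site d), z.1) z.2) := by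
    refine measurable_pi_iff.mpr fun n => ?_
    have := (measurable_fst.comp (hh n)).comp
      (show Measurable (fun z : (Edge d → ℝ) × (ℕ → Inn d) => (((0 : Site d), z.1), z.2)) by fun_prop)
    exact this
  exact ae_of_ae_map hG.aemeasurable h4

end FinAux

open FinAux in
theorem fin (hmeas : StmMeas) (htail : StmTail) (hosc : StmOsc) (hcont : StmCont)
    (hu : StmSpeedU) (hl : StmSpeedL) (hnu : StmNu) (hsd : StmSkelD) (hss : StmSkelS)
    (htime : StmTime) (hring : StmRing)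
    (d : ℕ) (c kap lam : ℝ) (q : Measure ℝ) (hq : IsProbabilityMeasure q) (hc : 0 < c)
    (hs : q (Icc c kap) = 1) (hlam : 0 < lam) (v : ℝ → ℝ) (vst : ℝ)
    (hv : ∀ mu, 0 < mu → IsDynSpeed d lam kap q mu (v mu)) (hst : IsStatSpeed d lam kap q vst) :
    Tendsto v (𝓝[>] 0) (𝓝 vst) := by
  have hk : c ≤ kap := by
    by_contra h
    rw [Icc_eq_empty h] at hs
    simp at hs
  let p : Par := ⟨c, kap, lam, q, hq, hc, hk, hlam, hs⟩
  obtain ⟨_, _, _, _, _, _, _, _, _, hZ, _⟩ := hmeas d p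
  have hk0 : 0 < p.kap := lt_of_lt_of_le p.hc p.hk
  have hR : 0 < 2 * p.kap * ZZ d p.lam := by positivity
  have h1 : ∀ mu, 0 < mu → HasSpeed d p (nuM d p mu) (v mu / (2 * p.kap * ZZ d p.lam)) := by
    intro mu hmu
    obtain ⟨hlaw, hms⟩ := hsd d p mu hmu
    have : IsProbabilityMeasure (expMeasure mu) := isProbabilityMeasure_expMeasure hmu
    have : IsProbabilityMeasure (envLaw d p.q mu) := by unfold envLaw; infer_instance
    exact link d p (nuM d p mu) (envLaw d p.q mu) (fun w => cond w) (v mu)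
      hmeas htime hring hlaw hms (hv mu hmu)
  have h0 : HasSpeed d p (nu0 d) (vst / (2 * p.kap * ZZ d p.lam)) := by
    obtain ⟨hlaw, hms⟩ := hss d p
    have : IsProbabilityMeasure (statLaw d p.q) := by unfold statLaw; infer_instance
    exact link d p (nu0 d) (statLaw d p.q) (fun w _ => w) vst
      hmeas htime hring hlaw hms hst
  have h2 := discrete hmeas htail hosc hcont hu hl hnu d p _ _ h1 h0
  have h3 := h2.mul_const (2 * p.kap * ZZ d p.lam)
  simpa [div_mul_cancel₀ _ hR.ne'] using h3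

end Pool.Agent.N276.SC
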