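import Pool.Agent.N276.SC.Stm

/-!
# SC/7: the conductances ahead are fresh when the walk has not reached them (helper37)
-/

set_option autoImplicit false

open MeasureTheory ProbabilityTheory Filter Topology Set
open scoped ENNReal

namespace Pool.Agent.N276.SC

namespace FreshAux

section cat

variable {X : Type*}

/-- concatenation at the time `n` -/
def cat (n : ℕ) (z : (ℕ → X) × (ℕ → X)) (k : ℕ) : X := if k < n then z.1 k else z.2 (k - n)

theorem cat_lt {n k : ℕ} (h : k < n) (z : (ℕ → X) × (ℕ → X)) : cat n z k = z.1 k := if_pos h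

theorem cat_ge {n k : ℕ} (h : ¬ k < n) (z : (ℕ → X) × (ℕ → X)) : cat n z k = z.2 (k - n) := if_neg h

variable [MeasurableSpace X]

theorem cat_meas (n : ℕ) : Measurable (cat n : (ℕ → X) × (ℕ → X) → ℕ → X) := by
  refine measurable_pi_lambda _ fun k => ?_
  by_cases h : k < n
  · simp only [cat, if_pos h]
    exact (measurable_pi_apply k).comp measurable_fst
  · simp only [cat, if_neg h]
    exact (measurable_pi_apply _).comp measurable_snd

theorem map_cat (n : ℕ) (μ : Measure X) [IsProbabilityMeasure μ] :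
    ((Measure.infinitePi fun _ : ℕ => μ).prod (Measure.infinitePi fun _ : ℕ => μ)).map (cat n) =
      Measure.infinitePi fun _ : ℕ => μ := by
  refine Measure.eq_infinitePi (fun _ : ℕ => μ) fun s t ht => ?_
  rw [Measure.map_apply (cat_meas n) (MeasurableSet.pi s.countable_toSet fun i _ => ht i)]
  have h1 : cat n ⁻¹' (Set.pi (s : Set ℕ) t) =
      (Set.pi ((s.filter (fun i => i < n) : Finset ℕ) : Set ℕ) t) ×ˢ
      (Set.pi (((s.filter (fun i => ¬ i < n)).image (fun i => i - n) : Finset ℕ) : Set ℕ)
        fun j => t (j + n)) := by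
    ext z
    simp only [mem_preimage, Set.mem_pi, Set.mem_prod, Finset.mem_coe, Finset.mem_filter,
      Finset.mem_image]
    constructor
    · intro h
      refine ⟨fun i hi => ?_, ?_⟩
      · have h2 := h i hi.1
        rwa [cat_lt hi.2] at h2
      · rintro j ⟨i, hi, rfl⟩
        have h2 := h i hi.1
        rw [cat_ge hi.2] at h2
        rwa [Nat.sub_add_cancel (by omega)]
    · rintro ⟨h1, h2⟩ i hi
      by_cases h : i < n
      · rw [cat_lt h]
        exact h1 i ⟨hi, h⟩
      · have h3 := h2 (i - n) ⟨i, ⟨hi, h⟩, rfl⟩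
        rw [Nat.sub_add_cancel (by omega)] at h3
        rwa [cat_ge h]
  rw [h1, Measure.prod_prod, Measure.infinitePi_pi _ fun i _ => ht i,
    Measure.infinitePi_pi _ fun i _ => ht (i + n), Finset.prod_image, ← Finset.prod_filter_mul_prod_filter_not s (fun i => i < n)]
  · congr 1
    refine Finset.prod_congr rfl fun i hi => ?_
    rw [Finset.mem_filter] at hi
    rw [Nat.sub_add_cancel (by omega)]
  · intro i hi j hj hij
    rw [Finset.mem_coe, Finset.mem_filter] at hi hj
    simp only at hij
    omega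

/-- the coordinate `n` is independent of the coordinates before -/
theorem lintegral_coord (n : ℕ) (μ : Measure X) [IsProbabilityMeasure μ]
    {F : (ℕ → X) × X → ℝ≥0∞} (hF : Measurable F)
    (hn : ∀ (ζ ζ' : ℕ → X) (z : X), (∀ k < n, ζ k = ζ' k) → F (ζ, z) = F (ζ', z)) :
    ∫⁻ ζ, F (ζ, ζ n) ∂(Measure.infinitePi fun _ : ℕ => μ) =
      ∫⁻ ζ, ∫⁻ z, F (ζ, z) ∂μ ∂(Measure.infinitePi fun _ : ℕ => μ) := by
  have h0 : Measurable fun ζ : ℕ → X => F (ζ, ζ n) :=
    hF.comp (measurable_id.prodMk (measurable_pi_apply n))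
  have h1 : Measurable fun z : (ℕ → X) × (ℕ → X) => F (cat n z, cat n z n) :=
    h0.comp (cat_meas n)
  conv_lhs => rw [← map_cat n μ]
  rw [lintegral_map h0 (cat_meas n), lintegral_prod _ h1.aemeasurable]
  refine lintegral_congr fun ζ => ?_
  have h2 : ∀ ζ' : ℕ → X, F (cat n (ζ, ζ'), cat n (ζ, ζ') n) = F (ζ, ζ' 0) := by
    intro ζ'
    rw [cat_ge (lt_irrefl n), Nat.sub_self]
    exact hn _ _ _ fun k hk => cat_lt hk _
  simp only [h2]
  have h3 : Measurable fun z : X => F (ζ, z) := hF.comp measurable_prodMk_left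
  have h4 := lintegral_map (μ := Measure.infinitePi fun _ : ℕ => μ) h3 (measurable_pi_apply 0)
  rw [← h4, Measure.infinitePi_map_eval]

end cat

variable {d : ℕ}

theorem map_glue (p : Par) (m : ℤ)
    (hm : Measurable fun z : (Edge d → ℝ) × (Edge d → ℝ) => glue m z.1 z.2) :
    ((qE d p).prod (qE d p)).map (fun z => glue m z.1 z.2) = qE d p := by
  unfold qE
  refine Measure.eq_infinitePi (fun _ : Edge d => p.q) fun s t ht => ?_
  rw [Measure.map_apply hm (MeasurableSet.pi s.countable_toSet fun i _ => ht i)]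
  have h1 : (fun z : (Edge d → ℝ) × (Edge d → ℝ) => glue m z.1 z.2) ⁻¹'
        (Set.pi (s : Set (Edge d)) t) =
      (Set.pi ((s.filter (fun e => e.1 0 < m) : Finset (Edge d)) : Set (Edge d)) t) ×ˢ
      (Set.pi ((s.filter (fun e => ¬ e.1 0 < m) : Finset (Edge d)) : Set (Edge d)) t) := by
    ext z
    simp only [mem_preimage, Set.mem_pi, Set.mem_prod, Finset.mem_coe, Finset.mem_filter, glue]
    constructor
    · intro h
      refine ⟨fun i hi => ?_, fun i hi => ?_⟩
      · have h2 := h i hi.1
        rwa [if_pos hi.2] at h2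
      · have h2 := h i hi.1
        rwa [if_neg hi.2] at h2
    · rintro ⟨h1, h2⟩ i hi
      by_cases h : i.1 0 < m
      · rw [if_pos h]
        exact h1 i ⟨hi, h⟩
      · rw [if_neg h]
        exact h2 i ⟨hi, h⟩
  rw [h1, Measure.prod_prod, Measure.infinitePi_pi _ fun i _ => ht i,
    Measure.infinitePi_pi _ fun i _ => ht i, Finset.prod_filter_mul_prod_filter_not]

theorem glue_glue {l m : ℤ} (h : l ≤ m) (ξ a a' : Edge d → ℝ) :
    glue m (glue l ξ a) a' = glue l ξ (glue m a a') := by
  funext e
  unfold glue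
  by_cases h1 : e.1 0 < l
  · rw [if_pos (h1.trans_le h), if_pos h1, if_pos h1]
  · by_cases h2 : e.1 0 < m
    · rw [if_pos h2, if_neg h1, if_neg h1, if_pos h2]
    · rw [if_neg h2, if_neg h1, if_neg h2]

/-- the first `n` values of the history -/
noncomputable def hs (p : Par) (n : ℕ) (s : State d) (ζ : ℕ → Inn d) : Fin n → Site d × Dir d :=
  fun k => hist p s ζ k

open Classical in
/-- one step with a given last value of the history -/
noncomputable def GG (p : Par) (nu : Measure (Edge d → Bool)) (G : State d → ℝ≥0∞)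
    (u : Site d × Dir d) (s : State d) : ℝ≥0∞ :=
  ∫⁻ z, (if (s.1, z.2.2.1) = u then G (step p s z) else 0) ∂(inn p nu)

theorem chain_congr (p : Par) (s : State d) (n : ℕ) (ζ ζ' : ℕ → Inn d) (h : ∀ k < n, ζ k = ζ' k) :
    ∀ k ≤ n, chain p s ζ k = chain p s ζ' k
  | 0, _ => rfl
  | k + 1, hk => by
    simp only [chain]
    rw [chain_congr p s n ζ ζ' h k (by omega), h k (by omega)]

theorem hist_congr (p : Par) (s : State d) (n : ℕ) (ζ ζ' : ℕ → Inn d) (h : ∀ k < n, ζ k = ζ' k)
    (k : ℕ) (hk : k < n) : hist p s ζ k = hist p s ζ' k := by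
  simp only [hist, pth]
  rw [chain_congr p s n ζ ζ' h k hk.le, h k hk]

theorem hs_succ (p : Par) (n : ℕ) (s : State d) (ζ : ℕ → Inn d) :
    hs p (n + 1) s ζ = Fin.snoc (α := fun _ => Site d × Dir d) (hs p n s ζ)
      ((chain p s ζ n).1, (ζ n).2.2.1) := by
  funext k
  refine Fin.lastCases ?_ (fun j => ?_) k
  · rw [Fin.snoc_last]
    rfl
  · rw [Fin.snoc_castSucc]
    rfl

/-- integral of one step, decomposed over the last value of the history -/
theorem inner (p : Par) (nu : Measure (Edge d → Bool)) (hstep : Measurable fun z : State d × Inn d =>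
    step p z.1 z.2) (g : Site d × Dir d → ℝ≥0∞) (G : State d → ℝ≥0∞) (hG : Measurable G)
    (s : State d) :
    ∫⁻ z, g (s.1, z.2.2.1) * G (step p s z) ∂(inn p nu) = ∑' u, g u * GG p nu G u s := by
  classical
  have hD : Measurable fun z : Inn d => (s.1, z.2.2.1) :=
    measurable_const.prodMk (measurable_fst.comp (measurable_snd.comp measurable_snd))
  have hm : ∀ u : Site d × Dir d, Measurable fun z : Inn d =>
      if (s.1, z.2.2.1) = u then G (step p s z) else 0 := by
    intro u
    refine Measurable.ite (hD (measurableSet_singleton u)) ?_ measurable_const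
    exact hG.comp (hstep.comp (measurable_const.prodMk measurable_id))
  have h1 : ∀ u, g u * GG p nu G u s =
      ∫⁻ z, g u * (if (s.1, z.2.2.1) = u then G (step p s z) else 0) ∂(inn p nu) := by
    intro u
    rw [lintegral_const_mul _ (hm u), GG]
  simp only [h1]
  rw [← lintegral_tsum fun u => ((hm u).const_mul (g u)).aemeasurable]
  refine lintegral_congr fun z => ?_
  rw [tsum_eq_single (s.1, z.2.2.1)]
  · rw [if_pos rfl]
  · intro u hu
    rw [if_neg (fun h => hu h.symm), mul_zero]

theorem meas_GG (p : Par) (nu : Measure (Edge d → Bool)) [IsProbabilityMeasure (inn p nu)]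
    (hstep : Measurable fun z : State d × Inn d => step p z.1 z.2) (G : State d → ℝ≥0∞)
    (hG : Measurable G) (u : Site d × Dir d) : Measurable (GG p nu G u) := by
  classical
  have hD : Measurable fun z : State d × Inn d => (z.1.1, z.2.2.2.1) :=
    (measurable_fst.comp measurable_fst).prodMk
      (measurable_fst.comp (measurable_snd.comp (measurable_snd.comp measurable_snd)))
  have h : Measurable fun z : State d × Inn d =>
      if (z.1.1, z.2.2.2.1) = u then G (step p z.1 z.2) else 0 :=
    Measurable.ite (hD (measurableSet_singleton u)) (hG.comp hstep) measurable_const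
  exact h.lintegral_prod_right'

theorem meas_Av (p : Par) [IsProbabilityMeasure (qE d p)] (m : ℤ)
    (hglue : Measurable fun z : (Edge d → ℝ) × (Edge d → ℝ) => glue m z.1 z.2)
    (G : State d → ℝ≥0∞) (hG : Measurable G) : Measurable (Av p m G) := by
  have h : Measurable fun z : State d × (Edge d → ℝ) => G (z.1.1, glue m z.1.2 z.2) := by
    refine hG.comp ((measurable_fst.comp measurable_fst).prodMk ?_)
    exact hglue.comp ((measurable_snd.comp measurable_fst).prodMk measurable_snd)
  exact h.lintegral_prod_right'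

/-- the functional of the statement -/
noncomputable def EE (p : Par) (nu : Measure (Edge d → Bool)) (l : ℤ) (x : Site d)
    (ξ : Edge d → ℝ) (n : ℕ) (g : (Fin n → Site d × Dir d) → ℝ≥0∞) (G : State d → ℝ≥0∞) : ℝ≥0∞ :=
  ∫⁻ a, ∫⁻ ζ, g (hs p n (x, glue l ξ a) ζ) * G (chain p (x, glue l ξ a) ζ n) ∂(PP p nu) ∂(qE d p)

theorem EE_succ (hM : StmMeas) (p : Par) (nu : Measure (Edge d → Bool)) (hnu : IsProbabilityMeasure nu)
    (l : ℤ) (x : Site d) (ξ : Edge d → ℝ) (n : ℕ) (g : (Fin (n + 1) → Site d × Dir d) → ℝ≥0∞)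
    (G : State d → ℝ≥0∞) (hG : Measurable G) :
    EE p nu l x ξ (n + 1) g G =
      ∑' u : Site d × Dir d, EE p nu l x ξ n
        (fun h => g (Fin.snoc (α := fun _ => Site d × Dir d) h u)) (GG p nu G u) := by
  classical
  obtain ⟨hstep, hchain, hhist, -, -, hglue, -, -, hqE, -, hprob⟩ := hM d p
  obtain ⟨hinn, hPP, -⟩ := hprob nu hnu
  have hhs : ∀ n, Measurable fun z : State d × (ℕ → Inn d) => hs p n z.1 z.2 := fun n =>
    measurable_pi_lambda _ fun k => hhist k
  have hcd : ∀ (k : ℕ) (f : (Fin k → Site d × Dir d) → ℝ≥0∞), Measurable f := fun k f =>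
    measurable_of_countable f
  -- the inner integral
  have h1 : ∀ s : State d, ∫⁻ ζ, g (hs p (n + 1) s ζ) * G (chain p s ζ (n + 1)) ∂(PP p nu) =
      ∑' u : Site d × Dir d, ∫⁻ ζ, g (Fin.snoc (α := fun _ => Site d × Dir d) (hs p n s ζ) u) *
        GG p nu G u (chain p s ζ n) ∂(PP p nu) := by
    intro s
    have hc : Measurable fun ζ : ℕ → Inn d => chain p s ζ n :=
      (hchain n).comp (measurable_const.prodMk measurable_id)
    have hh : Measurable fun ζ : ℕ → Inn d => hs p n s ζ :=
      (hhs n).comp (measurable_const.prodMk measurable_id)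
    set F : (ℕ → Inn d) × Inn d → ℝ≥0∞ := fun z =>
      g (Fin.snoc (α := fun _ => Site d × Dir d) (hs p n s z.1) ((chain p s z.1 n).1, z.2.2.2.1)) *
        G (step p (chain p s z.1 n) z.2) with hF
    have hFm : Measurable F := by
      refine Measurable.mul ?_ (hG.comp (hstep.comp ((hc.comp measurable_fst).prodMk measurable_snd)))
      have h2 : Measurable fun z : (ℕ → Inn d) × Inn d =>
          (hs p n s z.1, ((chain p s z.1 n).1, z.2.2.2.1)) := by
        refine (hh.comp measurable_fst).prodMk (((measurable_fst.comp hc).comp measurable_fst).prodMk ?_)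
        exact measurable_fst.comp (measurable_snd.comp (measurable_snd.comp measurable_snd))
      exact (measurable_of_countable (fun w : (Fin n → Site d × Dir d) × (Site d × Dir d) =>
        g (Fin.snoc (α := fun _ => Site d × Dir d) w.1 w.2))).comp h2
    have h3 : ∀ ζ : ℕ → Inn d, g (hs p (n + 1) s ζ) * G (chain p s ζ (n + 1)) = F (ζ, ζ n) := by
      intro ζ
      rw [hs_succ]
      rfl
    simp only [h3]
    have h4 := lintegral_coord n (inn p nu) hFm (fun ζ ζ' z h => by
      simp only [hF]
      rw [chain_congr p s n ζ ζ' h n le_rfl]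
      congr 3
      funext k
      exact hist_congr p s n ζ ζ' h k k.2)
    have h5 : ∫⁻ ζ, F (ζ, ζ n) ∂(PP p nu) = ∫⁻ ζ, ∫⁻ z, F (ζ, z) ∂(inn p nu) ∂(PP p nu) := h4
    rw [h5]
    have h6 : ∀ ζ : ℕ → Inn d, ∫⁻ z, F (ζ, z) ∂(inn p nu) =
        ∑' u : Site d × Dir d, g (Fin.snoc (α := fun _ => Site d × Dir d) (hs p n s ζ) u) *
          GG p nu G u (chain p s ζ n) := fun ζ =>
      inner p nu hstep (fun u => g (Fin.snoc (α := fun _ => Site d × Dir d) (hs p n s ζ) u)) G hG
        (chain p s ζ n)
    simp only [h6]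
    rw [lintegral_tsum]
    intro u
    refine Measurable.aemeasurable (Measurable.mul ?_ ((meas_GG p nu hstep G hG u).comp hc))
    exact (hcd n (fun w => g (Fin.snoc (α := fun _ => Site d × Dir d) w u))).comp hh
  unfold EE
  simp only [h1]
  rw [lintegral_tsum]
  intro u
  have h7 : Measurable fun z : (Edge d → ℝ) × (ℕ → Inn d) =>
      ((x, glue l ξ z.1), z.2) := by
    refine (measurable_const.prodMk ?_).prodMk measurable_snd
    exact (hglue l).comp (measurable_const.prodMk measurable_fst)
  have h8 : Measurable fun z : (Edge d → ℝ) × (ℕ → Inn d) =>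
      g (Fin.snoc (α := fun _ => Site d × Dir d) (hs p n (x, glue l ξ z.1) z.2) u) *
        GG p nu G u (chain p (x, glue l ξ z.1) z.2 n) := by
    refine Measurable.mul ?_ ((meas_GG p nu hstep G hG u).comp ((hchain n).comp h7))
    exact (hcd n (fun w => g (Fin.snoc (α := fun _ => Site d × Dir d) w u))).comp ((hhs n).comp h7)
  exact h8.lintegral_prod_right'.aemeasurable

/-- averaging commutes with one step -/
theorem Av_GG (hM : StmMeas) (hC : StmComm) (p : Par) (nu : Measure (Edge d → Bool))
    (hnu : IsProbabilityMeasure nu) (m : ℤ) (u : Site d × Dir d) (hu : u.1 0 < m)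
    (G : State d → ℝ≥0∞) (hG : Measurable G) : Av p m (GG p nu G u) = GG p nu (Av p m G) u := by
  classical
  funext s
  unfold Av GG
  by_cases h : s.1 = u.1
  · have h1 : ∀ z : Inn d, ((s.1, z.2.2.1) = u) = (z.2.2.1 = u.2) := by
      intro z
      apply propext
      constructor
      · intro h2
        rw [← h2]
      · intro h2
        exact Prod.ext h h2
    have h3 := hC d p nu hnu m u.2 G hG s (by rw [h]; exact hu)
    simp only [h1]
    convert h3 using 4
    rfl
  · have h1 : ∀ z : Inn d, ¬ ((s.1, z.2.2.1) = u) := by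
      intro z h2
      exact h (by rw [← h2])
    simp only [h1, if_false, lintegral_zero]

theorem main (hM : StmMeas) (hC : StmComm) (p : Par) (nu : Measure (Edge d → Bool))
    (hnu : IsProbabilityMeasure nu) (l m : ℤ) (hlm : l ≤ m) (x : Site d) (ξ : Edge d → ℝ) (n : ℕ) :
    ∀ (g : (Fin n → Site d × Dir d) → ℝ≥0∞), (∀ h, g h ≠ 0 → ∀ k, (h k).1 0 < m) →
    ∀ G : State d → ℝ≥0∞, Measurable G → EE p nu l x ξ n g G = EE p nu l x ξ n g (Av p m G) := by
  obtain ⟨hstep, hchain, hhist, -, -, hglue, -, -, hqE, -, hprob⟩ := hM d p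
  obtain ⟨hinn, hPP, -⟩ := hprob nu hnu
  induction n with
  | zero =>
    intro g _ G hG
    unfold EE
    have h0 : ∀ h : Fin 0 → Site d × Dir d, g h = g default := fun h => by
      rw [Subsingleton.elim h default]
    have hGm : Measurable fun a : Edge d → ℝ => G (x, glue l ξ a) :=
      hG.comp (measurable_const.prodMk ((hglue l).comp (measurable_const.prodMk measurable_id)))
    have hAm : Measurable fun a : Edge d → ℝ => Av p m G (x, glue l ξ a) :=
      (meas_Av p m (hglue m) G hG).comp
        (measurable_const.prodMk ((hglue l).comp (measurable_const.prodMk measurable_id)))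
    simp only [h0, chain, lintegral_const, measure_univ, mul_one]
    rw [lintegral_const_mul _ hGm, lintegral_const_mul _ hAm]
    congr 1
    unfold Av
    simp only [glue_glue hlm]
    have h1 : Measurable fun z : (Edge d → ℝ) × (Edge d → ℝ) => G (x, glue l ξ (glue m z.1 z.2)) :=
      hGm.comp (hglue m)
    conv_lhs => rw [← map_glue p m (hglue m)]
    rw [lintegral_map hGm (hglue m), lintegral_prod _ h1.aemeasurable]
  | succ n ih =>
    intro g hg G hG
    have hA := meas_Av p m (hglue m) G hG
    rw [EE_succ hM p nu hnu l x ξ n g G hG, EE_succ hM p nu hnu l x ξ n g (Av p m G) hA]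
    refine tsum_congr fun u => ?_
    by_cases h0 : ∀ h, g (Fin.snoc (α := fun _ => Site d × Dir d) h u) = 0
    · unfold EE
      simp only [h0, zero_mul, lintegral_zero]
    · push Not at h0
      obtain ⟨h, hh⟩ := h0
      have hu : u.1 0 < m := by
        have h1 := hg _ hh (Fin.last n)
        rwa [Fin.snoc_last] at h1
      rw [ih (fun h => g (Fin.snoc (α := fun _ => Site d × Dir d) h u)) (fun h' hh' k => by
        have h1 := hg _ hh' k.castSucc
        rwa [Fin.snoc_castSucc] at h1) (GG p nu G u) (meas_GG p nu hstep G hG u),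
        Av_GG hM hC p nu hnu m u hu G hG]

end FreshAux

open FreshAux in
theorem fresh : StmMeas → StmComm → StmFresh := by
  intro hM hC d p nu hnu l m hlm x ξ n g hg G hG
  exact main hM hC p nu hnu l m hlm x ξ n g hg G hG

end Pool.Agent.N276.SC
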