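import Pool.Agent.N276.SC.Stm

/-!
# Contraction of the one step operator in `L²(mm)`
-/

set_option autoImplicit false

open MeasureTheory ProbabilityTheory Filter Topology Set
open scoped ENNReal

namespace Pool.Agent.N276.SC

namespace GapAux

variable {d : ℕ}

/-- the opposite direction -/
def neg (δ : Dir d) : Dir d := (δ.1, !δ.2)

theorem neg_neg (δ : Dir d) : neg (neg δ) = δ := by
  obtain ⟨i, b⟩ := δ
  simp [neg]

/-- the opposite direction, as an equivalence -/
def negE : Dir d ≃ Dir d := ⟨neg, neg, neg_neg, neg_neg⟩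

theorem vec_neg (δ : Dir d) : vec (neg δ) = -vec δ := by
  obtain ⟨i, b⟩ := δ
  cases b <;> simp [vec, neg]

theorem edge_neg (x : Site d) (δ : Dir d) : edge (x + vec δ) (neg δ) = edge x δ := by
  obtain ⟨i, b⟩ := δ
  cases b
  · simp [edge, neg]
  · have h := vec_neg ((i, true) : Dir d)
    simp only [edge, neg, Bool.not_true] at h ⊢
    rw [h]
    simp

/-- the law on directions -/
noncomputable def r (p : Par) (δ : Dir d) : ℝ := wt p.lam δ / ZZ d p.lam

/-- the acceptance probability -/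
noncomputable def a (p : Par) (w : Edge d → ℝ) (δ : Dir d) (x : Site d) : ℝ :=
  tr p (w (edge x δ)) / (2 * p.kap)

theorem ZZ_pos (lam : ℝ) : 0 < ZZ d lam :=
  Finset.sum_pos (fun _ _ => Real.exp_pos _) ⟨((0 : Fin (d + 1)), true), Finset.mem_univ _⟩

theorem r_pos (p : Par) (δ : Dir d) : 0 < r p δ := div_pos (Real.exp_pos _) (ZZ_pos _)

theorem sum_r (p : Par) : ∑ δ : Dir d, r p δ = 1 := by
  unfold r
  rw [← Finset.sum_div]
  exact div_self (ZZ_pos _).ne'

theorem r_le (p : Par) (δ : Dir d) : r p δ ≤ 1 := by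
  rw [← sum_r (d := d) p]
  exact Finset.single_le_sum (fun i _ => (r_pos p i).le) (Finset.mem_univ δ)

theorem kap_pos (p : Par) : 0 < p.kap := lt_of_lt_of_le p.hc p.hk

theorem a_bd (p : Par) (w : Edge d → ℝ) (δ : Dir d) (x : Site d) :
    p.c / (2 * p.kap) ≤ a p w δ x ∧ a p w δ x ≤ 1 / 2 := by
  have hk := kap_pos p
  unfold a tr
  constructor
  · exact div_le_div_of_nonneg_right (le_max_left _ _) (by linarith)
  · rw [div_le_div_iff₀ (by linarith) (by norm_num)]
    have : max p.c (min p.kap (w (edge x δ))) ≤ p.kap := max_le p.hk (min_le_left _ _)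
    linarith

theorem mm_pos (p : Par) (x : Site d) : 0 < mm p x := Real.exp_pos _

theorem mm_vec (p : Par) (x : Site d) (δ : Dir d) :
    mm p (x + vec δ) * wt p.lam (neg δ) = mm p x * wt p.lam δ := by
  unfold mm wt
  rw [← Real.exp_add, ← Real.exp_add, vec_neg]
  congr 1
  simp only [Pi.add_apply, Pi.neg_apply]
  push_cast
  ring

theorem rev (p : Par) (w : Edge d → ℝ) (δ : Dir d) (x : Site d) :
    mm p x * (r p δ * a p w δ x) =
      mm p (x + vec δ) * (r p (neg δ) * a p w (neg δ) (x + vec δ)) := by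
  have h1 := mm_vec p x δ
  have h2 : a p w (neg δ) (x + vec δ) = a p w δ x := by
    unfold a
    rw [edge_neg]
  rw [h2]
  unfold r
  calc mm p x * (wt p.lam δ / ZZ d p.lam * a p w δ x)
      = (mm p x * wt p.lam δ) * (a p w δ x / ZZ d p.lam) := by ring
    _ = (mm p (x + vec δ) * wt p.lam (neg δ)) * (a p w δ x / ZZ d p.lam) := by rw [h1]
    _ = _ := by ring

theorem Kop_eq (p : Par) (w : Edge d → ℝ) (f : Site d → ℝ) (x : Site d) :
    Kop p w f x = f x + ∑ δ : Dir d, r p δ * a p w δ x * (f (x + vec δ) - f x) := by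
  have h : f x = ∑ δ : Dir d, r p δ * f x := by
    rw [← Finset.sum_mul, sum_r, one_mul]
  conv_rhs => rw [h]
  rw [← Finset.sum_add_distrib]
  unfold Kop
  refine Finset.sum_congr rfl fun δ _ => ?_
  change r p δ * (a p w δ x * f (x + vec δ) + (1 - a p w δ x) * f x) = _
  rw [← h]
  ring

theorem fin_shift {f : Site d → ℝ} (hf : (Function.support f).Finite) (v : Site d) :
    (Function.support fun x => f (x + v)).Finite :=
  hf.preimage (add_left_injective v).injOn

theorem sm {f : Site d → ℝ} (hf : (Function.support f).Finite) {G : Site d → ℝ}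
    (hG : ∀ x, f x = 0 → G x = 0) : Summable G :=
  summable_of_hasFiniteSupport (hf.subset fun x hx h0 => hx (hG x h0))

theorem fin_K {f : Site d → ℝ} (hf : (Function.support f).Finite) (p : Par) (w : Edge d → ℝ) :
    (Function.support (Kop p w f)).Finite := by
  have h : (Function.support f ∪ ⋃ δ : Dir d, Function.support fun x => f (x + vec δ)).Finite :=
    hf.union (Set.finite_iUnion fun δ => fin_shift hf (vec δ))
  refine h.subset fun x hx => ?_
  by_contra hcon
  rw [Set.mem_union, not_or, Set.mem_iUnion, not_exists] at hcon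
  obtain ⟨h1, h2⟩ := hcon
  rw [Function.notMem_support] at h1
  apply hx
  rw [Kop_eq, h1, zero_add]
  refine Finset.sum_eq_zero fun δ _ => ?_
  have h3 := h2 δ
  rw [Function.notMem_support] at h3
  rw [h3]
  ring

theorem hasSum_of_eq {g h : Site d → ℝ} {s : ℝ} (H : HasSum g s) (e : ∀ x, g x = h x) :
    HasSum h s := by
  have : g = h := funext e
  rwa [← this]

/-- convexity -/
theorem jensen (p : Par) (w : Edge d → ℝ) (f : Site d → ℝ) (x : Site d) :
    (2 * Kop p w f x - f x) ^ 2 ≤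
      ∑ δ : Dir d, r p δ * (2 * a p w δ x * f (x + vec δ) ^ 2 + (1 - 2 * a p w δ x) * f x ^ 2) := by
  have e : 2 * Kop p w f x - f x =
      ∑ δ : Dir d, r p δ * (2 * a p w δ x * f (x + vec δ) + (1 - 2 * a p w δ x) * f x) := by
    have h : f x = ∑ δ : Dir d, r p δ * f x := by
      rw [← Finset.sum_mul, sum_r, one_mul]
    rw [Kop_eq]
    calc 2 * (f x + ∑ δ : Dir d, r p δ * a p w δ x * (f (x + vec δ) - f x)) - f x
        = f x + 2 * ∑ δ : Dir d, r p δ * a p w δ x * (f (x + vec δ) - f x) := by ring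
      _ = ∑ δ : Dir d, r p δ * f x +
          2 * ∑ δ : Dir d, r p δ * a p w δ x * (f (x + vec δ) - f x) := by rw [← h]
      _ = _ := by
        rw [Finset.mul_sum, ← Finset.sum_add_distrib]
        refine Finset.sum_congr rfl fun δ _ => ?_
        ring
  rw [e]
  set u : Dir d → ℝ := fun δ => 2 * a p w δ x * f (x + vec δ) + (1 - 2 * a p w δ x) * f x with hu
  have h1 : (∑ δ : Dir d, r p δ * u δ) ^ 2 ≤ ∑ δ : Dir d, r p δ * u δ ^ 2 := by
    have h2 : ∑ δ : Dir d, r p δ * (u δ - ∑ ε : Dir d, r p ε * u ε) ^ 2 =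
        ∑ δ : Dir d, r p δ * u δ ^ 2 - (∑ δ : Dir d, r p δ * u δ) ^ 2 := by
      set M := ∑ ε : Dir d, r p ε * u ε with hM
      calc ∑ δ : Dir d, r p δ * (u δ - M) ^ 2
          = ∑ δ : Dir d, (r p δ * u δ ^ 2 - 2 * M * (r p δ * u δ) + M ^ 2 * r p δ) := by
            refine Finset.sum_congr rfl fun δ _ => ?_
            ring
        _ = ∑ δ : Dir d, r p δ * u δ ^ 2 - 2 * M * M + M ^ 2 * 1 := by
            rw [Finset.sum_add_distrib, Finset.sum_sub_distrib, ← Finset.mul_sum,
              ← Finset.mul_sum, sum_r, ← hM]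
        _ = _ := by ring
    have h3 : 0 ≤ ∑ δ : Dir d, r p δ * (u δ - ∑ ε : Dir d, r p ε * u ε) ^ 2 :=
      Finset.sum_nonneg fun δ _ => mul_nonneg (r_pos p δ).le (sq_nonneg _)
    linarith
  refine h1.trans (Finset.sum_le_sum fun δ _ => mul_le_mul_of_nonneg_left ?_ (r_pos p δ).le)
  have hk : 0 < p.c / (2 * p.kap) := div_pos p.hc (by linarith [kap_pos p])
  obtain ⟨ha1, ha2⟩ := a_bd p w δ x
  rw [hu]
  nlinarith [mul_nonneg (mul_nonneg (by linarith : (0 : ℝ) ≤ 2 * a p w δ x)
    (by linarith : (0 : ℝ) ≤ 1 - 2 * a p w δ x)) (sq_nonneg (f (x + vec δ) - f x))]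

/-- the two sums of the reversibility -/
noncomputable def SA (p : Par) (w : Edge d → ℝ) (f : Site d → ℝ) (δ : Dir d) (x : Site d) : ℝ :=
  mm p x * (r p δ * a p w δ x) * f (x + vec δ) ^ 2

/-- the two sums of the reversibility -/
noncomputable def SB (p : Par) (w : Edge d → ℝ) (f : Site d → ℝ) (δ : Dir d) (x : Site d) : ℝ :=
  mm p x * (r p δ * a p w δ x) * f x ^ 2

theorem balance {f : Site d → ℝ} (hf : (Function.support f).Finite) (p : Par) (w : Edge d → ℝ) :
    HasSum (fun x => ∑ δ : Dir d, (SB p w f δ x - SA p w f δ x)) 0 := by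
  have hB : ∀ δ : Dir d, HasSum (SB p w f δ) (∑' x, SB p w f δ x) := fun δ =>
    (sm hf (G := SB p w f δ) fun x h0 => by simp [SB, h0]).hasSum
  have hA : ∀ δ : Dir d, HasSum (SA p w f δ) (∑' x, SB p w f (neg δ) x) := fun δ => by
    have h := (Equiv.addRight (vec δ)).hasSum_iff.2 (hB (neg δ))
    have e : SA p w f δ = SB p w f (neg δ) ∘ Equiv.addRight (vec δ) := by
      funext x
      simp only [SA, SB, Function.comp_apply, Equiv.coe_addRight]
      rw [rev]
    rw [e]
    exact h
  have h := hasSum_sum (s := Finset.univ) fun δ (_ : δ ∈ (Finset.univ : Finset (Dir d))) =>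
    (hB δ).sub (hA δ)
  have e : ∑ δ : Dir d, ((∑' x, SB p w f δ x) - ∑' x, SB p w f (neg δ) x) = 0 := by
    rw [Finset.sum_sub_distrib, sub_eq_zero]
    exact (Equiv.sum_comp negE fun δ : Dir d => ∑' x, SB p w f δ x).symm
  rw [e] at h
  exact h

/-- the bound of the Dirichlet form in one direction -/
theorem form_lower (p : Par) (w : Edge d → ℝ) (f : Site d → ℝ) (x : Site d) :
    1 / 2 * (r p ((0 : Fin (d + 1)), true) * (p.c / (2 * p.kap))) *
      ((Real.exp (-p.lam) ^ 2 - Real.exp (-p.lam)) *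
        (mm p (x + vec ((0 : Fin (d + 1)), true)) * f (x + vec ((0 : Fin (d + 1)), true)) ^ 2) +
        (1 - Real.exp (-p.lam)) * (mm p x * f x ^ 2)) +
      1 / 2 * ∑ δ : Dir d, (SB p w f δ x - SA p w f δ x) ≤
    mm p x * f x ^ 2 - mm p x * (Kop p w f x * f x) := by
  set o : Dir d := ((0 : Fin (d + 1)), true) with ho
  set B := Real.exp (-p.lam) with hB
  have hB0 : 0 < B := Real.exp_pos _
  have hB1 : B < 1 := by
    rw [hB, Real.exp_lt_one_iff]
    linarith [p.hl]
  have hk : 0 < p.c / (2 * p.kap) := div_pos p.hc (by linarith [kap_pos p])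
  have hm : mm p x = B ^ 2 * mm p (x + vec o) := by
    unfold mm
    rw [hB, ← Real.exp_nat_mul, ← Real.exp_add]
    congr 1
    rw [ho]
    simp [vec]
    ring
  have e1 : mm p x * f x ^ 2 - mm p x * (Kop p w f x * f x) =
      1 / 2 * ∑ δ : Dir d, mm p x * (r p δ * a p w δ x) * (f (x + vec δ) - f x) ^ 2 +
      1 / 2 * ∑ δ : Dir d, (SB p w f δ x - SA p w f δ x) := by
    rw [← mul_add, ← Finset.sum_add_distrib]
    rw [Kop_eq]
    calc mm p x * f x ^ 2 - mm p x * ((f x + ∑ δ : Dir d, r p δ * a p w δ x *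
          (f (x + vec δ) - f x)) * f x)
        = 1 / 2 * ((-(2 * mm p x * f x)) * ∑ δ : Dir d, r p δ * a p w δ x *
          (f (x + vec δ) - f x)) := by ring
      _ = _ := by
        rw [Finset.mul_sum]
        congr 1
        refine Finset.sum_congr rfl fun δ _ => ?_
        unfold SA SB
        ring
  rw [e1]
  refine add_le_add ?_ le_rfl
  have h1 : mm p x * (r p o * a p w o x) * (f (x + vec o) - f x) ^ 2 ≤
      ∑ δ : Dir d, mm p x * (r p δ * a p w δ x) * (f (x + vec δ) - f x) ^ 2 :=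
    Finset.single_le_sum (f := fun δ : Dir d =>
      mm p x * (r p δ * a p w δ x) * (f (x + vec δ) - f x) ^ 2)
      (fun δ _ => mul_nonneg (mul_nonneg (mm_pos p x).le (mul_nonneg (r_pos p δ).le
        (hk.le.trans (a_bd p w δ x).1))) (sq_nonneg _)) (Finset.mem_univ o)
  have h2 : r p o * (p.c / (2 * p.kap)) * (mm p x * (f (x + vec o) - f x) ^ 2) ≤
      mm p x * (r p o * a p w o x) * (f (x + vec o) - f x) ^ 2 := by
    have h3 : r p o * (p.c / (2 * p.kap)) ≤ r p o * a p w o x :=
      mul_le_mul_of_nonneg_left (a_bd p w o x).1 (r_pos p o).le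
    have h4 : 0 ≤ mm p x * (f (x + vec o) - f x) ^ 2 := mul_nonneg (mm_pos p x).le (sq_nonneg _)
    calc r p o * (p.c / (2 * p.kap)) * (mm p x * (f (x + vec o) - f x) ^ 2)
        ≤ r p o * a p w o x * (mm p x * (f (x + vec o) - f x) ^ 2) :=
          mul_le_mul_of_nonneg_right h3 h4
      _ = _ := by ring
  have h5 : (B ^ 2 - B) * (mm p (x + vec o) * f (x + vec o) ^ 2) +
      (1 - B) * (mm p x * f x ^ 2) ≤ mm p x * (f (x + vec o) - f x) ^ 2 := by
    rw [hm]
    have h6 : 0 ≤ mm p (x + vec o) * B * (f (x + vec o) - B * f x) ^ 2 :=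
      mul_nonneg (mul_nonneg (mm_pos p _).le hB0.le) (sq_nonneg _)
    nlinarith [h6]
  have h7 : 0 < r p o * (p.c / (2 * p.kap)) := mul_pos (r_pos p o) hk
  have h8 := mul_le_mul_of_nonneg_left h5 h7.le
  nlinarith [h8, h1, h2]

end GapAux

open GapAux in
/-- Contraction in `L²(mm)`. -/
theorem gap : StmGap := by
  intro d p
  set o : Dir d := ((0 : Fin (d + 1)), true) with ho
  set B := Real.exp (-p.lam) with hB
  have hB0 : 0 < B := Real.exp_pos _
  have hB1 : B < 1 := by
    rw [hB, Real.exp_lt_one_iff]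
    linarith [p.hl]
  have hkap := kap_pos p
  have hk : 0 < p.c / (2 * p.kap) := div_pos p.hc (by linarith)
  have hk2 : p.c / (2 * p.kap) ≤ 1 / 2 := by
    rw [div_le_div_iff₀ (by linarith) (by norm_num)]
    linarith [p.hk]
  have hr := r_pos p o
  have hr1 := r_le p o
  refine ⟨1 / 2 * (r p o * (p.c / (2 * p.kap))) * (1 - B) ^ 2, by
    have : 0 < 1 - B := by linarith
    positivity, ?_, fun w f hf => ⟨fin_K hf p w, ?_⟩⟩
  · have h1 : r p o * (p.c / (2 * p.kap)) ≤ 1 * (1 / 2) :=
      mul_le_mul hr1 hk2 hk.le (by norm_num)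
    have h2 : (1 - B) ^ 2 ≤ 1 := by nlinarith
    have h3 : 0 ≤ r p o * (p.c / (2 * p.kap)) := by positivity
    nlinarith [mul_le_mul_of_nonneg_left h2 h3]
  · have hKf := fin_K hf p w
    have hS : HasSum (fun x => mm p x * f x ^ 2) (∑' x, mm p x * f x ^ 2) :=
      (sm hf fun x h0 => by simp [h0]).hasSum
    have hS2 : HasSum (fun x => mm p x * Kop p w f x ^ 2) (∑' x, mm p x * Kop p w f x ^ 2) :=
      (sm hKf fun x h0 => by simp [h0]).hasSum
    have hS1 : HasSum (fun x => mm p x * (Kop p w f x * f x))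
        (∑' x, mm p x * (Kop p w f x * f x)) := (sm hf fun x h0 => by simp [h0]).hasSum
    set S := ∑' x, mm p x * f x ^ 2 with hSd
    set S2 := ∑' x, mm p x * Kop p w f x ^ 2 with hS2d
    set S1 := ∑' x, mm p x * (Kop p w f x * f x) with hS1d
    have hbal := balance hf p w
    have hSo : HasSum (fun x => mm p (x + vec o) * f (x + vec o) ^ 2) S := by
      have h := ((Equiv.addRight (vec o)).hasSum_iff (f := fun x => mm p x * f x ^ 2)
        (a := S)).2 hS
      exact hasSum_of_eq h fun x => by simp only [Function.comp_apply, Equiv.coe_addRight]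
    -- the contraction
    have c1 : HasSum (fun x => mm p x * (2 * Kop p w f x - f x) ^ 2) (4 * S2 - 4 * S1 + S) := by
      have h := ((hS2.mul_left 4).sub (hS1.mul_left 4)).add hS
      exact hasSum_of_eq h fun x => by ring
    have c2 : HasSum (fun x => mm p x * f x ^ 2 +
        (-2) * ∑ δ : Dir d, (SB p w f δ x - SA p w f δ x)) (S + (-2) * 0) :=
      hS.add (hbal.mul_left (-2))
    have c3 : 4 * S2 - 4 * S1 + S ≤ S + (-2) * 0 := by
      refine hasSum_le (fun x => ?_) c1 c2
      have h := mul_le_mul_of_nonneg_left (jensen p w f x) (mm_pos p x).le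
      refine h.trans (le_of_eq ?_)
      have e : f x ^ 2 = ∑ δ : Dir d, r p δ * f x ^ 2 := by
        rw [← Finset.sum_mul, sum_r, one_mul]
      calc mm p x * ∑ δ : Dir d, r p δ * (2 * a p w δ x * f (x + vec δ) ^ 2 +
            (1 - 2 * a p w δ x) * f x ^ 2)
          = mm p x * ∑ δ : Dir d, r p δ * f x ^ 2 +
            (-2) * ∑ δ : Dir d, (SB p w f δ x - SA p w f δ x) := by
            rw [Finset.mul_sum, Finset.mul_sum, Finset.mul_sum, ← Finset.sum_add_distrib]
            refine Finset.sum_congr rfl fun δ _ => ?_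
            unfold SA SB
            ring
        _ = _ := by rw [← e]
    -- the Dirichlet form
    have d1 : HasSum (fun x => mm p x * f x ^ 2 - mm p x * (Kop p w f x * f x)) (S - S1) :=
      hS.sub hS1
    have d2 : HasSum (fun x => 1 / 2 * (r p o * (p.c / (2 * p.kap))) *
        ((B ^ 2 - B) * (mm p (x + vec o) * f (x + vec o) ^ 2) + (1 - B) * (mm p x * f x ^ 2)) +
        1 / 2 * ∑ δ : Dir d, (SB p w f δ x - SA p w f δ x))
        (1 / 2 * (r p o * (p.c / (2 * p.kap))) * ((B ^ 2 - B) * S + (1 - B) * S) + 1 / 2 * 0) := by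
      have q1 := hSo.mul_left (B ^ 2 - B)
      have q2 := hS.mul_left (1 - B)
      have q3 := (q1.add q2).mul_left (1 / 2 * (r p o * (p.c / (2 * p.kap))))
      have q4 := hbal.mul_left (1 / 2)
      exact q3.add q4
    have d3 := hasSum_le (fun x => form_lower p w f x) d2 d1
    nlinarith [c3, d3]

end Pool.Agent.N276.SC
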