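import Pool.Agent.N276.SC.Stm

/-!
# The Markov property of the chain
-/

set_option autoImplicit false

open MeasureTheory ProbabilityTheory Filter Topology Set
open scoped ENNReal

namespace Pool.Agent.N276.SC

namespace MarkAux

section cat

variable {X : Type*}

/-- concatenation at the time `n` -/
def cat (n : ℕ) (z : (ℕ → X) × (ℕ → X)) (k : ℕ) : X := if k < n then z.1 k else z.2 (k - n)

theorem cat_lt {n k : ℕ} (h : k < n) (z : (ℕ → X) × (ℕ → X)) : cat n z k = z.1 k := if_pos h

theorem cat_ge {n k : ℕ} (h : ¬ k < n) (z : (ℕ → X) × (ℕ → X)) : cat n z k = z.2 (k - n) := if_neg h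

theorem cat_add (n k : ℕ) (z : (ℕ → X) × (ℕ → X)) : cat n z (n + k) = z.2 k := by
  rw [cat_ge (by omega), Nat.add_sub_cancel_left]

variable [MeasurableSpace X]

theorem cat_meas (n : ℕ) : Measurable (cat n : (ℕ → X) × (ℕ → X) → ℕ → X) := by
  refine measurable_pi_lambda _ fun k => ?_
  by_cases h : k < n
  · simp only [cat, if_pos h]
    exact (measurable_pi_apply k).comp measurable_fst
  · simp only [cat, if_neg h]
    exact (measurable_pi_apply _).comp measurable_snd

theorem map_cat (n : ℕ) (μ : Measure X) [IsProbabilityMeasure μ] :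
    ((Measure.infinitePi fun _ : ℕ => μ).prod (Measure.infinitePi fun _ : ℕ => μ)).map (cat n) =
      Measure.infinitePi fun _ : ℕ => μ := by
  refine Measure.eq_infinitePi (fun _ : ℕ => μ) fun s t ht => ?_
  rw [Measure.map_apply (cat_meas n) (MeasurableSet.pi s.countable_toSet fun i _ => ht i)]
  have h1 : cat n ⁻¹' (Set.pi (s : Set ℕ) t) =
      (Set.pi ((s.filter (fun i => i < n) : Finset ℕ) : Set ℕ) t) ×ˢ
      (Set.pi (((s.filter (fun i => ¬ i < n)).image (fun i => i - n) : Finset ℕ) : Set ℕ)
        fun j => t (j + n)) := by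
    ext z
    simp only [mem_preimage, Set.mem_pi, Set.mem_prod, Finset.mem_coe, Finset.mem_filter,
      Finset.mem_image]
    constructor
    · intro h
      refine ⟨fun i hi => ?_, ?_⟩
      · have h2 := h i hi.1
        rwa [cat_lt hi.2] at h2
      · rintro j ⟨i, hi, rfl⟩
        have h2 := h i hi.1
        rw [cat_ge hi.2] at h2
        rwa [Nat.sub_add_cancel (by omega)]
    · rintro ⟨h1, h2⟩ i hi
      by_cases h : i < n
      · rw [cat_lt h]
        exact h1 i ⟨hi, h⟩
      · have h3 := h2 (i - n) ⟨i, ⟨hi, h⟩, rfl⟩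
        rw [Nat.sub_add_cancel (by omega)] at h3
        rwa [cat_ge h]
  rw [h1, Measure.prod_prod, Measure.infinitePi_pi _ fun i _ => ht i,
    Measure.infinitePi_pi _ fun i _ => ht (i + n), Finset.prod_image, ← Finset.prod_filter_mul_prod_filter_not s (fun i => i < n)]
  · congr 1
    refine Finset.prod_congr rfl fun i hi => ?_
    rw [Finset.mem_filter] at hi
    rw [Nat.sub_add_cancel (by omega)]
  · intro i hi j hj hij
    rw [Finset.mem_coe, Finset.mem_filter] at hi hj
    simp only at hij
    omega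

theorem lintegral_cat (n : ℕ) (μ : Measure X) [IsProbabilityMeasure μ] {F : (ℕ → X) → ℝ≥0∞}
    (hF : Measurable F) :
    ∫⁻ ζ, F ζ ∂(Measure.infinitePi fun _ : ℕ => μ) =
      ∫⁻ ζ, ∫⁻ ζ', F (cat n (ζ, ζ')) ∂(Measure.infinitePi fun _ : ℕ => μ)
        ∂(Measure.infinitePi fun _ : ℕ => μ) := by
  have h1 : Measurable fun z : (ℕ → X) × (ℕ → X) => F (cat n z) := hF.comp (cat_meas n)
  conv_lhs => rw [← map_cat n μ]
  rw [lintegral_map hF (cat_meas n), lintegral_prod _ h1.aemeasurable]

end cat

variable {d : ℕ}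

theorem chain_cat (p : Par) (s : State d) (n : ℕ) (z : (ℕ → Inn d) × (ℕ → Inn d)) :
    ∀ k ≤ n, chain p s (cat n z) k = chain p s z.1 k
  | 0, _ => rfl
  | k + 1, h => by
    simp only [chain]
    rw [chain_cat p s n z k (by omega), cat_lt (by omega)]

theorem hist_cat (p : Par) (s : State d) (n : ℕ) (z : (ℕ → Inn d) × (ℕ → Inn d)) (k : ℕ)
    (h : k < n) : hist p s (cat n z) k = hist p s z.1 k := by
  simp only [hist, pth]
  rw [chain_cat p s n z k h.le, cat_lt h]

end MarkAux

open MarkAux in
theorem mark : StmMeas → StmMark := by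
  intro hM d p nu hnu s n g H hH
  obtain ⟨-, hchain, hhist, -, -, -, -, -, -, -, hprob⟩ := hM d p
  obtain ⟨hinn, hPP, -⟩ := hprob nu hnu
  have hg : Measurable fun ζ : ℕ → Inn d => g (fun k : Fin n => hist p s ζ k) := by
    have h1 : Measurable fun ζ : ℕ → Inn d => (fun k : Fin n => hist p s ζ k) :=
      measurable_pi_lambda _ fun k => (hhist k).comp (measurable_const.prodMk measurable_id)
    exact (measurable_of_countable g).comp h1
  have hc : Measurable fun ζ : ℕ → Inn d => chain p s ζ n :=
    (hchain n).comp (measurable_const.prodMk measurable_id)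
  have hF : Measurable fun ζ : ℕ → Inn d =>
      g (fun k : Fin n => hist p s ζ k) * H (chain p s ζ n, fun k => ζ (n + k)) := by
    refine hg.mul (hH.comp (hc.prodMk ?_))
    exact measurable_pi_lambda _ fun k => measurable_pi_apply _
  rw [PP, lintegral_cat n (inn p nu) hF]
  refine lintegral_congr fun ζ => ?_
  have h2 : ∀ ζ' : ℕ → Inn d,
      g (fun k : Fin n => hist p s (cat n (ζ, ζ')) k) *
        H (chain p s (cat n (ζ, ζ')) n, fun k => cat n (ζ, ζ') (n + k)) =
      g (fun k : Fin n => hist p s ζ k) * H (chain p s ζ n, ζ') := by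
    intro ζ'
    rw [chain_cat p s n (ζ, ζ') n le_rfl]
    simp only [cat_add]
    congr 2
    funext k
    exact hist_cat p s n (ζ, ζ') k k.2
  simp only [h2]
  have h3 : Measurable fun ζ' : ℕ → Inn d => H (chain p s ζ n, ζ') :=
    hH.comp (measurable_const.prodMk measurable_id)
  rw [lintegral_const_mul _ h3]

end Pool.Agent.N276.SC
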