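import Pool.Agent.N276.SC.Stm

/-!
# Measurability (helper135)
-/

set_option autoImplicit false

open MeasureTheory ProbabilityTheory Filter Topology Set
open scoped ENNReal

namespace Pool.Agent.N276.SC

namespace MeasAux

theorem meas_eval {α ι β : Type*} [MeasurableSpace α] [Countable ι] [MeasurableSpace ι]
    [MeasurableSingletonClass ι] [MeasurableSpace β] (F : α → ι → β)
    (hF : ∀ i, Measurable fun a => F a i) (g : α → ι) (hg : Measurable g) :
    Measurable fun a => F a (g a) := by
  intro s hs
  have h : (fun a => F a (g a)) ⁻¹' s = ⋃ i, (g ⁻¹' {i} ∩ (fun a => F a i) ⁻¹' s) := by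
    ext a
    simp
  rw [h]
  exact MeasurableSet.iUnion fun i => (hg (measurableSet_singleton i)).inter (hF i hs)

variable {d : ℕ}

theorem meas_upd : Measurable fun z : State d × Inn d => upd z.1.2 z.2 := by
  rw [measurable_pi_iff]
  intro e
  refine Measurable.ite ?_ ?_ ?_
  · have h : Measurable fun z : State d × Inn d => z.2.1 e :=
      (measurable_pi_apply e).comp (measurable_fst.comp measurable_snd)
    exact h (measurableSet_singleton true)
  · exact (measurable_pi_apply e).comp (measurable_fst.comp (measurable_snd.comp measurable_snd))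
  · exact (measurable_pi_apply e).comp (measurable_snd.comp measurable_fst)

theorem meas_step (p : Par) : Measurable fun z : State d × Inn d => step p z.1 z.2 := by
  have hdir : Measurable fun z : State d × Inn d => z.2.2.2.1 :=
    measurable_fst.comp (measurable_snd.comp (measurable_snd.comp measurable_snd))
  have hU : Measurable fun z : State d × Inn d => z.2.2.2.2 :=
    measurable_snd.comp (measurable_snd.comp (measurable_snd.comp measurable_snd))
  have hx : Measurable fun z : State d × Inn d => z.1.1 := measurable_fst.comp measurable_fst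
  have hxd : Measurable fun z : State d × Inn d => (z.1.1, z.2.2.2.1) := hx.prodMk hdir
  have he : Measurable fun z : State d × Inn d => edge z.1.1 z.2.2.2.1 :=
    (Measurable.of_discrete (f := fun q : Site d × Dir d => edge q.1 q.2)).comp hxd
  have hv : Measurable fun z : State d × Inn d => z.1.1 + vec z.2.2.2.1 :=
    (Measurable.of_discrete (f := fun q : Site d × Dir d => q.1 + vec q.2)).comp hxd
  have hev : Measurable fun z : State d × Inn d => upd z.1.2 z.2 (edge z.1.1 z.2.2.2.1) :=
    meas_eval (fun (z : State d × Inn d) e => upd z.1.2 z.2 e)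
      (fun e => (measurable_pi_apply e).comp meas_upd) _ he
  have htr : Measurable fun z : State d × Inn d =>
      tr p (upd z.1.2 z.2 (edge z.1.1 z.2.2.2.1)) / (2 * p.kap) :=
    (measurable_const.max (measurable_const.min hev)).div_const _
  exact (Measurable.ite (measurableSet_lt hU htr) hv hx).prodMk meas_upd

theorem meas_chain (p : Par) (n : ℕ) :
    Measurable fun z : State d × (ℕ → Inn d) => chain p z.1 z.2 n := by
  induction n with
  | zero => exact measurable_fst
  | succ n ih =>
    exact (meas_step p).comp (ih.prodMk ((measurable_pi_apply n).comp measurable_snd))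

theorem meas_pth (p : Par) : Measurable fun z : State d × (ℕ → Inn d) => pth p z.1 z.2 :=
  measurable_pi_iff.2 fun n => measurable_fst.comp (meas_chain p n)

theorem meas_tau (l : ℤ) : Measurable fun y : ℕ → Site d => tau l y := by
  classical
  refine Measurable.tsum fun n => ?_
  refine Measurable.ite ?_ measurable_const measurable_const
  have h : {y : ℕ → Site d | ∀ k ≤ n, y k 0 < l} = ⋂ k, ⋂ (_ : k ≤ n), {y | y k 0 < l} := by
    ext y
    simp
  rw [h]
  refine MeasurableSet.iInter fun k => MeasurableSet.iInter fun _ => ?_
  have h2 : Measurable fun y : ℕ → Site d => y k 0 :=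
    (measurable_pi_apply (0 : Fin (d + 1))).comp (measurable_pi_apply k)
  exact h2 (MeasurableSet.of_discrete (s := {i : ℤ | i < l}))

theorem ZZ_pos (lam : ℝ) : 0 < ZZ d lam :=
  Finset.sum_pos (fun _ _ => Real.exp_pos _) ⟨((0 : Fin (d + 1)), true), Finset.mem_univ _⟩

theorem dirLaw_prob (lam : ℝ) : IsProbabilityMeasure (dirLaw d lam) := by
  constructor
  have hZ := ZZ_pos (d := d) lam
  unfold dirLaw
  rw [Measure.finsetSum_apply]
  have h : ∀ δ ∈ (Finset.univ : Finset (Dir d)),
      (ENNReal.ofReal (wt lam δ / ZZ d lam) • Measure.dirac δ : Measure (Dir d)) univ =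
        ENNReal.ofReal (wt lam δ / ZZ d lam) := by
    intro δ _
    rw [Measure.smul_apply, measure_univ, smul_eq_mul, mul_one]
  have hn : ∀ δ ∈ (Finset.univ : Finset (Dir d)), 0 ≤ wt lam δ / ZZ d lam :=
    fun δ _ => div_nonneg (Real.exp_pos _).le hZ.le
  rw [Finset.sum_congr rfl h, ← ENNReal.ofReal_sum_of_nonneg hn, ← Finset.sum_div]
  have : ∑ δ : Dir d, wt lam δ = ZZ d lam := rfl
  rw [this, div_self hZ.ne', ENNReal.ofReal_one]

theorem unif_prob : IsProbabilityMeasure unif := by
  constructor
  unfold unif
  rw [Measure.restrict_apply MeasurableSet.univ, univ_inter, Real.volume_Icc]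
  norm_num

end MeasAux

open MeasAux in
theorem meas : StmMeas := by
  intro d p
  have := p.hq
  have h1 := dirLaw_prob (d := d) p.lam
  have h2 := unif_prob
  have h3 : IsProbabilityMeasure (qE d p) := by
    unfold qE
    infer_instance
  refine ⟨meas_step p, meas_chain p, fun n => ?_, meas_tau, fun l => (meas_tau l).comp (meas_pth p),
    fun l => ?_, h1, h2, h3, ZZ_pos _, fun nu hnu => ?_⟩
  · exact (measurable_fst.comp (meas_chain p n)).prodMk (measurable_fst.comp (measurable_snd.comp
      (measurable_snd.comp ((measurable_pi_apply n).comp measurable_snd))))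
  · rw [measurable_pi_iff]
    intro e
    by_cases h : e.1 0 < l
    · simp only [glue, if_pos h]
      exact (measurable_pi_apply e).comp measurable_fst
    · simp only [glue, if_neg h]
      exact (measurable_pi_apply e).comp measurable_snd
  · have h4 : IsProbabilityMeasure (inn p nu) := by
      unfold inn
      infer_instance
    have h5 : IsProbabilityMeasure (PP p nu) := by
      unfold PP
      infer_instance
    refine ⟨h4, h5, fun l => ?_⟩
    exact Measurable.lintegral_prod_right' ((meas_tau l).comp (meas_pth p))

end Pool.Agent.N276.SC
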