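import Pool.Agent.N276.SC.Stm

/-!
# Biased walk in slowly refreshing conductances: refreshes are rare
-/

set_option autoImplicit false

open MeasureTheory ProbabilityTheory Filter Topology Set
open scoped ENNReal

namespace Pool.Agent.N276.SC

namespace NuTAux

/-- the tail of the exponential law -/
lemma tail {R : ℝ} (hR : 0 < R) (y : ℝ) :
    expMeasure R (Ioi y) ≤ ENNReal.ofReal (Real.exp (-(R * y))) := by
  have hp := isProbabilityMeasure_expMeasure hR
  by_cases hy : 0 ≤ y
  · have h1 : expMeasure R (Ioi y) = 1 - expMeasure R (Iic y) := by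
      rw [← compl_Iic, prob_compl_eq_one_sub measurableSet_Iic]
    rw [h1, ← ofReal_cdf, cdf_expMeasure_eq hR, if_pos hy, ← ENNReal.ofReal_one,
      ← ENNReal.ofReal_sub _ (by
        rw [sub_nonneg, Real.exp_le_one_iff]
        nlinarith)]
    refine ENNReal.ofReal_le_ofReal (le_of_eq ?_)
    ring
  · refine prob_le_one.trans ?_
    rw [← ENNReal.ofReal_one]
    refine ENNReal.ofReal_le_ofReal (Real.one_le_exp ?_)
    nlinarith [not_le.1 hy]

/-- the Laplace transform of the exponential law -/
lemma laplace {R mu : ℝ} (hR : 0 < R) (hmu : 0 < mu) :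
    ∫⁻ y, ENNReal.ofReal (Real.exp (-(R * y))) ∂(expMeasure mu) =
      ENNReal.ofReal (mu / (mu + R)) := by
  have h0 : expMeasure mu = volume.withDensity (exponentialPDF mu) := rfl
  have hm : Measurable (exponentialPDF mu) :=
    (measurable_exponentialPDFReal mu).ennreal_ofReal
  have hm2 : Measurable (exponentialPDF (mu + R)) :=
    (measurable_exponentialPDFReal (mu + R)).ennreal_ofReal
  have hm3 : Measurable fun y : ℝ => ENNReal.ofReal (Real.exp (-(R * y))) := by fun_prop
  rw [h0, lintegral_withDensity_eq_lintegral_mul _ hm hm3]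
  have h1 : ∀ y : ℝ, (exponentialPDF mu * fun y : ℝ => ENNReal.ofReal (Real.exp (-(R * y)))) y =
      ENNReal.ofReal (mu / (mu + R)) * exponentialPDF (mu + R) y := by
    intro y
    rw [Pi.mul_apply, exponentialPDF_eq, exponentialPDF_eq]
    by_cases hy : 0 ≤ y
    · rw [if_pos hy, if_pos hy, ← ENNReal.ofReal_mul (by positivity),
        ← ENNReal.ofReal_mul (by positivity), mul_assoc, ← Real.exp_add]
      congr 1
      have h2 : -(mu * y) + -(R * y) = -((mu + R) * y) := by ring
      rw [h2]
      have h3 : mu + R ≠ 0 := by positivity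
      field_simp
    · rw [if_neg hy, if_neg hy]
      simp
  rw [lintegral_congr h1, lintegral_const_mul _ hm2, lintegral_exponentialPDF_eq_one (by positivity),
    mul_one]

end NuTAux

theorem nuT : StmMeas → StmNu := by
  intro hM d p mu hmu
  obtain ⟨-, -, -, -, -, -, -, -, -, hZ, -⟩ := hM d p
  have hk : 0 < p.kap := p.hc.trans_le p.hk
  obtain ⟨R, hRd⟩ : ∃ R, R = 2 * p.kap * ZZ d p.lam := ⟨_, rfl⟩
  have hR : 0 < R := by rw [hRd]; positivity
  have i1 : IsProbabilityMeasure (expMeasure R) := isProbabilityMeasure_expMeasure hR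
  have i2 : IsProbabilityMeasure (expMeasure mu) := isProbabilityMeasure_expMeasure hmu
  have hset : ∀ e : Edge d, MeasurableSet {z : ℝ × (Edge d → ℝ) | z.2 e < z.1} := fun e =>
    measurableSet_lt ((measurable_pi_apply e).comp measurable_snd) measurable_fst
  have hmeas : Measurable fun (z : ℝ × (Edge d → ℝ)) (e : Edge d) => decide (z.2 e < z.1) := by
    refine measurable_pi_iff.2 fun e => measurable_to_bool ?_
    have h1 : (fun z : ℝ × (Edge d → ℝ) => decide (z.2 e < z.1)) ⁻¹' {true} =
        {z : ℝ × (Edge d → ℝ) | z.2 e < z.1} := by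
      ext z
      simp
    rw [h1]
    exact hset e
  rw [nuM, ← hRd]
  refine ⟨Measure.isProbabilityMeasure_map hmeas.aemeasurable, fun e => ?_⟩
  have hs : MeasurableSet {r : Edge d → Bool | r e = true} :=
    measurableSet_eq_fun (measurable_pi_apply e) measurable_const
  rw [Measure.map_apply hmeas hs]
  have h1 : (fun (z : ℝ × (Edge d → ℝ)) (e : Edge d) => decide (z.2 e < z.1)) ⁻¹'
      {r : Edge d → Bool | r e = true} = {z : ℝ × (Edge d → ℝ) | z.2 e < z.1} := by
    ext z
    simp
  rw [h1, Measure.prod_apply_symm (hset e)]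
  have h2 : ∀ w : Edge d → ℝ, expMeasure R ((fun x => (x, w)) ⁻¹'
      {z : ℝ × (Edge d → ℝ) | z.2 e < z.1}) ≤ ENNReal.ofReal (Real.exp (-(R * w e))) := fun w =>
    NuTAux.tail hR (w e)
  have h3 : Measurable fun y : ℝ => ENNReal.ofReal (Real.exp (-(R * y))) := by fun_prop
  refine (lintegral_mono h2).trans ?_
  have h4 := (measurePreserving_eval_infinitePi (fun _ : Edge d => expMeasure mu) e).lintegral_comp h3
  rw [show ∫⁻ w, ENNReal.ofReal (Real.exp (-(R * w e)))
    ∂(Measure.infinitePi fun _ : Edge d => expMeasure mu) = _ from h4, NuTAux.laplace hR hmu]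
  refine ENNReal.ofReal_le_ofReal ?_
  exact div_le_div_of_nonneg_left hmu.le hR (by linarith)

end Pool.Agent.N276.SC
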