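import Pool.Agent.N276.SC.Stm

/-!
# SC/15 Osc: bounded influence of the conductances behind (helper377)
-/

set_option autoImplicit false

open MeasureTheory ProbabilityTheory Filter Topology Set
open scoped ENNReal

namespace Pool.Agent.N276.SC.OscAux

variable {d : ℕ}

/-- histories -/
abbrev Hi (d : ℕ) := ℕ → Site d × Dir d

/-- the histories agree up to a proposal -/
def Agree (l : ℤ) (h h' : Hi d) : Prop := h = h' ∨ ∃ n, prp l (h n) ∧ ∀ k ≤ n, h k = h' k

lemma Agree.symm {l : ℤ} {h h' : Hi d} (H : Agree l h h') : Agree l h' h := by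
  rcases H with rfl | ⟨n, h1, h2⟩
  · exact Or.inl rfl
  · exact Or.inr ⟨n, h2 n le_rfl ▸ h1, fun k hk => (h2 k hk).symm⟩

lemma NP_imp {l m : ℤ} {h h' : Hi d} (H : Agree l h h') (hN : NP l m h) : NP l m h' := by
  intro k hk hp
  rcases H with rfl | ⟨n, h1, h2⟩
  · exact hN k hk hp
  · rcases le_or_gt k n with hkn | hkn
    · refine hN k (fun i hi => ?_) ?_
      · rw [h2 i (hi.trans hkn)]
        exact hk i hi
      · rw [h2 k hkn]
        exact hp
    · refine hN n (fun i hi => ?_) h1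
      rw [h2 i hi]
      exact hk i (hi.trans hkn.le)

lemma NP_iff {l m : ℤ} {h h' : Hi d} (H : Agree l h h') : NP l m h ↔ NP l m h' :=
  ⟨NP_imp H, NP_imp H.symm⟩

lemma FF_iff {l : ℤ} {j : ℕ} {h h' : Hi d} (H : Agree l h h') : FF l j h ↔ FF l j h' := by
  unfold FF
  rw [NP_iff H, NP_iff H]

lemma tau_agree {l L : ℤ} {h h' : Hi d} (H : Agree l h h') (hN : NP l L h) :
    tau L (fun n => (h n).1) = tau L (fun n => (h' n).1) := by
  rcases H with rfl | ⟨n, h1, h2⟩
  · rfl
  · have h3 : ¬ ∀ i ≤ n, (h i).1 0 < L := fun h4 => hN n h4 h1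
    push Not at h3
    obtain ⟨i, hi, hiL⟩ := h3
    unfold tau
    refine tsum_congr fun m => ?_
    have key : (∀ k ≤ m, (h k).1 0 < L) = (∀ k ≤ m, (h' k).1 0 < L) := by
      apply propext
      rcases le_or_gt i m with him | him
      · constructor
        · intro h4
          exact absurd (h4 i him) (not_lt.2 hiL)
        · intro h4
          have h5 := h4 i him
          rw [← h2 i hi] at h5
          exact absurd h5 (not_lt.2 hiL)
      · constructor
        · intro h4 k hk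
          rw [← h2 k (by omega)]
          exact h4 k hk
        · intro h4 k hk
          rw [h2 k (by omega)]
          exact h4 k hk
    simp only [key]

lemma NP_mono {l m m' : ℤ} (hm : m ≤ m') {h : Hi d} (hN : NP l m' h) : NP l m h :=
  fun k hk => hN k fun i hi => (hk i hi).trans_le hm

lemma NP_start {l m : ℤ} (hm : m ≤ l) {h : Hi d} (h0 : (h 0).1 0 = l) : NP l m h := by
  intro k hk
  have h1 := hk 0 (Nat.zero_le k)
  omega

lemma NP_det {l m L : ℤ} (hm : m ≤ L) {h h' : Hi d} {n : ℕ} (h1 : ∀ k < n, h k = h' k)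
    (h2 : L ≤ (h' n).1 0) (hN : NP l m h) : NP l m h' := by
  intro k hk hp
  have hkn : k < n := by
    by_contra hcon
    have := hk n (by omega)
    omega
  refine hN k (fun i hi => ?_) ?_
  · rw [h1 i (by omega)]
    exact hk i hi
  · rw [h1 k hkn]
    exact hp

lemma det_FF (l : ℤ) (j : ℕ) : Det (d := d) (l + ((j + 1 : ℕ) : ℤ)) (FF l j) := by
  intro h h' n h1 h2 _ h4
  have a1 : l + (j : ℤ) ≤ l + ((j + 1 : ℕ) : ℤ) := by push_cast; omega
  have a2 : l + (j : ℤ) + 1 ≤ l + ((j + 1 : ℕ) : ℤ) := by push_cast; omega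
  have h5 : l + ((j + 1 : ℕ) : ℤ) ≤ (h' n).1 0 := by rw [← h2]; exact h4
  have h1' : ∀ k < n, h' k = h k := fun k hk => (h1 k hk).symm
  unfold FF
  constructor
  · rintro ⟨b1, b2⟩
    exact ⟨NP_det a1 h1 h5 b1, fun b3 => b2 (NP_det a2 h1' h4 b3)⟩
  · rintro ⟨b1, b2⟩
    exact ⟨NP_det a1 h1' h4 b1, fun b3 => b2 (NP_det a2 h1 h5 b3)⟩

lemma meas_lev (i : ℕ) (m : ℤ) : MeasurableSet {h : Hi d | (h i).1 0 < m} := by
  have h1 : Measurable fun h : Hi d => (h i).1 0 :=
    (measurable_pi_apply 0).comp (measurable_fst.comp (measurable_pi_apply i))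
  exact h1 (measurableSet_Iio)

lemma meas_prp (l : ℤ) (k : ℕ) : MeasurableSet {h : Hi d | prp l (h k)} := by
  have h1 : Measurable fun h : Hi d => (h k).1 0 :=
    (measurable_pi_apply 0).comp (measurable_fst.comp (measurable_pi_apply k))
  have h2 : Measurable fun h : Hi d => (h k).2 := measurable_snd.comp (measurable_pi_apply k)
  exact (h1 (measurableSet_singleton l)).inter (h2 (measurableSet_singleton _))

lemma meas_NP (l m : ℤ) : MeasurableSet {h : Hi d | NP l m h} := by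
  have e : {h : Hi d | NP l m h} =
      ⋂ k : ℕ, ((⋂ i ∈ Iic k, {h : Hi d | (h i).1 0 < m})ᶜ ∪ {h : Hi d | prp l (h k)}ᶜ) := by
    ext h
    simp only [NP, mem_ofPred_eq, mem_iInter, mem_union, mem_compl_iff, mem_Iic, not_forall]
    refine forall_congr' fun k => ?_
    constructor
    · intro h1
      by_cases h2 : ∀ i ≤ k, (h i).1 0 < m
      · exact Or.inr (h1 h2)
      · push Not at h2
        obtain ⟨i, h3, h4⟩ := h2
        exact Or.inl ⟨i, h3, not_lt.2 h4⟩
    · rintro (⟨i, h3, h4⟩ | h2) h1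
      · exact absurd (h1 i h3) h4
      · exact h2
  rw [e]
  refine MeasurableSet.iInter fun k => MeasurableSet.union (MeasurableSet.compl ?_)
    (meas_prp l k).compl
  exact MeasurableSet.biInter (Set.to_countable _) fun i _ => meas_lev i m

lemma meas_FF (l : ℤ) (j : ℕ) : MeasurableSet {h : Hi d | FF l j h} :=
  (meas_NP l (l + j)).inter (meas_NP l (l + j + 1)).compl

/-- the history -/
noncomputable abbrev hs (p : Par) (x : Site d) (ξ a : Edge d → ℝ) (ζ : ℕ → Inn d) : Hi d :=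
  hist p (x, glue (x 0) ξ a) ζ

open Classical in
/-- the mean of `F` on the event `B` of the history -/
noncomputable def J (p : Par) (nu : Measure (Edge d → Bool)) (x : Site d) (ξ : Edge d → ℝ)
    (F : (Edge d → ℝ) → (ℕ → Inn d) → ℝ≥0∞) (B : Hi d → Prop) : ℝ≥0∞ :=
  ∫⁻ a, ∫⁻ ζ, (if B (hist p (x, glue (x 0) ξ a) ζ) then F a ζ else 0) ∂(PP p nu) ∂(qE d p)

lemma tB_eq (p : Par) (nu : Measure (Edge d → Bool)) (x : Site d) (ξ : Edge d → ℝ) (l : ℤ)
    (B : Hi d → Prop) : tB p nu x ξ l B =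
      J p nu x ξ (fun a ζ => tau l (pth p (x, glue (x 0) ξ a) ζ)) B := rfl

lemma mB_eq (p : Par) (nu : Measure (Edge d → Bool)) (x : Site d) (ξ : Edge d → ℝ)
    (B : Hi d → Prop) : mB p nu x ξ B = J p nu x ξ (fun _ _ => 1) B := rfl

lemma hs_meas (hM : StmMeas) (p : Par) (x : Site d) (ξ : Edge d → ℝ) :
    Measurable fun z : (Edge d → ℝ) × (ℕ → Inn d) => hist p (x, glue (x 0) ξ z.1) z.2 := by
  obtain ⟨-, -, h3, -, -, h6, -⟩ := hM d p
  refine measurable_pi_lambda _ fun n => ?_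
  have h7 : Measurable fun z : (Edge d → ℝ) × (ℕ → Inn d) => glue (x 0) ξ z.1 :=
    (h6 (x 0)).comp (measurable_const.prodMk measurable_fst)
  exact (h3 n).comp ((measurable_const.prodMk h7).prodMk measurable_snd)

open Classical in
lemma int_meas (hM : StmMeas) (p : Par) (x : Site d) (ξ : Edge d → ℝ)
    {F : (Edge d → ℝ) → (ℕ → Inn d) → ℝ≥0∞}
    (hF : Measurable fun z : (Edge d → ℝ) × (ℕ → Inn d) => F z.1 z.2) {B : Hi d → Prop}
    (hB : MeasurableSet {h : Hi d | B h}) : Measurable fun z : (Edge d → ℝ) × (ℕ → Inn d) =>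
      (if B (hist p (x, glue (x 0) ξ z.1) z.2) then F z.1 z.2 else 0) := by
  have h1 : MeasurableSet {z : (Edge d → ℝ) × (ℕ → Inn d) | B (hist p (x, glue (x 0) ξ z.1) z.2)} :=
    hs_meas hM p x ξ hB
  exact Measurable.ite h1 hF measurable_const

lemma J_add (hM : StmMeas) (p : Par) (nu : Measure (Edge d → Bool)) [IsProbabilityMeasure nu]
    (x : Site d) (ξ : Edge d → ℝ) {F : (Edge d → ℝ) → (ℕ → Inn d) → ℝ≥0∞}
    (hF : Measurable fun z : (Edge d → ℝ) × (ℕ → Inn d) => F z.1 z.2) {B B₁ B₂ : Hi d → Prop}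
    (hB₁ : MeasurableSet {h : Hi d | B₁ h}) (h1 : ∀ h, B h ↔ B₁ h ∨ B₂ h)
    (h2 : ∀ h, B₁ h → ¬ B₂ h) : J p nu x ξ F B = J p nu x ξ F B₁ + J p nu x ξ F B₂ := by
  classical
  have hP : IsProbabilityMeasure (PP p nu) := ((hM d p).2.2.2.2.2.2.2.2.2.2 nu inferInstance).2.1
  have m1 := int_meas hM p x ξ hF hB₁
  unfold J
  rw [← lintegral_add_left]
  · refine lintegral_congr fun a => ?_
    rw [← lintegral_add_left]
    · refine lintegral_congr fun ζ => ?_
      by_cases b1 : B₁ (hist p (x, glue (x 0) ξ a) ζ)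
      · have b : B (hist p (x, glue (x 0) ξ a) ζ) := (h1 _).2 (Or.inl b1)
        rw [if_pos b, if_pos b1, if_neg (h2 _ b1), add_zero]
      · by_cases b2 : B₂ (hist p (x, glue (x 0) ξ a) ζ)
        · have b : B (hist p (x, glue (x 0) ξ a) ζ) := (h1 _).2 (Or.inr b2)
          rw [if_pos b, if_neg b1, if_pos b2, zero_add]
        · have b : ¬ B (hist p (x, glue (x 0) ξ a) ζ) := fun b => ((h1 _).1 b).elim b1 b2
          rw [if_neg b, if_neg b1, if_neg b2, zero_add]
    · exact m1.comp (measurable_const.prodMk measurable_id)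
  · exact Measurable.lintegral_prod_right' m1

lemma J_split (hM : StmMeas) (p : Par) (nu : Measure (Edge d → Bool)) [IsProbabilityMeasure nu]
    (x : Site d) (ξ : Edge d → ℝ) {F : (Edge d → ℝ) → (ℕ → Inn d) → ℝ≥0∞}
    (hF : Measurable fun z : (Edge d → ℝ) × (ℕ → Inn d) => F z.1 z.2) (L : ℕ) :
    J p nu x ξ F (NP (x 0) (x 0)) = J p nu x ξ F (NP (x 0) (x 0 + (L : ℤ))) +
      ∑ j ∈ Finset.range L, J p nu x ξ F (FF (x 0) j) := by
  induction L with
  | zero => simp
  | succ L ih =>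
    rw [ih, Finset.sum_range_succ]
    have e : x 0 + (((L + 1 : ℕ)) : ℤ) = x 0 + (L : ℤ) + 1 := by push_cast; ring
    have h1 : J p nu x ξ F (NP (x 0) (x 0 + (L : ℤ))) =
        J p nu x ξ F (NP (x 0) (x 0 + (L : ℤ) + 1)) + J p nu x ξ F (FF (x 0) L) := by
      refine J_add hM p nu x ξ hF (meas_NP _ _) (fun h => ?_) fun h h2 h3 => h3.2 h2
      constructor
      · intro h2
        by_cases h3 : NP (x 0) (x 0 + (L : ℤ) + 1) h
        · exact Or.inl h3
        · exact Or.inr ⟨h2, h3⟩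
      · rintro (h2 | h2)
        · exact NP_mono (by omega) h2
        · exact h2.1
    rw [h1, e, add_assoc, add_assoc, add_comm (J p nu x ξ F (FF (x 0) L))]

open Classical in
lemma J_all (p : Par) (nu : Measure (Edge d → Bool)) (x : Site d) (ξ : Edge d → ℝ)
    (F : (Edge d → ℝ) → (ℕ → Inn d) → ℝ≥0∞) :
    J p nu x ξ F (NP (x 0) (x 0)) = ∫⁻ a, ∫⁻ ζ, F a ζ ∂(PP p nu) ∂(qE d p) := by
  unfold J
  refine lintegral_congr fun a => lintegral_congr fun ζ => ?_
  rw [if_pos]
  exact NP_start le_rfl rfl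

lemma agree (hS : StmSame) (p : Par) (x : Site d) (ξ ξ' a : Edge d → ℝ) (ζ : ℕ → Inn d) :
    Agree (x 0) (hist p (x, glue (x 0) ξ a) ζ) (hist p (x, glue (x 0) ξ' a) ζ) := by
  classical
  by_cases h : ∃ n, prp (x 0) (hist p (x, glue (x 0) ξ a) ζ n)
  · refine Or.inr ⟨Nat.find h, Nat.find_spec h, fun k hk => ?_⟩
    have h1 := (hS d p x ξ ξ' a ζ (Nat.find h) (fun k hk => Nat.find_min h hk) k hk).1
    unfold hist
    rw [h1]
  · refine Or.inl (funext fun n => ?_)
    push Not at h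
    have h1 := (hS d p x ξ ξ' a ζ n (fun k _ => h k) n le_rfl).1
    unfold hist
    rw [h1]

open Classical in
lemma tB_same (hS : StmSame) (p : Par) (nu : Measure (Edge d → Bool)) (x : Site d)
    (ξ ξ' : Edge d → ℝ) (L : ℤ) :
    tB p nu x ξ L (NP (x 0) L) = tB p nu x ξ' L (NP (x 0) L) := by
  unfold tB
  refine lintegral_congr fun a => lintegral_congr fun ζ => ?_
  have ha := agree hS p x ξ ξ' a ζ
  by_cases h1 : NP (x 0) L (hist p (x, glue (x 0) ξ a) ζ)
  · rw [if_pos h1, if_pos ((NP_iff ha).1 h1)]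
    exact tau_agree ha h1
  · rw [if_neg h1, if_neg fun h2 => h1 ((NP_iff ha).2 h2)]

open Classical in
lemma mB_same (hS : StmSame) (p : Par) (nu : Measure (Edge d → Bool)) (x : Site d)
    (ξ ξ' : Edge d → ℝ) (j : ℕ) :
    mB p nu x ξ (FF (x 0) j) = mB p nu x ξ' (FF (x 0) j) := by
  unfold mB
  refine lintegral_congr fun a => lintegral_congr fun ζ => ?_
  have ha := agree hS p x ξ ξ' a ζ
  simp only [FF_iff ha]

open Classical in
lemma sum_le (hM : StmMeas) (p : Par) {δ : ℝ} (hE : ∀ (nu : Measure (Edge d → Bool)),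
      IsProbabilityMeasure nu → ∀ s : State d,
      ENNReal.ofReal δ ≤ (PP p nu) {ζ | ∀ n, ¬ prp (s.1 0) (hist p s ζ n)})
    (nu : Measure (Edge d → Bool)) [hnu : IsProbabilityMeasure nu] (x : Site d) (ξ : Edge d → ℝ)
    (L : ℕ) : (∑ j ∈ Finset.range L, mB p nu x ξ (FF (x 0) j)) + ENNReal.ofReal δ ≤ 1 := by
  have hP : IsProbabilityMeasure (PP p nu) := ((hM d p).2.2.2.2.2.2.2.2.2.2 nu inferInstance).2.1
  have hQ : IsProbabilityMeasure (qE d p) := (hM d p).2.2.2.2.2.2.2.2.1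
  have h1 := J_split hM p nu x ξ (F := fun _ _ => 1) measurable_const L
  rw [J_all] at h1
  simp only [lintegral_const, measure_univ, mul_one] at h1
  have h2 : ENNReal.ofReal δ ≤ J p nu x ξ (fun _ _ => 1) (NP (x 0) (x 0 + (L : ℤ))) := by
    unfold J
    calc ENNReal.ofReal δ = ∫⁻ _a, ENNReal.ofReal δ ∂(qE d p) := by simp
      _ ≤ _ := by
        refine lintegral_mono fun a => ?_
        have m1 : MeasurableSet {ζ : ℕ → Inn d |
            NP (x 0) (x 0 + (L : ℤ)) (hist p (x, glue (x 0) ξ a) ζ)} := by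
          have h3 : Measurable fun ζ : ℕ → Inn d => hist p (x, glue (x 0) ξ a) ζ :=
            (hs_meas hM p x ξ).comp (measurable_const.prodMk measurable_id)
          exact h3 (meas_NP (x 0) (x 0 + (L : ℤ)))
        have e1 : (fun ζ : ℕ → Inn d => (if NP (x 0) (x 0 + (L : ℤ))
            (hist p (x, glue (x 0) ξ a) ζ) then (1 : ℝ≥0∞) else 0)) =
            Set.indicator {ζ : ℕ → Inn d |
              NP (x 0) (x 0 + (L : ℤ)) (hist p (x, glue (x 0) ξ a) ζ)} 1 := by
          funext ζ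
          simp only [Set.indicator_apply, mem_ofPred_eq, Pi.one_apply]
        rw [e1, lintegral_indicator_one m1]
        refine (hE nu hnu (x, glue (x 0) ξ a)).trans (measure_mono ?_)
        intro ζ hζ k _
        exact hζ k
  have h3 : (∑ j ∈ Finset.range L, mB p nu x ξ (FF (x 0) j)) =
      ∑ j ∈ Finset.range L, J p nu x ξ (fun _ _ => 1) (FF (x 0) j) := rfl
  rw [h3, add_comm]
  exact (add_le_add_left h2 _).trans h1.symm.le

end Pool.Agent.N276.SC.OscAux

namespace Pool.Agent.N276.SC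

open OscAux

theorem osc : StmMeas → StmTail → StmSplit → StmSame → StmEsc → StmTailF → StmShift → StmOsc := by
  intro hM _ hSp hSa hEs hTF hSh d p
  obtain ⟨Cf, hCf, hTF⟩ := hTF d p
  obtain ⟨δ, hδ, hEs⟩ := hEs d p
  obtain ⟨nu, hnu⟩ : ∃ nu, nu = nu0 d := ⟨_, rfl⟩
  have hpr : IsProbabilityMeasure nu := by
    rw [hnu]
    unfold nu0
    infer_instance
  obtain ⟨M, hMd⟩ : ∃ M : ℝ, M = Cf / δ := ⟨_, rfl⟩
  have hM0 : 0 < M := by rw [hMd]; positivity
  have hMδ : ENNReal.ofReal M * ENNReal.ofReal δ = ENNReal.ofReal Cf := by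
    rw [← ENNReal.ofReal_mul hM0.le, hMd]
    congr 1
    field_simp
  refine ⟨M, hM0, fun L => ?_⟩
  rw [← hnu]
  induction L using Nat.strong_induction_on with
  | _ L ih =>
    -- the comparison at the origin
    have hcomp : ∀ ξ ξ' : Edge d → ℝ, TT p nu ((0 : Site d) 0 + (L : ℤ)) 0 ξ ≤
        TT p nu ((0 : Site d) 0 + (L : ℤ)) 0 ξ' + ENNReal.ofReal M := by
      intro ξ ξ'
      obtain ⟨x, hx⟩ : ∃ x : Site d, x = 0 := ⟨_, rfl⟩
      rw [← hx]
      have hTT : ∀ ξ : Edge d → ℝ, TT p nu (x 0 + (L : ℤ)) x ξ =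
          tB p nu x ξ (x 0 + (L : ℤ)) (NP (x 0) (x 0 + (L : ℤ))) +
            ∑ j ∈ Finset.range L, tB p nu x ξ (x 0 + (L : ℤ)) (FF (x 0) j) := by
        intro ξ
        have hF : Measurable fun z : (Edge d → ℝ) × (ℕ → Inn d) =>
            tau (x 0 + (L : ℤ)) (pth p (x, glue (x 0) ξ z.1) z.2) := by
          obtain ⟨-, -, -, -, h5, h6, -⟩ := hM d p
          have h7 : Measurable fun z : (Edge d → ℝ) × (ℕ → Inn d) => glue (x 0) ξ z.1 :=
            (h6 (x 0)).comp (measurable_const.prodMk measurable_fst)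
          exact (h5 (x 0 + (L : ℤ))).comp ((measurable_const.prodMk h7).prodMk measurable_snd)
        have h1 := J_split hM p nu x ξ
          (F := fun a ζ => tau (x 0 + (L : ℤ)) (pth p (x, glue (x 0) ξ a) ζ)) hF L
        rw [J_all] at h1
        exact h1
      rw [hTT ξ, hTT ξ']
      have hup : ∀ j ∈ Finset.range L, tB p nu x ξ (x 0 + (L : ℤ)) (FF (x 0) j) ≤
          tB p nu x ξ (x 0 + j + 1) (FF (x 0) j) +
            (cc p nu (L - j - 1) * mB p nu x ξ' (FF (x 0) j) +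
              ENNReal.ofReal M * mB p nu x ξ (FF (x 0) j)) := by
        intro j hj
        rw [Finset.mem_range] at hj
        have h1 := (hSp d p nu hpr (j + 1) (L - j - 1) x ξ (FF (x 0) j) (meas_FF _ _)
          (det_FF (x 0) j)).1
        have e1 : (j + 1 + (L - j - 1) : ℕ) = L := by omega
        have e2 : x 0 + (((j + 1 : ℕ)) : ℤ) = x 0 + j + 1 := by push_cast; ring
        rw [e1, e2] at h1
        refine h1.trans (add_le_add_right ?_ _)
        refine (mul_le_mul_left (ih (L - j - 1) (by omega)) _).trans ?_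
        rw [add_mul, mB_same hSa p nu x ξ' ξ j]
      have hlo : ∀ j ∈ Finset.range L, cc p nu (L - j - 1) * mB p nu x ξ' (FF (x 0) j) ≤
          tB p nu x ξ' (x 0 + (L : ℤ)) (FF (x 0) j) := by
        intro j hj
        rw [Finset.mem_range] at hj
        have h1 := (hSp d p nu hpr (j + 1) (L - j - 1) x ξ' (FF (x 0) j) (meas_FF _ _)
          (det_FF (x 0) j)).2
        have e1 : (j + 1 + (L - j - 1) : ℕ) = L := by omega
        rw [e1] at h1
        exact le_trans le_add_self h1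
      have hsum : ∑ j ∈ Finset.range L, tB p nu x ξ (x 0 + j + 1) (FF (x 0) j) ≤
          ENNReal.ofReal Cf := (ENNReal.sum_le_tsum _).trans (hTF nu hpr x ξ)
      have hmass := sum_le hM p hEs nu x ξ L
      have hM2 : ENNReal.ofReal Cf +
          ENNReal.ofReal M * ∑ j ∈ Finset.range L, mB p nu x ξ (FF (x 0) j) ≤
          ENNReal.ofReal M := by
        rw [← hMδ, ← mul_add, add_comm (ENNReal.ofReal δ)]
        calc _ ≤ ENNReal.ofReal M * 1 := mul_le_mul_right hmass _
          _ = _ := mul_one _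
      calc tB p nu x ξ (x 0 + (L : ℤ)) (NP (x 0) (x 0 + (L : ℤ))) +
            ∑ j ∈ Finset.range L, tB p nu x ξ (x 0 + (L : ℤ)) (FF (x 0) j)
          ≤ tB p nu x ξ (x 0 + (L : ℤ)) (NP (x 0) (x 0 + (L : ℤ))) +
            ∑ j ∈ Finset.range L, (tB p nu x ξ (x 0 + j + 1) (FF (x 0) j) +
            (cc p nu (L - j - 1) * mB p nu x ξ' (FF (x 0) j) +
              ENNReal.ofReal M * mB p nu x ξ (FF (x 0) j))) :=
            add_le_add_right (Finset.sum_le_sum hup) _
        _ = (tB p nu x ξ' (x 0 + (L : ℤ)) (NP (x 0) (x 0 + (L : ℤ))) +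
            ∑ j ∈ Finset.range L, cc p nu (L - j - 1) * mB p nu x ξ' (FF (x 0) j)) +
            (∑ j ∈ Finset.range L, tB p nu x ξ (x 0 + j + 1) (FF (x 0) j) +
              ENNReal.ofReal M * ∑ j ∈ Finset.range L, mB p nu x ξ (FF (x 0) j)) := by
            rw [Finset.sum_add_distrib, Finset.sum_add_distrib, ← Finset.mul_sum,
              tB_same hSa p nu x ξ ξ']
            ring
        _ ≤ (tB p nu x ξ' (x 0 + (L : ℤ)) (NP (x 0) (x 0 + (L : ℤ))) +
            ∑ j ∈ Finset.range L, tB p nu x ξ' (x 0 + (L : ℤ)) (FF (x 0) j)) +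
            (ENNReal.ofReal Cf +
              ENNReal.ofReal M * ∑ j ∈ Finset.range L, mB p nu x ξ (FF (x 0) j)) :=
            add_le_add (add_le_add_right (Finset.sum_le_sum hlo) _) (add_le_add_left hsum _)
        _ ≤ _ := add_le_add_right hM2 _
    -- all starting points
    have hz : (0 : Site d) 0 + (L : ℤ) = L := by simp
    rw [hz] at hcomp
    unfold bb cc
    rw [ENNReal.iInf_add]
    refine iSup_le fun x => iSup_le fun ξ => le_iInf fun x' => ?_
    rw [ENNReal.iInf_add]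
    refine le_iInf fun ξ' => ?_
    rw [hnu] at hcomp ⊢
    obtain ⟨ξ₁, h1⟩ := hSh d p x L ξ
    obtain ⟨ξ₂, h2⟩ := hSh d p x' L ξ'
    rw [h1, h2]
    exact hcomp ξ₁ ξ₂

end Pool.Agent.N276.SC
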