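import Pool.Agent.N276.SC.Stm

/-!
Law of large numbers for the rings (project SC of helper276; file by helper442).
-/

set_option autoImplicit false

open MeasureTheory ProbabilityTheory Filter Topology Set
open scoped ENNReal

namespace Pool.Agent.N276.SC

namespace RingTAux

theorem meas_pdf (R : ℝ) : Measurable (gammaPDF 1 R) :=
  (measurable_gammaPDFReal 1 R).ennreal_ofReal

theorem pdf_lt (R : ℝ) : ∀ᵐ x : ℝ, gammaPDF 1 R x < ∞ :=
  Filter.Eventually.of_forall fun _ => ENNReal.ofReal_lt_top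

theorem smul_eq {R : ℝ} (hR : 0 < R) :
    (fun x : ℝ => (gammaPDF 1 R x).toReal • x) =
      (Ioi (0:ℝ)).indicator fun x => R * (x ^ ((2:ℝ) - 1) * Real.exp (-(R * x))) := by
  funext x
  rw [gammaPDF_eq]
  simp only [Real.rpow_one, Real.Gamma_one, div_one, sub_self, Real.rpow_zero, mul_one]
  by_cases hx : 0 < x
  · rw [if_pos hx.le, indicator_of_mem (show x ∈ Ioi (0:ℝ) from hx),
      ENNReal.toReal_ofReal (by positivity)]
    rw [show (2:ℝ) - 1 = 1 by norm_num, Real.rpow_one, smul_eq_mul]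
    ring
  · rw [indicator_of_notMem (show x ∉ Ioi (0:ℝ) from hx)]
    rcases (not_lt.1 hx).lt_or_eq with h | h
    · rw [if_neg (not_le.2 h)]
      simp
    · rw [h]
      simp

theorem int_smul {R : ℝ} (hR : 0 < R) :
    ∫ x : ℝ, (gammaPDF 1 R x).toReal • x = 1 / R := by
  rw [smul_eq hR, integral_indicator measurableSet_Ioi, integral_const_mul,
    Real.integral_rpow_mul_exp_neg_mul_Ioi (by norm_num) hR]
  have h1 : Real.Gamma 2 = 1 := Real.Gamma_two
  rw [h1]
  have h2 : (1 / R) ^ (2:ℝ) = (1 / R) ^ 2 := by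
    rw [← Real.rpow_natCast]
    norm_num
  rw [h2]
  field_simp

theorem mean {R : ℝ} (hR : 0 < R) : ∫ x : ℝ, x ∂(expMeasure R) = 1 / R := by
  rw [expMeasure, gammaMeasure,
    integral_withDensity_eq_integral_toReal_smul (meas_pdf R) (pdf_lt R)]
  exact int_smul hR

theorem integ {R : ℝ} (hR : 0 < R) : Integrable (fun x : ℝ => x) (expMeasure R) := by
  rw [expMeasure, gammaMeasure, integrable_withDensity_iff_integrable_smul' (meas_pdf R) (pdf_lt R)]
  by_contra h
  have h1 := int_smul hR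
  rw [integral_undef h] at h1
  have h2 : 0 < 1 / R := by positivity
  linarith

theorem pos {R : ℝ} : ∀ᵐ x : ℝ ∂(expMeasure R), 0 < x := by
  rw [ae_iff]
  have h1 : {a : ℝ | ¬ 0 < a} = Iic 0 := by
    ext a
    simp
  rw [h1, expMeasure, gammaMeasure, withDensity_apply _ measurableSet_Iic,
    ← setLIntegral_congr Iio_ae_eq_Iic]
  exact lintegral_gammaPDF_of_nonpos le_rfl

end RingTAux

open RingTAux in
/-- law of large numbers for the rings -/
theorem ringT : StmRing := by
  intro R hR
  have hprob := isProbabilityMeasure_expMeasure hR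
  set P : Measure (ℕ → ℝ) := Measure.infinitePi fun _ : ℕ => expMeasure R with hP
  have hmap : ∀ i : ℕ, P.map (fun g : ℕ → ℝ => g i) = expMeasure R := fun i =>
    Measure.infinitePi_map_eval (fun _ : ℕ => expMeasure R) i
  have hev : ∀ i : ℕ, Measurable (fun g : ℕ → ℝ => g i) := fun i => measurable_pi_apply i
  have hpos : ∀ᵐ g : ℕ → ℝ ∂P, ∀ i, 0 < g i := by
    rw [ae_all_iff]
    intro i
    have h1 : ∀ᵐ x : ℝ ∂(P.map (fun g : ℕ → ℝ => g i)), 0 < x := by
      rw [hmap]
      exact RingTAux.pos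
    exact ae_of_ae_map (hev i).aemeasurable h1
  have hint : Integrable (fun g : ℕ → ℝ => g 0) P := by
    have h1 := integ hR
    rw [← hmap 0] at h1
    exact (integrable_map_measure measurable_id.aestronglyMeasurable
      (hev 0).aemeasurable).1 h1
  have hmean : ∫ g : ℕ → ℝ, g 0 ∂P = 1 / R := by
    rw [← mean hR, ← hmap 0]
    exact (integral_map (hev 0).aemeasurable measurable_id.aestronglyMeasurable).symm
  have hind : Pairwise (fun i j : ℕ => IndepFun (fun g : ℕ → ℝ => g i) (fun g : ℕ → ℝ => g j) P) := by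
    intro i j hij
    exact (iIndepFun_infinitePi (P := fun _ : ℕ => expMeasure R) (X := fun (_ : ℕ) (x : ℝ) => x)
      (fun _ => measurable_id)).indepFun hij
  have hid : ∀ i : ℕ, IdentDistrib (fun g : ℕ → ℝ => g i) (fun g : ℕ → ℝ => g 0) P P := fun i =>
    ⟨(hev i).aemeasurable, (hev 0).aemeasurable, by rw [hmap, hmap]⟩
  have hlln := strong_law_ae_real (fun (i : ℕ) (g : ℕ → ℝ) => g i) hint hind hid
  filter_upwards [hpos, hlln] with g h1 h2
  refine ⟨h1, ?_⟩
  rw [← hmean]
  exact h2

end Pool.Agent.N276.SC
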