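import Pool.Agent.N276.SC.Stm

/-!
# The conductances behind the starting level do not matter
-/

set_option autoImplicit false

open MeasureTheory

namespace Pool.Agent.N276.SC

variable {d : ℕ}

namespace SameAux

theorem vec_zero (δ : Dir d) : (vec δ : Site d) 0 =
    if δ.1 = 0 then (if δ.2 = true then 1 else -1) else 0 := by
  unfold vec
  by_cases h : δ.2 = true
  · rw [if_pos h]
    by_cases h0 : δ.1 = 0
    · rw [if_pos h0, if_pos h, h0, Pi.single_eq_same]
    · rw [if_neg h0, Pi.single_eq_of_ne (fun h' => h0 h'.symm)]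
  · rw [if_neg h]
    by_cases h0 : δ.1 = 0
    · rw [if_pos h0, if_neg h, h0, Pi.neg_apply, Pi.single_eq_same]
    · rw [if_neg h0, Pi.neg_apply, Pi.single_eq_of_ne (fun h' => h0 h'.symm), neg_zero]

theorem edge_level (l : ℤ) (y : Site d) (δ : Dir d) (hy : l ≤ y 0)
    (h : ¬ (y 0 = l ∧ δ = (0, false))) : l ≤ (edge y δ).1 0 ∧ l ≤ (y + vec δ) 0 := by
  have hv := vec_zero δ
  have e1 : (y + vec δ) 0 = y 0 + (vec δ : Site d) 0 := rfl
  have key : l ≤ (y + vec δ) 0 := by
    rw [e1, hv]
    by_cases h0 : δ.1 = 0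
    · rw [if_pos h0]
      by_cases h1 : δ.2 = true
      · rw [if_pos h1]; omega
      · rw [if_neg h1]
        have h2 : δ = (0, false) := by
          apply Prod.ext
          · exact h0
          · simpa using h1
        have h3 : y 0 ≠ l := fun h4 => h ⟨h4, h2⟩
        omega
    · rw [if_neg h0]; omega
  refine ⟨?_, key⟩
  unfold edge
  by_cases h1 : δ.2 = true
  · simp only [if_pos h1]; exact hy
  · simp only [if_neg h1]; exact key

theorem strong (p : Par) (l : ℤ) (s s' : State d) (ζ : ℕ → Inn d) (n : ℕ)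
    (h1 : s.1 = s'.1) (h2 : l ≤ s.1 0) (h3 : ∀ e : Edge d, l ≤ e.1 0 → s.2 e = s'.2 e)
    (h : ∀ k < n, ¬ prp l (hist p s ζ k)) : ∀ k ≤ n,
      (chain p s ζ k).1 = (chain p s' ζ k).1 ∧ l ≤ (chain p s ζ k).1 0 ∧
        ∀ e : Edge d, l ≤ e.1 0 → (chain p s ζ k).2 e = (chain p s' ζ k).2 e := by
  intro k
  induction k with
  | zero => intro _; exact ⟨h1, h2, h3⟩
  | succ k ih =>
    intro hk
    obtain ⟨i1, i2, i3⟩ := ih (by omega)
    have hp := h k (by omega)
    have hp' : ¬ ((chain p s ζ k).1 0 = l ∧ (ζ k).2.2.1 = (0, false)) := hp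
    obtain ⟨j1, j2⟩ := edge_level l (chain p s ζ k).1 (ζ k).2.2.1 i2 hp'
    have hupd : ∀ e : Edge d, l ≤ e.1 0 →
        upd (chain p s ζ k).2 (ζ k) e = upd (chain p s' ζ k).2 (ζ k) e := by
      intro e he
      unfold upd
      rw [i3 e he]
    have hE := hupd _ j1
    have hc : chain p s ζ (k + 1) = step p (chain p s ζ k) (ζ k) := rfl
    have hc' : chain p s' ζ (k + 1) = step p (chain p s' ζ k) (ζ k) := rfl
    rw [hc, hc']
    unfold step
    refine ⟨?_, ?_, hupd⟩
    · show (if _ then _ else _) = (if _ then _ else _)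
      rw [← i1, hE]
    · show l ≤ (if (ζ k).2.2.2 < tr p (upd (chain p s ζ k).2 (ζ k)
        (edge (chain p s ζ k).1 (ζ k).2.2.1)) / (2 * p.kap) then
        (chain p s ζ k).1 + vec (ζ k).2.2.1 else (chain p s ζ k).1) 0
      split_ifs
      · exact j2
      · exact i2

end SameAux

/-- without a proposal to step back from the starting level the conductances behind do not matter -/
theorem same : StmSame := by
  intro d p x ξ ξ' a ζ n h k hk
  have := SameAux.strong p (x 0) (x, glue (x 0) ξ a) (x, glue (x 0) ξ' a) ζ n rfl le_rfl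
    (fun e he => by
      show glue (x 0) ξ a e = glue (x 0) ξ' a e
      unfold glue
      rw [if_neg (not_lt.2 he), if_neg (not_lt.2 he)]) h k hk
  exact ⟨this.1, this.2.1⟩

end Pool.Agent.N276.SC
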