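import Pool.Agent.N276.SC.Stm

/-!
# Translation invariance in static conductances

Project SC of helper276; this leaf by helper681.
-/

set_option autoImplicit false

open MeasureTheory ProbabilityTheory Filter Topology Set
open scoped ENNReal

namespace Pool.Agent.N276.SC

namespace ShiftAux

variable {d : ℕ}

/-- the translation of the edges -/
def sg (x : Site d) : Edge d ≃ Edge d where
  toFun e := (x + e.1, e.2)
  invFun e := (-x + e.1, e.2)
  left_inv e := by simp
  right_inv e := by simp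

/-- translated conductances -/
def sh (x : Site d) (w : Edge d → ℝ) : Edge d → ℝ := fun e => w (sg x e)

theorem sh_eq (x : Site d) (w : Edge d → ℝ) :
    sh x w = MeasurableEquiv.piCongrLeft (fun _ : Edge d => ℝ) (sg x).symm w := by
  funext e
  have h := Equiv.piCongrLeft_apply_apply (fun _ : Edge d => ℝ) (sg x).symm w (sg x e)
  rw [Equiv.symm_apply_apply] at h
  exact h.symm

theorem lintegral_sh (p : Par) (x : Site d) (f : (Edge d → ℝ) → ℝ≥0∞) :
    ∫⁻ a, f (sh x a) ∂(qE d p) = ∫⁻ a, f a ∂(qE d p) := by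
  have hmap : (qE d p).map (MeasurableEquiv.piCongrLeft (fun _ : Edge d => ℝ) (sg x).symm) =
      qE d p := Measure.infinitePi_map_piCongrLeft (fun _ : Edge d => p.q) (sg x).symm
  conv_rhs => rw [← hmap]
  rw [lintegral_map_equiv]
  refine lintegral_congr fun a => ?_
  rw [sh_eq]

theorem edge_sg (x y : Site d) (δ : Dir d) : sg x (edge y δ) = edge (x + y) δ := by
  unfold edge sg
  by_cases h : δ.2 = true
  · simp [h]
  · simp [h, add_assoc]

theorem upd_false {z : Inn d} (h : z.1 = fun _ => false) (v : Edge d → ℝ) : upd v z = v := by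
  funext e
  unfold upd
  rw [h]
  simp

theorem chain_sh (p : Par) (x : Site d) (w : Edge d → ℝ) {ζ : ℕ → Inn d}
    (hζ : ∀ k, (ζ k).1 = fun _ => false) (n : ℕ) :
    chain p (x, w) ζ n = (x + (chain p (0, sh x w) ζ n).1, w) ∧
      (chain p (0, sh x w) ζ n).2 = sh x w := by
  induction n with
  | zero =>
    refine ⟨?_, rfl⟩
    change (x, w) = (x + 0, w)
    rw [add_zero]
  | succ n ih =>
    obtain ⟨h1, h2⟩ := ih
    have e1 : chain p (x, w) ζ (n + 1) = step p (chain p (x, w) ζ n) (ζ n) := rfl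
    have e2 : chain p (0, sh x w) ζ (n + 1) = step p (chain p (0, sh x w) ζ n) (ζ n) := rfl
    rw [e1, e2, h1]
    unfold step
    simp only [upd_false (hζ n), h2]
    refine ⟨?_, trivial⟩
    have h3 : w (edge (x + (chain p (0, sh x w) ζ n).1) (ζ n).2.2.1) =
        sh x w (edge (chain p (0, sh x w) ζ n).1 (ζ n).2.2.1) := by
      unfold sh
      rw [edge_sg]
    rw [h3]
    split_ifs
    · rw [add_assoc]
    · rfl

theorem tau_sh (p : Par) (x : Site d) (w : Edge d → ℝ) (L : ℤ) {ζ : ℕ → Inn d}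
    (hζ : ∀ k, (ζ k).1 = fun _ => false) :
    tau (x 0 + L) (pth p (x, w) ζ) = tau L (pth p (0, sh x w) ζ) := by
  unfold tau
  refine tsum_congr fun n => ?_
  have h : (∀ k ≤ n, pth p (x, w) ζ k 0 < x 0 + L) ↔
      (∀ k ≤ n, pth p (0, sh x w) ζ k 0 < L) := by
    refine forall_congr' fun k => forall_congr' fun _ => ?_
    have h1 : pth p (x, w) ζ k 0 = x 0 + pth p (0, sh x w) ζ k 0 := by
      unfold pth
      rw [(chain_sh p x w hζ k).1]
      rfl
    rw [h1]
    exact add_lt_add_iff_left _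
  by_cases h2 : ∀ k ≤ n, pth p (0, sh x w) ζ k 0 < L
  · rw [if_pos (h.2 h2), if_pos h2]
  · rw [if_neg (fun h3 => h2 (h.1 h3)), if_neg h2]

theorem ae_false (p : Par) [IsProbabilityMeasure (inn p (nu0 d))] [IsProbabilityMeasure (qE d p)]
    [IsProbabilityMeasure (dirLaw d p.lam)] [IsProbabilityMeasure unif] :
    ∀ᵐ ζ ∂(PP p (nu0 d)), ∀ k, (ζ k).1 = fun _ => false := by
  rw [ae_all_iff]
  intro k
  have h0 : ∀ᵐ r ∂(nu0 d), r = fun _ => false := by
    unfold nu0
    rw [ae_dirac_eq]
    exact Filter.eventually_pure.2 rfl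
  have h1 : ∀ᵐ z ∂(inn p (nu0 d)), z.1 = fun _ => false := by
    unfold inn
    exact Measure.quasiMeasurePreserving_fst.ae h0
  exact (measurePreserving_eval_infinitePi (fun _ : ℕ => inn p (nu0 d)) k).quasiMeasurePreserving.ae
    h1

theorem mt_sh (p : Par) [IsProbabilityMeasure (inn p (nu0 d))] [IsProbabilityMeasure (qE d p)]
    [IsProbabilityMeasure (dirLaw d p.lam)] [IsProbabilityMeasure unif] (x : Site d)
    (w : Edge d → ℝ) (L : ℤ) :
    mt p (nu0 d) (x 0 + L) (x, w) = mt p (nu0 d) L (0, sh x w) := by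
  unfold mt
  refine lintegral_congr_ae ?_
  filter_upwards [ae_false (d := d) p] with ζ hζ
  exact tau_sh p x w L hζ

theorem sh_glue (x : Site d) (ξ a : Edge d → ℝ) :
    sh x (glue (x 0) ξ a) = glue ((0 : Site d) 0) (sh x ξ) (sh x a) := by
  funext e
  unfold sh glue
  have h : ((sg x e).1 0 < x 0) ↔ (e.1 0 < (0 : Site d) 0) := by
    change (x 0 + e.1 0 < x 0) ↔ (e.1 0 < 0)
    constructor <;> intro h <;> omega
  by_cases h1 : e.1 0 < (0 : Site d) 0
  · rw [if_pos (h.2 h1), if_pos h1]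
  · rw [if_neg (fun h2 => h1 (h.1 h2)), if_neg h1]

end ShiftAux

open ShiftAux

theorem shift : StmMeas → StmShift := by
  intro hM d p x L ξ
  obtain ⟨-, -, -, -, -, -, h7, h8, h9, -, h11⟩ := hM d p
  have hn : IsProbabilityMeasure (nu0 d) := by
    unfold nu0
    infer_instance
  have hi := (h11 (nu0 d) hn).1
  refine ⟨sh x ξ, ?_⟩
  unfold TT
  rw [← lintegral_sh p x fun a => mt p (nu0 d) L (0, glue ((0 : Site d) 0) (sh x ξ) a)]
  refine lintegral_congr fun a => ?_
  rw [mt_sh, sh_glue]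

end Pool.Agent.N276.SC
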