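import Pool.Agent.N276.SC.Stm

/-!
# The law of the path of the walk at its rings, dynamical conductances
-/

set_option autoImplicit false

open MeasureTheory ProbabilityTheory Filter Topology Set
open scoped ENNReal

namespace Pool.Agent.N276.SC

namespace SkelDAux

variable {d : ℕ}

/-- the law of the sequences of the coordinates of a sequence of independent pairs -/
theorem unzip_law {A B : Type} [MeasurableSpace A] [MeasurableSpace B] (μ : Measure A) (ν : Measure B)
    [IsProbabilityMeasure μ] [IsProbabilityMeasure ν] :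
    (Measure.infinitePi fun _ : ℕ => μ.prod ν).map
      (fun ζ => ((fun n => (ζ n).1 : ℕ → A), (fun n => (ζ n).2 : ℕ → B))) =
    (Measure.infinitePi fun _ : ℕ => μ).prod (Measure.infinitePi fun _ : ℕ => ν) := by
  classical
  symm
  refine Measure.prod_eq_generateFrom (C := squareCylinders fun _ : ℕ => {s : Set A | MeasurableSet s})
    (D := squareCylinders fun _ : ℕ => {s : Set B | MeasurableSet s}) generateFrom_squareCylinders
    generateFrom_squareCylinders
    (isPiSystem_squareCylinders (fun _ => MeasurableSpace.isPiSystem_measurableSet) (by simp))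
    (isPiSystem_squareCylinders (fun _ => MeasurableSpace.isPiSystem_measurableSet) (by simp))
    ⟨fun _ => univ, fun _ => ⟨∅, fun _ => univ, by simp, by simp⟩, fun _ => measure_lt_top _ _, iUnion_const _⟩
    ⟨fun _ => univ, fun _ => ⟨∅, fun _ => univ, by simp, by simp⟩, fun _ => measure_lt_top _ _, iUnion_const _⟩ ?_
  rintro _ ⟨s, t, ht, rfl⟩ _ ⟨s', t', ht', rfl⟩
  have ht1 : ∀ i, MeasurableSet (t i) := fun i => ht i (mem_univ i)
  have ht2 : ∀ i, MeasurableSet (t' i) := fun i => ht' i (mem_univ i)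
  rw [Measure.infinitePi_pi _ (fun i _ => ht1 i), Measure.infinitePi_pi _ (fun i _ => ht2 i),
    Measure.map_apply (by fun_prop) ((MeasurableSet.pi s.countable_toSet fun i _ => ht1 i).prod
      (MeasurableSet.pi s'.countable_toSet fun i _ => ht2 i))]
  have e : (fun ζ : ℕ → A × B => ((fun n => (ζ n).1 : ℕ → A), (fun n => (ζ n).2 : ℕ → B))) ⁻¹'
      ((s : Set ℕ).pi t ×ˢ (s' : Set ℕ).pi t') =
      ((s ∪ s' : Finset ℕ) : Set ℕ).pi fun i => (if i ∈ s then t i else univ) ×ˢ (if i ∈ s' then t' i else univ) := by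
    ext ζ
    simp only [mem_preimage, mem_prod, Set.mem_pi, Finset.mem_coe, Finset.mem_union]
    constructor
    · rintro ⟨h1, h2⟩ i -
      constructor
      · split_ifs with h
        · exact h1 i h
        · trivial
      · split_ifs with h
        · exact h2 i h
        · trivial
    · intro h
      constructor
      · intro i hi
        have := (h i (Or.inl hi)).1
        rwa [if_pos hi] at this
      · intro i hi
        have := (h i (Or.inr hi)).2
        rwa [if_pos hi] at this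
  rw [e, Measure.infinitePi_pi _ (fun i _ => MeasurableSet.prod
    (by split_ifs; exacts [ht1 i, MeasurableSet.univ]) (by split_ifs; exacts [ht2 i, MeasurableSet.univ]))]
  simp_rw [Measure.prod_prod]
  rw [Finset.prod_mul_distrib]
  congr 1
  · rw [← Finset.prod_subset (Finset.subset_union_left (s₁ := s) (s₂ := s'))]
    · exact Finset.prod_congr rfl fun i hi => by rw [if_pos hi]
    · intro i _ hi
      rw [if_neg hi, measure_univ]
  · rw [← Finset.prod_subset (Finset.subset_union_right (s₁ := s) (s₂ := s'))]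
    · exact Finset.prod_congr rfl fun i hi => by rw [if_pos hi]
    · intro i _ hi
      rw [if_neg hi, measure_univ]

theorem unzip_mp {A B : Type} [MeasurableSpace A] [MeasurableSpace B] (μ : Measure A) (ν : Measure B)
    [IsProbabilityMeasure μ] [IsProbabilityMeasure ν] :
    MeasurePreserving (fun ζ : ℕ → A × B => ((fun n => (ζ n).1 : ℕ → A), (fun n => (ζ n).2 : ℕ → B)))
      (Measure.infinitePi fun _ : ℕ => μ.prod ν)
      ((Measure.infinitePi fun _ : ℕ => μ).prod (Measure.infinitePi fun _ : ℕ => ν)) :=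
  ⟨by fun_prop, unzip_law μ ν⟩

/-- the path in given conductances at the rings -/
noncomputable def ff (kap : ℝ) (c : ℕ → Edge d → ℝ) (D : ℕ → Dir d) (U : ℕ → ℝ) : ℕ → Site d
  | 0 => 0
  | n + 1 =>
    if U n < c n (edge (ff kap c D U n) (D n)) / (2 * kap) then ff kap c D U n + vec (D n)
    else ff kap c D U n

/-- the times of the rings -/
noncomputable def tm (g : ℕ → ℝ) (n : ℕ) : ℝ := ∑ i ∈ Finset.range (n + 1), g i

theorem pos_eq (kap : ℝ) (env : ℝ → Edge d → ℝ) (g : ℕ → ℝ) (D : ℕ → Dir d) (U : ℕ → ℝ) :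
    pos kap env g D U = ff kap (fun n => env (tm g n)) D U := by
  funext n
  induction n with
  | zero => rfl
  | succ n ih => rw [pos, ff, ih]; rfl

theorem measurable_ff (kap : ℝ) :
    Measurable fun z : (ℕ → Edge d → ℝ) × (ℕ → Dir d) × (ℕ → ℝ) => ff kap z.1 z.2.1 z.2.2 := by
  rw [measurable_pi_iff]
  intro n
  induction n with
  | zero => exact measurable_const
  | succ n ih =>
    have hD : Measurable fun z : (ℕ → Edge d → ℝ) × (ℕ → Dir d) × (ℕ → ℝ) => z.2.1 n := by fun_prop
    have hU : Measurable fun z : (ℕ → Edge d → ℝ) × (ℕ → Dir d) × (ℕ → ℝ) => z.2.2 n := by fun_prop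
    have hC : Measurable fun z : (ℕ → Edge d → ℝ) × (ℕ → Dir d) × (ℕ → ℝ) => z.1 n :=
      (measurable_pi_apply n).comp measurable_fst
    have hSD : Measurable fun z : (ℕ → Edge d → ℝ) × (ℕ → Dir d) × (ℕ → ℝ) =>
        (ff kap z.1 z.2.1 z.2.2 n, z.2.1 n) := ih.prodMk hD
    have hE : Measurable fun z : (ℕ → Edge d → ℝ) × (ℕ → Dir d) × (ℕ → ℝ) =>
        edge (ff kap z.1 z.2.1 z.2.2 n) (z.2.1 n) :=
      (measurable_of_countable fun q : Site d × Dir d => edge q.1 q.2).comp hSD
    have hev : Measurable fun q : (Edge d → ℝ) × Edge d => q.1 q.2 :=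
      measurable_from_prod_countable_left fun e => measurable_pi_apply e
    have hw : Measurable fun z : (ℕ → Edge d → ℝ) × (ℕ → Dir d) × (ℕ → ℝ) =>
        z.1 n (edge (ff kap z.1 z.2.1 z.2.2 n) (z.2.1 n)) := hev.comp (hC.prodMk hE)
    have hV : Measurable fun z : (ℕ → Edge d → ℝ) × (ℕ → Dir d) × (ℕ → ℝ) =>
        ff kap z.1 z.2.1 z.2.2 n + vec (z.2.1 n) :=
      (measurable_of_countable fun q : Site d × Dir d => q.1 + vec q.2).comp hSD
    exact Measurable.ite (measurableSet_lt hU (hw.div_const _)) hV ih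

theorem measurable_tm (n : ℕ) : Measurable fun g : ℕ → ℝ => tm g n := by
  unfold tm
  fun_prop

theorem measurable_cnt : Measurable fun z : (ℕ → ℝ) × ℝ => cnt z.1 z.2 := by
  have hS : ∀ k : ℕ, MeasurableSet {z : (ℕ → ℝ) × ℝ | z.2 < ∑ i ∈ Finset.range (k + 1), z.1 i} := by
    intro k
    exact measurableSet_lt measurable_snd (by fun_prop)
  refine measurable_of_Iic fun n => ?_
  have e : (fun z : (ℕ → ℝ) × ℝ => cnt z.1 z.2) ⁻¹' Iic n =
      (⋂ k, {z : (ℕ → ℝ) × ℝ | z.2 < ∑ i ∈ Finset.range (k + 1), z.1 i}ᶜ) ∪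
      ⋃ k ∈ Iic n, {z : (ℕ → ℝ) × ℝ | z.2 < ∑ i ∈ Finset.range (k + 1), z.1 i} := by
    ext z
    simp only [mem_preimage, mem_Iic, mem_union, mem_iInter, mem_compl_iff, mem_ofPred_eq, mem_iUnion,
      exists_prop, cnt]
    constructor
    · intro h
      by_cases hne : ∃ k, z.2 < ∑ i ∈ Finset.range (k + 1), z.1 i
      · right
        exact ⟨_, h, Nat.sInf_mem (s := {k | z.2 < ∑ i ∈ Finset.range (k + 1), z.1 i}) hne⟩
      · left
        exact fun k hk => hne ⟨k, hk⟩
    · rintro (h | ⟨k, hk, h⟩)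
      · have : {k : ℕ | z.2 < ∑ i ∈ Finset.range (k + 1), z.1 i} = ∅ := by
          ext k
          simp only [mem_ofPred_eq, mem_empty_iff_false, iff_false]
          exact h k
        rw [this, Nat.sInf_empty]
        exact Nat.zero_le _
      · exact (Nat.sInf_le h).trans hk
  rw [e]
  refine MeasurableSet.union (MeasurableSet.iInter fun k => (hS k).compl) ?_
  exact MeasurableSet.biUnion (Set.to_countable _) fun k _ => hS k

theorem measurable_cond : Measurable fun z : ((Edge d → ℕ → ℝ) × (Edge d → ℕ → ℝ)) × (ℕ → ℝ) =>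
    fun (n : ℕ) (e : Edge d) => cond z.1 (tm z.2 n) e := by
  rw [measurable_pi_iff]
  intro n
  rw [measurable_pi_iff]
  intro e
  unfold cond
  have h1 : Measurable fun z : ((Edge d → ℕ → ℝ) × (Edge d → ℕ → ℝ)) × (ℕ → ℝ) =>
      cnt (z.1.1 e) (tm z.2 n) := by
    refine measurable_cnt.comp (Measurable.prodMk ?_ ((measurable_tm n).comp measurable_snd))
    exact (measurable_pi_apply e).comp (measurable_fst.comp measurable_fst)
  have h2 : Measurable fun z : ((Edge d → ℕ → ℝ) × (Edge d → ℕ → ℝ)) × (ℕ → ℝ) => z.1.2 e :=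
    (measurable_pi_apply e).comp (measurable_snd.comp measurable_fst)
  have hev : Measurable fun q : (ℕ → ℝ) × ℕ => q.1 q.2 :=
    measurable_from_prod_countable_left fun k => measurable_pi_apply k
  exact hev.comp (h2.prodMk h1)

/-- the conductances at the rings, from the new values -/
noncomputable def ec (g : ℕ → ℝ) (w : Edge d → ℝ) (GV : ℕ → (Edge d → ℝ) × (Edge d → ℝ)) :
    ℕ → Edge d → ℝ :=
  fun n e => ech (tm g) (w e) (fun k => (GV k).1 e) (fun k => (GV k).2 e) n

theorem measurable_ec : Measurable fun z : ((Edge d → ℝ) × (ℕ → (Edge d → ℝ) × (Edge d → ℝ))) × (ℕ → ℝ) =>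
    ec z.2 z.1.1 z.1.2 := by
  rw [measurable_pi_iff]
  intro n
  rw [measurable_pi_iff]
  intro e
  unfold ec
  have hG : ∀ n, Measurable fun z : ((Edge d → ℝ) × (ℕ → (Edge d → ℝ) × (Edge d → ℝ))) × (ℕ → ℝ) =>
      (z.1.2 n).1 e := fun n => by fun_prop
  have hV : ∀ n, Measurable fun z : ((Edge d → ℝ) × (ℕ → (Edge d → ℝ) × (Edge d → ℝ))) × (ℕ → ℝ) =>
      (z.1.2 n).2 e := fun n => by fun_prop
  have hT : ∀ n, Measurable fun z : ((Edge d → ℝ) × (ℕ → (Edge d → ℝ) × (Edge d → ℝ))) × (ℕ → ℝ) =>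
      tm z.2 n := fun n => (measurable_tm n).comp measurable_snd
  induction n with
  | zero =>
    simp only [ech]
    exact Measurable.ite (measurableSet_lt (hG 0) (hT 0)) (hV 0) (by fun_prop)
  | succ n ih =>
    simp only [ech]
    exact Measurable.ite (measurableSet_lt (hG (n + 1)) ((hT (n + 1)).sub (hT n))) (hV (n + 1)) ih

theorem mono_tm {g : ℕ → ℝ} (hg : ∀ i, 0 ≤ g i) : 0 ≤ tm g 0 ∧ Monotone (tm g) := by
  constructor
  · unfold tm
    exact Finset.sum_nonneg fun i _ => hg i
  · refine monotone_nat_of_le_succ fun n => ?_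
    unfold tm
    rw [Finset.sum_range_succ _ (n + 1)]
    exact le_add_of_nonneg_right (hg _)

theorem exp_pos' {R : ℝ} : ∀ᵐ x : ℝ ∂(expMeasure R), 0 < x := by
  rw [ae_iff]
  have h1 : {a : ℝ | ¬ 0 < a} = Iic 0 := by
    ext a
    simp
  rw [h1, expMeasure, gammaMeasure, withDensity_apply _ measurableSet_Iic,
    ← setLIntegral_congr Iio_ae_eq_Iic]
  exact lintegral_gammaPDF_of_nonpos le_rfl

theorem gaps_pos {R : ℝ} (hR : 0 < R) :
    ∀ᵐ g : ℕ → ℝ ∂(Measure.infinitePi fun _ : ℕ => expMeasure R), ∀ i, 0 ≤ g i := by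
  have hprob := isProbabilityMeasure_expMeasure hR
  rw [ae_all_iff]
  intro i
  have h1 : ∀ᵐ x : ℝ ∂(expMeasure R), 0 ≤ x := exp_pos'.mono fun x hx => hx.le
  exact (measurePreserving_eval_infinitePi (fun _ : ℕ => expMeasure R) i).quasiMeasurePreserving.ae h1

/-- the law of the path, from the new values -/
theorem left_law (hE : StmEnv) (kap : ℝ) (q : Measure ℝ) [IsProbabilityMeasure q] {mu R : ℝ}
    (hmu : 0 < mu) (hR : 0 < R) (Q : Measure ((ℕ → Dir d) × (ℕ → ℝ))) [IsProbabilityMeasure Q] :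
    ((envLaw d q mu).prod ((Measure.infinitePi fun _ : ℕ => expMeasure R).prod Q)).map
      (fun ω => ff kap (fun n e => cond ω.1 (tm ω.2.1 n) e) ω.2.2.1 ω.2.2.2) =
    (((Measure.infinitePi fun _ : Edge d => q).prod (Measure.infinitePi fun _ : ℕ =>
      (Measure.infinitePi fun _ : Edge d => expMeasure mu).prod
        (Measure.infinitePi fun _ : Edge d => q))).prod
          ((Measure.infinitePi fun _ : ℕ => expMeasure R).prod Q)).map
      (fun z => ff kap (ec z.2.1 z.1.1 z.1.2) z.2.2.1 z.2.2.2) := by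
  have hexp : IsProbabilityMeasure (expMeasure R) := isProbabilityMeasure_expMeasure hR
  have hexp2 : IsProbabilityMeasure (expMeasure mu) := isProbabilityMeasure_expMeasure hmu
  have hen : IsProbabilityMeasure (envLaw d q mu) := by unfold envLaw; infer_instance
  have hm1 : Measurable fun ω : ((Edge d → ℕ → ℝ) × (Edge d → ℕ → ℝ)) ×
      ((ℕ → ℝ) × ((ℕ → Dir d) × (ℕ → ℝ))) =>
      ff kap (fun n e => cond ω.1 (tm ω.2.1 n) e) ω.2.2.1 ω.2.2.2 := by
    have h1 : Measurable fun ω : ((Edge d → ℕ → ℝ) × (Edge d → ℕ → ℝ)) ×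
        ((ℕ → ℝ) × ((ℕ → Dir d) × (ℕ → ℝ))) =>
        (((fun n e => cond ω.1 (tm ω.2.1 n) e) : ℕ → Edge d → ℝ), ω.2.2) :=
      (measurable_cond.comp (measurable_fst.prodMk (measurable_fst.comp measurable_snd))).prodMk
        (measurable_snd.comp measurable_snd)
    exact (measurable_ff kap).comp h1
  have hm2 : Measurable fun z : ((Edge d → ℝ) × (ℕ → (Edge d → ℝ) × (Edge d → ℝ))) ×
      ((ℕ → ℝ) × ((ℕ → Dir d) × (ℕ → ℝ))) =>
      ff kap (ec z.2.1 z.1.1 z.1.2) z.2.2.1 z.2.2.2 := by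
    have h1 : Measurable fun z : ((Edge d → ℝ) × (ℕ → (Edge d → ℝ) × (Edge d → ℝ))) ×
        ((ℕ → ℝ) × ((ℕ → Dir d) × (ℕ → ℝ))) => (ec z.2.1 z.1.1 z.1.2, z.2.2) :=
      (measurable_ec.comp (measurable_fst.prodMk (measurable_fst.comp measurable_snd))).prodMk
        (measurable_snd.comp measurable_snd)
    exact (measurable_ff kap).comp h1
  ext s hs
  rw [Measure.map_apply hm1 hs, Measure.map_apply hm2 hs, Measure.prod_apply_symm (hm1 hs),
    Measure.prod_apply_symm (hm2 hs)]
  refine lintegral_congr_ae ?_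
  have hpos : ∀ᵐ y : (ℕ → ℝ) × ((ℕ → Dir d) × (ℕ → ℝ))
      ∂((Measure.infinitePi fun _ : ℕ => expMeasure R).prod Q), ∀ i, 0 ≤ y.1 i :=
    Measure.quasiMeasurePreserving_fst.ae (gaps_pos hR)
  filter_upwards [hpos] with y hy
  obtain ⟨ht0, htm⟩ := mono_tm hy
  have hS : MeasurableSet {c : ℕ → Edge d → ℝ | ff kap c y.2.1 y.2.2 ∈ s} := by
    have h1 : Measurable fun c : ℕ → Edge d → ℝ => ff kap c y.2.1 y.2.2 :=
      (measurable_ff kap).comp (measurable_id.prodMk measurable_const)
    exact h1 hs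
  have hc1 : Measurable fun (w : (Edge d → ℕ → ℝ) × (Edge d → ℕ → ℝ)) (n : ℕ) (e : Edge d) =>
      cond w (tm y.1 n) e := measurable_cond.comp (measurable_id.prodMk measurable_const)
  have hc2 : Measurable fun z : (Edge d → ℝ) × (ℕ → (Edge d → ℝ) × (Edge d → ℝ)) =>
      ec y.1 z.1 z.2 := measurable_ec.comp (measurable_id.prodMk measurable_const)
  have key := congrArg (fun m => m {c : ℕ → Edge d → ℝ | ff kap c y.2.1 y.2.2 ∈ s})
    (hE d q inferInstance mu hmu (tm y.1) ht0 htm)
  have hc2' : Measurable fun (z : (Edge d → ℝ) × (ℕ → (Edge d → ℝ) × (Edge d → ℝ))) (n : ℕ)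
      (e : Edge d) => ech (tm y.1) (z.1 e) (fun k => (z.2 k).1 e) (fun k => (z.2 k).2 e) n := hc2
  simp only at key
  rw [Measure.map_apply hc1 hS, Measure.map_apply hc2' hS] at key
  exact key

/-- rearrangement of the innovations of one step -/
theorem re_law {A B C : Type} [MeasurableSpace A] [MeasurableSpace B] [MeasurableSpace C]
    (μA : Measure A) (μB : Measure B) (μR : Measure ℝ) (μC : Measure C)
    [IsProbabilityMeasure μA] [IsProbabilityMeasure μB] [IsProbabilityMeasure μR]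
    [IsProbabilityMeasure μC] :
    MeasurePreserving (fun z : (A × B) × (ℝ × C) => ((z.2.1, z.1.1), (z.1.2, z.2.2)))
      ((μA.prod μB).prod (μR.prod μC)) ((μR.prod μA).prod (μB.prod μC)) := by
  have h1 := measurePreserving_prodAssoc μA μB (μR.prod μC)
  have h2 := (measurePreserving_prodAssoc μB μR μC).symm
  have h3 : MeasurePreserving (Prod.map Prod.swap id) ((μB.prod μR).prod μC) ((μR.prod μB).prod μC) :=
    (Measure.measurePreserving_swap).prod (MeasurePreserving.id μC)
  have h4 := measurePreserving_prodAssoc μR μB μC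
  have h5 := (MeasurePreserving.id μA).prod ((h4.comp h3).comp h2)
  have h6 := (measurePreserving_prodAssoc μA μR (μB.prod μC)).symm
  have h7 : MeasurePreserving (Prod.map Prod.swap id) ((μA.prod μR).prod (μB.prod μC))
      ((μR.prod μA).prod (μB.prod μC)) :=
    (Measure.measurePreserving_swap).prod (MeasurePreserving.id (μB.prod μC))
  exact ((h7.comp h6).comp h5).comp h1

/-- the innovations of one step from (clocks, values), gap, direction, uniform variable -/
noncomputable def ph (z : ((Edge d → ℝ) × (Edge d → ℝ)) × (ℝ × (Dir d × ℝ))) : Inn d :=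
  (fun e => decide (z.1.1 e < z.2.1), z.1.2, z.2.2.1, z.2.2.2)

/-- the conductances before the ring `n` -/
noncomputable def cs (g : ℕ → ℝ) (w : Edge d → ℝ) (GV : ℕ → (Edge d → ℝ) × (Edge d → ℝ)) :
    ℕ → Edge d → ℝ
  | 0 => w
  | n + 1 => ec g w GV n

theorem ec_eq (g : ℕ → ℝ) (w : Edge d → ℝ) (GV : ℕ → (Edge d → ℝ) × (Edge d → ℝ)) (n : ℕ)
    (e : Edge d) : ec g w GV n e = if (GV n).1 e < g n then (GV n).2 e else cs g w GV n e := by
  cases n with
  | zero =>
    have h : tm g 0 = g 0 := by simp [tm]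
    simp only [ec, ech, h, cs]
  | succ n =>
    have h : tm g (n + 1) - tm g n = g (n + 1) := by
      unfold tm
      rw [Finset.sum_range_succ _ (n + 1)]
      ring
    simp only [ec, ech, h, cs]

theorem upd_ph (w : Edge d → ℝ)
    (y : ℕ → ((Edge d → ℝ) × (Edge d → ℝ)) × (ℝ × (Dir d × ℝ))) (n : ℕ) :
    upd (cs (fun n => (y n).2.1) w (fun n => (y n).1) n) (ph (y n)) =
      ec (fun n => (y n).2.1) w (fun n => (y n).1) n := by
  funext e
  rw [ec_eq]
  simp only [upd, ph, decide_eq_true_eq]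

theorem ec_mem {p : Par} {g : ℕ → ℝ} {w : Edge d → ℝ} {GV : ℕ → (Edge d → ℝ) × (Edge d → ℝ)}
    (hw : ∀ e, w e ∈ Icc p.c p.kap) (hV : ∀ n e, (GV n).2 e ∈ Icc p.c p.kap) (n : ℕ) (e : Edge d) :
    ec g w GV n e ∈ Icc p.c p.kap := by
  induction n with
  | zero =>
    rw [ec_eq]
    split_ifs
    · exact hV _ _
    · exact hw e
  | succ n ih =>
    rw [ec_eq]
    split_ifs
    · exact hV _ _
    · exact ih

theorem chain_eq (p : Par) (w : Edge d → ℝ)
    (y : ℕ → ((Edge d → ℝ) × (Edge d → ℝ)) × (ℝ × (Dir d × ℝ)))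
    (hw : ∀ e, w e ∈ Icc p.c p.kap) (hV : ∀ n e, (y n).1.2 e ∈ Icc p.c p.kap) (n : ℕ) :
    chain p (0, w) (fun n => ph (y n)) n =
      (ff p.kap (ec (fun n => (y n).2.1) w (fun n => (y n).1)) (fun n => (y n).2.2.1)
        (fun n => (y n).2.2.2) n, cs (fun n => (y n).2.1) w (fun n => (y n).1) n) := by
  induction n with
  | zero => rfl
  | succ n ih =>
    have ht : ∀ e, tr p (ec (fun n => (y n).2.1) w (fun n => (y n).1) n e) =
        ec (fun n => (y n).2.1) w (fun n => (y n).1) n e := fun e => by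
      have h := ec_mem (p := p) (g := fun n => (y n).2.1) hw hV n e
      unfold tr
      rw [min_eq_right h.2, max_eq_right h.1]
    rw [chain, ih, step, ff, cs]
    simp only [upd_ph w y n, ht]
    rfl

end SkelDAux

open SkelDAux in
/-- the law of the path of the walk at its rings, dynamical conductances -/
theorem skelD : StmMeas → StmEnv → StmSkelD := by
  intro hM hE d p mu hmu
  obtain ⟨-, hchain, -, -, -, -, hdir, hunif, hqE, hZ, hnu⟩ := hM d p
  have hR : 0 < 2 * p.kap * ZZ d p.lam := by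
    have := p.hc.trans_le p.hk
    positivity
  have hexp : IsProbabilityMeasure (expMeasure (2 * p.kap * ZZ d p.lam)) :=
    isProbabilityMeasure_expMeasure hR
  have hexp2 : IsProbabilityMeasure (expMeasure mu) := isProbabilityMeasure_expMeasure hmu
  obtain ⟨R, hRd⟩ : ∃ R, R = 2 * p.kap * ZZ d p.lam := ⟨_, rfl⟩
  rw [← hRd] at hR hexp
  obtain ⟨EE, hEE⟩ : ∃ EE : Measure (Edge d → ℝ), EE = Measure.infinitePi fun _ : Edge d => expMeasure mu :=
    ⟨_, rfl⟩
  have hEEp : IsProbabilityMeasure EE := by rw [hEE]; infer_instance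
  have hpos : (fun ω : ((Edge d → ℕ → ℝ) × (Edge d → ℕ → ℝ)) × ((ℕ → ℝ) × (ℕ → Dir d) × (ℕ → ℝ)) =>
      pos p.kap (cond ω.1) ω.2.1 ω.2.2.1 ω.2.2.2) =
      fun ω => ff p.kap (fun n e => cond ω.1 (tm ω.2.1 n) e) ω.2.2.1 ω.2.2.2 := by
    funext ω
    exact pos_eq _ _ _ _ _
  have hm1 : Measurable fun ω : ((Edge d → ℕ → ℝ) × (Edge d → ℕ → ℝ)) ×
      ((ℕ → ℝ) × ((ℕ → Dir d) × (ℕ → ℝ))) =>
      ff p.kap (fun n e => cond ω.1 (tm ω.2.1 n) e) ω.2.2.1 ω.2.2.2 := by
    have h1 : Measurable fun ω : ((Edge d → ℕ → ℝ) × (Edge d → ℕ → ℝ)) ×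
        ((ℕ → ℝ) × ((ℕ → Dir d) × (ℕ → ℝ))) =>
        (((fun n e => cond ω.1 (tm ω.2.1 n) e) : ℕ → Edge d → ℝ), ω.2.2) :=
      (measurable_cond.comp (measurable_fst.prodMk (measurable_fst.comp measurable_snd))).prodMk
        (measurable_snd.comp measurable_snd)
    exact (measurable_ff p.kap).comp h1
  have hm2 : Measurable fun z : ((Edge d → ℝ) × (ℕ → (Edge d → ℝ) × (Edge d → ℝ))) ×
      ((ℕ → ℝ) × ((ℕ → Dir d) × (ℕ → ℝ))) =>
      ff p.kap (ec z.2.1 z.1.1 z.1.2) z.2.2.1 z.2.2.2 := by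
    have h1 : Measurable fun z : ((Edge d → ℝ) × (ℕ → (Edge d → ℝ) × (Edge d → ℝ))) ×
        ((ℕ → ℝ) × ((ℕ → Dir d) × (ℕ → ℝ))) => (ec z.2.1 z.1.1 z.1.2, z.2.2) :=
      (measurable_ec.comp (measurable_fst.prodMk (measurable_fst.comp measurable_snd))).prodMk
        (measurable_snd.comp measurable_snd)
    exact (measurable_ff p.kap).comp h1
  refine ⟨?_, by rw [hpos]; exact hm1⟩
  rw [hpos]
  have hleft := left_law (d := d) hE p.kap p.q hmu hR
    ((Measure.infinitePi fun _ : ℕ => dirLaw d p.lam).prod (Measure.infinitePi fun _ : ℕ => unif))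
  have hwl : walkLaw d p.lam p.kap = (Measure.infinitePi fun _ : ℕ => expMeasure R).prod
      ((Measure.infinitePi fun _ : ℕ => dirLaw d p.lam).prod (Measure.infinitePi fun _ : ℕ => unif)) := by
    rw [hRd]
    rfl
  have hqE' : (Measure.infinitePi fun _ : Edge d => p.q) = qE d p := rfl
  rw [hwl, hleft, hqE', ← hEE]
  -- the common space
  obtain ⟨κ, hκ⟩ : ∃ κ : Measure (((Edge d → ℝ) × (Edge d → ℝ)) × (ℝ × (Dir d × ℝ))),
      κ = (EE.prod (qE d p)).prod ((expMeasure R).prod ((dirLaw d p.lam).prod unif)) := ⟨_, rfl⟩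
  have hκp : IsProbabilityMeasure κ := by rw [hκ]; infer_instance
  have mp1 := unzip_mp (EE.prod (qE d p)) ((expMeasure R).prod ((dirLaw d p.lam).prod unif))
  have mp2 := unzip_mp (expMeasure R) ((dirLaw d p.lam).prod unif)
  have mp3 := unzip_mp (dirLaw d p.lam) unif
  have mp4 := (MeasurePreserving.id (Measure.infinitePi fun _ : ℕ => expMeasure R)).prod mp3
  have mp5 := ((MeasurePreserving.id (Measure.infinitePi fun _ : ℕ => EE.prod (qE d p))).prod
    (mp4.comp mp2)).comp mp1
  have mp6 := (MeasurePreserving.id (qE d p)).prod mp5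
  have mp7 := (measurePreserving_prodAssoc (qE d p) (Measure.infinitePi fun _ : ℕ => EE.prod (qE d p))
    ((Measure.infinitePi fun _ : ℕ => expMeasure R).prod
      ((Measure.infinitePi fun _ : ℕ => dirLaw d p.lam).prod (Measure.infinitePi fun _ : ℕ => unif)))).symm
  have mp8 := mp7.comp mp6
  rw [← hκ] at mp8
  rw [← mp8.map_eq, Measure.map_map hm2 mp8.measurable]
  -- the right side
  have hnuM : MeasurePreserving (fun (z : ℝ × (Edge d → ℝ)) (e : Edge d) => decide (z.2 e < z.1))
      ((expMeasure R).prod EE) (nuM d p mu) := by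
    refine ⟨?_, by rw [hEE, hRd]; rfl⟩
    rw [measurable_pi_iff]
    intro e
    have h1 : (fun z : ℝ × (Edge d → ℝ) => decide (z.2 e < z.1)) =
        fun z => if z.2 e < z.1 then true else false := by
      funext z
      by_cases h : z.2 e < z.1 <;> simp [h]
    rw [h1]
    exact Measurable.ite (measurableSet_lt (by fun_prop) (by fun_prop)) measurable_const
      measurable_const
  have hnuMp : IsProbabilityMeasure (nuM d p mu) := by
    rw [← hnuM.map_eq]
    exact Measure.isProbabilityMeasure_map hnuM.measurable.aemeasurable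
  have hph : MeasurePreserving (ph (d := d)) κ (inn p (nuM d p mu)) := by
    rw [hκ]
    exact (hnuM.prod (MeasurePreserving.id ((qE d p).prod ((dirLaw d p.lam).prod unif)))).comp
      (re_law EE (qE d p) (expMeasure R) ((dirLaw d p.lam).prod unif))
  obtain ⟨hinn, hPP, -⟩ := hnu (nuM d p mu) hnuMp
  have hPPm : MeasurePreserving (fun (y : ℕ → ((Edge d → ℝ) × (Edge d → ℝ)) × (ℝ × (Dir d × ℝ))) (n : ℕ) =>
      ph (y n)) (Measure.infinitePi fun _ : ℕ => κ) (PP p (nuM d p mu)) := by
    refine ⟨?_, ?_⟩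
    · rw [measurable_pi_iff]
      exact fun n => hph.measurable.comp (measurable_pi_apply n)
    · rw [Measure.infinitePi_map_pi (μ := fun _ : ℕ => κ) (f := fun _ => ph) (fun _ => hph.measurable)]
      unfold PP
      congr 1
      funext _
      exact hph.map_eq
  have hpthm : Measurable fun z : (Edge d → ℝ) × (ℕ → Inn d) => pth p (0, z.1) z.2 := by
    rw [measurable_pi_iff]
    intro n
    have h1 : Measurable fun z : (Edge d → ℝ) × (ℕ → Inn d) =>
        (((0, z.1), z.2) : State d × (ℕ → Inn d)) :=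
      (measurable_const.prodMk measurable_fst).prodMk measurable_snd
    exact measurable_fst.comp ((hchain n).comp h1)
  have mp9 := (MeasurePreserving.id (qE d p)).prod hPPm
  rw [← mp9.map_eq, Measure.map_map hpthm mp9.measurable]
  refine Measure.map_congr ?_
  have hq : ∀ᵐ w ∂(qE d p), ∀ e, w e ∈ Icc p.c p.kap := by
    rw [ae_all_iff]
    intro e
    have h2 : ∀ᵐ x ∂p.q, x ∈ Icc p.c p.kap := (mem_ae_iff_prob_eq_one measurableSet_Icc).2 p.hs
    exact (measurePreserving_eval_infinitePi (fun _ : Edge d => p.q) e).quasiMeasurePreserving.ae h2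
  have hV : ∀ᵐ y ∂(Measure.infinitePi fun _ : ℕ => κ), ∀ n e, (y n).1.2 e ∈ Icc p.c p.kap := by
    rw [ae_all_iff]
    intro n
    have h4 : ∀ᵐ z ∂κ, ∀ e, z.1.2 e ∈ Icc p.c p.kap := by
      rw [hκ]
      exact Measure.quasiMeasurePreserving_fst.ae (Measure.quasiMeasurePreserving_snd.ae hq)
    exact (measurePreserving_eval_infinitePi (fun _ : ℕ => κ) n).quasiMeasurePreserving.ae h4
  filter_upwards [Measure.quasiMeasurePreserving_fst.ae hq, Measure.quasiMeasurePreserving_snd.ae hV]
    with z hz1 hz2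
  funext n
  exact (congrArg Prod.fst (chain_eq p z.1 z.2 hz1 hz2 n)).symm

end Pool.Agent.N276.SC
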