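import Pool.Agent.N276.SC.Stm

/-!
# The law of the path of the walk at its rings, static conductances
-/

set_option autoImplicit false

open MeasureTheory ProbabilityTheory Filter Topology Set
open scoped ENNReal

namespace Pool.Agent.N276.SC

namespace SkelSAux

variable {d : ℕ}

/-- the law of the sequences of the coordinates of a sequence of independent pairs -/
theorem unzip_law {A B : Type} [MeasurableSpace A] [MeasurableSpace B] (μ : Measure A) (ν : Measure B)
    [IsProbabilityMeasure μ] [IsProbabilityMeasure ν] :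
    (Measure.infinitePi fun _ : ℕ => μ.prod ν).map
      (fun ζ => ((fun n => (ζ n).1 : ℕ → A), (fun n => (ζ n).2 : ℕ → B))) =
    (Measure.infinitePi fun _ : ℕ => μ).prod (Measure.infinitePi fun _ : ℕ => ν) := by
  classical
  symm
  refine Measure.prod_eq_generateFrom (C := squareCylinders fun _ : ℕ => {s : Set A | MeasurableSet s})
    (D := squareCylinders fun _ : ℕ => {s : Set B | MeasurableSet s}) generateFrom_squareCylinders
    generateFrom_squareCylinders
    (isPiSystem_squareCylinders (fun _ => MeasurableSpace.isPiSystem_measurableSet) (by simp))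
    (isPiSystem_squareCylinders (fun _ => MeasurableSpace.isPiSystem_measurableSet) (by simp))
    ⟨fun _ => univ, fun _ => ⟨∅, fun _ => univ, by simp, by simp⟩, fun _ => measure_lt_top _ _, iUnion_const _⟩
    ⟨fun _ => univ, fun _ => ⟨∅, fun _ => univ, by simp, by simp⟩, fun _ => measure_lt_top _ _, iUnion_const _⟩ ?_
  rintro _ ⟨s, t, ht, rfl⟩ _ ⟨s', t', ht', rfl⟩
  have ht1 : ∀ i, MeasurableSet (t i) := fun i => ht i (mem_univ i)
  have ht2 : ∀ i, MeasurableSet (t' i) := fun i => ht' i (mem_univ i)
  rw [Measure.infinitePi_pi _ (fun i _ => ht1 i), Measure.infinitePi_pi _ (fun i _ => ht2 i),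
    Measure.map_apply (by fun_prop) ((MeasurableSet.pi s.countable_toSet fun i _ => ht1 i).prod
      (MeasurableSet.pi s'.countable_toSet fun i _ => ht2 i))]
  have e : (fun ζ : ℕ → A × B => ((fun n => (ζ n).1 : ℕ → A), (fun n => (ζ n).2 : ℕ → B))) ⁻¹'
      ((s : Set ℕ).pi t ×ˢ (s' : Set ℕ).pi t') =
      ((s ∪ s' : Finset ℕ) : Set ℕ).pi fun i => (if i ∈ s then t i else univ) ×ˢ (if i ∈ s' then t' i else univ) := by
    ext ζ
    simp only [mem_preimage, mem_prod, Set.mem_pi, Finset.mem_coe, Finset.mem_union]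
    constructor
    · rintro ⟨h1, h2⟩ i -
      constructor
      · split_ifs with h
        · exact h1 i h
        · trivial
      · split_ifs with h
        · exact h2 i h
        · trivial
    · intro h
      constructor
      · intro i hi
        have := (h i (Or.inl hi)).1
        rwa [if_pos hi] at this
      · intro i hi
        have := (h i (Or.inr hi)).2
        rwa [if_pos hi] at this
  rw [e, Measure.infinitePi_pi _ (fun i _ => MeasurableSet.prod
    (by split_ifs; exacts [ht1 i, MeasurableSet.univ]) (by split_ifs; exacts [ht2 i, MeasurableSet.univ]))]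
  simp_rw [Measure.prod_prod]
  rw [Finset.prod_mul_distrib]
  congr 1
  · rw [← Finset.prod_subset (Finset.subset_union_left (s₁ := s) (s₂ := s'))]
    · exact Finset.prod_congr rfl fun i hi => by rw [if_pos hi]
    · intro i _ hi
      rw [if_neg hi, measure_univ]
  · rw [← Finset.prod_subset (Finset.subset_union_right (s₁ := s) (s₂ := s'))]
    · exact Finset.prod_congr rfl fun i hi => by rw [if_pos hi]
    · intro i _ hi
      rw [if_neg hi, measure_univ]

/-- the path in static conductances -/
noncomputable def sp (kap : ℝ) (w : Edge d → ℝ) (D : ℕ → Dir d) (U : ℕ → ℝ) : ℕ → Site d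
  | 0 => 0
  | n + 1 =>
    if U n < w (edge (sp kap w D U n) (D n)) / (2 * kap) then sp kap w D U n + vec (D n)
    else sp kap w D U n

theorem pos_eq (kap : ℝ) (w : Edge d → ℝ) (g : ℕ → ℝ) (D : ℕ → Dir d) (U : ℕ → ℝ) :
    pos kap (fun _ => w) g D U = sp kap w D U := by
  funext n
  induction n with
  | zero => rfl
  | succ n ih => rw [pos, sp, ih]

theorem measurable_sp (kap : ℝ) :
    Measurable fun z : (Edge d → ℝ) × (ℕ → Dir d) × (ℕ → ℝ) => sp kap z.1 z.2.1 z.2.2 := by
  rw [measurable_pi_iff]
  intro n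
  induction n with
  | zero => exact measurable_const
  | succ n ih =>
    have hD : Measurable fun z : (Edge d → ℝ) × (ℕ → Dir d) × (ℕ → ℝ) => z.2.1 n := by fun_prop
    have hU : Measurable fun z : (Edge d → ℝ) × (ℕ → Dir d) × (ℕ → ℝ) => z.2.2 n := by fun_prop
    have hSD : Measurable fun z : (Edge d → ℝ) × (ℕ → Dir d) × (ℕ → ℝ) => (sp kap z.1 z.2.1 z.2.2 n, z.2.1 n) :=
      ih.prodMk hD
    have hE : Measurable fun z : (Edge d → ℝ) × (ℕ → Dir d) × (ℕ → ℝ) =>
        edge (sp kap z.1 z.2.1 z.2.2 n) (z.2.1 n) :=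
      (measurable_of_countable fun q : Site d × Dir d => edge q.1 q.2).comp hSD
    have hev : Measurable fun q : (Edge d → ℝ) × Edge d => q.1 q.2 :=
      measurable_from_prod_countable_left fun e => measurable_pi_apply e
    have hw : Measurable fun z : (Edge d → ℝ) × (ℕ → Dir d) × (ℕ → ℝ) =>
        z.1 (edge (sp kap z.1 z.2.1 z.2.2 n) (z.2.1 n)) := hev.comp (measurable_fst.prodMk hE)
    have hV : Measurable fun z : (Edge d → ℝ) × (ℕ → Dir d) × (ℕ → ℝ) =>
        sp kap z.1 z.2.1 z.2.2 n + vec (z.2.1 n) :=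
      (measurable_of_countable fun q : Site d × Dir d => q.1 + vec q.2).comp hSD
    exact Measurable.ite (measurableSet_lt hU (hw.div_const _)) hV ih

theorem chain_eq (p : Par) (w : Edge d → ℝ) (ζ : ℕ → Inn d) (h0 : ∀ n, (ζ n).1 = fun _ => false)
    (hw : ∀ e, w e ∈ Icc p.c p.kap) (n : ℕ) :
    chain p (0, w) ζ n = (sp p.kap w (fun n => (ζ n).2.2.1) (fun n => (ζ n).2.2.2) n, w) := by
  induction n with
  | zero => rfl
  | succ n ih =>
    have hu : upd w (ζ n) = w := by
      funext e
      unfold upd
      rw [h0 n]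
      simp
    have ht : ∀ e, tr p (w e) = w e := fun e => by
      unfold tr
      rw [min_eq_right (hw e).2, max_eq_right (hw e).1]
    rw [chain, ih, step, sp]
    simp only [hu, ht]

end SkelSAux

open SkelSAux in
theorem skelS : StmMeas → StmSkelS := by
  intro hM d p
  obtain ⟨-, hchain, -, -, -, -, hdir, hunif, hqE, hZ, hnu⟩ := hM d p
  have hnu0 : IsProbabilityMeasure (nu0 d) := by unfold nu0; infer_instance
  have hst : IsProbabilityMeasure (statLaw d p.q) := hqE
  obtain ⟨hinn, hPP, -⟩ := hnu (nu0 d) hnu0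
  have hexp : IsProbabilityMeasure (expMeasure (2 * p.kap * ZZ d p.lam)) := by
    apply isProbabilityMeasure_expMeasure
    have := p.hc.trans_le p.hk
    positivity
  have hpos : (fun ω : (Edge d → ℝ) × ((ℕ → ℝ) × (ℕ → Dir d) × (ℕ → ℝ)) =>
      pos p.kap (fun _ => ω.1) ω.2.1 ω.2.2.1 ω.2.2.2) =
      (fun z : (Edge d → ℝ) × (ℕ → Dir d) × (ℕ → ℝ) => sp p.kap z.1 z.2.1 z.2.2) ∘
        Prod.map id Prod.snd := by
    funext ω
    exact pos_eq _ _ _ _ _
  have hmp : Measurable (Prod.map id Prod.snd : (Edge d → ℝ) × ((ℕ → ℝ) × (ℕ → Dir d) × (ℕ → ℝ)) →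
      (Edge d → ℝ) × ((ℕ → Dir d) × (ℕ → ℝ))) := measurable_id.prodMap measurable_snd
  refine ⟨?_, ?_⟩
  · have hleft : ((statLaw d p.q).prod (walkLaw d p.lam p.kap)).map
        (fun ω => pos p.kap (fun _ => ω.1) ω.2.1 ω.2.2.1 ω.2.2.2) =
        ((qE d p).prod ((Measure.infinitePi fun _ : ℕ => dirLaw d p.lam).prod
          (Measure.infinitePi fun _ : ℕ => unif))).map (fun z => sp p.kap z.1 z.2.1 z.2.2) := by
      rw [hpos, ← Measure.map_map (measurable_sp _) hmp]
      congr 1
      unfold walkLaw
      rw [← Measure.map_prod_map _ _ measurable_id measurable_snd, Measure.map_id, Measure.map_snd_prod,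
        measure_univ, one_smul]
      rfl
    have hae : (fun z : (Edge d → ℝ) × (ℕ → Inn d) => pth p (0, z.1) z.2) =ᵐ[(qE d p).prod (PP p (nu0 d))]
        fun z => sp p.kap z.1 (fun n => (z.2 n).2.2.1) (fun n => (z.2 n).2.2.2) := by
      have h1 : ∀ᵐ w ∂(qE d p), ∀ e, w e ∈ Icc p.c p.kap := by
        rw [ae_all_iff]
        intro e
        have h2 : ∀ᵐ x ∂p.q, x ∈ Icc p.c p.kap := (mem_ae_iff_prob_eq_one measurableSet_Icc).2 p.hs
        exact (measurePreserving_eval_infinitePi (fun _ : Edge d => p.q) e).quasiMeasurePreserving.ae h2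
      have h3 : ∀ᵐ ζ ∂(PP p (nu0 d)), ∀ n, (ζ n).1 = fun _ => false := by
        rw [ae_all_iff]
        intro n
        have h4 : ∀ᵐ x ∂(nu0 d), x = fun _ => false := by
          unfold nu0
          exact ae_dirac_iff (MeasurableSet.singleton _) |>.2 rfl
        have h5 : ∀ᵐ z ∂(inn p (nu0 d)), z.1 = fun _ => false :=
          Measure.quasiMeasurePreserving_fst.ae h4
        exact (measurePreserving_eval_infinitePi (fun _ : ℕ => inn p (nu0 d)) n).quasiMeasurePreserving.ae h5
      filter_upwards [Measure.quasiMeasurePreserving_fst.ae h1, Measure.quasiMeasurePreserving_snd.ae h3]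
        with z hz1 hz2
      funext n
      unfold pth
      rw [chain_eq p z.1 z.2 hz2 hz1 n]
    have hunzip : (PP p (nu0 d)).map (fun ζ => ((fun n => (ζ n).2.2.1 : ℕ → Dir d), (fun n => (ζ n).2.2.2 : ℕ → ℝ))) =
        (Measure.infinitePi fun _ : ℕ => dirLaw d p.lam).prod (Measure.infinitePi fun _ : ℕ => unif) := by
      have h6 : (inn p (nu0 d)).map (fun z => z.2.2) = (dirLaw d p.lam).prod unif := by
        unfold inn
        have : (fun z : Inn d => z.2.2) = Prod.snd ∘ Prod.snd := rfl
        rw [this, ← Measure.map_map measurable_snd measurable_snd, Measure.map_snd_prod, measure_univ, one_smul,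
          Measure.map_snd_prod, measure_univ, one_smul]
      have h7 : (PP p (nu0 d)).map (fun ζ n => (ζ n).2.2) =
          Measure.infinitePi fun _ : ℕ => (dirLaw d p.lam).prod unif := by
        unfold PP
        rw [Measure.infinitePi_map_pi (μ := fun _ : ℕ => inn p (nu0 d)) (f := fun _ z => z.2.2)
          (fun _ => measurable_snd.comp measurable_snd)]
        congr 1
        funext _
        exact h6
      rw [← unzip_law, ← h7, Measure.map_map (by fun_prop) (by fun_prop)]
      rfl
    have hright : ((qE d p).prod (PP p (nu0 d))).map (fun z => pth p (0, z.1) z.2) =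
        ((qE d p).prod ((Measure.infinitePi fun _ : ℕ => dirLaw d p.lam).prod
          (Measure.infinitePi fun _ : ℕ => unif))).map (fun z => sp p.kap z.1 z.2.1 z.2.2) := by
      rw [Measure.map_congr hae, ← hunzip]
      have h8 : (qE d p).prod ((PP p (nu0 d)).map
          (fun ζ => ((fun n => (ζ n).2.2.1 : ℕ → Dir d), (fun n => (ζ n).2.2.2 : ℕ → ℝ)))) =
          ((qE d p).prod (PP p (nu0 d))).map (Prod.map id
            (fun ζ => ((fun n => (ζ n).2.2.1 : ℕ → Dir d), (fun n => (ζ n).2.2.2 : ℕ → ℝ)))) := by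
        rw [← Measure.map_prod_map _ _ measurable_id (by fun_prop), Measure.map_id]
      rw [h8, Measure.map_map (measurable_sp _) (measurable_id.prodMap (by fun_prop))]
      rfl
    rw [hleft, hright]
  · rw [hpos]
    exact (measurable_sp _).comp hmp

end Pool.Agent.N276.SC
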