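import Pool.Agent.N276.SC.Stm

set_option autoImplicit false

open MeasureTheory ProbabilityTheory Filter Topology Set
open scoped ENNReal

namespace Pool.Agent.N276.SC
namespace SpeedLAux

variable {d : ℕ}

/-- conductances glued from two independent families have the same law -/
lemma map_glue (p : Par) (l : ℤ)
    (hm : Measurable fun z : (Edge d → ℝ) × (Edge d → ℝ) => glue l z.1 z.2) :
    ((qE d p).prod (qE d p)).map (fun z => glue l z.1 z.2) = qE d p := by
  classical
  unfold qE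
  refine Measure.eq_infinitePi _ ?_
  intro s t ht
  rw [Measure.map_apply hm (MeasurableSet.pi s.countable_toSet (fun i _ => ht i))]
  have hset : (fun z : (Edge d → ℝ) × (Edge d → ℝ) => glue l z.1 z.2) ⁻¹' (Set.pi (s : Set (Edge d)) t)
      = (Set.pi ((s.filter fun e => e.1 0 < l : Finset (Edge d)) : Set (Edge d)) t) ×ˢ
        (Set.pi ((s.filter fun e => ¬ e.1 0 < l : Finset (Edge d)) : Set (Edge d)) t) := by
    ext z
    simp only [Set.mem_preimage, Set.mem_pi, Finset.mem_coe, Set.mem_prod, Finset.mem_filter]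
    constructor
    · intro h
      refine ⟨fun e he => ?_, fun e he => ?_⟩
      · have := h e he.1
        simpa only [glue, if_pos he.2] using this
      · have := h e he.1
        simpa only [glue, if_neg he.2] using this
    · intro h e he
      by_cases hl : e.1 0 < l
      · simpa only [glue, if_pos hl] using h.1 e ⟨he, hl⟩
      · simpa only [glue, if_neg hl] using h.2 e ⟨he, hl⟩
  rw [hset, Measure.prod_prod, Measure.infinitePi_pi _ (fun i _ => ht i),
    Measure.infinitePi_pi _ (fun i _ => ht i), Finset.prod_filter_mul_prod_filter_not]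

lemma cc_le (hM : StmMeas) (p : Par) (nu : Measure (Edge d → Bool)) (hnu : IsProbabilityMeasure nu)
    (m : ℕ) :
    cc p nu m ≤
      ∫⁻ z, tau (m : ℤ) (pth p ((0 : Site d), z.1) z.2) ∂((qE d p).prod (PP p nu)) := by
  obtain ⟨-, -, -, -, h5, h6, -, -, h9, -, h11⟩ := hM d p
  obtain ⟨-, hPP, hmt⟩ := h11 nu hnu
  have := h9
  have := hPP
  have h1 : ∀ ξ : Edge d → ℝ,
      cc p nu m ≤ ∫⁻ a, mt p nu (m : ℤ) ((0 : Site d), glue 0 ξ a) ∂(qE d p) := by
    intro ξ
    have h : cc p nu m ≤ TT p nu ((0 : Site d) 0 + m) 0 ξ :=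
      (iInf_le (fun x : Site d => ⨅ ξ : Edge d → ℝ, TT p nu (x 0 + m) x ξ) 0).trans
      (iInf_le (fun ξ : Edge d → ℝ => TT p nu ((0 : Site d) 0 + m) 0 ξ) ξ)
    simpa only [TT, Pi.zero_apply, zero_add] using h
  have h2 : cc p nu m ≤
      ∫⁻ ξ, ∫⁻ a, mt p nu (m : ℤ) ((0 : Site d), glue 0 ξ a) ∂(qE d p) ∂(qE d p) := by
    calc cc p nu m = ∫⁻ _ξ : Edge d → ℝ, cc p nu m ∂(qE d p) := by
          rw [lintegral_const, measure_univ, mul_one]
      _ ≤ _ := lintegral_mono h1
  have hmeas : Measurable fun w : Edge d → ℝ => mt p nu (m : ℤ) ((0 : Site d), w) :=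
    (hmt (m : ℤ)).comp (measurable_const.prodMk measurable_id)
  have h3 : ∫⁻ ξ, ∫⁻ a, mt p nu (m : ℤ) ((0 : Site d), glue 0 ξ a) ∂(qE d p) ∂(qE d p)
      = ∫⁻ w, mt p nu (m : ℤ) ((0 : Site d), w) ∂(qE d p) := by
    conv_rhs => rw [← map_glue p 0 (h6 0)]
    rw [lintegral_map hmeas (h6 0)]
    exact (lintegral_prod (fun z : (Edge d → ℝ) × (Edge d → ℝ) =>
      mt p nu (m : ℤ) ((0 : Site d), glue 0 z.1 z.2)) (hmeas.comp (h6 0)).aemeasurable).symm
  have hmeas2 : Measurable fun z : (Edge d → ℝ) × (ℕ → Inn d) =>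
      tau (m : ℤ) (pth p ((0 : Site d), z.1) z.2) :=
    (h5 (m : ℤ)).comp ((measurable_const.prodMk measurable_fst).prodMk measurable_snd)
  rw [lintegral_prod _ hmeas2.aemeasurable]
  exact h2.trans (le_of_eq h3)

/-- the event that the level `m` is not reached up to time `n` -/
def S (d : ℕ) (p : Par) (m : ℤ) (n : ℕ) : Set ((Edge d → ℝ) × (ℕ → Inn d)) :=
  {z | ∀ k ≤ n, pth p ((0 : Site d), z.1) z.2 k 0 < m}

lemma measS (hM : StmMeas) (p : Par) (m : ℤ) (n : ℕ) : MeasurableSet (S d p m n) := by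
  obtain ⟨-, h2, -⟩ := hM d p
  have hp : ∀ k, Measurable fun z : (Edge d → ℝ) × (ℕ → Inn d) =>
      pth p ((0 : Site d), z.1) z.2 k 0 := by
    intro k
    have h := (h2 k).comp ((measurable_const (a := (0 : Site d))).prodMk
      (measurable_fst (α := Edge d → ℝ) (β := ℕ → Inn d)) |>.prodMk measurable_snd)
    exact (measurable_pi_apply 0).comp (measurable_fst.comp h)
  have : S d p m n = ⋂ k : ℕ, ⋂ (_ : k ≤ n), {z | pth p ((0 : Site d), z.1) z.2 k 0 < m} := by
    ext z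
    simp [S]
  rw [this]
  refine MeasurableSet.iInter fun k => MeasurableSet.iInter fun _ => ?_
  exact (hp k) (measurableSet_Iio (a := m))

lemma lint_tau (hM : StmMeas) (p : Par) (nu : Measure (Edge d → Bool)) (m : ℤ) :
    ∫⁻ z, tau m (pth p ((0 : Site d), z.1) z.2) ∂((qE d p).prod (PP p nu))
      = ∑' n : ℕ, ((qE d p).prod (PP p nu)) (S d p m n) := by
  classical
  unfold tau
  rw [lintegral_tsum]
  · refine tsum_congr fun n => ?_
    rw [← lintegral_indicator_one (measS hM p m n)]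
    refine lintegral_congr fun z => ?_
    by_cases h : ∀ k ≤ n, pth p ((0 : Site d), z.1) z.2 k 0 < m
    · have hz : z ∈ S d p m n := h
      rw [if_pos h, Set.indicator_of_mem hz]
      rfl
    · have hz : z ∉ S d p m n := h
      rw [if_neg h, Set.indicator_of_notMem hz]
  · intro n
    exact (Measurable.ite (measS hM p m n) measurable_const measurable_const).aemeasurable

lemma tsum_ite_lt (M : ℕ) (a : ℝ≥0∞) : ∑' n : ℕ, (if n < M then a else 0) = M * a := by
  rw [tsum_eq_sum (s := Finset.range M)]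
  · rw [Finset.sum_congr rfl (fun n hn => if_pos (Finset.mem_range.1 hn))]
    simp
  · intro n hn
    exact if_neg (fun h => hn (Finset.mem_range.2 h))

lemma mul_cc_le (hSub : StmSub) (p : Par) (nu : Measure (Edge d → Bool))
    (hnu : IsProbabilityMeasure nu) (L k : ℕ) :
    (k : ℝ≥0∞) * cc p nu L ≤ cc p nu (k * L) := by
  induction k with
  | zero => simp
  | succ k ih =>
    calc ((k + 1 : ℕ) : ℝ≥0∞) * cc p nu L = k * cc p nu L + cc p nu L := by
          push_cast; ring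
      _ ≤ cc p nu (k * L) + cc p nu L := add_le_add_left ih _
      _ ≤ cc p nu (k * L + L) := (hSub d p nu hnu (k * L) L).2
      _ = cc p nu ((k + 1) * L) := by rw [add_mul, one_mul]

/-- the level `k * L` is reached before time `k * L / u + 1` with probability tending to one -/
lemma tendsto_S (hM : StmMeas) (p : Par) (nu : Measure (Edge d → Bool))
    (hnu : IsProbabilityMeasure nu) (vd : ℝ) (hv : HasSpeed d p nu vd) (L : ℕ) (hL : 1 ≤ L)
    (u : ℝ) (hu : 0 < u) (huv : u < vd) :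
    Tendsto (fun k : ℕ => ((qE d p).prod (PP p nu)) (S d p ((k * L : ℕ) : ℤ) ⌈((k * L : ℕ) : ℝ) / u⌉₊))
      atTop (𝓝 0) := by
  obtain ⟨-, -, -, -, -, -, -, -, h9, -, h11⟩ := hM d p
  obtain ⟨-, hPP, -⟩ := h11 nu hnu
  have := h9
  have := hPP
  have hL' : (0 : ℝ) < L := by exact_mod_cast hL
  have h := tendsto_measure_of_ae_tendsto_indicator_of_isFiniteMeasure
    (μ := (qE d p).prod (PP p nu)) (A := (∅ : Set ((Edge d → ℝ) × (ℕ → Inn d))))
    (As := fun k : ℕ => S d p ((k * L : ℕ) : ℤ) ⌈((k * L : ℕ) : ℝ) / u⌉₊) atTop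
    MeasurableSet.empty (fun k => measS hM p _ _) ?_
  · simpa using h
  have hM1 : Tendsto (fun k : ℕ => ⌈((k * L : ℕ) : ℝ) / u⌉₊) atTop atTop := by
    rw [← tendsto_natCast_atTop_iff (R := ℝ)]
    refine tendsto_atTop_mono (fun k => Nat.le_ceil _) ?_
    have : (fun k : ℕ => ((k * L : ℕ) : ℝ) / u) = fun k : ℕ => (k : ℝ) * ((L : ℝ) / u) := by
      funext k
      push_cast
      ring
    rw [this]
    exact tendsto_natCast_atTop_atTop.atTop_mul_const (div_pos hL' hu)
  filter_upwards [hv] with z hz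
  have h1 : ∀ᶠ n : ℕ in atTop, u < ((pth p ((0 : Site d), z.1) z.2 n 0 : ℤ) : ℝ) / n :=
    hz.eventually (lt_mem_nhds huv)
  have h2 := (h1.and (eventually_ge_atTop 1))
  filter_upwards [hM1.eventually h2] with k hk
  simp only [Set.mem_empty_iff_false, iff_false]
  intro hS
  obtain ⟨hk1, hk2⟩ := hk
  set n := ⌈((k * L : ℕ) : ℝ) / u⌉₊ with hn
  have hn0 : (0 : ℝ) < n := by exact_mod_cast hk2
  rw [lt_div_iff₀ hn0] at hk1
  have hS' : pth p ((0 : Site d), z.1) z.2 n 0 < ((k * L : ℕ) : ℤ) := hS n le_rfl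
  have hS'' : ((pth p ((0 : Site d), z.1) z.2 n 0 : ℤ) : ℝ) < ((k * L : ℕ) : ℝ) := by
    exact_mod_cast hS'
  have hn1 : ((k * L : ℕ) : ℝ) / u ≤ n := Nat.le_ceil _
  rw [div_le_iff₀ hu] at hn1
  linarith [mul_comm u (n : ℝ)]

/-- geometric tail -/
lemma tail_S (hM : StmMeas) (p : Par) (nu : Measure (Edge d → Bool))
    (hnu : IsProbabilityMeasure nu) (b C ρ : ℝ)
    (hb : ∀ (s : State d) (n : ℕ),
      (PP p nu) {ζ | ((pth p s ζ n 0 : ℤ) : ℝ) ≤ s.1 0 + b * n} ≤ ENNReal.ofReal (C * ρ ^ n))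
    (m : ℤ) (n : ℕ) (hmn : (m : ℝ) ≤ b * n) :
    ((qE d p).prod (PP p nu)) (S d p m n) ≤ ENNReal.ofReal (C * ρ ^ n) := by
  have hmS := measS hM p m n (d := d)
  obtain ⟨-, -, -, -, -, -, -, -, h9, -, h11⟩ := hM d p
  obtain ⟨-, hPP, -⟩ := h11 nu hnu
  have := h9
  have := hPP
  rw [Measure.prod_apply hmS]
  calc ∫⁻ w, (PP p nu) (Prod.mk w ⁻¹' S d p m n) ∂(qE d p)
      ≤ ∫⁻ _w : Edge d → ℝ, ENNReal.ofReal (C * ρ ^ n) ∂(qE d p) := by
        refine lintegral_mono fun w => ?_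
        refine le_trans (measure_mono ?_) (hb ((0 : Site d), w) n)
        intro ζ hζ
        have h1 : pth p ((0 : Site d), w) ζ n 0 < m := hζ n le_rfl
        have h2 : ((pth p ((0 : Site d), w) ζ n 0 : ℤ) : ℝ) < m := by exact_mod_cast h1
        simp only [Set.mem_ofPred_eq, Pi.zero_apply, Int.cast_zero, zero_add]
        exact h2.le.trans hmn
    _ = ENNReal.ofReal (C * ρ ^ n) := by rw [lintegral_const, measure_univ, mul_one]

/-- the main inequality -/
lemma main (hM : StmMeas) (hD : StmDriftC) (hSub : StmSub) (p : Par)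
    (nu : Measure (Edge d → Bool)) (hnu : IsProbabilityMeasure nu) (vd : ℝ)
    (hv : HasSpeed d p nu vd) (L : ℕ) (hL : 1 ≤ L) (u : ℝ) (hu : 0 < u) (huv : u < vd) :
    (cc p nu L).toReal ≤ L / u := by
  obtain ⟨b, C, ρ, hb0, hC0, hρ0, hρ1, hb⟩ := hD d p
  have hmS := fun m n => measS hM p m n (d := d)
  have hlt := fun m => lint_tau hM p nu m
  have htS := tendsto_S hM p nu hnu vd hv L hL u hu huv
  have htail := tail_S hM p nu hnu b C ρ (hb nu hnu)
  have hcc := fun m => cc_le hM p nu hnu m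
  obtain ⟨-, -, -, -, -, -, -, -, h9, -, h11⟩ := hM d p
  obtain ⟨-, hPP, -⟩ := h11 nu hnu
  have := h9
  have := hPP
  set Q := (qE d p).prod (PP p nu) with hQ
  set M1 : ℕ → ℕ := fun k => ⌈((k * L : ℕ) : ℝ) / u⌉₊ with hM1
  set K : ℕ := ⌈(L : ℝ) / b⌉₊ with hK
  have hKb : (L : ℝ) ≤ b * K := by
    have h := Nat.le_ceil ((L : ℝ) / b)
    rw [div_le_iff₀ hb0] at h
    linarith [mul_comm b (K : ℝ)]
  set P : ℕ → ℝ≥0∞ := fun k => Q (S d p ((k * L : ℕ) : ℤ) (M1 k)) with hP
  have hP1 : ∀ k, P k ≤ 1 := fun k => prob_le_one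
  set D : ℝ≥0∞ := ∑' n : ℕ, ENNReal.ofReal (C * ρ ^ n) with hDdef
  have hDfin : D ≠ ∞ := by
    have hs : Summable fun n : ℕ => C * ρ ^ n :=
      (summable_geometric_of_lt_one hρ0.le hρ1).mul_left C
    rw [hDdef, ← ENNReal.ofReal_tsum_of_nonneg (fun n => by positivity) hs]
    exact ENNReal.ofReal_ne_top
  have hterm : ∀ k n : ℕ, Q (S d p ((k * L : ℕ) : ℤ) n) ≤
      (if n < M1 k then (1 : ℝ≥0∞) else 0) + (if n < K * k then P k else 0)
        + ENNReal.ofReal (C * ρ ^ n) := by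
    intro k n
    by_cases h1 : n < M1 k
    · rw [if_pos h1]
      calc Q (S d p ((k * L : ℕ) : ℤ) n) ≤ 1 := prob_le_one
        _ ≤ 1 + (if n < K * k then P k else 0) + ENNReal.ofReal (C * ρ ^ n) := by
          rw [add_assoc]
          exact le_self_add
    · by_cases h2 : n < K * k
      · rw [if_pos h2]
        calc Q (S d p ((k * L : ℕ) : ℤ) n) ≤ P k := by
              refine measure_mono ?_
              intro z hz j hj
              exact hz j (hj.trans (not_lt.1 h1))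
          _ ≤ (if n < M1 k then (1 : ℝ≥0∞) else 0) + P k + ENNReal.ofReal (C * ρ ^ n) := by
              rw [add_right_comm]
              exact le_add_self
      · refine le_trans (htail _ n ?_) le_add_self
        have h3 : ((K * k : ℕ) : ℝ) ≤ n := by exact_mod_cast not_lt.1 h2
        push_cast at h3 ⊢
        calc (k : ℝ) * L ≤ k * (b * K) := mul_le_mul_of_nonneg_left hKb (Nat.cast_nonneg k)
          _ = b * (K * k) := by ring
          _ ≤ b * n := mul_le_mul_of_nonneg_left h3 hb0.le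
  have hsum : ∀ k : ℕ, (k : ℝ≥0∞) * cc p nu L ≤ M1 k + ((K * k : ℕ) : ℝ≥0∞) * P k + D := by
    intro k
    calc (k : ℝ≥0∞) * cc p nu L ≤ cc p nu (k * L) := mul_cc_le hSub p nu hnu L k
      _ ≤ ∑' n : ℕ, Q (S d p ((k * L : ℕ) : ℤ) n) := (hcc (k * L)).trans (le_of_eq (hlt _))
      _ ≤ ∑' n : ℕ, ((if n < M1 k then (1 : ℝ≥0∞) else 0) + (if n < K * k then P k else 0)
          + ENNReal.ofReal (C * ρ ^ n)) := ENNReal.tsum_le_tsum (hterm k)
      _ = M1 k + ((K * k : ℕ) : ℝ≥0∞) * P k + D := by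
          rw [ENNReal.tsum_add, ENNReal.tsum_add, tsum_ite_lt, tsum_ite_lt, mul_one]
  have hreal : ∀ k : ℕ, (k : ℝ) * (cc p nu L).toReal ≤
      M1 k + ((K * k : ℕ) : ℝ) * (P k).toReal + D.toReal := by
    intro k
    have hPk : P k ≠ ∞ := ne_top_of_le_ne_top ENNReal.one_ne_top (hP1 k)
    have hne : ((K * k : ℕ) : ℝ≥0∞) * P k ≠ ∞ := ENNReal.mul_ne_top (ENNReal.natCast_ne_top _) hPk
    have hne2 : (M1 k : ℝ≥0∞) + ((K * k : ℕ) : ℝ≥0∞) * P k ≠ ∞ :=
      ENNReal.add_ne_top.2 ⟨ENNReal.natCast_ne_top _, hne⟩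
    have h := ENNReal.toReal_mono (ENNReal.add_ne_top.2 ⟨hne2, hDfin⟩) (hsum k)
    rw [ENNReal.toReal_mul, ENNReal.toReal_add hne2 hDfin,
      ENNReal.toReal_add (ENNReal.natCast_ne_top _) hne, ENNReal.toReal_mul] at h
    simpa only [ENNReal.toReal_natCast] using h
  have hbound : ∀ k : ℕ, 1 ≤ k → (cc p nu L).toReal ≤
      (L : ℝ) / u + 1 * ((k : ℝ)⁻¹) + K * (P k).toReal + D.toReal * (k : ℝ)⁻¹ := by
    intro k hk
    have hk0 : (0 : ℝ) < k := by exact_mod_cast hk
    have h1 : (M1 k : ℝ) < ((k * L : ℕ) : ℝ) / u + 1 := Nat.ceil_lt_add_one (by positivity)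
    have h2 := hreal k
    push_cast at h1 h2
    have h3 : (cc p nu L).toReal ≤
        (((k : ℝ) * L / u + 1) + K * k * (P k).toReal + D.toReal) / k := by
      rw [le_div_iff₀ hk0]
      linarith [mul_comm (k : ℝ) (cc p nu L).toReal]
    refine h3.trans (le_of_eq ?_)
    field_simp
  have hlim : Tendsto (fun k : ℕ => (L : ℝ) / u + 1 * ((k : ℝ)⁻¹) + K * (P k).toReal
      + D.toReal * (k : ℝ)⁻¹) atTop (𝓝 ((L : ℝ) / u + 1 * 0 + K * 0 + D.toReal * 0)) := by
    have hP0 : Tendsto (fun k => (P k).toReal) atTop (𝓝 0) := by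
      have h := (ENNReal.tendsto_toReal ENNReal.zero_ne_top).comp htS
      rw [ENNReal.toReal_zero] at h
      exact h
    have hi : Tendsto (fun k : ℕ => (k : ℝ)⁻¹) atTop (𝓝 0) := tendsto_inv_atTop_nhds_zero_nat
    exact ((tendsto_const_nhds.add (hi.const_mul 1)).add (hP0.const_mul _)).add (hi.const_mul _)
  have hfinal := ge_of_tendsto hlim ((eventually_ge_atTop 1).mono hbound)
  simpa using hfinal

end SpeedLAux

theorem speedL : StmMeas → StmDriftC → StmTail → StmSub → StmSpeedL := by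
  intro hM hD _ hSub d p nu hnu vd hv hvd L
  rcases Nat.eq_zero_or_pos L with rfl | hL
  · have h := (hSub d p nu hnu 0 0).2
    by_cases htop : cc p nu 0 = ∞
    · rw [htop]
      simp
    · have h0 : (cc p nu 0).toReal + (cc p nu 0).toReal ≤ (cc p nu 0).toReal := by
        rw [← ENNReal.toReal_add htop htop]
        exact ENNReal.toReal_mono htop h
      have h1 : (cc p nu 0).toReal = 0 :=
        le_antisymm (by linarith) ENNReal.toReal_nonneg
      rw [h1]
      simp
  · have hall : ∀ u : ℝ, 0 < u → u < vd → (cc p nu L).toReal * u ≤ L := by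
      intro u hu huv
      have h := SpeedLAux.main hM hD hSub p nu hnu vd hv L hL u hu huv
      rwa [le_div_iff₀ hu] at h
    have hlim : Tendsto (fun u : ℝ => (cc p nu L).toReal * u) (𝓝[<] vd)
        (𝓝 ((cc p nu L).toReal * vd)) :=
      ((continuous_const.mul continuous_id).tendsto vd).mono_left nhdsWithin_le_nhds
    refine le_of_tendsto hlim ?_
    filter_upwards [Ioo_mem_nhdsLT hvd] with u hu
    exact hall u hu.1 hu.2

end Pool.Agent.N276.SC
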