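import Pool.Agent.N276.SC.Stm

/-!
# Lower bound for the speed
-/

set_option autoImplicit false

open MeasureTheory ProbabilityTheory Filter Topology Set
open scoped ENNReal

namespace Pool.Agent.N276.SC

namespace SpeedUAux

variable {d : ℕ}

theorem vec_le (δ : Dir d) : vec δ 0 ≤ 1 := by
  unfold vec
  split_ifs
  · rw [Pi.single_apply]; split_ifs <;> norm_num
  · simp only [Pi.neg_apply, Pi.single_apply]
    split_ifs <;> norm_num

theorem pth_succ_le (p : Par) (s : State d) (ζ : ℕ → Inn d) (n : ℕ) :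
    pth p s ζ (n + 1) 0 ≤ pth p s ζ n 0 + 1 := by
  unfold pth
  simp only [chain, step]
  split_ifs
  · simp only [Pi.add_apply]
    have := vec_le (ζ n).2.2.1
    omega
  · omega

theorem pth_le (p : Par) (w : Edge d → ℝ) (ζ : ℕ → Inn d) (n : ℕ) :
    pth p (0, w) ζ n 0 ≤ n := by
  induction n with
  | zero => simp [pth, chain]
  | succ n ih =>
    have := pth_succ_le p (0, w) ζ n
    push_cast
    omega

theorem tau_ge (y : ℕ → Site d) (m N : ℕ) (h : ∀ n < N, ∀ k ≤ n, y k 0 < m) :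
    (N : ℝ≥0∞) ≤ tau m y := by
  unfold tau
  refine le_trans ?_ (ENNReal.sum_le_tsum (Finset.range N))
  refine le_of_eq ?_
  rw [Finset.sum_congr rfl (g := fun _ => (1:ℝ≥0∞))
    (fun n hn => if_pos (h n (Finset.mem_range.mp hn)))]
  simp

theorem path (y : ℕ → Site d) (v u : ℝ) (hu : 0 < u) (hvu : v < u) (hy : ∀ n, y n 0 ≤ n)
    (hlim : Tendsto (fun n : ℕ => ((y n 0 : ℤ) : ℝ) / n) atTop (𝓝 v)) :
    ∀ᶠ m : ℕ in atTop, ENNReal.ofReal (m / u) ≤ tau m y := by
  have h1 : ∀ᶠ n : ℕ in atTop, ((y n 0 : ℤ) : ℝ) / n < u := hlim.eventually_lt_const hvu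
  obtain ⟨n0, hn0⟩ := eventually_atTop.mp h1
  filter_upwards [eventually_ge_atTop (n0 + 1)] with m hm
  refine le_trans ?_ (tau_ge y m ⌈(m:ℝ)/u⌉₊ ?_)
  · rw [← ENNReal.ofReal_natCast]
    exact ENNReal.ofReal_le_ofReal (Nat.le_ceil _)
  · intro n hn k hk
    have hn' : (n:ℝ) < m / u := Nat.lt_ceil.mp hn
    rcases lt_or_ge k (n0+1) with hk' | hk'
    · have := hy k
      omega
    · have h2 := hn0 k (by omega)
      have hk0 : 0 < k := by omega
      have hkpos : (0:ℝ) < k := by exact_mod_cast hk0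
      rw [div_lt_iff₀ hkpos] at h2
      have h3 : (k:ℝ) ≤ n := by exact_mod_cast hk
      rw [lt_div_iff₀ hu] at hn'
      have h5 : ((y k 0 : ℤ) : ℝ) < m := by nlinarith
      exact_mod_cast h5

theorem glue_law (p : Par) (hm : Measurable fun z : (Edge d → ℝ) × (Edge d → ℝ) => glue 0 z.1 z.2) :
    ((qE d p).prod (qE d p)).map (fun z => glue 0 z.1 z.2) = qE d p := by
  classical
  unfold qE
  apply Measure.eq_infinitePi
  intro s t ht
  rw [Measure.map_apply hm (MeasurableSet.pi s.countable_toSet fun i _ => ht i)]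
  have hset : (fun z : (Edge d → ℝ) × (Edge d → ℝ) => glue 0 z.1 z.2) ⁻¹' (Set.pi (s : Set (Edge d)) t)
      = (Set.pi ((s.filter fun e => e.1 0 < 0 : Finset (Edge d)) : Set (Edge d)) t) ×ˢ
        (Set.pi ((s.filter fun e => ¬ e.1 0 < 0 : Finset (Edge d)) : Set (Edge d)) t) := by
    ext z
    simp only [Set.mem_preimage, Set.mem_pi, Finset.mem_coe, Set.mem_prod, Finset.mem_filter]
    constructor
    · intro h
      refine ⟨fun e he => ?_, fun e he => ?_⟩
      · have := h e he.1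
        simpa only [glue, if_pos he.2] using this
      · have := h e he.1
        simpa only [glue, if_neg he.2] using this
    · rintro ⟨h1, h2⟩ e he
      by_cases h0 : e.1 0 < 0
      · have := h1 e ⟨he, h0⟩
        simpa only [glue, if_pos h0] using this
      · have := h2 e ⟨he, h0⟩
        simpa only [glue, if_neg h0] using this
  rw [hset, Measure.prod_prod, Measure.infinitePi_pi _ (fun i _ => ht i),
    Measure.infinitePi_pi _ (fun i _ => ht i)]
  exact Finset.prod_filter_mul_prod_filter_not s _ _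

theorem mean_le (hM : StmMeas) (p : Par) (nu : Measure (Edge d → Bool)) [IsProbabilityMeasure nu]
    (m : ℕ) :
    ∫⁻ z, tau m (pth p (0, z.1) z.2) ∂((qE d p).prod (PP p nu)) ≤ bb p nu m := by
  obtain ⟨-, -, -, -, htau, hglue, -, -, hq, -, hnu⟩ := hM d p
  obtain ⟨-, hPP, hmt⟩ := hnu nu inferInstance
  have h1 : Measurable fun z : (Edge d → ℝ) × (ℕ → Inn d) => tau (m:ℤ) (pth p (0, z.1) z.2) :=
    (htau m).comp (f := fun z : (Edge d → ℝ) × (ℕ → Inn d) => (((0 : Site d), z.1), z.2))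
      (by fun_prop)
  rw [lintegral_prod _ h1.aemeasurable]
  have h2 : Measurable fun w : Edge d → ℝ => mt p nu m ((0 : Site d), w) :=
    (hmt m).comp (f := fun w : Edge d → ℝ => ((0 : Site d), w)) (by fun_prop)
  change ∫⁻ w, mt p nu m ((0 : Site d), w) ∂(qE d p) ≤ _
  have h3 : ∫⁻ w, mt p nu m ((0 : Site d), w) ∂(qE d p) =
      ∫⁻ ξ, ∫⁻ a, mt p nu m ((0 : Site d), glue 0 ξ a) ∂(qE d p) ∂(qE d p) := by
    conv_lhs => rw [← glue_law p (hglue 0)]
    rw [lintegral_map h2 (hglue 0)]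
    have h6 : Measurable (fun z : (Edge d → ℝ) × (Edge d → ℝ) =>
        mt p nu m ((0 : Site d), glue 0 z.1 z.2)) := h2.comp (hglue 0)
    rw [lintegral_prod _ h6.aemeasurable]
  rw [h3]
  calc ∫⁻ ξ, ∫⁻ a, mt p nu m ((0 : Site d), glue 0 ξ a) ∂(qE d p) ∂(qE d p)
      ≤ ∫⁻ _, bb p nu m ∂(qE d p) := by
        refine lintegral_mono fun ξ => ?_
        have h4 : TT p nu (((0 : Site d) 0) + (m:ℕ)) (0 : Site d) ξ ≤ bb p nu m :=
          le_iSup₂ (f := fun (x : Site d) (ξ : Edge d → ℝ) => TT p nu (x 0 + (m:ℕ)) x ξ)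
            (0 : Site d) ξ
        have h5 : (((0 : Site d) 0) + (m:ℕ) : ℤ) = m := by simp
        rw [h5] at h4
        exact h4
    _ = bb p nu m := by simp

theorem bb_lt_top (hT : StmTail) (p : Par) (hq : IsProbabilityMeasure (qE d p))
    (nu : Measure (Edge d → Bool))
    [IsProbabilityMeasure nu] (L : ℕ) : bb p nu L < ∞ := by
  obtain ⟨C, hC, h⟩ := hT d p
  refine lt_of_le_of_lt (b := ENNReal.ofReal (C * (L + 1))) ?_ ENNReal.ofReal_lt_top
  unfold bb
  refine iSup₂_le fun x ξ => ?_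
  unfold TT
  calc _ ≤ ∫⁻ _ : Edge d → ℝ, ENNReal.ofReal (C * (L + 1)) ∂(qE d p) :=
        lintegral_mono fun a => h nu inferInstance (x, glue (x 0) ξ a) L
    _ = _ := by simp

theorem bb_mul (hS : StmSub) (p : Par) (nu : Measure (Edge d → Bool))
    [IsProbabilityMeasure nu] (L k : ℕ) : bb p nu ((k + 1) * L) ≤ (k + 1 : ℕ) * bb p nu L := by
  induction k with
  | zero => simp
  | succ k ih =>
    have h1 := (hS d p nu inferInstance ((k + 1) * L) L).1
    have h2 : (k + 1 + 1) * L = (k + 1) * L + L := by ring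
    rw [h2]
    calc _ ≤ bb p nu ((k + 1) * L) + bb p nu L := h1
      _ ≤ (k + 1 : ℕ) * bb p nu L + bb p nu L := by gcongr
      _ = _ := by push_cast; ring

theorem key (hM : StmMeas) (hS : StmSub) (p : Par)
    (nu : Measure (Edge d → Bool)) [IsProbabilityMeasure nu] (vd u : ℝ) (hu : 0 < u)
    (hvu : vd < u) (hv : HasSpeed d p nu vd) (L : ℕ) (hL : 1 ≤ L) :
    ENNReal.ofReal (L / u) ≤ bb p nu L := by
  obtain ⟨-, -, -, -, htau, hglue, -, -, hq, -, hnu⟩ := hM d p
  obtain ⟨-, hPP, hmt⟩ := hnu nu inferInstance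
  set Q := (qE d p).prod (PP p nu) with hQ
  have hmeas : ∀ m : ℕ, Measurable fun z : (Edge d → ℝ) × (ℕ → Inn d) =>
      tau (m:ℤ) (pth p (0, z.1) z.2) := fun m =>
    (htau m).comp (f := fun z : (Edge d → ℝ) × (ℕ → Inn d) => (((0 : Site d), z.1), z.2))
      (by fun_prop)
  let F : ℕ → (Edge d → ℝ) × (ℕ → Inn d) → ℝ≥0∞ := fun k z =>
    tau (((k + 1) * L : ℕ) : ℤ) (pth p (0, z.1) z.2) / ((k + 1 : ℕ) : ℝ≥0∞)
  have hF : ∀ k, Measurable (F k) := fun k => (hmeas ((k + 1) * L)).div_const _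
  have h1 : ∀ᵐ z ∂Q, ENNReal.ofReal (L / u) ≤ liminf (fun k => F k z) atTop := by
    filter_upwards [hv] with z hz
    have h2 := path (fun n => pth p (0, z.1) z.2 n) vd u hu hvu (fun n => pth_le p z.1 z.2 n) hz
    refine le_liminf_of_le (by isBoundedDefault) ?_
    have h3 : Tendsto (fun k : ℕ => (k + 1) * L) atTop atTop := by
      refine tendsto_atTop_mono (fun k => ?_) tendsto_id
      show k ≤ (k + 1) * L
      nlinarith
    filter_upwards [h3.eventually h2] with k hk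
    show ENNReal.ofReal (L / u) ≤ tau (((k + 1) * L : ℕ) : ℤ) (pth p (0, z.1) z.2) / ((k + 1 : ℕ) : ℝ≥0∞)
    rw [ENNReal.le_div_iff_mul_le (Or.inl (by simp)) (Or.inl (by simp))]
    refine le_trans (le_of_eq ?_) hk
    rw [← ENNReal.ofReal_natCast, ← ENNReal.ofReal_mul (by positivity)]
    congr 1
    push_cast
    ring
  calc ENNReal.ofReal (L / u) = ∫⁻ _, ENNReal.ofReal (L / u) ∂Q := by simp [hQ]
    _ ≤ ∫⁻ z, liminf (fun k => F k z) atTop ∂Q := lintegral_mono_ae h1
    _ ≤ liminf (fun k => ∫⁻ z, F k z ∂Q) atTop := lintegral_liminf_le hF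
    _ ≤ liminf (fun _ : ℕ => bb p nu L) atTop := by
      refine liminf_le_liminf (Eventually.of_forall fun k => ?_)
      show ∫⁻ z, tau (((k + 1) * L : ℕ) : ℤ) (pth p (0, z.1) z.2) / ((k + 1 : ℕ) : ℝ≥0∞) ∂Q ≤ _
      simp only [div_eq_mul_inv]
      rw [lintegral_mul_const _ (hmeas _)]
      rw [← div_eq_mul_inv]
      refine ENNReal.div_le_of_le_mul ?_
      calc _ ≤ bb p nu ((k + 1) * L) := mean_le hM p nu _
        _ ≤ (k + 1 : ℕ) * bb p nu L := bb_mul hS p nu L k
        _ = _ := mul_comm _ _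
    _ = bb p nu L := by simp

end SpeedUAux

open SpeedUAux in
theorem speedU : StmMeas → StmTail → StmSub → StmSpeedU := by
  intro hM hT hS d p nu hnu vd hv
  obtain ⟨-, -, -, -, -, -, -, -, hq, -, -⟩ := hM d p
  have hB : ∀ L : ℕ, bb p nu L < ∞ := fun L => bb_lt_top hT p hq nu L
  have hk : ∀ u : ℝ, 0 < u → vd < u → ∀ L : ℕ, 1 ≤ L → (L : ℝ) ≤ (bb p nu L).toReal * u := by
    intro u hu hvu L hL
    have h1 := key hM hS p nu vd u hu hvu hv L hL
    have h2 := (ENNReal.ofReal_le_iff_le_toReal (hB L).ne).mp h1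
    rwa [div_le_iff₀ hu] at h2
  have hpos : 0 < vd := by
    by_contra hcon
    push Not at hcon
    set B := (bb p nu 1).toReal with hBdef
    have hB0 : 0 ≤ B := ENNReal.toReal_nonneg
    have hu : (0:ℝ) < 1 / (2 * (B + 1)) := by positivity
    have h1 := hk (1 / (2 * (B + 1))) hu (lt_of_le_of_lt hcon hu) 1 le_rfl
    rw [mul_one_div, le_div_iff₀ (by positivity)] at h1
    push_cast at h1
    linarith
  refine ⟨hpos, fun L => ?_⟩
  rcases Nat.eq_zero_or_pos L with hL | hL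
  · subst hL
    push_cast
    exact mul_nonneg ENNReal.toReal_nonneg hpos.le
  · have h1 : Tendsto (fun u : ℝ => (bb p nu L).toReal * u) (𝓝[>] vd)
        (𝓝 ((bb p nu L).toReal * vd)) :=
      ((continuous_const.mul continuous_id).tendsto vd).mono_left nhdsWithin_le_nhds
    refine ge_of_tendsto h1 ?_
    filter_upwards [self_mem_nhdsWithin] with u hu
    exact hk u (lt_trans hpos hu) hu L hL

end Pool.Agent.N276.SC
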