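import Pool.Agent.N276.SC.Stm

/-!
# Decomposition at a hitting time
-/

set_option autoImplicit false

open MeasureTheory ProbabilityTheory Filter Topology Set
open scoped ENNReal

namespace Pool.Agent.N276.SC

namespace SplitAux

variable {d : ℕ}

theorem chain_shift (p : Par) (s : State d) (ζ : ℕ → Inn d) (n i : ℕ) :
    chain p (chain p s ζ n) (fun k => ζ (n + k)) i = chain p s ζ (n + i) := by
  induction i with
  | zero => rfl
  | succ i ih =>
    show step p (chain p (chain p s ζ n) (fun k => ζ (n + k)) i) (ζ (n + i)) =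
      step p (chain p s ζ (n + i)) (ζ (n + i))
    rw [ih]

theorem vec_le (δ : Dir d) : vec δ 0 ≤ 1 := by
  have h1 : (Pi.single δ.1 (1 : ℤ) : Site d) 0 = 0 ∨ (Pi.single δ.1 (1 : ℤ) : Site d) 0 = 1 := by
    by_cases h : δ.1 = 0
    · right
      rw [h, Pi.single_eq_same]
    · left
      rw [Pi.single_eq_of_ne (Ne.symm h)]
  unfold vec
  split_ifs
  · rcases h1 with h | h
    · rw [h]; norm_num
    · rw [h]
  · rw [Pi.neg_apply]
    rcases h1 with h | h
    · rw [h]; norm_num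
    · rw [h]; norm_num

theorem pth_succ_le (p : Par) (s : State d) (ζ : ℕ → Inn d) (n : ℕ) :
    pth p s ζ (n + 1) 0 ≤ pth p s ζ n 0 + 1 := by
  show (step p (chain p s ζ n) (ζ n)).1 0 ≤ (chain p s ζ n).1 0 + 1
  unfold step
  dsimp only
  split_ifs
  · have h := vec_le (ζ n).2.2.1
    show (chain p s ζ n).1 0 + vec (ζ n).2.2.1 0 ≤ _
    linarith
  · linarith

theorem tau_split (l₁ l₂ : ℤ) (hl : l₁ ≤ l₂) (y : ℕ → Site d) (N : ℕ)
    (hN : ∀ k < N, y k 0 < l₁) : tau l₂ y = N + tau l₂ (fun i => y (N + i)) := by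
  classical
  unfold tau
  rw [← Summable.sum_add_tsum_nat_add' (k := N) ENNReal.summable]
  congr 1
  · rw [Finset.sum_congr rfl (g := fun _ => (1 : ℝ≥0∞)) (by
      intro n hn
      rw [Finset.mem_range] at hn
      rw [if_pos]
      intro k hk
      exact lt_of_lt_of_le (hN k (by omega)) hl)]
    simp
  · refine tsum_congr fun i => ?_
    have h : (∀ k ≤ i + N, y k 0 < l₂) ↔ ∀ k ≤ i, y (N + k) 0 < l₂ := by
      constructor
      · intro h1 k hk
        exact h1 _ (by omega)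
      · intro h1 k hk
        by_cases hkN : k < N
        · exact lt_of_lt_of_le (hN k hkN) hl
        · have h2 := h1 (k - N) (by omega)
          rwa [show N + (k - N) = k by omega] at h2
    exact if_congr h rfl rfl

theorem tau_zero (l : ℤ) (y : ℕ → Site d) (h : l ≤ y 0 0) : tau l y = 0 := by
  unfold tau
  rw [ENNReal.tsum_eq_zero]
  intro n
  rw [if_neg]
  intro h1
  exact absurd (h1 0 (Nat.zero_le n)) (not_lt.2 h)

theorem tau_top (l : ℤ) (y : ℕ → Site d) (h : ∀ n, y n 0 < l) : tau l y = ∞ := by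
  unfold tau
  have h1 : ∀ n : ℕ, (∀ k ≤ n, y k 0 < l) := fun n k _ => h k
  rw [tsum_congr fun n => if_pos (h1 n)]
  exact ENNReal.tsum_const_eq_top_of_ne_zero one_ne_zero

/-- extension of a finite history -/
def ext (n : ℕ) (h : Fin n → Site d × Dir d) (u : Site d) : ℕ → Site d × Dir d :=
  fun i => if hi : i < n then h ⟨i, hi⟩ else (u, (0, true))

open Classical in
/-- the indicator function of the event `B` if the level `l₁` is hit at time `n` in `u` -/
noncomputable def gg (l₁ : ℤ) (B : (ℕ → Site d × Dir d) → Prop) (n : ℕ) (u : Site d)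
    (h : Fin n → Site d × Dir d) : ℝ≥0∞ :=
  if u 0 = l₁ ∧ (∀ k, (h k).1 0 < l₁) ∧ B (ext n h u) then 1 else 0

open Classical in
/-- the indicator function of a site -/
noncomputable def ei (u v : Site d) : ℝ≥0∞ := if v = u then 1 else 0

theorem ei_self (u : Site d) : ei u u = 1 := if_pos rfl

theorem ei_ne {u v : Site d} (h : v ≠ u) : ei u v = 0 := if_neg h

open Classical in
theorem point {l₁ : ℤ} {B : (ℕ → Site d × Dir d) → Prop} (hB : Det l₁ B) (p : Par) (s : State d)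
    (ζ : ℕ → Inn d) (hs : s.1 0 ≤ l₁) (hit : ∃ n, l₁ ≤ pth p s ζ n 0) :
    ∃ N : ℕ, (∀ k < N, pth p s ζ k 0 < l₁) ∧ pth p s ζ N 0 = l₁ ∧ ∀ K : ℕ → ℝ≥0∞,
      ∑' n : ℕ, ∑' u : Site d, gg l₁ B n u (fun k => hist p s ζ k) *
        (ei u (chain p s ζ n).1 * K n) = if B (hist p s ζ) then K N else 0 := by
  obtain ⟨N, hN⟩ : ∃ N, N = Nat.find hit := ⟨_, rfl⟩
  have h1 : ∀ k < N, pth p s ζ k 0 < l₁ := by
    intro k hk
    rw [hN] at hk
    exact not_le.1 (Nat.find_min hit hk)
  have h2 : l₁ ≤ pth p s ζ N 0 := by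
    rw [hN]
    exact Nat.find_spec hit
  have h3 : pth p s ζ N 0 ≤ l₁ := by
    rcases N with _ | m
    · exact hs
    · have h4 := pth_succ_le p s ζ m
      have h5 := h1 m (Nat.lt_succ_self m)
      omega
  have h4 : pth p s ζ N 0 = l₁ := le_antisymm h3 h2
  refine ⟨N, h1, h4, fun K => ?_⟩
  have h5 : ∀ n : ℕ, ∑' u : Site d, gg l₁ B n u (fun k => hist p s ζ k) *
      (ei u (chain p s ζ n).1 * K n) =
      gg l₁ B n (pth p s ζ n) (fun k => hist p s ζ k) * K n := by
    intro n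
    rw [tsum_eq_single (chain p s ζ n).1 (fun u hu => by
      rw [ei_ne (Ne.symm hu), zero_mul, mul_zero]), ei_self, one_mul]
    rfl
  rw [tsum_congr h5, tsum_eq_single N]
  · have h6 : B (ext N (fun k => hist p s ζ k) (pth p s ζ N)) ↔ B (hist p s ζ) := by
      have h7 : ∀ k < N, ext N (fun k => hist p s ζ k) (pth p s ζ N) k = hist p s ζ k := by
        intro k hk
        unfold ext
        rw [dif_pos hk]
      have h8 : (ext N (fun k => hist p s ζ k) (pth p s ζ N) N).1 = pth p s ζ N := by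
        unfold ext
        rw [dif_neg (lt_irrefl N)]
      refine hB _ _ N h7 h8 ?_ ?_
      · intro k hk
        rw [h7 k hk]
        exact h1 k hk
      · rw [h8]
        exact h2
    unfold gg
    by_cases h7 : B (hist p s ζ)
    · rw [if_pos h7, if_pos ⟨h4, fun k => h1 k k.2, h6.2 h7⟩, one_mul]
    · rw [if_neg h7, if_neg (fun h8 => h7 (h6.1 h8.2.2)), zero_mul]
  · intro n hn
    unfold gg
    rw [if_neg, zero_mul]
    rintro ⟨h6, h7, -⟩
    rcases lt_or_gt_of_ne hn with h8 | h8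
    · have := h1 n h8
      omega
    · have h9 : pth p s ζ N 0 < l₁ := h7 ⟨N, h8⟩
      omega

/-- the start -/
def st (x : Site d) (ξ a : Edge d → ℝ) : State d := (x, glue (x 0) ξ a)

/-- the term of the decomposition -/
noncomputable def ph (p : Par) (x : Site d) (ξ : Edge d → ℝ) (l₁ : ℤ)
    (B : (ℕ → Site d × Dir d) → Prop) (n : ℕ) (u : Site d) (K : State d × (ℕ → Inn d) → ℝ≥0∞)
    (z : (Edge d → ℝ) × (ℕ → Inn d)) : ℝ≥0∞ :=
  gg l₁ B n u (fun k => hist p (st x ξ z.1) z.2 k) *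
    (ei u (chain p (st x ξ z.1) z.2 n).1 *
      K (chain p (st x ξ z.1) z.2 n, fun k => z.2 (n + k)))

theorem meas_start (hM : StmMeas) (p : Par) (x : Site d) (ξ : Edge d → ℝ) :
    Measurable fun z : (Edge d → ℝ) × (ℕ → Inn d) => (st x ξ z.1, z.2) := by
  obtain ⟨-, -, -, -, -, h6, -⟩ := hM d p
  have h7a : Measurable fun z : (Edge d → ℝ) × (ℕ → Inn d) =>
      ((ξ, z.1) : (Edge d → ℝ) × (Edge d → ℝ)) := measurable_const.prodMk measurable_fst
  have h7 := (h6 (x 0)).comp h7a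
  have hx : Measurable fun _ : (Edge d → ℝ) × (ℕ → Inn d) => x := measurable_const
  have h8 := hx.prodMk h7
  have h9 : Measurable fun z : (Edge d → ℝ) × (ℕ → Inn d) => z.2 := measurable_snd
  exact h8.prodMk h9

theorem meas_ph (hM : StmMeas) (p : Par) (x : Site d) (ξ : Edge d → ℝ) (l₁ : ℤ)
    (B : (ℕ → Site d × Dir d) → Prop) (n : ℕ) (u : Site d) (K : State d × (ℕ → Inn d) → ℝ≥0∞)
    (hK : Measurable K) : Measurable (ph p x ξ l₁ B n u K) := by
  obtain ⟨-, h2, h3, -⟩ := hM d p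
  have h0 := meas_start hM p x ξ
  have h4' := (h2 n).comp h0
  have h4 : Measurable fun z : (Edge d → ℝ) × (ℕ → Inn d) => chain p (st x ξ z.1) z.2 n := h4'
  have h5' : ∀ k : Fin n, Measurable fun z : (Edge d → ℝ) × (ℕ → Inn d) =>
      hist p (st x ξ z.1) z.2 k := fun k => by
    have h := (h3 k).comp h0
    exact h
  have h5 : Measurable fun z : (Edge d → ℝ) × (ℕ → Inn d) =>
      (fun k : Fin n => hist p (st x ξ z.1) z.2 k) := measurable_pi_lambda _ h5'
  have h6 : Measurable (gg l₁ B n u) := Measurable.of_discrete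
  have h7' : ∀ k : ℕ, Measurable fun z : (Edge d → ℝ) × (ℕ → Inn d) => z.2 (n + k) := fun k => by
    have h9 : Measurable fun z : ℕ → Inn d => z (n + k) := measurable_pi_apply (n + k)
    have h10 : Measurable fun z : (Edge d → ℝ) × (ℕ → Inn d) => z.2 := measurable_snd
    have h := h9.comp h10
    exact h
  have h7 : Measurable fun z : (Edge d → ℝ) × (ℕ → Inn d) => (fun k => z.2 (n + k) : ℕ → Inn d) :=
    measurable_pi_lambda _ h7'
  have h8 : Measurable (ei u) := Measurable.of_discrete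
  have m1 := h6.comp h5
  have m2' : Measurable fun z : (Edge d → ℝ) × (ℕ → Inn d) => (chain p (st x ξ z.1) z.2 n).1 :=
    h4.fst
  have m2 := h8.comp m2'
  have m3' := h4.prodMk h7
  have m3 := hK.comp m3'
  have m4 := m1.mul (m2.mul m3)
  exact m4

theorem hit_ae (hM : StmMeas) (hT : StmTail) (p : Par) (nu : Measure (Edge d → Bool))
    (hnu : IsProbabilityMeasure nu) (s : State d) (j : ℕ) :
    ∀ᵐ ζ ∂(PP p nu), ∃ n, s.1 0 + j ≤ pth p s ζ n 0 := by
  obtain ⟨C, -, hC⟩ := hT d p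
  have h1 := hC nu hnu s j
  obtain ⟨-, -, -, -, h5, -⟩ := hM d p
  have h2' := (h5 (s.1 0 + j)).comp (measurable_prodMk_left (x := s))
  have h2 : Measurable fun ζ : ℕ → Inn d => tau (s.1 0 + j) (pth p s ζ) := h2'
  have h3 : ∫⁻ ζ, tau (s.1 0 + j) (pth p s ζ) ∂(PP p nu) ≠ ∞ :=
    ne_top_of_le_ne_top ENNReal.ofReal_ne_top h1
  have h4 := ae_lt_top h2 h3
  refine h4.mono fun ζ hζ => ?_
  by_contra hcon
  have h6 : ∀ n, pth p s ζ n 0 < s.1 0 + j := fun n => not_le.1 fun h7 => hcon ⟨n, h7⟩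
  rw [tau_top _ _ h6] at hζ
  exact lt_irrefl _ hζ

open Classical in
theorem dec (hM : StmMeas) (hT : StmTail) (p : Par) (nu : Measure (Edge d → Bool))
    (hnu : IsProbabilityMeasure nu) (x : Site d) (ξ : Edge d → ℝ) (j : ℕ)
    (B : (ℕ → Site d × Dir d) → Prop) (hB : Det (x 0 + j) B)
    (R : State d → (ℕ → Inn d) → ℝ≥0∞) (K : ℕ → State d × (ℕ → Inn d) → ℝ≥0∞)
    (hK : ∀ n, Measurable (K n))
    (hRK : ∀ s ζ N, (∀ k < N, pth p s ζ k 0 < x 0 + j) → pth p s ζ N 0 = x 0 + j →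
      R s ζ = K N (chain p s ζ N, fun k => ζ (N + k))) :
    ∫⁻ a, ∫⁻ ζ, (if B (hist p (st x ξ a) ζ) then R (st x ξ a) ζ else 0)
      ∂(PP p nu) ∂(qE d p) =
    ∑' n : ℕ, ∑' u : Site d, ∫⁻ a, ∫⁻ ζ, ph p x ξ (x 0 + j) B n u (K n) (a, ζ)
      ∂(PP p nu) ∂(qE d p) := by
  obtain ⟨-, -, -, -, -, -, -, -, -, -, h11⟩ := hM d p
  obtain ⟨-, hPP, -⟩ := h11 nu hnu
  have hm : ∀ (n : ℕ) (u : Site d), Measurable (ph p x ξ (x 0 + j) B n u (K n)) :=
    fun n u => meas_ph hM p x ξ (x 0 + j) B n u (K n) (hK n)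
  have hm1 : ∀ (a : Edge d → ℝ) (n : ℕ) (u : Site d), Measurable fun ζ : ℕ → Inn d =>
      ph p x ξ (x 0 + j) B n u (K n) (a, ζ) := fun a n u => by
    have h := (hm n u).comp (measurable_prodMk_left (x := a))
    exact h
  have hm2 : ∀ (n : ℕ) (u : Site d), Measurable fun a : Edge d → ℝ => ∫⁻ ζ,
      ph p x ξ (x 0 + j) B n u (K n) (a, ζ) ∂(PP p nu) := fun n u => by
    have h := (hm n u).lintegral_prod_right' (ν := PP p nu)
    exact h
  have h1 : ∀ a : Edge d → ℝ,
      ∫⁻ ζ, (if B (hist p (st x ξ a) ζ) then R (st x ξ a) ζ else 0) ∂(PP p nu) =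
      ∑' n : ℕ, ∑' u : Site d, ∫⁻ ζ, ph p x ξ (x 0 + j) B n u (K n) (a, ζ) ∂(PP p nu) := by
    intro a
    have h2 : ∀ᵐ ζ ∂(PP p nu),
        (if B (hist p (st x ξ a) ζ) then R (st x ξ a) ζ else 0) =
        ∑' n : ℕ, ∑' u : Site d, ph p x ξ (x 0 + j) B n u (K n) (a, ζ) := by
      refine (hit_ae hM hT p nu hnu (st x ξ a) j).mono fun ζ hζ => ?_
      obtain ⟨N, hN1, hN2, hN3⟩ := point hB p (st x ξ a) ζ (by
        show x 0 ≤ x 0 + j
        omega) hζ
      have h3 := hN3 (fun n => K n (chain p (st x ξ a) ζ n, fun k => ζ (n + k)))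
      rw [hRK _ ζ N hN1 hN2]
      exact h3.symm
    rw [lintegral_congr_ae h2, lintegral_tsum (fun n =>
      (Measurable.ennreal_tsum fun u => hm1 a n u).aemeasurable)]
    refine tsum_congr fun n => ?_
    rw [lintegral_tsum (fun u => (hm1 a n u).aemeasurable)]
  rw [lintegral_congr h1, lintegral_tsum (fun n =>
      (Measurable.ennreal_tsum fun u => hm2 n u).aemeasurable)]
  refine tsum_congr fun n => ?_
  rw [lintegral_tsum (fun u => (hm2 n u).aemeasurable)]

open Classical in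
/-- the reference sum -/
theorem ref (hM : StmMeas) (hT : StmTail) (p : Par) (nu : Measure (Edge d → Bool))
    (hnu : IsProbabilityMeasure nu) (x : Site d) (ξ : Edge d → ℝ) (j : ℕ)
    (B : (ℕ → Site d × Dir d) → Prop) (hBm : MeasurableSet {h | B h}) (hB : Det (x 0 + j) B)
    (c : ℝ≥0∞) :
    ∑' n : ℕ, ∑' u : Site d, ∫⁻ a, ∫⁻ ζ,
      ph p x ξ (x 0 + j) B n u (fun _ => (n : ℝ≥0∞) + c) (a, ζ)
      ∂(PP p nu) ∂(qE d p) = tB p nu x ξ (x 0 + j) B + c * mB p nu x ξ B := by
  have h1 := dec hM hT p nu hnu x ξ j B hB (fun s ζ => tau (x 0 + j) (pth p s ζ) + c)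
    (fun n _ => (n : ℝ≥0∞) + c) (fun n => measurable_const) (by
      intro s ζ N hN1 hN2
      rw [tau_split (x 0 + j) (x 0 + j) le_rfl _ N hN1, tau_zero (x 0 + j) _ (by
        show x 0 + j ≤ pth p s ζ (N + 0) 0
        rw [add_zero, hN2]), add_zero])
  rw [← h1]
  obtain ⟨-, -, h3, -, h5, -, -, -, -, -, h11⟩ := hM d p
  obtain ⟨-, hPP, -⟩ := h11 nu hnu
  have h0 := meas_start hM p x ξ
  have hH : Measurable fun z : (Edge d → ℝ) × (ℕ → Inn d) =>
      hist p (st x ξ z.1) z.2 := measurable_pi_lambda _ fun k => by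
    have h := (h3 k).comp h0
    exact h
  have hBs : MeasurableSet {z : (Edge d → ℝ) × (ℕ → Inn d) |
      B (hist p (st x ξ z.1) z.2)} := hH hBm
  have m0 : Measurable fun z : (Edge d → ℝ) × (ℕ → Inn d) =>
      tau (x 0 + j) (pth p (st x ξ z.1) z.2) := by
    have h := (h5 (x 0 + j)).comp h0
    exact h
  have m1 : Measurable fun z : (Edge d → ℝ) × (ℕ → Inn d) =>
      if B (hist p (st x ξ z.1) z.2) then
        tau (x 0 + j) (pth p (st x ξ z.1) z.2) else 0 :=
    Measurable.ite hBs m0 measurable_const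
  have m2 : Measurable fun z : (Edge d → ℝ) × (ℕ → Inn d) =>
      if B (hist p (st x ξ z.1) z.2) then (1 : ℝ≥0∞) else 0 :=
    Measurable.ite hBs measurable_const measurable_const
  have e1 : ∀ a : Edge d → ℝ, ∫⁻ ζ, (if B (hist p (st x ξ a) ζ) then
        tau (x 0 + j) (pth p (st x ξ a) ζ) + c else 0) ∂(PP p nu) =
      ∫⁻ ζ, (if B (hist p (st x ξ a) ζ) then
        tau (x 0 + j) (pth p (st x ξ a) ζ) else 0) ∂(PP p nu) +
      c * ∫⁻ ζ, (if B (hist p (st x ξ a) ζ) then 1 else 0) ∂(PP p nu) := by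
    intro a
    have m3 : Measurable fun ζ : ℕ → Inn d => (if B (hist p (st x ξ a) ζ) then
        tau (x 0 + j) (pth p (st x ξ a) ζ) else 0) := by
      have h := m1.comp (measurable_prodMk_left (x := a))
      exact h
    have m4 : Measurable fun ζ : ℕ → Inn d => (if B (hist p (st x ξ a) ζ) then
        (1 : ℝ≥0∞) else 0) := by
      have h := m2.comp (measurable_prodMk_left (x := a))
      exact h
    rw [← lintegral_const_mul c m4, ← lintegral_add_left m3]
    refine lintegral_congr fun ζ => ?_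
    split_ifs
    · rw [mul_one]
    · rw [mul_zero, add_zero]
  rw [lintegral_congr e1, lintegral_add_left m1.lintegral_prod_right',
    lintegral_const_mul c m2.lintegral_prod_right']
  rfl

theorem Av_eq (p : Par) (nu : Measure (Edge d → Bool)) (hq : IsProbabilityMeasure (qE d p))
    (l₁ l₂ : ℤ) (n : ℕ) (u : Site d) (hu : u 0 = l₁) (s : State d) :
    Av p l₁ (fun s : State d => ei u s.1 * ((n : ℝ≥0∞) + mt p nu l₂ s)) s =
      ei u s.1 * ((n : ℝ≥0∞) + TT p nu l₂ u s.2) := by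
  obtain ⟨v, w⟩ := s
  unfold Av
  dsimp only
  by_cases h : v = u
  · rw [h, ei_self, one_mul]
    simp only [one_mul]
    rw [lintegral_add_left measurable_const, lintegral_const, measure_univ, mul_one]
    unfold TT
    rw [hu]
  · rw [ei_ne h, zero_mul]
    simp only [zero_mul]
    exact lintegral_zero

/-- one term of the decomposition -/
theorem term (hM : StmMeas) (hF : StmFresh) (hMk : StmMark) (p : Par)
    (nu : Measure (Edge d → Bool)) (hnu : IsProbabilityMeasure nu) (x : Site d) (ξ : Edge d → ℝ)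
    (j : ℕ) (l₂ : ℤ) (B : (ℕ → Site d × Dir d) → Prop) (n : ℕ) (u : Site d) :
    ∫⁻ a, ∫⁻ ζ, ph p x ξ (x 0 + j) B n u
      (fun z => (n : ℝ≥0∞) + tau l₂ (pth p z.1 z.2)) (a, ζ) ∂(PP p nu) ∂(qE d p) =
    ∫⁻ a, ∫⁻ ζ, gg (x 0 + j) B n u (fun k => hist p (st x ξ a) ζ k) *
      Av p (x 0 + j) (fun s : State d => ei u s.1 * ((n : ℝ≥0∞) + mt p nu l₂ s))
        (chain p (st x ξ a) ζ n) ∂(PP p nu) ∂(qE d p) := by
  obtain ⟨-, h2, -, -, h5, h6, -, -, hq, -, h11⟩ := hM d p
  obtain ⟨-, hPP, hmt⟩ := h11 nu hnu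
  have h8 : Measurable (ei u) := Measurable.of_discrete
  have m5 : Measurable fun z : State d × (ℕ → Inn d) => (n : ℝ≥0∞) + tau l₂ (pth p z.1 z.2) :=
    measurable_const.add (h5 l₂)
  have m6' : Measurable fun z : State d × (ℕ → Inn d) => z.1.1 := measurable_fst.fst
  have m6'' := h8.comp m6'
  have m6 : Measurable fun z : State d × (ℕ → Inn d) => ei u z.1.1 := m6''
  have mH : Measurable fun z : State d × (ℕ → Inn d) =>
      ei u z.1.1 * ((n : ℝ≥0∞) + tau l₂ (pth p z.1 z.2)) := m6.mul m5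
  have m7' : Measurable fun s : State d => s.1 := measurable_fst
  have m7'' := h8.comp m7'
  have m7 : Measurable fun s : State d => ei u s.1 := m7''
  have m8 : Measurable fun s : State d => (n : ℝ≥0∞) + mt p nu l₂ s :=
    measurable_const.add (hmt l₂)
  have mG : Measurable fun s : State d => ei u s.1 * ((n : ℝ≥0∞) + mt p nu l₂ s) := m7.mul m8
  have e2 : ∀ a : Edge d → ℝ, ∫⁻ ζ, ph p x ξ (x 0 + j) B n u
      (fun z => (n : ℝ≥0∞) + tau l₂ (pth p z.1 z.2)) (a, ζ) ∂(PP p nu) =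
      ∫⁻ ζ, gg (x 0 + j) B n u (fun k => hist p (st x ξ a) ζ k) *
        (ei u (chain p (st x ξ a) ζ n).1 * ((n : ℝ≥0∞) + mt p nu l₂ (chain p (st x ξ a) ζ n)))
        ∂(PP p nu) := by
    intro a
    have e3 := hMk d p nu hnu (st x ξ a) n (gg (x 0 + j) B n u) _ mH
    refine Eq.trans e3 (lintegral_congr fun ζ => ?_)
    have e4 : ∀ s : State d, ∫⁻ ζ', ei u s.1 * ((n : ℝ≥0∞) + tau l₂ (pth p s ζ')) ∂(PP p nu) =
        ei u s.1 * ((n : ℝ≥0∞) + mt p nu l₂ s) := by
      intro s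
      have m9' := m5.comp (measurable_prodMk_left (x := s))
      have m9 : Measurable fun ζ' : ℕ → Inn d => (n : ℝ≥0∞) + tau l₂ (pth p s ζ') := m9'
      rw [lintegral_const_mul _ m9, lintegral_add_left measurable_const, lintegral_const,
        measure_univ, mul_one]
      rfl
    have e5 := e4 (chain p (st x ξ a) ζ n)
    exact congrArg (fun t => gg (x 0 + j) B n u (fun k => hist p (st x ξ a) ζ k) * t) e5
  rw [lintegral_congr e2]
  exact hF d p nu hnu (x 0) (x 0 + j) (by omega) x ξ n (gg (x 0 + j) B n u)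
    (by
      intro h hh
      by_contra hcon
      apply hh
      unfold gg
      rw [if_neg]
      rintro ⟨-, h9, -⟩
      exact hcon h9) _ mG

end SplitAux

open SplitAux

theorem splitT : StmMeas → StmTail → StmFresh → StmMark → StmSplit := by
  classical
  intro hM hT hF hMk d p nu hnu j k x ξ B hBm hB
  obtain ⟨-, -, -, -, h5, -, -, -, hq, -, -⟩ := hM d p
  have key : tB p nu x ξ (x 0 + (j + k : ℕ)) B = ∑' n : ℕ, ∑' u : Site d, ∫⁻ a, ∫⁻ ζ,
      gg (x 0 + j) B n u (fun k => hist p (st x ξ a) ζ k) *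
      Av p (x 0 + j) (fun s : State d => ei u s.1 * ((n : ℝ≥0∞) +
        mt p nu (x 0 + (j + k : ℕ)) s)) (chain p (st x ξ a) ζ n) ∂(PP p nu) ∂(qE d p) := by
    have e1 := dec hM hT p nu hnu x ξ j B hB
      (fun s ζ => tau (x 0 + (j + k : ℕ)) (pth p s ζ))
      (fun n z => (n : ℝ≥0∞) + tau (x 0 + (j + k : ℕ)) (pth p z.1 z.2))
      (fun n => measurable_const.add (h5 _)) (by
        intro s ζ N hN1 hN2
        rw [tau_split (x 0 + j) (x 0 + (j + k : ℕ)) (by push_cast; omega) _ N hN1]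
        congr 2
        funext i
        show (chain p s ζ (N + i)).1 = (chain p (chain p s ζ N) (fun k => ζ (N + k)) i).1
        rw [chain_shift])
    refine Eq.trans e1 (tsum_congr fun n => tsum_congr fun u => ?_)
    exact term hM hF hMk p nu hnu x ξ j _ B n u
  have hlev : ∀ u : Site d, u 0 = x 0 + j → x 0 + (j + k : ℕ) = u 0 + k := by
    intro u hu
    rw [hu]
    push_cast
    ring
  constructor
  · rw [key, ← ref hM hT p nu hnu x ξ j B hBm hB (bb p nu k)]
    refine ENNReal.tsum_le_tsum fun n => ENNReal.tsum_le_tsum fun u => ?_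
    refine lintegral_mono fun a => lintegral_mono fun ζ => ?_
    show _ * _ ≤ gg (x 0 + j) B n u (fun k => hist p (st x ξ a) ζ k) *
      (ei u (chain p (st x ξ a) ζ n).1 * ((n : ℝ≥0∞) + bb p nu k))
    by_cases hu : u 0 = x 0 + j
    · rw [Av_eq p nu hq _ _ n u hu, hlev u hu]
      refine mul_le_mul_right (mul_le_mul_right (add_le_add le_rfl ?_) _) _
      exact le_iSup₂_of_le u (chain p (st x ξ a) ζ n).2 le_rfl
    · have h9 : gg (x 0 + j) B n u (fun k => hist p (st x ξ a) ζ k) = 0 := by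
        unfold gg
        exact if_neg fun h => hu h.1
      rw [h9, zero_mul, zero_mul]
  · rw [key, ← ref hM hT p nu hnu x ξ j B hBm hB (cc p nu k)]
    refine ENNReal.tsum_le_tsum fun n => ENNReal.tsum_le_tsum fun u => ?_
    refine lintegral_mono fun a => lintegral_mono fun ζ => ?_
    show gg (x 0 + j) B n u (fun k => hist p (st x ξ a) ζ k) *
      (ei u (chain p (st x ξ a) ζ n).1 * ((n : ℝ≥0∞) + cc p nu k)) ≤ _ * _
    by_cases hu : u 0 = x 0 + j
    · rw [Av_eq p nu hq _ _ n u hu, hlev u hu]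
      refine mul_le_mul_right (mul_le_mul_right (add_le_add le_rfl ?_) _) _
      exact iInf₂_le_of_le u (chain p (st x ξ a) ζ n).2 le_rfl
    · have h9 : gg (x 0 + j) B n u (fun k => hist p (st x ξ a) ζ k) = 0 := by
        unfold gg
        exact if_neg fun h => hu h.1
      rw [h9, zero_mul, zero_mul]

end Pool.Agent.N276.SC
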