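import Pool.Agent.N276.SC.Stm

set_option autoImplicit false

open MeasureTheory ProbabilityTheory Filter Topology Set
open scoped ENNReal

namespace Pool.Agent.N276.SC

namespace Split2Aux

variable {d : ℕ}

theorem vec_le (δ : Dir d) : vec δ 0 ≤ 1 := by
  unfold vec
  by_cases h : δ.2 = true
  · rw [if_pos h]
    by_cases h0 : δ.1 = 0
    · rw [h0]; simp
    · rw [Pi.single_eq_of_ne (Ne.symm h0)]; norm_num
  · rw [if_neg h]
    by_cases h0 : δ.1 = 0
    · rw [h0]; simp
    · rw [Pi.neg_apply, Pi.single_eq_of_ne (Ne.symm h0)]; norm_num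

theorem level_step (p : Par) (s : State d) (ζ : ℕ → Inn d) (n : ℕ) :
    pth p s ζ (n + 1) 0 ≤ pth p s ζ n 0 + 1 := by
  have : pth p s ζ (n + 1) = (step p (chain p s ζ n) (ζ n)).1 := rfl
  rw [this]
  unfold step
  by_cases h : (ζ n).2.2.2 < tr p (upd (chain p s ζ n).2 (ζ n)
      (edge (chain p s ζ n).1 (ζ n).2.2.1)) / (2 * p.kap)
  · simp only [h, if_true]
    have := vec_le (ζ n).2.2.1
    simp only [pth, Pi.add_apply]
    linarith
  · simp only [h, if_false, pth]
    linarith

theorem chain_add (p : Par) (s : State d) (ζ : ℕ → Inn d) (n i : ℕ) :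
    chain p s ζ (n + i) = chain p (chain p s ζ n) (fun k => ζ (n + k)) i := by
  induction i with
  | zero => rfl
  | succ i ih =>
    change step p (chain p s ζ (n + i)) (ζ (n + i)) = step p _ _
    rw [ih]

open Classical in
theorem tau_eq (l : ℤ) (y : ℕ → Site d) (n : ℕ) (h1 : ∀ k < n, y k 0 < l) (h2 : l ≤ y n 0) :
    tau l y = n := by
  unfold tau
  rw [tsum_eq_sum (s := Finset.range n)]
  · rw [Finset.sum_congr rfl (g := fun _ => (1 : ℝ≥0∞))]
    · simp
    · intro m hm
      rw [if_pos]
      intro k hk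
      exact h1 k (lt_of_le_of_lt hk (Finset.mem_range.mp hm))
  · intro m hm
    rw [if_neg]
    intro h
    have := h n (not_lt.mp (fun hh => hm (Finset.mem_range.mpr hh)))
    exact absurd this (not_lt.mpr h2)

open Classical in
theorem tau_add (l l' : ℤ) (hl : l ≤ l') (y : ℕ → Site d) (n : ℕ) (h1 : ∀ k < n, y k 0 < l) :
    tau l' y = n + tau l' (fun i => y (n + i)) := by
  unfold tau
  rw [← Summable.sum_add_tsum_nat_add' (f := fun m : ℕ =>
    if (∀ k ≤ m, y k 0 < l') then (1 : ℝ≥0∞) else 0) (k := n) ENNReal.summable]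
  congr 1
  · rw [Finset.sum_congr rfl (g := fun _ => (1 : ℝ≥0∞))]
    · simp
    · intro m hm
      rw [if_pos]
      intro k hk
      exact lt_of_lt_of_le (h1 k (lt_of_le_of_lt hk (Finset.mem_range.mp hm))) hl
  · refine tsum_congr fun m => ?_
    have : (∀ k ≤ m + n, y k 0 < l') ↔ (∀ k ≤ m, y (n + k) 0 < l') := by
      constructor
      · intro h k hk
        exact h (n + k) (by omega)
      · intro h k hk
        by_cases hkn : k < n
        · exact lt_of_lt_of_le (h1 k hkn) hl
        · have h3 := h (k - n) (by omega)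
          have e : n + (k - n) = k := by omega
          rw [e] at h3
          exact h3
    simp only [this]

/-- extension of a finite history -/
noncomputable def ext (n : ℕ) (h : Fin n → Site d × Dir d) (y : Site d) (i : ℕ) : Site d × Dir d :=
  if hi : i < n then h ⟨i, hi⟩ else (y, (0, true))

open Classical in
/-- indicator of the history -/
noncomputable def gg (l : ℤ) (B : (ℕ → Site d × Dir d) → Prop) (n : ℕ) (y : Site d)
    (h : Fin n → Site d × Dir d) : ℝ≥0∞ :=
  if (∀ k, (h k).1 0 < l) ∧ y 0 = l ∧ B (ext n h y) then 1 else 0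

open Classical in
/-- decomposition of a function on the event `B` -/
theorem decomp (l : ℤ) (B : (ℕ → Site d × Dir d) → Prop) (hB : Det l B) (h : ℕ → Site d × Dir d)
    (N : ℕ) (h1 : ∀ k < N, (h k).1 0 < l) (h2 : (h N).1 0 = l) (F : ℕ → ℝ≥0∞) :
    ∑' n : ℕ, ∑' y : Site d, gg l B n y (fun k => h k) * ((if (h n).1 = y then 1 else 0) * F n) =
      if B h then F N else 0 := by
  have key : ∀ n, ∑' y : Site d, gg l B n y (fun k => h k) *
      ((if (h n).1 = y then 1 else 0) * F n) = gg l B n (h n).1 (fun k => h k) * F n := by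
    intro n
    rw [tsum_eq_single (h n).1]
    · simp
    · intro y hy
      rw [if_neg (Ne.symm hy)]; simp
  simp_rw [key]
  rw [tsum_eq_single N]
  · unfold gg
    have hd : B (ext N (fun k : Fin N => h k) (h N).1) ↔ B h := by
      refine (hB h _ N ?_ ?_ h1 h2.ge).symm
      · intro k hk; simp [ext, hk]
      · simp [ext]
    by_cases hb : B h
    · rw [if_pos, if_pos hb]
      · simp
      · exact ⟨fun k => h1 k k.2, h2, hd.mpr hb⟩
    · rw [if_neg, if_neg hb]
      · simp
      · intro hh; exact hb (hd.mp hh.2.2)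
  · intro n hn
    unfold gg
    rw [if_neg, zero_mul]
    rintro ⟨ha, hb, _⟩
    rcases lt_trichotomy n N with h3 | h3 | h3
    · have := h1 n h3; omega
    · exact hn h3
    · have := ha ⟨N, h3⟩; simp only at this; omega

open Classical in
theorem meas_gg (l : ℤ) (B : (ℕ → Site d × Dir d) → Prop) (n : ℕ) (y : Site d) :
    Measurable (gg l B n y) := measurable_of_countable _

/-- the first hitting time -/
theorem exists_hit (p : Par) (s : State d) (ζ : ℕ → Inn d) (l : ℤ) (hl : s.1 0 ≤ l)
    (hfin : tau l (pth p s ζ) < ⊤) :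
    ∃ N, (∀ k < N, pth p s ζ k 0 < l) ∧ pth p s ζ N 0 = l := by
  classical
  have hex : ∃ n, l ≤ pth p s ζ n 0 := by
    by_contra hne
    push Not at hne
    have : tau l (pth p s ζ) = ⊤ := by
      unfold tau
      have : ∀ n : ℕ, (if (∀ k ≤ n, pth p s ζ k 0 < l) then (1 : ℝ≥0∞) else 0) = 1 := by
        intro n
        rw [if_pos fun k _ => hne k]
      simp_rw [this]
      exact ENNReal.tsum_const_eq_top_of_ne_zero one_ne_zero
    rw [this] at hfin
    exact lt_irrefl _ hfin
  refine ⟨Nat.find hex, fun k hk => not_le.mp (Nat.find_min hex hk), ?_⟩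
  refine le_antisymm ?_ (Nat.find_spec hex)
  rcases Nat.eq_zero_or_pos (Nat.find hex) with h0 | h0
  · rw [h0]; exact hl
  · obtain ⟨m, hm⟩ : ∃ m, Nat.find hex = m + 1 := ⟨Nat.find hex - 1, by omega⟩
    rw [hm]
    have h1 := not_le.mp (Nat.find_min hex (m := m) (by omega))
    have h2 := level_step p s ζ m
    omega

end Split2Aux

open Split2Aux

open Classical in
theorem splitT2 : StmMeas → StmTail → StmFresh → StmMark → StmSplit := by
  intro hmeas htail hfresh hmark d p nu hnu j k x ξ B hBm hB
  obtain ⟨_, hch, hhi, htau, htp, hgl, _, _, hq, _, hrest⟩ := hmeas d p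
  obtain ⟨_, hPP, hmt⟩ := hrest nu hnu
  obtain ⟨Ct, hCt, ht⟩ := htail d p
  set l₁ : ℤ := x 0 + j with hl₁
  set l₂ : ℤ := x 0 + ((j + k : ℕ) : ℤ) with hl₂
  have hl12 : l₁ ≤ l₂ := by rw [hl₁, hl₂]; push_cast; omega
  set st : (Edge d → ℝ) → State d := fun a => (x, glue (x 0) ξ a) with hst
  have hstm : Measurable st :=
    measurable_const.prodMk (hgl (x 0) |>.comp (measurable_const.prodMk measurable_id))
  have hpair : Measurable (fun z : (Edge d → ℝ) × (ℕ → Inn d) => (st z.1, z.2)) :=
    (hstm.comp measurable_fst).prodMk measurable_snd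
  -- almost surely the level is reached
  have hae : ∀ a, ∀ᵐ ζ ∂(PP p nu), ∃ N, (∀ k < N, pth p (st a) ζ k 0 < l₁) ∧
      pth p (st a) ζ N 0 = l₁ := by
    intro a
    have h1 : ∫⁻ ζ, tau l₁ (pth p (st a) ζ) ∂(PP p nu) < ⊤ :=
      lt_of_le_of_lt (ht nu hnu (st a) j) ENNReal.ofReal_lt_top
    have hm : Measurable fun ζ => tau l₁ (pth p (st a) ζ) :=
      (htp l₁).comp (measurable_const.prodMk measurable_id)
    filter_upwards [ae_lt_top hm h1.ne] with ζ hζ
    exact exists_hit p (st a) ζ l₁ (by simp [hst, hl₁]) hζ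
  -- indicator of the position
  set I : (a : Edge d → ℝ) → (ζ : ℕ → Inn d) → ℕ → Site d → ℝ≥0∞ := fun a ζ n y =>
    gg l₁ B n y (fun k => hist p (st a) ζ k) with hI
  have hIm : ∀ n y, Measurable (fun z : (Edge d → ℝ) × (ℕ → Inn d) => I z.1 z.2 n y) := by
    intro n y
    refine (meas_gg l₁ B n y).comp (measurable_pi_iff.mpr fun i => ?_)
    exact (hhi i).comp hpair
  have hchm : ∀ n, Measurable (fun z : (Edge d → ℝ) × (ℕ → Inn d) => chain p (st z.1) z.2 n) :=
    fun n => (hch n).comp hpair
  have hys : ∀ y : Site d, Measurable (fun s : State d => if s.1 = y then (1 : ℝ≥0∞) else 0) := by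
    intro y
    refine Measurable.ite ?_ measurable_const measurable_const
    exact measurable_fst (measurableSet_singleton y)
  -- the value for constants
  have hconst : ∀ K : ℝ≥0∞, ∑' n : ℕ, ∑' y : Site d, ∫⁻ a, ∫⁻ ζ, I a ζ n y *
      ((if (chain p (st a) ζ n).1 = y then 1 else 0) * (n + K)) ∂(PP p nu) ∂(qE d p) =
      tB p nu x ξ l₁ B + K * mB p nu x ξ B := by
    intro K
    have hm : ∀ n y, Measurable (fun z : (Edge d → ℝ) × (ℕ → Inn d) => I z.1 z.2 n y *
        ((if (chain p (st z.1) z.2 n).1 = y then 1 else 0) * ((n : ℝ≥0∞) + K))) := by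
      intro n y
      exact (hIm n y).mul (((hys y).comp (hchm n)).mul_const _)
    have e1 : ∀ a, ∫⁻ ζ, ∑' n : ℕ, ∑' y : Site d, I a ζ n y *
        ((if (chain p (st a) ζ n).1 = y then 1 else 0) * ((n : ℝ≥0∞) + K)) ∂(PP p nu) =
        ∫⁻ ζ, ((if B (hist p (st a) ζ) then tau l₁ (pth p (st a) ζ) else 0) +
          K * (if B (hist p (st a) ζ) then 1 else 0)) ∂(PP p nu) := by
      intro a
      refine lintegral_congr_ae ?_
      filter_upwards [hae a] with ζ hζ
      obtain ⟨N, h1, h2⟩ := hζ
      have := decomp l₁ B hB (hist p (st a) ζ) N h1 h2 (fun n => (n : ℝ≥0∞) + K)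
      refine (this.trans ?_)
      rw [tau_eq l₁ (pth p (st a) ζ) N h1 h2.ge]
      by_cases hb : B (hist p (st a) ζ)
      · simp [hb]
      · simp [hb]
    have hBms : MeasurableSet {z : (Edge d → ℝ) × (ℕ → Inn d) | B (hist p (st z.1) z.2)} := by
      have : Measurable (fun z : (Edge d → ℝ) × (ℕ → Inn d) => hist p (st z.1) z.2) :=
        measurable_pi_iff.mpr fun i => (hhi i).comp hpair
      exact this hBm
    have hm1 : Measurable (fun z : (Edge d → ℝ) × (ℕ → Inn d) =>
        if B (hist p (st z.1) z.2) then tau l₁ (pth p (st z.1) z.2) else 0) :=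
      Measurable.ite hBms ((htp l₁).comp hpair) measurable_const
    have hm2 : Measurable (fun z : (Edge d → ℝ) × (ℕ → Inn d) =>
        if B (hist p (st z.1) z.2) then (1 : ℝ≥0∞) else 0) :=
      Measurable.ite hBms measurable_const measurable_const
    have e2 : tB p nu x ξ l₁ B + K * mB p nu x ξ B =
        ∫⁻ a, ∫⁻ ζ, ((if B (hist p (st a) ζ) then tau l₁ (pth p (st a) ζ) else 0) +
          K * (if B (hist p (st a) ζ) then 1 else 0)) ∂(PP p nu) ∂(qE d p) := by
      unfold tB mB
      rw [← lintegral_const_mul K hm2.lintegral_prod_right', ← lintegral_add_left hm1.lintegral_prod_right']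
      refine lintegral_congr fun a => ?_
      have hm1a : Measurable fun ζ : ℕ → Inn d =>
          if B (hist p (st a) ζ) then tau l₁ (pth p (st a) ζ) else 0 :=
        hm1.comp measurable_prodMk_left
      have hm2a : Measurable fun ζ : ℕ → Inn d =>
          if B (hist p (st a) ζ) then (1 : ℝ≥0∞) else 0 := hm2.comp measurable_prodMk_left
      have e3 : ∫⁻ ζ, ((if B (hist p (st a) ζ) then tau l₁ (pth p (st a) ζ) else 0) +
          K * (if B (hist p (st a) ζ) then 1 else 0)) ∂(PP p nu) =
          ∫⁻ ζ, (if B (hist p (st a) ζ) then tau l₁ (pth p (st a) ζ) else 0) ∂(PP p nu) +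
          K * ∫⁻ ζ, (if B (hist p (st a) ζ) then 1 else 0) ∂(PP p nu) := by
        rw [lintegral_add_left hm1a, lintegral_const_mul K hm2a]
      exact e3.symm
    rw [e2]
    simp_rw [← e1]
    rw [show (fun a => ∫⁻ ζ, ∑' n : ℕ, ∑' y : Site d, I a ζ n y *
        ((if (chain p (st a) ζ n).1 = y then 1 else 0) * ((n : ℝ≥0∞) + K)) ∂(PP p nu)) =
        fun a => ∑' n : ℕ, ∑' y : Site d, ∫⁻ ζ, I a ζ n y *
        ((if (chain p (st a) ζ n).1 = y then 1 else 0) * ((n : ℝ≥0∞) + K)) ∂(PP p nu) from ?_]
    · rw [lintegral_tsum]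
      · refine tsum_congr fun n => ?_
        rw [lintegral_tsum]
        intro y
        exact (hm n y).lintegral_prod_right'.aemeasurable
      · intro n
        exact (Measurable.tsum fun y => (hm n y).lintegral_prod_right').aemeasurable
    · funext a
      rw [lintegral_tsum]
      · refine tsum_congr fun n => ?_
        rw [lintegral_tsum]
        intro y
        exact ((hm n y).comp measurable_prodMk_left).aemeasurable
      · intro n
        exact (Measurable.tsum fun y =>
          (hm n y).comp measurable_prodMk_left).aemeasurable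
  -- the value of tB l₂
  have hmain : tB p nu x ξ l₂ B = ∑' n : ℕ, ∑' y : Site d, ∫⁻ a, ∫⁻ ζ, I a ζ n y *
      ((if (chain p (st a) ζ n).1 = y then 1 else 0) *
        (n + ∫⁻ a', mt p nu l₂ ((chain p (st a) ζ n).1, glue l₁ (chain p (st a) ζ n).2 a')
          ∂(qE d p))) ∂(PP p nu) ∂(qE d p) := by
    set H : ℕ → Site d → State d × (ℕ → Inn d) → ℝ≥0∞ := fun n y z =>
      (if z.1.1 = y then 1 else 0) * (n + tau l₂ (pth p z.1 z.2)) with hH
    have hHm : ∀ n y, Measurable (H n y) := fun n y =>
      ((hys y).comp measurable_fst).mul (measurable_const.add (htp l₂))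
    set G : ℕ → Site d → State d → ℝ≥0∞ := fun n y s =>
      (if s.1 = y then 1 else 0) * (n + mt p nu l₂ s) with hG
    have hGm : ∀ n y, Measurable (G n y) := fun n y =>
      (hys y).mul (measurable_const.add (hmt l₂))
    have eG : ∀ n y s, ∫⁻ ζ', H n y (s, ζ') ∂(PP p nu) = G n y s := by
      intro n y s
      have hm : Measurable fun ζ' => tau l₂ (pth p s ζ') :=
        (htp l₂).comp (measurable_const.prodMk measurable_id)
      by_cases hsy : s.1 = y
      · simp only [hH, hG, if_pos hsy, one_mul]
        rw [lintegral_add_left measurable_const]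
        simp [mt]
      · simp only [hH, hG, if_neg hsy, zero_mul, lintegral_zero]
    have eAv : ∀ n y s, Av p l₁ (G n y) s = (if s.1 = y then 1 else 0) *
        (n + ∫⁻ a', mt p nu l₂ (s.1, glue l₁ s.2 a') ∂(qE d p)) := by
      intro n y s
      have hm : Measurable fun a' => mt p nu l₂ (s.1, glue l₁ s.2 a') :=
        (hmt l₂).comp (measurable_const.prodMk
          ((hgl l₁).comp (measurable_const.prodMk measurable_id)))
      unfold Av
      by_cases hsy : s.1 = y
      · simp only [hG, if_pos hsy, one_mul]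
        rw [lintegral_add_left measurable_const]
        simp
      · simp only [hG, if_neg hsy, zero_mul, lintegral_zero]
    have hshift : ∀ n, Measurable (fun ζ : ℕ → Inn d => fun k => ζ (n + k)) := fun n =>
      measurable_pi_iff.mpr fun i => measurable_pi_apply _
    have hm0 : ∀ a n y, Measurable (fun ζ : ℕ → Inn d => I a ζ n y *
        H n y (chain p (st a) ζ n, fun k => ζ (n + k))) := by
      intro a n y
      exact ((hIm n y).comp measurable_prodMk_left).mul ((hHm n y).comp
        (((hchm n).comp measurable_prodMk_left).prodMk (hshift n)))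
    have e1 : ∀ a, ∫⁻ ζ, (if B (hist p (st a) ζ) then tau l₂ (pth p (st a) ζ) else 0) ∂(PP p nu) =
        ∑' n : ℕ, ∑' y : Site d, ∫⁻ ζ, I a ζ n y * G n y (chain p (st a) ζ n) ∂(PP p nu) := by
      intro a
      have e2 : ∫⁻ ζ, (if B (hist p (st a) ζ) then tau l₂ (pth p (st a) ζ) else 0) ∂(PP p nu) =
          ∫⁻ ζ, ∑' n : ℕ, ∑' y : Site d, I a ζ n y *
            H n y (chain p (st a) ζ n, fun k => ζ (n + k)) ∂(PP p nu) := by
        refine lintegral_congr_ae ?_
        filter_upwards [hae a] with ζ hζ
        obtain ⟨N, h1, h2⟩ := hζ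
        have h3 := decomp l₁ B hB (hist p (st a) ζ) N h1 h2
          (fun n => (n : ℝ≥0∞) + tau l₂ (fun i => pth p (st a) ζ (n + i)))
        rw [← tau_add l₁ l₂ hl12 (pth p (st a) ζ) N h1] at h3
        rw [← h3]
        refine tsum_congr fun n => tsum_congr fun y => ?_
        simp only [hI, hH]
        congr 3
        congr 1
        funext i
        simp only [pth]
        rw [chain_add]
      rw [e2, lintegral_tsum]
      · refine tsum_congr fun n => ?_
        rw [lintegral_tsum]
        · refine tsum_congr fun y => ?_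
          have := hmark d p nu hnu (st a) n (gg l₁ B n y) (H n y) (hHm n y)
          simp only [hI]
          rw [this]
          simp_rw [eG]
        · intro y
          exact (hm0 a n y).aemeasurable
      · intro n
        exact (Measurable.tsum fun y => hm0 a n y).aemeasurable
    have hm3 : ∀ n y, Measurable (fun z : (Edge d → ℝ) × (ℕ → Inn d) => I z.1 z.2 n y *
        G n y (chain p (st z.1) z.2 n)) := fun n y =>
      (hIm n y).mul ((hGm n y).comp (hchm n))
    calc tB p nu x ξ l₂ B = ∫⁻ a, ∑' n : ℕ, ∑' y : Site d, ∫⁻ ζ, I a ζ n y *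
          G n y (chain p (st a) ζ n) ∂(PP p nu) ∂(qE d p) := by
          unfold tB
          exact lintegral_congr fun a => e1 a
      _ = ∑' n : ℕ, ∑' y : Site d, ∫⁻ a, ∫⁻ ζ, I a ζ n y *
          G n y (chain p (st a) ζ n) ∂(PP p nu) ∂(qE d p) := by
          rw [lintegral_tsum]
          · refine tsum_congr fun n => ?_
            rw [lintegral_tsum]
            intro y
            exact (hm3 n y).lintegral_prod_right'.aemeasurable
          · intro n
            exact (Measurable.tsum fun y =>
              (hm3 n y).lintegral_prod_right').aemeasurable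
      _ = _ := by
          refine tsum_congr fun n => tsum_congr fun y => ?_
          have hf := hfresh d p nu hnu (x 0) l₁ (by rw [hl₁]; omega) x ξ n (gg l₁ B n y)
            (by
              intro h hne kk
              unfold gg at hne
              by_contra hcon
              exact hne (if_neg fun hh => hcon (hh.1 kk))) (G n y) (hGm n y)
          simp_rw [eAv] at hf
          exact hf
  have hTT : ∀ (n : ℕ) (y : Site d) (a : Edge d → ℝ) (ζ : ℕ → Inn d), I a ζ n y ≠ 0 →
      (chain p (st a) ζ n).1 = y → cc p nu k ≤ ∫⁻ a', mt p nu l₂ ((chain p (st a) ζ n).1,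
        glue l₁ (chain p (st a) ζ n).2 a') ∂(qE d p) ∧ ∫⁻ a', mt p nu l₂ ((chain p (st a) ζ n).1,
        glue l₁ (chain p (st a) ζ n).2 a') ∂(qE d p) ≤ bb p nu k := by
    intro n y a ζ hne hy
    have hy0 : y 0 = l₁ := by
      by_contra hcon
      exact hne (if_neg fun hh => hcon hh.2.1)
    have e : ∫⁻ a', mt p nu l₂ ((chain p (st a) ζ n).1,
        glue l₁ (chain p (st a) ζ n).2 a') ∂(qE d p) =
        TT p nu (y 0 + k) y (chain p (st a) ζ n).2 := by
      unfold TT
      rw [hy, hy0]
      have : l₂ = l₁ + k := by rw [hl₁, hl₂]; push_cast; ring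
      rw [this]
    rw [e]
    constructor
    · exact (iInf_le _ y).trans (iInf_le _ _)
    · exact (le_iSup (fun ξ => TT p nu (y 0 + k) y ξ) _).trans
        (le_iSup (fun y : Site d => ⨆ ξ, TT p nu (y 0 + k) y ξ) y)
  constructor
  · rw [hmain, ← hconst]
    refine ENNReal.tsum_le_tsum fun n => ENNReal.tsum_le_tsum fun y => lintegral_mono fun a =>
      lintegral_mono fun ζ => ?_
    by_cases hne : I a ζ n y = 0
    · simp [hne]
    by_cases hy : (chain p (st a) ζ n).1 = y
    · have := (hTT n y a ζ hne hy).2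
      gcongr
    · simp [hy]
  · rw [hmain, ← hconst]
    refine ENNReal.tsum_le_tsum fun n => ENNReal.tsum_le_tsum fun y => lintegral_mono fun a =>
      lintegral_mono fun ζ => ?_
    by_cases hne : I a ζ n y = 0
    · simp [hne]
    by_cases hy : (chain p (st a) ζ n).1 = y
    · have := (hTT n y a ζ hne hy).1
      gcongr
    · simp [hy]

end Pool.Agent.N276.SC
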