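import Pool.Agent.N276.SC.Stm

/-!
# Sub- and superadditivity (helper31)
-/

set_option autoImplicit false

open MeasureTheory ProbabilityTheory Filter Topology Set
open scoped ENNReal

namespace Pool.Agent.N276.SC

namespace SubAux

theorem tB_true {d : ℕ} (p : Par) (nu : Measure (Edge d → Bool)) (x : Site d) (ξ : Edge d → ℝ)
    (l : ℤ) : tB p nu x ξ l (fun _ => True) = TT p nu l x ξ := by
  unfold tB TT mt
  simp

theorem mB_true {d : ℕ} (p : Par) (nu : Measure (Edge d → Bool)) (x : Site d) (ξ : Edge d → ℝ)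
    (h1 : IsProbabilityMeasure (qE d p)) (h2 : IsProbabilityMeasure (PP p nu)) :
    mB p nu x ξ (fun _ => True) = 1 := by
  unfold mB
  simp

theorem det_true {d : ℕ} (l : ℤ) : Det (d := d) l (fun _ => True) := fun _ _ _ _ _ _ _ => Iff.rfl

end SubAux

open SubAux in
/-- **sub- and superadditivity** -/
theorem subAdd : StmMeas → StmSplit → StmSub := by
  intro hmeas hsplit d p nu hnu j k
  obtain ⟨-, -, -, -, -, -, -, -, hq, -, hP⟩ := hmeas d p
  obtain ⟨-, hPP, -⟩ := hP nu hnu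
  have key : ∀ (x : Site d) (ξ : Edge d → ℝ),
      TT p nu (x 0 + (j + k : ℕ)) x ξ ≤ TT p nu (x 0 + j) x ξ + bb p nu k ∧
      TT p nu (x 0 + j) x ξ + cc p nu k ≤ TT p nu (x 0 + (j + k : ℕ)) x ξ := by
    intro x ξ
    have h := hsplit d p nu hnu j k x ξ (fun _ => True) MeasurableSet.univ (det_true _)
    rw [tB_true, tB_true, mB_true p nu x ξ hq hPP, mul_one, mul_one] at h
    exact h
  refine ⟨iSup₂_le fun x ξ => ?_, le_iInf₂ fun x ξ => ?_⟩
  · refine (key x ξ).1.trans ?_
    gcongr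
    exact le_iSup₂ (f := fun (x : Site d) (ξ : Edge d → ℝ) => TT p nu (x 0 + j) x ξ) x ξ
  · refine le_trans ?_ (key x ξ).2
    gcongr
    exact iInf₂_le (f := fun (x : Site d) (ξ : Edge d → ℝ) => TT p nu (x 0 + j) x ξ) x ξ

end Pool.Agent.N276.SC
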