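import Pool.Agent.N276.SC.Stm

/-!
# The mean hitting times are at most linear in the number of levels
-/

set_option autoImplicit false

open MeasureTheory ProbabilityTheory Filter Topology Set
open scoped ENNReal

namespace Pool.Agent.N276.SC

namespace TailAux

variable {d : ℕ}

theorem meas_pth (hM : StmMeas) (p : Par) (s : State d) (n : ℕ) :
    Measurable fun ζ : ℕ → Inn d => pth p s ζ n 0 := by
  have h := (hM d p).2.1 n
  have h2 : Measurable fun ζ : ℕ → Inn d => chain p s ζ n :=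
    h.comp (measurable_const.prodMk measurable_id)
  exact (measurable_pi_apply 0).comp (measurable_fst.comp h2)

theorem meas_set (hM : StmMeas) (p : Par) (s : State d) (l : ℤ) (n : ℕ) :
    MeasurableSet {ζ : ℕ → Inn d | ∀ k ≤ n, pth p s ζ k 0 < l} := by
  have : {ζ : ℕ → Inn d | ∀ k ≤ n, pth p s ζ k 0 < l} =
      ⋂ k : ℕ, ⋂ _ : k ≤ n, {ζ : ℕ → Inn d | pth p s ζ k 0 < l} := by
    ext ζ
    simp
  rw [this]
  refine MeasurableSet.iInter fun k => MeasurableSet.iInter fun _ => ?_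
  exact measurableSet_lt (meas_pth hM p s k) measurable_const

theorem mt_eq (hM : StmMeas) (p : Par) (nu : Measure (Edge d → Bool)) (l : ℤ) (s : State d) :
    mt p nu l s = ∑' n : ℕ, (PP p nu) {ζ | ∀ k ≤ n, pth p s ζ k 0 < l} := by
  classical
  unfold mt tau
  have h1 : ∀ n : ℕ, (fun ζ : ℕ → Inn d =>
      (if (∀ k ≤ n, pth p s ζ k 0 < l) then (1 : ℝ≥0∞) else 0)) =
      Set.indicator {ζ : ℕ → Inn d | ∀ k ≤ n, pth p s ζ k 0 < l} (fun _ => 1) := by
    intro n
    funext ζ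
    by_cases h : ∀ k ≤ n, pth p s ζ k 0 < l
    · rw [if_pos h, Set.indicator_of_mem (by exact h)]
    · rw [if_neg h, Set.indicator_of_notMem (by exact h)]
  rw [lintegral_tsum]
  · refine tsum_congr fun n => ?_
    have h2 : (∫⁻ ζ : ℕ → Inn d, (if (∀ k ≤ n, pth p s ζ k 0 < l) then (1 : ℝ≥0∞) else 0) ∂(PP p nu)) =
        (PP p nu) {ζ | ∀ k ≤ n, pth p s ζ k 0 < l} := by
      rw [h1 n, lintegral_indicator (meas_set hM p s l n)]
      simp
    convert h2 using 2
  · intro n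
    have h3 : AEMeasurable (fun ζ : ℕ → Inn d =>
      (if (∀ k ≤ n, pth p s ζ k 0 < l) then (1 : ℝ≥0∞) else 0)) (PP p nu) := by
      rw [h1 n]
      exact (measurable_const.indicator (meas_set hM p s l n)).aemeasurable
    convert h3 using 2

theorem term_le (hM : StmMeas) (p : Par) (nu : Measure (Edge d → Bool)) (hnu : IsProbabilityMeasure nu)
    {b C ρ : ℝ} (s : State d) (k n : ℕ)
    (h : (PP p nu) {ζ | ((pth p s ζ n 0 : ℤ) : ℝ) ≤ s.1 0 + b * n} ≤ ENNReal.ofReal (C * ρ ^ n))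
    (N : ℕ) (hN : (k : ℝ) ≤ b * N) (hb : 0 < b) :
    (PP p nu) {ζ | ∀ j ≤ n, pth p s ζ j 0 < s.1 0 + k} ≤
      (if n ∈ Finset.range N then (1 : ℝ≥0∞) else 0) + ENNReal.ofReal (C * ρ ^ n) := by
  have : IsProbabilityMeasure (PP p nu) := ((hM d p).2.2.2.2.2.2.2.2.2.2 nu hnu).2.1
  by_cases hn : n ∈ Finset.range N
  · rw [if_pos hn]
    exact le_trans prob_le_one (le_self_add)
  · rw [if_neg hn, zero_add]
    refine le_trans (measure_mono ?_) h
    intro ζ hζ
    have h1 : pth p s ζ n 0 < s.1 0 + k := hζ n le_rfl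
    have h2 : N ≤ n := by simpa using hn
    have h3 : (N : ℝ) ≤ n := by exact_mod_cast h2
    have h4 : ((pth p s ζ n 0 : ℤ) : ℝ) < ((s.1 0 : ℤ) : ℝ) + k := by exact_mod_cast h1
    have h5 : b * N ≤ b * n := mul_le_mul_of_nonneg_left h3 hb.le
    show ((pth p s ζ n 0 : ℤ) : ℝ) ≤ s.1 0 + b * n
    linarith

end TailAux

open TailAux in
/-- mean hitting times are linear -/
theorem tailM : StmMeas → StmDriftC → StmTail := by
  intro hM hD d p
  obtain ⟨b, C, ρ, hb, hC, hρ0, hρ1, h⟩ := hD d p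
  have h1ρ : 0 < 1 - ρ := by linarith
  refine ⟨1 / b + 1 + C / (1 - ρ), by positivity, ?_⟩
  intro nu hnu s k
  rw [mt_eq hM]
  set N : ℕ := ⌈(k : ℝ) / b⌉₊ with hNdef
  have hN : (k : ℝ) ≤ b * N := by
    have := Nat.le_ceil ((k : ℝ) / b)
    rw [div_le_iff₀ hb] at this
    linarith [mul_comm b (N : ℝ)]
  have hN2 : (N : ℝ) ≤ k / b + 1 := by
    have := Nat.ceil_lt_add_one (a := (k : ℝ) / b) (by positivity)
    exact this.le
  have hsum : ∑' n : ℕ, (PP p nu) {ζ | ∀ j ≤ n, pth p s ζ j 0 < s.1 0 + k} ≤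
      ∑' n : ℕ, ((if n ∈ Finset.range N then (1 : ℝ≥0∞) else 0) + ENNReal.ofReal (C * ρ ^ n)) :=
    ENNReal.tsum_le_tsum fun n => term_le hM p nu hnu s k n (h nu hnu s n) N hN hb
  refine hsum.trans ?_
  rw [ENNReal.tsum_add]
  have e1 : ∑' n : ℕ, (if n ∈ Finset.range N then (1 : ℝ≥0∞) else 0) = ENNReal.ofReal N := by
    rw [tsum_eq_sum (s := Finset.range N)]
    · rw [Finset.sum_congr rfl (fun x hx => if_pos hx)]
      simp
    · intro x hx
      rw [if_neg hx]
  have hs : Summable fun n : ℕ => C * ρ ^ n := (summable_geometric_of_lt_one hρ0.le hρ1).mul_left C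
  have e2 : ∑' n : ℕ, ENNReal.ofReal (C * ρ ^ n) = ENNReal.ofReal (C / (1 - ρ)) := by
    rw [← ENNReal.ofReal_tsum_of_nonneg (fun n => by positivity) hs, tsum_mul_left,
      tsum_geometric_of_lt_one hρ0.le hρ1, div_eq_mul_inv]
  rw [e1, e2, ← ENNReal.ofReal_add (by positivity) (by positivity)]
  apply ENNReal.ofReal_le_ofReal
  have hk : (0 : ℝ) ≤ k := by positivity
  have h6 : C / (1 - ρ) ≤ C / (1 - ρ) * (k + 1) := by
    have : 0 < C / (1 - ρ) := by positivity
    nlinarith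
  have h7 : (k : ℝ) / b + 1 ≤ (1 / b + 1) * (k + 1) := by
    have h8 : (0 : ℝ) < 1 / b := by positivity
    have h9 : (k : ℝ) / b = 1 / b * k := by ring
    rw [h9]
    nlinarith
  calc (N : ℝ) + C / (1 - ρ) ≤ (k / b + 1) + C / (1 - ρ) := by linarith
    _ ≤ (1 / b + 1) * (k + 1) + C / (1 - ρ) * (k + 1) := by linarith
    _ = (1 / b + 1 + C / (1 - ρ)) * (k + 1) := by ring

end Pool.Agent.N276.SC
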