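import Pool.Agent.N276.SC.Stm

/-!
# Summability of the mean hitting times on the events `FF j`
-/

set_option autoImplicit false

open MeasureTheory ProbabilityTheory Filter Topology Set
open scoped ENNReal

namespace Pool.Agent.N276.SC

namespace TailFAux

variable {d : ℕ}

lemma vec_le (δ : Dir d) : vec δ 0 ≤ 1 := by
  unfold vec
  by_cases h0 : δ.1 = 0
  · rw [h0]; split_ifs <;> simp
  · split_ifs
    · rw [Pi.single_eq_of_ne (Ne.symm h0)]; norm_num
    · rw [Pi.neg_apply, Pi.single_eq_of_ne (Ne.symm h0)]; norm_num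

lemma pth_le (p : Par) (s : State d) (ζ : ℕ → Inn d) (n : ℕ) :
    pth p s ζ n 0 ≤ s.1 0 + n := by
  induction n with
  | zero => simp [pth, chain]
  | succ n ih =>
    have h : pth p s ζ (n + 1) 0 ≤ pth p s ζ n 0 + 1 := by
      show (step p (chain p s ζ n) (ζ n)).1 0 ≤ (chain p s ζ n).1 0 + 1
      unfold step
      dsimp only
      split_ifs
      · have := vec_le (ζ n).2.2.1
        simp only [Pi.add_apply]
        omega
      · omega
    push_cast
    omega

lemma FF_sub (p : Par) (s : State d) (ζ : ℕ → Inn d) (j : ℕ)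
    (h : FF (s.1 0) j (hist p s ζ)) : ∃ k, pth p s ζ (j + k) 0 = s.1 0 := by
  obtain ⟨h1, h2⟩ := h
  unfold NP at h1 h2
  push Not at h2
  obtain ⟨k, hk, hp⟩ := h2
  have h3 : ¬ ∀ i ≤ k, (hist p s ζ i).1 0 < s.1 0 + j := fun h => h1 k h hp
  push Not at h3
  obtain ⟨i, hi, hij⟩ := h3
  have h4 : (hist p s ζ i).1 0 ≤ s.1 0 + i := pth_le p s ζ i
  have h5 : j ≤ i := by omega
  refine ⟨k - j, ?_⟩
  rw [Nat.add_sub_cancel' (h5.trans hi)]
  exact hp.1

lemma real_bd {b C ρ : ℝ} (hb : 0 < b) (hC : 0 < C) (hρ0 : 0 < ρ) (hρ1 : ρ < 1) :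
    ∃ K σ : ℝ, 0 < K ∧ 0 < σ ∧ σ < 1 ∧ ∀ j n : ℕ,
      (b * n < j + 1 → C * ρ ^ j / (1 - ρ) ≤ K * σ ^ j * σ ^ n) ∧
      ((j : ℝ) + 1 ≤ b * n → C * ρ ^ n ≤ K * σ ^ j * σ ^ n) := by
  have h1ρ : 0 < 1 - ρ := by linarith
  obtain ⟨r, hr0, hr⟩ : ∃ r : ℝ, 0 < r ∧ ρ = Real.exp (-r) :=
    ⟨-Real.log ρ, by have := Real.log_neg hρ0 hρ1; linarith, by
      rw [neg_neg, Real.exp_log hρ0]⟩
  obtain ⟨m, hm0, hm1, hmb, hmc⟩ : ∃ m : ℝ, 0 < m ∧ m ≤ 1 ∧ m ≤ b ∧ m * b ≤ 1 := by
    refine ⟨min 1 (min b (1 / b)), by positivity, min_le_left _ _,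
      (min_le_right _ _).trans (min_le_left _ _), ?_⟩
    have : min 1 (min b (1 / b)) ≤ 1 / b := (min_le_right _ _).trans (min_le_right _ _)
    rwa [le_div_iff₀ hb] at this
  have hpow : ∀ (t : ℝ) (n : ℕ), Real.exp (-t) ^ n = Real.exp (-(t * n)) := by
    intro t n
    rw [← Real.exp_nat_mul]
    congr 1
    ring
  refine ⟨C / (1 - ρ) * Real.exp r, Real.exp (-(m * (r / 2))), by positivity,
    Real.exp_pos _, by rw [Real.exp_lt_one_iff]; have : 0 < m * (r / 2) := by positivity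
                       linarith, ?_⟩
  intro j n
  have hK : C ≤ C / (1 - ρ) := by
    rw [le_div_iff₀ h1ρ]
    nlinarith
  have hj0 : (0 : ℝ) ≤ j := Nat.cast_nonneg j
  have hn0 : (0 : ℝ) ≤ n := Nat.cast_nonneg n
  have hmr : m * (r / 2) * j ≤ r / 2 * j := by
    have : m * (r / 2) ≤ r / 2 := by nlinarith
    exact mul_le_mul_of_nonneg_right this hj0
  have hmn : m * (r / 2) * n ≤ r / 2 * n := by
    have : m * (r / 2) ≤ r / 2 := by nlinarith
    exact mul_le_mul_of_nonneg_right this hn0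
  constructor
  · intro h
    rw [hpow, hpow, mul_assoc, mul_assoc, ← Real.exp_add, ← Real.exp_add]
    have e1 : C * ρ ^ j / (1 - ρ) = C / (1 - ρ) * Real.exp (-(r * j)) := by
      rw [← hpow, ← hr]; ring
    rw [e1]
    refine mul_le_mul_of_nonneg_left ?_ (by positivity)
    rw [Real.exp_le_exp]
    have h2 : m * (r / 2) * n ≤ (r / 2) * (j + 1) := by
      have h3 : m * n ≤ j + 1 := by nlinarith
      nlinarith
    nlinarith
  · intro h
    rw [hpow, hpow, mul_assoc, mul_assoc, ← Real.exp_add, ← Real.exp_add]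
    have e1 : C * ρ ^ n = C * Real.exp (-(r * n)) := by
      rw [← hpow, ← hr]
    rw [e1]
    refine mul_le_mul hK ?_ (Real.exp_pos _).le (by positivity)
    rw [Real.exp_le_exp]
    have h2 : m * (r / 2) * j ≤ (r / 2) * n := by
      have h3 : m * j ≤ n := by
        have : m * j ≤ m * (b * n) := mul_le_mul_of_nonneg_left (by linarith) hm0.le
        nlinarith
      nlinarith
    nlinarith

open Classical in
lemma main_bd {b C ρ K σ : ℝ} (hb : 0 < b) (hC : 0 < C) (hρ0 : 0 < ρ) (hρ1 : ρ < 1)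
    (hKσ : ∀ j n : ℕ,
      (b * n < j + 1 → C * ρ ^ j / (1 - ρ) ≤ K * σ ^ j * σ ^ n) ∧
      ((j : ℝ) + 1 ≤ b * n → C * ρ ^ n ≤ K * σ ^ j * σ ^ n))
    (p : Par) (s : State d) (P : Measure (ℕ → Inn d))
    (hmeas : ∀ n, Measurable fun ζ : ℕ → Inn d => pth p s ζ n 0)
    (hdr : ∀ n : ℕ, P {ζ | ((pth p s ζ n 0 : ℤ) : ℝ) ≤ s.1 0 + b * n} ≤
      ENNReal.ofReal (C * ρ ^ n)) (j : ℕ) :
    ∫⁻ ζ, (if FF (s.1 0) j (hist p s ζ) then tau (s.1 0 + j + 1) (pth p s ζ) else 0) ∂P ≤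
      ∑' n : ℕ, ENNReal.ofReal (K * σ ^ j * σ ^ n) := by
  have h1ρ : 0 < 1 - ρ := by linarith
  set F : ℕ → Set (ℕ → Inn d) := fun n => {ζ | ((pth p s ζ n 0 : ℤ) : ℝ) ≤ s.1 0 + b * n} with hF
  have hFm : ∀ n, MeasurableSet (F n) := by
    intro n
    have : Measurable fun z : ℤ => (z : ℝ) := measurable_from_top
    exact measurableSet_le (this.comp (hmeas n)) measurable_const
  set E : Set (ℕ → Inn d) := ⋃ k, F (j + k) with hE
  have hEm : MeasurableSet E := MeasurableSet.iUnion fun k => hFm _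
  set G : ℕ → Set (ℕ → Inn d) := fun n => {ζ | pth p s ζ n 0 < s.1 0 + j + 1} with hG
  have hGm : ∀ n, MeasurableSet (G n) := fun n => measurableSet_lt (hmeas n) measurable_const
  have hPE : P E ≤ ENNReal.ofReal (C * ρ ^ j / (1 - ρ)) := by
    calc P E ≤ ∑' k, P (F (j + k)) := measure_iUnion_le _
      _ ≤ ∑' k : ℕ, ENNReal.ofReal (C * ρ ^ (j + k)) := ENNReal.tsum_le_tsum fun k => hdr (j + k)
      _ = ENNReal.ofReal (∑' k : ℕ, C * ρ ^ (j + k)) := by
          rw [ENNReal.ofReal_tsum_of_nonneg]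
          · intro k; positivity
          · have : (fun k : ℕ => C * ρ ^ (j + k)) = fun k : ℕ => (C * ρ ^ j) * ρ ^ k := by
              ext k; rw [pow_add]; ring
            rw [this]
            exact (summable_geometric_of_lt_one hρ0.le hρ1).mul_left _
      _ = ENNReal.ofReal (C * ρ ^ j / (1 - ρ)) := by
          have : (fun k : ℕ => C * ρ ^ (j + k)) = fun k : ℕ => (C * ρ ^ j) * ρ ^ k := by
            ext k; rw [pow_add]; ring
          rw [this, tsum_mul_left, tsum_geometric_of_lt_one hρ0.le hρ1]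
          rfl
  have hPG : ∀ n : ℕ, (j : ℝ) + 1 ≤ b * n → P (G n) ≤ ENNReal.ofReal (C * ρ ^ n) := by
    intro n hn
    refine (measure_mono ?_).trans (hdr n)
    intro ζ hζ
    simp only [hG, mem_setOf_eq] at hζ ⊢
    have : ((pth p s ζ n 0 : ℤ) : ℝ) < ((s.1 0 + j + 1 : ℤ) : ℝ) := by exact_mod_cast hζ
    push_cast at this
    linarith
  have hpt : ∀ ζ : ℕ → Inn d,
      (if FF (s.1 0) j (hist p s ζ) then tau (s.1 0 + j + 1) (pth p s ζ) else 0) ≤
        ∑' n : ℕ, (E ∩ G n).indicator (fun _ => (1 : ℝ≥0∞)) ζ := by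
    intro ζ
    split_ifs with h
    · obtain ⟨k, hk⟩ := FF_sub p s ζ j h
      have hζE : ζ ∈ E := by
        refine mem_iUnion.2 ⟨k, ?_⟩
        simp only [hF, mem_setOf_eq]
        rw [hk]
        have : 0 ≤ b * ((j + k : ℕ) : ℝ) := by positivity
        linarith
      unfold tau
      refine ENNReal.tsum_le_tsum fun n => ?_
      split_ifs with h2
      · have : ζ ∈ E ∩ G n := ⟨hζE, h2 n le_rfl⟩
        rw [indicator_of_mem this]
      · exact bot_le
    · exact bot_le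
  calc ∫⁻ ζ, (if FF (s.1 0) j (hist p s ζ) then tau (s.1 0 + j + 1) (pth p s ζ) else 0) ∂P
      ≤ ∫⁻ ζ, ∑' n : ℕ, (E ∩ G n).indicator (fun _ => (1 : ℝ≥0∞)) ζ ∂P := lintegral_mono hpt
    _ = ∑' n : ℕ, ∫⁻ ζ, (E ∩ G n).indicator (fun _ => (1 : ℝ≥0∞)) ζ ∂P := by
        rw [lintegral_tsum]
        intro n
        exact (measurable_const.indicator (hEm.inter (hGm n))).aemeasurable
    _ = ∑' n : ℕ, P (E ∩ G n) := by
        refine tsum_congr fun n => ?_
        rw [lintegral_indicator_const (hEm.inter (hGm n)), one_mul]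
    _ ≤ ∑' n : ℕ, ENNReal.ofReal (K * σ ^ j * σ ^ n) := by
        refine ENNReal.tsum_le_tsum fun n => ?_
        rcases lt_or_ge (b * (n : ℝ)) ((j : ℝ) + 1) with h | h
        · exact (measure_mono inter_subset_left).trans
            (hPE.trans (ENNReal.ofReal_le_ofReal ((hKσ j n).1 h)))
        · exact (measure_mono inter_subset_right).trans
            ((hPG n h).trans (ENNReal.ofReal_le_ofReal ((hKσ j n).2 h)))

end TailFAux

open TailFAux

theorem tailF : StmMeas → StmDriftC → StmTailF := by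
  intro hM hD d p
  obtain ⟨b, C, ρ, hb, hC, hρ0, hρ1, hdr⟩ := hD d p
  obtain ⟨-, hch, -, -, -, -, -, -, hq, -, -⟩ := hM d p
  obtain ⟨K, σ, hK, hσ0, hσ1, hKσ⟩ := real_bd hb hC hρ0 hρ1
  have h1σ : 0 < 1 - σ := by linarith
  refine ⟨K / (1 - σ) ^ 2, by positivity, ?_⟩
  intro nu hnu x ξ
  have := hq
  have hj : ∀ j : ℕ, tB p nu x ξ (x 0 + j + 1) (FF (x 0) j) ≤
      ∑' n : ℕ, ENNReal.ofReal (K * σ ^ j * σ ^ n) := by
    intro j
    unfold tB
    calc _ ≤ ∫⁻ _ : Edge d → ℝ, (∑' n : ℕ, ENNReal.ofReal (K * σ ^ j * σ ^ n)) ∂(qE d p) := by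
          refine lintegral_mono fun a => ?_
          have := main_bd hb hC hρ0 hρ1 hKσ p (x, glue (x 0) ξ a) (PP p nu) (fun n => by
            have h1 := (hch n).comp (measurable_prodMk_left (x := (x, glue (x 0) ξ a)))
            exact (measurable_pi_apply 0).comp (measurable_fst.comp h1))
            (fun n => hdr nu hnu _ n) j
          exact this
      _ = ∑' n : ℕ, ENNReal.ofReal (K * σ ^ j * σ ^ n) := by
          rw [lintegral_const, measure_univ, mul_one]
  have hs := summable_geometric_of_lt_one hσ0.le hσ1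
  calc ∑' j : ℕ, tB p nu x ξ (x 0 + j + 1) (FF (x 0) j)
      ≤ ∑' j : ℕ, ∑' n : ℕ, ENNReal.ofReal (K * σ ^ j * σ ^ n) := ENNReal.tsum_le_tsum hj
    _ = ∑' j : ℕ, ENNReal.ofReal (K * σ ^ j * (1 - σ)⁻¹) := by
        refine tsum_congr fun j => ?_
        rw [← ENNReal.ofReal_tsum_of_nonneg (fun n => by positivity) (hs.mul_left _),
          tsum_mul_left, tsum_geometric_of_lt_one hσ0.le hσ1]
    _ = ENNReal.ofReal (K / (1 - σ) ^ 2) := by
        have : (fun j : ℕ => K * σ ^ j * (1 - σ)⁻¹) = fun j : ℕ => (K * (1 - σ)⁻¹) * σ ^ j := by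
          ext j; ring
        rw [← ENNReal.ofReal_tsum_of_nonneg (fun n => by positivity)
          (by rw [this]; exact hs.mul_left _), this, tsum_mul_left,
          tsum_geometric_of_lt_one hσ0.le hσ1]
        congr 1
        field_simp
    _ ≤ ENNReal.ofReal (K / (1 - σ) ^ 2) := le_rfl

end Pool.Agent.N276.SC
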