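import Pool.Agent.N276.SC.Stm

/-!
# Project SC (helper276), leaf 23: change of time (by helper373)
-/

set_option autoImplicit false

open MeasureTheory ProbabilityTheory Filter Topology Set
open scoped ENNReal

namespace Pool.Agent.N276.SC

namespace TimeTAux

/-- the partial sums of the gaps -/
noncomputable def ts (g : ℕ → ℝ) (n : ℕ) : ℝ := ∑ i ∈ Finset.range n, g i

theorem ts_strictMono {g : ℕ → ℝ} (hg : ∀ i, 0 < g i) : StrictMono (ts g) := by
  apply strictMono_nat_of_lt_succ
  intro n
  unfold ts
  rw [Finset.sum_range_succ]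
  linarith [hg n]

theorem cnt_ts {g : ℕ → ℝ} (hg : ∀ i, 0 < g i) (n : ℕ) : cnt g (ts g n) = n := by
  have h : {k | ts g n < ∑ i ∈ Finset.range (k + 1), g i} = Set.Ici n := by
    ext k
    have h1 : (ts g n < ts g (k + 1)) ↔ n < k + 1 := (ts_strictMono hg).lt_iff_lt
    rw [Set.mem_setOf_eq, Set.mem_Ici]
    exact h1.trans Nat.lt_succ_iff
  unfold cnt
  rw [h]
  exact csInf_Ici

end TimeTAux

open TimeTAux in
/-- change of time -/
theorem timeT : StmTime := by
  intro y g R v hR hg hlim hy
  have hlim' : Tendsto (fun n : ℕ => ts g n / n) atTop (𝓝 (1 / R)) := hlim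
  have hR' : 0 < 1 / R := by positivity
  -- the partial sums tend to infinity
  have hts : Tendsto (ts g) atTop atTop := by
    have h1 : Tendsto (fun n : ℕ => (ts g n / n) * (n : ℝ)) atTop atTop :=
      hlim'.pos_mul_atTop hR' tendsto_natCast_atTop_atTop
    refine h1.congr' ?_
    filter_upwards [eventually_gt_atTop 0] with n hn
    have : (n : ℝ) ≠ 0 := by positivity
    field_simp
  have h2 : Tendsto (fun n : ℕ => ((y n : ℤ) : ℝ) / ts g n) atTop (𝓝 v) := by
    have h3 := hy.comp hts
    refine h3.congr ?_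
    intro n
    simp only [Function.comp_apply, cnt_ts hg n]
  have h4 := h2.mul hlim'
  have h5 : v * (1 / R) = v / R := by ring
  rw [h5] at h4
  refine h4.congr' ?_
  filter_upwards [eventually_gt_atTop 0] with n hn
  have hn' : (n : ℝ) ≠ 0 := by positivity
  have ht : ts g n ≠ 0 := by
    have h6 : ts g 0 < ts g n := ts_strictMono hg hn
    have h7 : ts g 0 = 0 := by simp [ts]
    rw [h7] at h6
    exact h6.ne'
  field_simp

end Pool.Agent.N276.SC
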